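import Pool.Agent.Star.K4.Glue

/-!
# The threshold of one star from the bound for star systems
-/

set_option autoImplicit false
set_option linter.unusedSectionVars false
set_option linter.unusedVariables false

namespace Pool.Agent.Star.K4

open Finset Rig

/-- `S` is `{K_{1,k}}`-isolating in `G`: in `G - N[S]` every vertex has fewer than `k`
neighbours. -/
def Isolating (k : ℕ) {n : ℕ} (G : SimpleGraph (Fin n)) (S : Finset (Fin n)) : Prop :=
  ∀ v : Fin n, (v ∉ S ∧ ∀ s ∈ S, ¬ G.Adj s v) →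
    {w : Fin n | G.Adj v w ∧ w ∉ S ∧ ∀ s ∈ S, ¬ G.Adj s w}.ncard < k

/-- The isolation number `ι(G, K_{1,k})`. -/
noncomputable def iota (k : ℕ) {n : ℕ} (G : SimpleGraph (Fin n)) : ℕ :=
  sInf {m | ∃ S : Finset (Fin n), Isolating k G S ∧ S.card = m}

/-- `α` is a threshold for `{K_{1,k}}`. -/
def IsThreshold (k : ℕ) (α : ℝ) : Prop :=
  0 < α ∧
  {p : Σ n : ℕ, SimpleGraph (Fin n) | p.2.Connected ∧ ⌊α * p.1⌋₊ < iota k p.2}.Finite ∧
  {p : Σ n : ℕ, SimpleGraph (Fin n) | p.2.Connected ∧ iota k p.2 = ⌊α * p.1⌋₊}.Infinite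

lemma iota_le {k n : ℕ} {G : SimpleGraph (Fin n)} {S : Finset (Fin n)} (h : Isolating k G S) :
    iota k G ≤ S.card := Nat.sInf_le ⟨S, h, rfl⟩

lemma le_iota {k n : ℕ} {G : SimpleGraph (Fin n)} {m : ℕ}
    (h : ∀ S : Finset (Fin n), Isolating k G S → m ≤ S.card) : m ≤ iota k G := by
  have hne : {m | ∃ S : Finset (Fin n), Isolating k G S ∧ S.card = m}.Nonempty :=
    ⟨_, Finset.univ, fun v hv => absurd (Finset.mem_univ v) hv.1, rfl⟩
  obtain ⟨S, hS, hc⟩ := Nat.sInf_mem hne
  unfold iota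
  rw [← hc]
  exact h S hS

/-- The bound for all connected graphs on `n` vertices. -/
lemma bound_at {k n : ℕ} (hk : 2 ≤ k) (H : EV (Fin n) (k + 1))
    (G : SimpleGraph (Fin n)) (hG : G.Connected) :
    (2 * k + 3) * iota k G ≤ 2 * n ∨ (n = k + 1 ∧ iota k G = 1) ∨
      (n = 2 * k + 2 ∧ iota k G = 2) := by
  have hs : ∀ x, x ∈ cnb G x := fun x => mem_cnb.2 (Or.inl rfl)
  have hsym : ∀ x y, x ∈ cnb G y → y ∈ cnb G x := by
    intro x y hxy
    rcases mem_cnb.1 hxy with h | h
    · exact mem_cnb.2 (Or.inl h.symm)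
    · exact mem_cnb.2 (Or.inr h.symm)
  have hcard : (Finset.univ : Finset (Fin n)).card = n := by simp
  have h1 : iota k G ≤ gk (cnb G) Finset.univ (stars (cnb G) (k + 1) Finset.univ) := by
    obtain ⟨D, hD, hDc⟩ := exists_iso (N := cnb G) (K := k + 1) hs (Finset.univ : Finset (Fin n))
    have h2 : iota k G ≤ D.card := iota_le (isol_of_iso hD)
    have h3 := f_le_gk (N := cnb G) (K := k + 1) (A := Finset.univ) hs (by omega)
    omega
  have h2 : k + 1 = k + 1 := rfl
  rcases H (cnb G) hs hsym Finset.univ (stars (cnb G) (k + 1) Finset.univ) stars_sys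
    (conn_univ hG) with h | ⟨h, h'⟩ | ⟨h, h'⟩
  · left
    rw [hcard] at h
    have := Nat.mul_le_mul_left (2 * k + 3) h1
    have e : 2 * (k + 1) + 1 = 2 * k + 3 := by ring
    rw [e] at h
    exact this.trans h
  · rw [hcard] at h
    rw [h'] at h1
    rcases Nat.eq_zero_or_pos (iota k G) with h0 | h0
    · left; rw [h0]; omega
    · right; left; exact ⟨h, by omega⟩
  · rw [hcard] at h
    rw [h'] at h1
    rcases Nat.lt_or_ge (iota k G) 2 with h0 | h0
    · left
      have : (2 * k + 3) * iota k G ≤ (2 * k + 3) * 1 := Nat.mul_le_mul_left _ (by omega)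
      omega
    · right; right; exact ⟨by omega, by omega⟩

/-- The bound for all connected graphs. -/
lemma bound_of_EV {k : ℕ} (hk : 2 ≤ k) (H : ∀ n : ℕ, EV (Fin n) (k + 1)) (n : ℕ)
    (G : SimpleGraph (Fin n)) (hG : G.Connected) :
    (2 * k + 3) * iota k G ≤ 2 * n ∨ (n = k + 1 ∧ iota k G = 1) ∨
      (n = 2 * k + 2 ∧ iota k G = 2) := bound_at hk (H n) G hG

/-- Only finitely many graphs on at most `B` vertices. -/
lemma finite_small (B : ℕ) : {p : Σ n : ℕ, SimpleGraph (Fin n) | p.1 < B}.Finite := by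
  have hfin : (Set.range (fun q : Σ m : Fin B, SimpleGraph (Fin m) =>
      (⟨q.1, q.2⟩ : Σ n : ℕ, SimpleGraph (Fin n)))).Finite := Set.finite_range _
  refine hfin.subset ?_
  rintro ⟨n, G⟩ hn
  exact ⟨⟨⟨n, hn⟩, G⟩, rfl⟩

/-- **The threshold** from the bound for star systems. -/
theorem threshold_of_EV {k : ℕ} (hk : 2 ≤ k) (H : ∀ n : ℕ, EV (Fin n) (k + 1)) :
    (∀ (n : ℕ) (G : SimpleGraph (Fin n)), G.Connected →
      (2 * k + 3) * iota k G ≤ 2 * n ∨ (n = k + 1 ∧ iota k G = 1) ∨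
      (n = 2 * k + 2 ∧ iota k G = 2)) ∧
    ∀ α : ℝ, IsThreshold k α ↔ α = 2 / (2 * k + 3) := by
  have hb := bound_of_EV hk H
  refine ⟨hb, ?_⟩
  have hc : (0 : ℝ) < 2 * k + 3 := by positivity
  -- the extremal graphs
  have hext : ∀ B : ℕ, ∃ p : Σ n : ℕ, SimpleGraph (Fin n), B ≤ p.1 ∧ p.2.Connected ∧
      iota k p.2 = 2 * p.1 / (2 * k + 3) := by
    intro B
    obtain ⟨n, hn, G, hG, ⟨S, hSc, hS⟩, hlow⟩ := construction k hk B
    refine ⟨⟨n, G⟩, hn, hG, ?_⟩
    apply le_antisymm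
    · exact hSc ▸ iota_le hS
    · exact le_iota hlow
  have hfl : ∀ n : ℕ, ⌊(2 / (2 * k + 3) : ℝ) * n⌋₊ = 2 * n / (2 * k + 3) := by
    intro n
    have e : (2 / (2 * k + 3) : ℝ) * n = ((2 * n : ℕ) : ℝ) / ((2 * k + 3 : ℕ) : ℝ) := by
      push_cast
      ring
    rw [e, Nat.floor_div_eq_div]
  intro α
  constructor
  · rintro ⟨hα, hfin, hinf⟩
    rcases lt_trichotomy α (2 / (2 * k + 3)) with h | h | h
    · exfalso
      -- infinitely many graphs above `α`
      have hd : 0 < 2 / (2 * k + 3) - α := by linarith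
      obtain ⟨B, hB⟩ := exists_nat_gt (1 / (2 / (2 * k + 3) - α))
      have hinf2 : {p : Σ n : ℕ, SimpleGraph (Fin n) | p.2.Connected ∧
          ⌊α * p.1⌋₊ < iota k p.2}.Infinite := by
        intro hf
        -- bounded number of vertices
        obtain ⟨M, hM⟩ : ∃ M : ℕ, ∀ p ∈ {p : Σ n : ℕ, SimpleGraph (Fin n) | p.2.Connected ∧
            ⌊α * p.1⌋₊ < iota k p.2}, p.1 ≤ M := by
          obtain ⟨M, hM⟩ := (hf.image (fun p => p.1)).bddAbove
          exact ⟨M, fun p hp => hM ⟨p, hp, rfl⟩⟩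
        obtain ⟨⟨n, G⟩, hn, hG, hi⟩ := hext (max B (M + 1))
        have hnB : B ≤ n := (le_max_left _ _).trans hn
        have hnM : M + 1 ≤ n := (le_max_right _ _).trans hn
        have hmem : (⟨n, G⟩ : Σ n : ℕ, SimpleGraph (Fin n)) ∈
            {p : Σ n : ℕ, SimpleGraph (Fin n) | p.2.Connected ∧ ⌊α * p.1⌋₊ < iota k p.2} := by
          refine ⟨hG, ?_⟩
          simp only at hi ⊢
          rw [hi, ← hfl n]
          have h1 : (1 / (2 / (2 * k + 3) - α)) < n := hB.trans_le (by exact_mod_cast hnB)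
          rw [div_lt_iff₀ hd] at h1
          have h2 : α * n + 1 ≤ 2 / (2 * k + 3) * n := by nlinarith
          have h3 : ⌊α * n⌋₊ + 1 ≤ ⌊(2 / (2 * k + 3) : ℝ) * n⌋₊ := by
            apply Nat.le_floor
            push_cast
            have := Nat.floor_le (a := α * n) (by positivity)
            linarith
          omega
        have := hM _ hmem
        simp only at this
        omega
      exact hinf2 hfin
    · exact h
    · exfalso
      have hd : 0 < α - 2 / (2 * k + 3) := by linarith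
      obtain ⟨B, hB⟩ := exists_nat_gt (1 / (α - 2 / (2 * k + 3)))
      apply hinf
      apply (finite_small (max B (2 * k + 3))).subset
      rintro ⟨n, G⟩ ⟨hG, hi⟩
      by_contra hge
      simp only [Set.mem_setOf_eq, not_lt] at hge hi
      have hnB : B ≤ n := (le_max_left _ _).trans hge
      have hnk : 2 * k + 3 ≤ n := (le_max_right _ _).trans hge
      have h0 : (2 * k + 3) * iota k G ≤ 2 * n := by
        rcases hb n G hG with h | ⟨h, -⟩ | ⟨h, -⟩
        · exact h
        · omega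
        · omega
      have h1 : ((2 * k + 3 : ℕ) : ℝ) * (iota k G : ℝ) ≤ ((2 : ℕ) : ℝ) * n := by exact_mod_cast h0
      push_cast at h1
      have h2 : (iota k G : ℝ) ≤ 2 / (2 * k + 3) * n := by
        rw [div_mul_eq_mul_div, le_div_iff₀ hc]
        linarith
      have h3 : α * n < ⌊α * n⌋₊ + 1 := Nat.lt_floor_add_one _
      rw [hi] at h2
      have h4 : (1 / (α - 2 / (2 * k + 3))) < n := hB.trans_le (by exact_mod_cast hnB)
      rw [div_lt_iff₀ hd] at h4
      nlinarith
  · rintro rfl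
    refine ⟨by positivity, ?_, ?_⟩
    · apply (finite_small (2 * k + 3)).subset
      rintro ⟨n, G⟩ ⟨hG, hi⟩
      by_contra hge
      simp only [Set.mem_setOf_eq, not_lt] at hge hi
      rw [hfl n] at hi
      have h0 : (2 * k + 3) * iota k G ≤ 2 * n := by
        rcases hb n G hG with h | ⟨h, -⟩ | ⟨h, -⟩
        · exact h
        · omega
        · omega
      have h1 : iota k G ≤ 2 * n / (2 * k + 3) := by
        rw [Nat.le_div_iff_mul_le (by omega), Nat.mul_comm]
        exact h0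
      omega
    · intro hf
      obtain ⟨M, hM⟩ := (hf.image (fun p => p.1)).bddAbove
      obtain ⟨⟨n, G⟩, hn, hG, hi⟩ := hext (M + 1)
      have hmem : (⟨n, G⟩ : Σ n : ℕ, SimpleGraph (Fin n)) ∈
          {p : Σ n : ℕ, SimpleGraph (Fin n) | p.2.Connected ∧
            iota k p.2 = ⌊(2 / (2 * k + 3) : ℝ) * p.1⌋₊} := by
        refine ⟨hG, ?_⟩
        simp only at hi ⊢
        rw [hi, hfl n]
      have := hM ⟨_, hmem, rfl⟩
      simp only at this hn
      omega

end Pool.Agent.Star.K4
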