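import Pool.Agent.Star.K4.VS0

/-!
# `K = 4`: the setting

All star sets (with four elements) of a connected graph on a finite type.  `fv N U` is the minimal
number of vertices of `U` whose closed neighbourhoods meet all star sets inside `U`.
-/

set_option autoImplicit false
set_option linter.unusedSectionVars false
set_option linter.unusedVariables false

namespace Pool.Agent.Star.K4

open Finset Rig

/-- The value of a set: all star sets with four elements. -/
noncomputable def fv {V : Type*} [DecidableEq V] (N : V → Finset V) (U : Finset V) : ℕ :=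
  gk N U (stars N 4 U)

/-- A violator for `K = 4`: all vertices of the type, all star sets. -/
structure VS {V : Type*} [DecidableEq V] [Fintype V] (N : V → Finset V) : Prop where
  refl : ∀ x, x ∈ N x
  symm : ∀ x y, x ∈ N y → y ∈ N x
  conn : Conn N univ
  small : ∀ U : Finset V, U ≠ univ → Conn N U → 9 * fv N U ≤ 2 * U.card ∨
    (U.card = 4 ∧ fv N U = 1) ∨ (U.card = 8 ∧ fv N U = 2)
  ex : 9 * fv N univ = 2 * Fintype.card V + 1
  five : 5 ≤ fv N univ

section transport
variable {V : Type*} [DecidableEq V] {N : V → Finset V} {A : Finset V}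

/-- The closed neighbourhoods in the subtype. -/
def sN (N : V → Finset V) (A : Finset V) (x : {x // x ∈ A}) : Finset {x // x ∈ A} :=
  univ.filter (fun y => (y : V) ∈ N x)

/-- The image of a set. -/
def up (U : Finset {x // x ∈ A}) : Finset V := U.map (Function.Embedding.subtype _)

lemma mem_up {U : Finset {x // x ∈ A}} {v : V} : v ∈ up U ↔ ∃ h : v ∈ A, (⟨v, h⟩ : {x // x ∈ A}) ∈ U := by
  unfold up
  rw [Finset.mem_map]
  constructor
  · rintro ⟨x, hx, rfl⟩
    exact ⟨x.2, hx⟩
  · rintro ⟨h, hx⟩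
    exact ⟨_, hx, rfl⟩

lemma up_mem {U : Finset {x // x ∈ A}} {x : {x // x ∈ A}} : (x : V) ∈ up U ↔ x ∈ U := by
  rw [mem_up]
  exact ⟨fun ⟨_, h⟩ => h, fun h => ⟨x.2, h⟩⟩

lemma up_card (U : Finset {x // x ∈ A}) : (up U).card = U.card := Finset.card_map _

lemma up_sub (U : Finset {x // x ∈ A}) : up U ⊆ A := fun v hv => (mem_up.1 hv).1

lemma mem_sN {x y : {x // x ∈ A}} : y ∈ sN N A x ↔ (y : V) ∈ N x := by simp [sN]

lemma up_mono {U W : Finset {x // x ∈ A}} : up U ⊆ up W ↔ U ⊆ W := by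
  unfold up
  exact Finset.map_subset_map

lemma up_univ : up (univ : Finset {x // x ∈ A}) = A := by
  ext v
  rw [mem_up]
  exact ⟨fun ⟨h, _⟩ => h, fun h => ⟨h, Finset.mem_univ _⟩⟩

/-- Every subset of `A` comes from the subtype. -/
lemma exists_up {B : Finset V} (hB : B ⊆ A) : ∃ U : Finset {x // x ∈ A}, up U = B := by
  refine ⟨univ.filter (fun x => (x : V) ∈ B), ?_⟩
  ext v
  rw [mem_up]
  constructor
  · rintro ⟨h, hx⟩
    exact (Finset.mem_filter.1 hx).2
  · intro hv
    exact ⟨hB hv, Finset.mem_filter.2 ⟨Finset.mem_univ _, hv⟩⟩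

lemma conn_up {U : Finset {x // x ∈ A}} : Conn (sN N A) U ↔ Conn N (up U) := by
  constructor
  · rintro ⟨⟨x, hx⟩, h⟩
    refine ⟨⟨x, up_mem.2 hx⟩, ?_⟩
    intro B hB hBne hBU
    obtain ⟨B', rfl⟩ := exists_up (A := A) (hB.trans (up_sub U))
    obtain ⟨b, hb⟩ := hBne
    obtain ⟨x, hx, y, hy, hyB, hyx⟩ := h B' (up_mono.1 hB) (by
      obtain ⟨h1, h2⟩ := mem_up.1 hb
      exact ⟨_, h2⟩) (by rintro rfl; exact hBU rfl)
    exact ⟨x, up_mem.2 hx, y, up_mem.2 hy, fun h => hyB (up_mem.1 h), mem_sN.1 hyx⟩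
  · rintro ⟨⟨x, hx⟩, h⟩
    obtain ⟨h1, h2⟩ := mem_up.1 hx
    refine ⟨⟨_, h2⟩, ?_⟩
    intro B hB hBne hBU
    obtain ⟨b, hb⟩ := hBne
    obtain ⟨x, hx, y, hy, hyB, hyx⟩ := h (up B) (up_mono.2 hB) ⟨b, up_mem.2 hb⟩ (by
      intro hh
      apply hBU
      apply Finset.Subset.antisymm hB
      rw [← up_mono, hh])
    obtain ⟨h3, h4⟩ := mem_up.1 hx
    obtain ⟨h5, h6⟩ := mem_up.1 hy
    exact ⟨_, h4, _, h6, fun h => hyB (mem_up.2 ⟨h5, h⟩), mem_sN.2 hyx⟩

lemma stars_up {U S : Finset {x // x ∈ A}} :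
    S ∈ stars (sN N A) 4 U ↔ up S ∈ stars N 4 (up U) := by
  rw [mem_stars, mem_stars, up_mono, up_card]
  apply and_congr_right; intro _
  apply and_congr_right; intro _
  constructor
  · rintro ⟨c, hc, hcN⟩
    exact ⟨c, up_mem.2 hc, fun x hx => by
      obtain ⟨h1, h2⟩ := mem_up.1 hx
      exact mem_sN.1 (hcN h2)⟩
  · rintro ⟨c, hc, hcN⟩
    obtain ⟨h1, h2⟩ := mem_up.1 hc
    exact ⟨_, h2, fun x hx => mem_sN.2 (hcN (up_mem.2 hx))⟩

lemma hit_up {D S : Finset {x // x ∈ A}} : Hit (sN N A) D S ↔ Hit N (up D) (up S) := by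
  constructor
  · rintro ⟨d, hd, x, hx, hxd⟩
    exact ⟨d, up_mem.2 hd, x, up_mem.2 hx, mem_sN.1 hxd⟩
  · rintro ⟨d, hd, x, hx, hxd⟩
    obtain ⟨h1, h2⟩ := mem_up.1 hd
    obtain ⟨h3, h4⟩ := mem_up.1 hx
    exact ⟨_, h2, _, h4, mem_sN.2 hxd⟩

lemma kills_up {D U : Finset {x // x ∈ A}} :
    Kills (sN N A) D (stars (sN N A) 4 U) ↔ Kills N (up D) (stars N 4 (up U)) := by
  constructor
  · intro h S hS
    obtain ⟨S', rfl⟩ := exists_up (A := A) ((mem_stars.1 hS).1.trans (up_sub U))
    exact hit_up.1 (h S' (stars_up.2 hS))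
  · intro h S hS
    exact hit_up.2 (h _ (stars_up.1 hS))

lemma fv_up (hs : ∀ x, x ∈ N x) (U : Finset {x // x ∈ A}) : fv (sN N A) U = fv N (up U) := by
  have hs' : ∀ x, x ∈ sN N A x := fun x => mem_sN.2 (hs _)
  apply le_antisymm
  · obtain ⟨D, h1, h2, h3⟩ := exists_gk (N := N) hs (A := up U) (C := stars N 4 (up U))
      stars_sys.sub (fun S hS => stars_sys.nonempty hS)
    obtain ⟨D', rfl⟩ := exists_up (A := A) (h1.trans (up_sub U))
    unfold fv
    rw [← h3, up_card]
    exact gk_le (up_mono.1 h1) (kills_up.2 h2)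
  · obtain ⟨D, h1, h2, h3⟩ := exists_gk (N := sN N A) hs' (A := U) (C := stars (sN N A) 4 U)
      stars_sys.sub (fun S hS => stars_sys.nonempty hS)
    unfold fv
    rw [← h3, ← up_card D]
    exact gk_le (up_mono.2 h1) (kills_up.1 h2)

/-- From a smallest violator to the setting of this folder. -/
theorem VS.of_viol {C : Finset (Finset V)} (h : Viol N 4 A C)
    (hex : 9 * gk N A C = 2 * A.card + 1) (h5 : 5 ≤ gk N A C) : VS (sN N A) := by
  have hCs : C ⊆ stars N 4 A := fun S hS => mem_stars.2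
    ⟨h.sys.sub S hS, h.sys.card S hS, h.sys.cen S hS⟩
  have hle : gk N A C ≤ gk N A (stars N 4 A) :=
    gk_mono h.refl stars_sys.sub (fun S hS => stars_sys.nonempty hS) hCs
  have hbad : ¬ Bd N 4 A (stars N 4 A) := by
    rintro (h1 | ⟨h1, h2⟩ | ⟨h1, h2⟩)
    · omega
    · omega
    · omega
  have hexact := Rig.exact h.refl h.symm h.two stars_sys h.conn (fun A' hA' C' _ h1 h2 =>
    h.small N h.refl h.symm A' C' (Finset.card_lt_card hA') h1 h2) hbad (by omega)
  refine ⟨fun x => mem_sN.2 (h.refl _), fun x y hxy => mem_sN.2 (h.symm _ _ (mem_sN.1 hxy)), ?_,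
    ?_, ?_, ?_⟩
  · rw [conn_up, up_univ]; exact h.conn
  · intro U hU hUc
    have h1 : up U ⊂ A := by
      refine Finset.ssubset_iff_subset_ne.2 ⟨up_sub U, ?_⟩
      intro hh
      apply hU
      apply Finset.Subset.antisymm (Finset.subset_univ _)
      rw [← up_mono, hh]
      exact up_sub _
    have h2 := h.small N h.refl h.symm (up U) (stars N 4 (up U)) (Finset.card_lt_card h1)
      stars_sys (conn_up.1 hUc)
    have h3 := fv_up h.refl U
    unfold Bd Typ at h2
    unfold fv at h3 ⊢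
    rw [up_card] at h2
    rw [h3]
    exact h2
  · rw [fv_up h.refl, up_univ, Fintype.card_coe]
    exact hexact.1
  · rw [fv_up h.refl, up_univ]
    exact hexact.2

end transport

section
variable {V : Type*} [DecidableEq V] [Fintype V] {N : V → Finset V}

/-- A cubic vertex. -/
def Cub (N : V → Finset V) (c : V) : Prop := (N c).card = 4

/-- `D` hits all cubic stars inside `U`. -/
def KI (N : V → Finset V) (D U : Finset V) : Prop :=
  ∀ c, Cub N c → N c ⊆ U → ∃ d ∈ D, ∃ x ∈ N c, x ∈ N d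

/-- The defect of a set, `2|U| - 9 f(U)` (zero for the exceptional sets). -/
noncomputable def mu (N : V → Finset V) (U : Finset V) : ℕ := 2 * U.card - 9 * fv N U

/-- The exceptional sets with four vertices. -/
def ExA (N : V → Finset V) (U : Finset V) : Prop := U.card = 4 ∧ fv N U = 1

/-- All degrees at most three. -/
structure VC (N : V → Finset V) : Prop extends VS N where
  deg : ∀ x, (N x).card ≤ 4

lemma VS.big (h : VS N) : 22 ≤ Fintype.card V := by
  have h1 := h.ex
  have h2 := h.five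
  omega

/-- A violator in the sense of `VS0`. -/
lemma VS.vs0 (h : VS N) : VS0 N 4 univ (stars N 4 univ) :=
  ⟨h.refl, h.symm, by omega, stars_sys, h.conn, by
    intro A' hA' C' hC' hS hA
    have hC'' : C' ⊆ stars N 4 A' := fun S hS' => mem_stars.2
      ⟨hS.sub S hS', hS.card S hS', hS.cen S hS'⟩
    have hle : gk N A' C' ≤ fv N A' :=
      gk_mono h.refl stars_sys.sub (fun S hS => stars_sys.nonempty hS) hC''
    have h1 := h.small A' hA'.ne hA
    unfold Bd Typ
    have h2 : 0 < A'.card := Finset.card_pos.2 hA.1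
    rcases h1 with h1 | ⟨h1, h3⟩ | ⟨h1, h3⟩
    · left; omega
    · rcases Nat.lt_or_ge (gk N A' C') 1 with h4 | h4
      · left; omega
      · right; left; omega
    · rcases Nat.lt_or_ge (gk N A' C') 2 with h4 | h4
      · left; omega
      · right; right; omega⟩

end

end Pool.Agent.Star.K4
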