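import Pool.Agent.Star.K4.Spec

/-!
# `K = 4`, module M10: no cycle with four vertices
-/

set_option autoImplicit false
set_option linter.unusedSectionVars false
set_option linter.unusedVariables false

namespace Pool.Agent.Star.K4

open Finset Rig

namespace Ten

section
variable {V : Type*} [DecidableEq V] [Fintype V] {N : V → Finset V}

/-- The fourth element of a set with four elements. -/
lemma fourth {S : Finset V} (hS : S.card = 4) {x y z : V} (hx : x ∈ S) (hy : y ∈ S) (hz : z ∈ S)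
    (hxy : x ≠ y) (hxz : x ≠ z) (hyz : y ≠ z) :
    ∃ o, o ≠ x ∧ o ≠ y ∧ o ≠ z ∧ S = {x, y, z, o} := by
  have h3 : ({x, y, z} : Finset V).card = 3 := by
    rw [Finset.card_insert_of_notMem (by simp [hxy, hxz]), Finset.card_pair hyz]
  have hsub : ({x, y, z} : Finset V) ⊆ S := by
    intro w hw
    simp only [Finset.mem_insert, Finset.mem_singleton] at hw
    rcases hw with rfl | rfl | rfl <;> assumption
  have h1 : (S \ {x, y, z}).card = 1 := by
    have := Finset.card_sdiff_add_card_eq_card hsub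
    omega
  obtain ⟨o, ho⟩ := Finset.card_eq_one.1 h1
  have hoS : o ∈ S \ {x, y, z} := by rw [ho]; exact Finset.mem_singleton_self o
  rw [Finset.mem_sdiff] at hoS
  have hoS2 := hoS.2
  simp only [Finset.mem_insert, Finset.mem_singleton, not_or] at hoS2
  refine ⟨o, hoS2.1, hoS2.2.1, hoS2.2.2, ?_⟩
  ext w
  constructor
  · intro hw
    by_cases h : w ∈ ({x, y, z} : Finset V)
    · simp only [Finset.mem_insert, Finset.mem_singleton] at h ⊢
      tauto
    · have h2 : w ∈ S \ {x, y, z} := Finset.mem_sdiff.2 ⟨hw, h⟩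
      rw [ho, Finset.mem_singleton] at h2
      simp [h2]
  · intro hw
    simp only [Finset.mem_insert, Finset.mem_singleton] at hw
    rcases hw with rfl | rfl | rfl | rfl
    · exact hx
    · exact hy
    · exact hz
    · exact hoS.1

/-- The neighbours of `z` which touch `N t`. -/
def T (N : V → Finset V) (z t : V) : Finset V :=
  ((N z).erase z).filter (fun e => (N e ∩ N t).Nonempty)

lemma mem_T {z t e : V} : e ∈ T N z t ↔ e ≠ z ∧ e ∈ N z ∧ Tch N e (N t) := by
  unfold T Tch
  rw [Finset.mem_filter, Finset.mem_erase, and_assoc]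
  apply and_congr_right; intro _
  apply and_congr_right; intro _
  constructor
  · rintro ⟨x, hx⟩
    rw [Finset.mem_inter] at hx
    exact ⟨x, hx.2, hx.1⟩
  · rintro ⟨x, h1, h2⟩
    exact ⟨x, Finset.mem_inter.2 ⟨h2, h1⟩⟩

lemma ne_univ {F Y : Finset V} {P : Finset (Finset V)} (h : Cfg N F Y P) {U : Finset V}
    (hU : U ∈ P) : U ≠ univ := by
  rintro rfl
  obtain ⟨x, hx⟩ := h.ne
  exact (Finset.mem_sdiff.1 ((h.comps.cl _ hU).1 (Finset.mem_univ x))).2 hx

lemma sav (c : Cb N) {F Y : Finset V} {P : Finset (Finset V)} (h : Cfg N F Y P) {U : Finset V}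
    (hU : U ∈ P) (hmu : mu N U = 0) {e : V} (he : Tch N e U) : Sav N U e :=
  c.tight U (ne_univ h hU) (h.comps.conn U hU) hmu e he

/-- The last step, on one side. -/
lemma side (c : Cb N) (h3 : No3 N) {z1 z2 v t : V} {F : Finset V} {P : Finset (Finset V)}
    (hcfg : Cfg N F {z1, z2} P) (hF : ∀ x, x ∈ F ↔ x = v ∨ x ∈ N z1 ∨ x ∈ N z2)
    (hfv : fv N univ = 2 + ∑ U ∈ P, fv N U) (hmu : ∀ U ∈ P, mu N U = 0)
    (hsep : ∀ e, ∀ U ∈ P, ∀ U' ∈ P, Sav N U e → Sav N U' e → U = U')
    (hvN : N v ⊆ F) (hv2 : ∃ x ∈ N v, x ∈ N z2) (htP : N t ∈ P)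
    (hT : (T N z1 t).card = 2) : False := by
  have hclt := hcfg.comps.cl _ htP
  have hTn : (T N z1 t).Nonempty := Finset.card_pos.1 (by omega)
  obtain ⟨w, hw⟩ := hTn
  obtain ⟨hw1, hw2, hw3⟩ := mem_T.1 hw
  refine c.swap z1 z2 w t F P (c.reg z1) (c.reg z2) hcfg hfv ?_ (c.reg t) htP
    (fun U hU _ => by rw [hmu U hU]; omega) ?_ hw2 hw1 hw3 ?_
  · intro c' hc' _ hn
    rcases (hF c').1 hc' with rfl | h | h
    · exact hv2
    · exact absurd h hn
    · exact ⟨c', c.refl c', h⟩
  · intro U hU hUt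
    have hR : (((N z1).erase z1) \ T N z1 t).card ≤ 1 := by
      have h1 : T N z1 t ⊆ (N z1).erase z1 := Finset.filter_subset _ _
      have h2 := Finset.card_sdiff_add_card_eq_card h1
      have h4 : ((N z1).erase z1).card + 1 = (N z1).card :=
        Finset.card_erase_add_one (c.refl z1)
      have h5 : (N z1).card = 4 := c.reg z1
      omega
    have hmem : ∀ e ∈ N z1, e ≠ z1 → Tch N e U → e ∈ ((N z1).erase z1) \ T N z1 t := by
      intro e he hne hte
      refine Finset.mem_sdiff.2 ⟨Finset.mem_erase.2 ⟨hne, he⟩, ?_⟩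
      intro hh
      exact hUt (hsep e U hU (N t) htP (sav c hcfg hU (hmu U hU) hte)
        (sav c hcfg htP (hmu _ htP) (mem_T.1 hh).2.2))
    rcases (((N z1).erase z1) \ T N z1 t).eq_empty_or_nonempty with h0 | ⟨g, hg⟩
    · refine ⟨z1, fun e he hne hte => ?_⟩
      have := hmem e he hne hte
      rw [h0] at this
      exact absurd this (Finset.notMem_empty e)
    · exact ⟨g, fun e he hne hte => Finset.card_le_one.1 hR e (hmem e he hne hte) g hg⟩
  · intro l hl _
    by_cases hlt : l = t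
    · subst hlt
      obtain ⟨x, hx, hxw⟩ := hw3
      exact Or.inl ⟨x, hx, hxw⟩
    · by_cases hz2 : ∃ x ∈ N l, x ∈ N z2
      · exact Or.inr hz2
      · left
        have hlF : l ∉ F := (Finset.mem_sdiff.1 (hclt.1 hl)).2
        have htl : t ∈ N l := c.symm _ _ hl
        have hsub : ((N l).erase l).erase t ⊆ T N z1 t := by
          intro x hx
          rw [Finset.mem_erase, Finset.mem_erase] at hx
          obtain ⟨hxt, hxl, hxN⟩ := hx
          have hxF : x ∈ F := by
            by_contra hxF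
            have h1 := hclt.2 l hl x (Finset.mem_sdiff.2 ⟨Finset.mem_univ x, hxF⟩) hxN
            exact h3 t l x (Ne.symm hlt) (Ne.symm hxl) (Ne.symm hxt) hl hxN h1
          have hlx : l ∈ N x := c.symm _ _ hxN
          rcases (hF x).1 hxF with rfl | h | h
          · exact absurd (hvN hlx) hlF
          · refine mem_T.2 ⟨?_, h, l, hl, hlx⟩
            rintro rfl
            exact hlF ((hF l).2 (Or.inr (Or.inl hlx)))
          · exact absurd ⟨x, hxN, h⟩ hz2
        have hc1 : (((N l).erase l).erase t).card = 2 := by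
          have h1 : ((N l).erase l).card + 1 = (N l).card := Finset.card_erase_add_one (c.refl l)
          have h2 : (((N l).erase l).erase t).card + 1 = ((N l).erase l).card :=
            Finset.card_erase_add_one (Finset.mem_erase.2 ⟨Ne.symm hlt, htl⟩)
          have h4 : (N l).card = 4 := c.reg l
          omega
        have heq := Finset.eq_of_subset_of_card_le hsub (by omega)
        rw [← heq] at hw
        exact ⟨w, (Finset.mem_erase.1 (Finset.mem_erase.1 hw).2).2, c.refl w⟩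

/-- Both sides touch every component. -/
lemma tside (c : Cb N) {z1 z2 v : V} {F Y : Finset V} {P : Finset (Finset V)}
    (hcfg : Cfg N F Y P) (hF : ∀ x, x ∈ F ↔ x = v ∨ x ∈ N z1 ∨ x ∈ N z2)
    (hd : Disjoint (N z1) (N z2)) (hvN : N v ⊆ F) {U : Finset V} (hU : U ∈ P) :
    ∃ e ∈ N z2, e ≠ z2 ∧ Tch N e U := by
  have hcl := hcfg.comps.cl _ hU
  have hUF : ∀ x ∈ U, x ∉ F := fun x hx => (Finset.mem_sdiff.1 (hcl.1 hx)).2
  have hsub : U ⊆ univ \ N z1 := fun x hx => Finset.mem_sdiff.2 ⟨Finset.mem_univ x, fun h =>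
    hUF x hx ((hF x).2 (Or.inr (Or.inl h)))⟩
  have hne : U ≠ univ \ N z1 := by
    intro h
    have h1 : z2 ∈ univ \ N z1 := Finset.mem_sdiff.2 ⟨Finset.mem_univ _,
      Finset.disjoint_right.1 hd (c.refl z2)⟩
    rw [← h] at h1
    exact hUF z2 h1 ((hF z2).2 (Or.inr (Or.inr (c.refl z2))))
  obtain ⟨x, hx, y, hy, hyU, hyx⟩ := (c.a1c z1 (c.reg z1)).2 U hsub (hcfg.comps.conn U hU).1 hne
  have hxy : x ∈ N y := c.symm _ _ hyx
  have hyF : y ∈ F := by
    by_contra hyF
    exact hyU (hcl.2 x hx y (Finset.mem_sdiff.2 ⟨Finset.mem_univ y, hyF⟩) hyx)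
  rcases (hF y).1 hyF with rfl | h | h
  · exact absurd (hvN hxy) (hUF x hx)
  · exact absurd h (Finset.mem_sdiff.1 hy).2
  · refine ⟨y, h, ?_, x, hx, hxy⟩
    rintro rfl
    exact hUF x hx ((hF x).2 (Or.inr (Or.inr hxy)))

/-- Six edges leave an exceptional component. -/
lemma six (c : Cb N) (h3 : No3 N) {z1 z2 v t : V} {F Y : Finset V} {P : Finset (Finset V)}
    (hcfg : Cfg N F Y P) (hF : ∀ x, x ∈ F ↔ x = v ∨ x ∈ N z1 ∨ x ∈ N z2)
    (hvN : N v ⊆ F) (htP : N t ∈ P) :
    ∑ e ∈ ((N z1).erase z1 ∪ (N z2).erase z2), (N e ∩ N t).card = 6 := by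
  have hclt := hcfg.comps.cl _ htP
  have htF : ∀ x ∈ N t, x ∉ F := fun x hx => (Finset.mem_sdiff.1 (hclt.1 hx)).2
  set M := (N z1).erase z1 ∪ (N z2).erase z2 with hM
  have hMF : ∀ e ∈ M, e ∈ F := by
    intro e he
    rw [hM, Finset.mem_union, Finset.mem_erase, Finset.mem_erase] at he
    exact (hF e).2 (by tauto)
  have hsw : ∑ e ∈ M, (N e ∩ N t).card = ∑ l ∈ N t, (N l ∩ M).card := by
    have h1 : ∀ e, (N e ∩ N t).card = ∑ l ∈ N t, (if l ∈ N e then 1 else 0) := by
      intro e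
      rw [← Finset.card_filter]
      congr 1
      ext l
      rw [Finset.mem_inter, Finset.mem_filter, and_comm]
    have h2 : ∀ l, (N l ∩ M).card = ∑ e ∈ M, (if l ∈ N e then 1 else 0) := by
      intro l
      rw [← Finset.card_filter]
      congr 1
      ext e
      rw [Finset.mem_inter, Finset.mem_filter, and_comm]
      exact and_congr_right fun _ => ⟨fun h => c.symm _ _ h, fun h => c.symm _ _ h⟩
    rw [Finset.sum_congr rfl (fun e _ => h1 e), Finset.sum_congr rfl (fun l _ => h2 l)]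
    exact Finset.sum_comm
  rw [hsw, ← Finset.sum_erase_add _ _ (c.refl t)]
  have h0 : N t ∩ M = ∅ := by
    rw [Finset.eq_empty_iff_forall_notMem]
    intro x hx
    rw [Finset.mem_inter] at hx
    exact htF x hx.1 (hMF x hx.2)
  have h2 : ∀ l ∈ (N t).erase t, (N l ∩ M).card = 2 := by
    intro l hl
    obtain ⟨hlt, hlN⟩ := Finset.mem_erase.1 hl
    have hlF : l ∉ F := htF l hlN
    have htl : t ∈ N l := c.symm _ _ hlN
    have heq : N l ∩ M = ((N l).erase l).erase t := by
      ext x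
      rw [Finset.mem_inter, Finset.mem_erase, Finset.mem_erase]
      constructor
      · rintro ⟨hx, hxM⟩
        refine ⟨?_, ?_, hx⟩
        · rintro rfl
          exact htF x (c.refl x) (hMF x hxM)
        · rintro rfl
          exact hlF (hMF x hxM)
      · rintro ⟨hxt, hxl, hxN⟩
        have hlx : l ∈ N x := c.symm _ _ hxN
        refine ⟨hxN, ?_⟩
        have hxF : x ∈ F := by
          by_contra hxF
          have h1 := hclt.2 l hlN x (Finset.mem_sdiff.2 ⟨Finset.mem_univ x, hxF⟩) hxN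
          exact h3 t l x (Ne.symm hlt) (Ne.symm hxl) (Ne.symm hxt) hlN hxN h1
        rw [hM, Finset.mem_union, Finset.mem_erase, Finset.mem_erase]
        rcases (hF x).1 hxF with rfl | h | h
        · exact absurd (hvN hlx) hlF
        · refine Or.inl ⟨?_, h⟩
          rintro rfl
          exact hlF ((hF l).2 (Or.inr (Or.inl hlx)))
        · refine Or.inr ⟨?_, h⟩
          rintro rfl
          exact hlF ((hF l).2 (Or.inr (Or.inr hlx)))
    rw [heq]
    have h1 : ((N l).erase l).card + 1 = (N l).card := Finset.card_erase_add_one (c.refl l)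
    have h2 : (((N l).erase l).erase t).card + 1 = ((N l).erase l).card :=
      Finset.card_erase_add_one (Finset.mem_erase.2 ⟨Ne.symm hlt, htl⟩)
    have h4 : (N l).card = 4 := c.reg l
    omega
  rw [Finset.sum_congr rfl h2, Finset.sum_const, smul_eq_mul, h0, Finset.card_empty]
  have h5 : ((N t).erase t).card + 1 = (N t).card := Finset.card_erase_add_one (c.refl t)
  have h4 : (N t).card = 4 := c.reg t
  omega

/-- The pattern: two disjoint stars and a vertex all of whose neighbours lie in them. -/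
theorem pat (c : Cb N) (h3 : No3 N) {z1 z2 v : V} (hd : Disjoint (N z1) (N z2))
    (hv1 : v ∉ N z1) (hv2 : v ∉ N z2) (hvN : N v ⊆ insert v (N z1 ∪ N z2))
    (hx1 : ∃ x ∈ N v, x ∈ N z1) (hx2 : ∃ x ∈ N v, x ∈ N z2) : False := by
  classical
  have r4 : ∀ x, (N x).card = 4 := c.reg
  have r3 : ∀ x, ((N x).erase x).card = 3 := by
    intro x
    have h1 : ((N x).erase x).card + 1 = (N x).card := Finset.card_erase_add_one (c.refl x)
    have := r4 x
    omega
  set F := insert v (N z1 ∪ N z2) with hFdef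
  have hF : ∀ x, x ∈ F ↔ x = v ∨ x ∈ N z1 ∨ x ∈ N z2 := by
    intro x
    rw [hFdef, Finset.mem_insert, Finset.mem_union]
  have hFc : F.card = 9 := by
    rw [hFdef, Finset.card_insert_of_notMem (by
      rw [Finset.mem_union]
      tauto), Finset.card_union_of_disjoint hd, r4, r4]
  have hz : z1 ≠ z2 := by
    rintro rfl
    exact Finset.disjoint_left.1 hd (c.refl z1) (c.refl z1)
  obtain ⟨P, hP⟩ := exists_comps (N := N) c.symm (univ \ F)
  set M := (N z1).erase z1 ∪ (N z2).erase z2 with hM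
  have hMd : Disjoint ((N z1).erase z1) ((N z2).erase z2) :=
    Finset.disjoint_of_subset_left (Finset.erase_subset _ _)
      (Finset.disjoint_of_subset_right (Finset.erase_subset _ _) hd)
  have hMc : M.card = 6 := by
    rw [hM, Finset.card_union_of_disjoint hMd, r3, r3]
  have hMmem : ∀ x, x ∈ M ↔ (x ≠ z1 ∧ x ∈ N z1) ∨ (x ≠ z2 ∧ x ∈ N z2) := by
    intro x
    rw [hM, Finset.mem_union, Finset.mem_erase, Finset.mem_erase]
  have hcfg : Cfg N F {z1, z2} P := by
    refine ⟨hP, ⟨v, (hF v).2 (Or.inl rfl)⟩, ?_, ?_⟩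
    · intro y hy x hx
      rw [Finset.mem_insert, Finset.mem_singleton] at hy
      rcases hy with rfl | rfl
      · exact (hF x).2 (Or.inr (Or.inl hx))
      · exact (hF x).2 (Or.inr (Or.inr hx))
    · rintro c' _ ⟨x, hx, hxF⟩
      rcases (hF x).1 hxF with rfl | h | h
      · have hc' := c.symm _ _ hx
        rcases (hF c').1 (hvN hc') with rfl | h | h
        · obtain ⟨y, hy, hy1⟩ := hx1
          exact ⟨z1, by simp, y, hy, hy1⟩
        · exact ⟨z1, by simp, c', c.refl c', h⟩
        · exact ⟨z2, by simp, c', c.refl c', h⟩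
      · exact ⟨z1, by simp, x, hx, h⟩
      · exact ⟨z2, by simp, x, hx, h⟩
  have hout : ∀ e ∈ F, ∀ x, x ∉ F → x ∈ N e → e ∈ M := by
    intro e he x hx hxe
    rw [hMmem]
    rcases (hF e).1 he with rfl | h | h
    · exact absurd (hvN hxe) hx
    · refine Or.inl ⟨?_, h⟩
      rintro rfl
      exact hx ((hF x).2 (Or.inr (Or.inl hxe)))
    · refine Or.inr ⟨?_, h⟩
      rintro rfl
      exact hx ((hF x).2 (Or.inr (Or.inr hxe)))
  have hmain := c.main F {z1, z2} M P hcfg (by rw [Finset.card_pair hz, hFc]) hout (by omega)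
  rw [Finset.card_pair hz, hFc] at hmain
  obtain ⟨m1, m2, m3, m4⟩ := hmain
  -- at most nine edges leave `F`
  have nine : ∑ e ∈ M, (N e \ F).card ≤ 9 := by
    have h1 : ∑ e ∈ M, ((N e \ F).card + (if v ∈ N e then 1 else 0)) ≤ ∑ e ∈ M, 2 := by
      apply Finset.sum_le_sum
      intro e he
      obtain ⟨z, hzz, hez, hzN⟩ : ∃ z, (z = z1 ∨ z = z2) ∧ e ≠ z ∧ e ∈ N z := by
        rcases (hMmem e).1 he with h | h
        · exact ⟨z1, Or.inl rfl, h⟩
        · exact ⟨z2, Or.inr rfl, h⟩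
      have heF : e ∈ F := by
        rcases hzz with rfl | rfl
        · exact (hF e).2 (Or.inr (Or.inl hzN))
        · exact (hF e).2 (Or.inr (Or.inr hzN))
      have hzF : z ∈ F := by
        rcases hzz with rfl | rfl
        · exact (hF z).2 (Or.inr (Or.inl (c.refl z)))
        · exact (hF z).2 (Or.inr (Or.inr (c.refl z)))
      have hve : v ≠ e := by
        rintro rfl
        rcases hzz with rfl | rfl
        · exact hv1 hzN
        · exact hv2 hzN
      have hvz : v ≠ z := by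
        rintro rfl
        rcases hzz with h | h
        · exact hv1 (h ▸ c.refl v)
        · exact hv2 (h ▸ c.refl v)
      have hze : z ∈ N e := c.symm _ _ hzN
      have hvF : v ∈ F := (hF v).2 (Or.inl rfl)
      have h4 := r4 e
      have h5 := Finset.card_sdiff_add_card_inter (N e) F
      by_cases hv : v ∈ N e
      · rw [if_pos hv]
        have h6 : ({v, e, z} : Finset V) ⊆ N e ∩ F := by
          intro y hy
          simp only [Finset.mem_insert, Finset.mem_singleton] at hy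
          rw [Finset.mem_inter]
          rcases hy with rfl | rfl | rfl
          · exact ⟨hv, hvF⟩
          · exact ⟨c.refl _, heF⟩
          · exact ⟨hze, hzF⟩
        have h7 := Finset.card_le_card h6
        rw [Finset.card_insert_of_notMem (by simp [hve, hvz]), Finset.card_pair hez] at h7
        omega
      · rw [if_neg hv]
        have h6 : ({e, z} : Finset V) ⊆ N e ∩ F := by
          intro y hy
          simp only [Finset.mem_insert, Finset.mem_singleton] at hy
          rw [Finset.mem_inter]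
          rcases hy with rfl | rfl
          · exact ⟨c.refl _, heF⟩
          · exact ⟨hze, hzF⟩
        have h7 := Finset.card_le_card h6
        rw [Finset.card_pair hez] at h7
        omega
    have h2 : ∑ e ∈ M, (if v ∈ N e then 1 else 0) = 3 := by
      rw [← Finset.card_filter, ← r3 v]
      congr 1
      ext e
      rw [Finset.mem_filter, Finset.mem_erase, hMmem]
      constructor
      · rintro ⟨h, hv⟩
        refine ⟨?_, c.symm _ _ hv⟩
        rintro rfl
        rcases h with h | h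
        · exact hv1 h.2
        · exact hv2 h.2
      · rintro ⟨hev, he⟩
        have hve : v ∈ N e := c.symm _ _ he
        refine ⟨?_, hve⟩
        rcases (hF e).1 (hvN he) with h | h | h
        · exact absurd h hev
        · refine Or.inl ⟨?_, h⟩
          rintro rfl
          exact hv1 hve
        · refine Or.inr ⟨?_, h⟩
          rintro rfl
          exact hv2 hve
    rw [Finset.sum_add_distrib, h2, Finset.sum_const, hMc, smul_eq_mul] at h1
    omega
  have hsix : ∀ t, N t ∈ P → ∑ e ∈ M, (N e ∩ N t).card = 6 := fun t ht =>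
    six c h3 hcfg hF hvN ht
  have hPF : ∀ U ∈ P, ∀ x ∈ U, x ∉ F := fun U hU x hx =>
    (Finset.mem_sdiff.1 ((hP.cl U hU).1 hx)).2
  -- one exceptional component
  have hna : na N P ≤ 1 := by
    unfold na
    by_contra hcon
    push Not at hcon
    obtain ⟨L, hL, L', hL', hne⟩ := Finset.one_lt_card.1 hcon
    rw [Finset.mem_filter] at hL hL'
    obtain ⟨t, _, rfl⟩ := c.exA L hL.2
    obtain ⟨t', _, rfl⟩ := c.exA L' hL'.2
    have h1 : ∑ e ∈ M, ((N e ∩ N t).card + (N e ∩ N t').card) ≤ ∑ e ∈ M, (N e \ F).card := by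
      apply Finset.sum_le_sum
      intro e he
      have hdis : Disjoint (N e ∩ N t) (N e ∩ N t') :=
        Finset.disjoint_of_subset_left Finset.inter_subset_right
          (Finset.disjoint_of_subset_right Finset.inter_subset_right
            (hP.disj _ hL.1 _ hL'.1 hne))
      rw [← Finset.card_union_of_disjoint hdis]
      apply Finset.card_le_card
      intro x hx
      rw [Finset.mem_union, Finset.mem_inter, Finset.mem_inter] at hx
      rcases hx with hx | hx
      · exact Finset.mem_sdiff.2 ⟨hx.1, hPF _ hL.1 x hx.2⟩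
      · exact Finset.mem_sdiff.2 ⟨hx.1, hPF _ hL'.1 x hx.2⟩
    rw [Finset.sum_add_distrib, hsix t hL.1, hsix t' hL'.1] at h1
    omega
  have hmu0 : ∑ U ∈ P, mu N U = 0 := by omega
  have hmu : ∀ U ∈ P, mu N U = 0 := fun U hU => (Finset.sum_eq_zero_iff.1 hmu0) U hU
  have hna1 : na N P = 1 := by omega
  obtain ⟨t, htP⟩ : ∃ t, N t ∈ P := by
    unfold na at hna1
    obtain ⟨L, hL⟩ := Finset.card_pos.1 (by omega : 0 < (P.filter (ExA N)).card)
    rw [Finset.mem_filter] at hL
    obtain ⟨t, _, rfl⟩ := c.exA L hL.2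
    exact ⟨t, hL.1⟩
  have hclt := hP.cl _ htP
  -- three touching vertices
  have hle2 : ∀ e ∈ M, (N e ∩ N t).card ≤ 2 := by
    intro e he
    obtain ⟨z, hzz, hez, hzN⟩ : ∃ z, (z = z1 ∨ z = z2) ∧ e ≠ z ∧ e ∈ N z := by
      rcases (hMmem e).1 he with h | h
      · exact ⟨z1, Or.inl rfl, h⟩
      · exact ⟨z2, Or.inr rfl, h⟩
    have heF : e ∈ F := by
      rcases hzz with rfl | rfl
      · exact (hF e).2 (Or.inr (Or.inl hzN))
      · exact (hF e).2 (Or.inr (Or.inr hzN))
    have hzF : z ∈ F := by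
      rcases hzz with rfl | rfl
      · exact (hF z).2 (Or.inr (Or.inl (c.refl z)))
      · exact (hF z).2 (Or.inr (Or.inr (c.refl z)))
    have hsub : N e ∩ N t ⊆ ((N e).erase e).erase z := by
      intro x hx
      rw [Finset.mem_inter] at hx
      rw [Finset.mem_erase, Finset.mem_erase]
      have hxF := hPF _ htP x hx.2
      refine ⟨?_, ?_, hx.1⟩
      · rintro rfl; exact hxF hzF
      · rintro rfl; exact hxF heF
    have h1 := Finset.card_le_card hsub
    have h2 : (((N e).erase e).erase z).card + 1 = ((N e).erase e).card :=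
      Finset.card_erase_add_one (Finset.mem_erase.2 ⟨Ne.symm hez, c.symm _ _ hzN⟩)
    have := r3 e
    omega
  have hT3 : 3 ≤ (T N z1 t).card + (T N z2 t).card := by
    have h1 : ∀ z, (∀ e ∈ (N z).erase z, e ∈ M) →
        ∑ e ∈ (N z).erase z, (N e ∩ N t).card ≤ 2 * (T N z t).card := by
      intro z hzM
      have h2 : ∑ e ∈ (N z).erase z, (N e ∩ N t).card = ∑ e ∈ T N z t, (N e ∩ N t).card := by
        symm
        apply Finset.sum_subset (Finset.filter_subset _ _)
        intro e he hne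
        rw [Finset.card_eq_zero, ← Finset.not_nonempty_iff_eq_empty]
        intro hh
        exact hne (Finset.mem_filter.2 ⟨he, hh⟩)
      rw [h2]
      calc ∑ e ∈ T N z t, (N e ∩ N t).card ≤ ∑ e ∈ T N z t, 2 := Finset.sum_le_sum
            (fun e he => hle2 e (hzM e (Finset.filter_subset _ _ he)))
        _ = 2 * (T N z t).card := by rw [Finset.sum_const, smul_eq_mul, Nat.mul_comm]
    have h2 := h1 z1 (fun e he => Finset.mem_union_left _ he)
    have h4 := h1 z2 (fun e he => Finset.mem_union_right _ he)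
    have h5 := hsix t htP
    rw [hM, Finset.sum_union hMd] at h5
    omega
  -- another component
  obtain ⟨U0, hU0, hU0t⟩ : ∃ U ∈ P, U ≠ N t := by
    by_contra hcon
    push Not at hcon
    have hPs : P ⊆ {N t} := fun U hU => Finset.mem_singleton.2 (hcon U hU)
    have h1 := hP.card
    have h2 : ∑ U ∈ P, U.card ≤ ∑ U ∈ ({N t} : Finset (Finset V)), U.card :=
      Finset.sum_le_sum_of_subset hPs
    rw [Finset.sum_singleton, r4] at h2
    have h4 := Finset.card_sdiff_add_card_eq_card (Finset.subset_univ F)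
    have h5 := c.big
    rw [Finset.card_univ] at h4
    omega
  have hFs : ∀ x, x ∈ F ↔ x = v ∨ x ∈ N z2 ∨ x ∈ N z1 := by
    intro x
    rw [hF x]
    tauto
  have hle : ∀ z, (∃ e ∈ N z, e ≠ z ∧ Tch N e U0) → (T N z t).card ≤ 2 := by
    rintro z ⟨e, he, hez, hte⟩
    have hsub : T N z t ⊆ ((N z).erase z).erase e := by
      intro y hy
      obtain ⟨h1, h2, h4⟩ := mem_T.1 hy
      refine Finset.mem_erase.2 ⟨?_, Finset.mem_erase.2 ⟨h1, h2⟩⟩
      rintro rfl
      exact hU0t (m4 y U0 hU0 (N t) htP (sav c hcfg hU0 (hmu _ hU0) hte)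
        (sav c hcfg htP (hmu _ htP) h4))
    have h1 := Finset.card_le_card hsub
    have h2 : (((N z).erase z).erase e).card + 1 = ((N z).erase z).card :=
      Finset.card_erase_add_one (Finset.mem_erase.2 ⟨hez, he⟩)
    have := r3 z
    omega
  have hT1 := hle z1 (tside c hcfg hFs hd.symm hvN hU0)
  have hT2 := hle z2 (tside c hcfg hF hd hvN hU0)
  rcases Nat.lt_or_ge (T N z1 t).card 2 with hlt | hge
  · have hcfg' : Cfg N F {z2, z1} P := by
      rw [Finset.pair_comm]
      exact hcfg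
    exact side c h3 hcfg' hFs m1 hmu m4 hvN hx1 htP (by omega)
  · exact side c h3 hcfg hF m1 hmu m4 hvN hx2 htP (by omega)

lemma nmem4 {a b d e x : V} (h1 : x ≠ a) (h2 : x ≠ b) (h3 : x ≠ d) (h4 : x ≠ e) :
    x ∉ ({a, b, d, e} : Finset V) := by
  simp [h1, h2, h3, h4]

lemma mem4 {a b d e x : V} (h : x ∈ ({a, b, d, e} : Finset V)) :
    x = a ∨ x = b ∨ x = d ∨ x = e := by
  simpa using h

/-- A cycle with four vertices and the outer neighbours. -/
structure Sq (N : V → Finset V) (c1 c2 c3 c4 o1 o2 o3 o4 : V) : Prop where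
  n1 : N c1 = {c1, c2, c4, o1}
  n2 : N c2 = {c2, c3, c1, o2}
  n3 : N c3 = {c3, c4, c2, o3}
  n4 : N c4 = {c4, c1, c3, o4}
  cc : c1 ≠ c2 ∧ c1 ≠ c3 ∧ c1 ≠ c4 ∧ c2 ≠ c3 ∧ c2 ≠ c4 ∧ c3 ≠ c4
  oo : o1 ≠ o2 ∧ o1 ≠ o3 ∧ o1 ≠ o4 ∧ o2 ≠ o3 ∧ o2 ≠ o4 ∧ o3 ≠ o4
  p1 : o1 ≠ c1 ∧ o1 ≠ c2 ∧ o1 ≠ c3 ∧ o1 ≠ c4
  p2 : o2 ≠ c1 ∧ o2 ≠ c2 ∧ o2 ≠ c3 ∧ o2 ≠ c4
  p3 : o3 ≠ c1 ∧ o3 ≠ c2 ∧ o3 ≠ c3 ∧ o3 ≠ c4
  p4 : o4 ≠ c1 ∧ o4 ≠ c2 ∧ o4 ≠ c3 ∧ o4 ≠ c4

lemma Sq.rot {c1 c2 c3 c4 o1 o2 o3 o4 : V} (h : Sq N c1 c2 c3 c4 o1 o2 o3 o4) :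
    Sq N c2 c3 c4 c1 o2 o3 o4 o1 := by
  obtain ⟨a1, a2, a3, a4, a5, a6⟩ := h.cc
  obtain ⟨b1, b2, b3, b4, b5, b6⟩ := h.oo
  obtain ⟨d1, d2, d3, d4⟩ := h.p1
  obtain ⟨e1, e2, e3, e4⟩ := h.p2
  obtain ⟨f1, f2, f3, f4⟩ := h.p3
  obtain ⟨g1, g2, g3, g4⟩ := h.p4
  exact ⟨h.n2, h.n3, h.n4, h.n1, ⟨a4, a5, a1.symm, a6, a2.symm, a3.symm⟩,
    ⟨b4, b5, b1.symm, b6, b2.symm, b3.symm⟩, ⟨e2, e3, e4, e1⟩, ⟨f2, f3, f4, f1⟩,
    ⟨g2, g3, g4, g1⟩, ⟨d2, d3, d4, d1⟩⟩

/-- The neighbours of an outer vertex. -/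
lemma Sq.step (c : Cb N) (h3 : No3 N) {c1 c2 c3 c4 o1 o2 o3 o4 : V}
    (h : Sq N c1 c2 c3 c4 o1 o2 o3 o4) {k : V} (hk : k ∈ N o1) (hko : k ≠ o1) (hkc : k ≠ c1) :
    k = o2 ∨ k = o4 ∨ k = o3 ∨ k ∈ N o3 := by
  by_contra hcon
  push Not at hcon
  obtain ⟨q1, q2, q3, q4⟩ := hcon
  obtain ⟨a1, a2, a3, a4, a5, a6⟩ := h.cc
  obtain ⟨b1, b2, b3, b4, b5, b6⟩ := h.oo
  obtain ⟨d1, d2, d3, d4⟩ := h.p1
  have hok : o1 ∈ N k := c.symm _ _ hk
  have hk2 : k ≠ c2 := by
    rintro rfl
    rw [h.n2] at hok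
    exact nmem4 d2 d3 d1 b1 hok
  have hk3 : k ≠ c3 := by
    rintro rfl
    rw [h.n3] at hok
    exact nmem4 d3 d4 d2 b2 hok
  have hk4 : k ≠ c4 := by
    rintro rfl
    rw [h.n4] at hok
    exact nmem4 d4 d1 d3 b3 hok
  have hc1o : c1 ∈ N o1 := c.symm _ _ (by rw [h.n1]; simp)
  have hd : Disjoint (N c3) (N k) := by
    rw [Finset.disjoint_left]
    intro y hy hyk
    have hky : k ∈ N y := c.symm _ _ hyk
    rw [h.n3] at hy
    simp only [Finset.mem_insert, Finset.mem_singleton] at hy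
    rcases hy with rfl | rfl | rfl | rfl
    · rw [h.n3] at hky
      exact nmem4 hk3 hk4 hk2 q3 hky
    · rw [h.n4] at hky
      exact nmem4 hk4 hkc hk3 q2 hky
    · rw [h.n2] at hky
      exact nmem4 hk2 hk3 hkc q1 hky
    · exact q4 hky
  refine pat c h3 (v := c1) hd ?_ ?_ ?_ ⟨c2, by rw [h.n1]; simp, by rw [h.n3]; simp⟩
    ⟨o1, by rw [h.n1]; simp, hok⟩
  · rw [h.n3]
    exact nmem4 a2 a3 a1 (Ne.symm h.p3.1)
  · intro hc
    exact h3 c1 o1 k (Ne.symm d1) (Ne.symm hko) (Ne.symm hkc) (by rw [h.n1]; simp) hk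
      (c.symm _ _ hc)
  · intro x hx
    rw [h.n1] at hx
    simp only [Finset.mem_insert, Finset.mem_singleton] at hx
    rw [Finset.mem_insert, Finset.mem_union, h.n3]
    rcases hx with rfl | rfl | rfl | rfl
    · exact Or.inl rfl
    · exact Or.inr (Or.inl (by simp))
    · exact Or.inr (Or.inl (by simp))
    · exact Or.inr (Or.inr hok)

/-- Opposite outer vertices are not adjacent. -/
lemma Sq.far (c : Cb N) (h3 : No3 N) {c1 c2 c3 c4 o1 o2 o3 o4 : V}
    (h : Sq N c1 c2 c3 c4 o1 o2 o3 o4) : o3 ∉ N o1 := by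
  intro h31
  obtain ⟨a1, a2, a3, a4, a5, a6⟩ := h.cc
  obtain ⟨b1, b2, b3, b4, b5, b6⟩ := h.oo
  obtain ⟨d1, d2, d3, d4⟩ := h.p1
  obtain ⟨e1, e2, e3, e4⟩ := h.p2
  obtain ⟨g1, g2, g3, g4⟩ := h.p4
  have hc1o : c1 ∈ N o1 := c.symm _ _ (by rw [h.n1]; simp)
  have hn2 : c2 ∉ N o1 := by
    intro hh
    have h1 := c.symm _ _ hh
    rw [h.n2] at h1
    exact nmem4 d2 d3 d1 b1 h1
  have hn4 : c4 ∉ N o1 := by
    intro hh
    have h1 := c.symm _ _ hh
    rw [h.n4] at h1
    exact nmem4 d4 d1 d3 b3 h1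
  have hd2 : Disjoint (N o2) (N o1) := by
    obtain ⟨x, _, hx, hxd⟩ := c.a2 o1 c2 (c.reg o1) hn2
    have hx' := c.symm _ _ hx
    rw [h.n2] at hx'
    simp only [Finset.mem_insert, Finset.mem_singleton] at hx'
    rcases hx' with rfl | rfl | rfl | rfl
    · exact absurd hc1o (Finset.disjoint_left.1 hxd (by rw [h.n2]; simp))
    · exact absurd h31 (Finset.disjoint_left.1 hxd (by rw [h.n3]; simp))
    · exact absurd hc1o (Finset.disjoint_left.1 hxd (by rw [h.n1]; simp))
    · exact hxd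
  have hd4 : Disjoint (N o4) (N o1) := by
    obtain ⟨x, _, hx, hxd⟩ := c.a2 o1 c4 (c.reg o1) hn4
    have hx' := c.symm _ _ hx
    rw [h.n4] at hx'
    simp only [Finset.mem_insert, Finset.mem_singleton] at hx'
    rcases hx' with rfl | rfl | rfl | rfl
    · exact absurd hc1o (Finset.disjoint_left.1 hxd (by rw [h.n4]; simp))
    · exact absurd hc1o (Finset.disjoint_left.1 hxd (by rw [h.n1]; simp))
    · exact absurd h31 (Finset.disjoint_left.1 hxd (by rw [h.n3]; simp))
    · exact hxd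
  obtain ⟨k, k1, k2, k3, hNo⟩ := fourth (c.reg o1) (c.refl o1) hc1o h31 d1 b2 (Ne.symm h.p3.1)
  have hk : k ∈ N o1 := by rw [hNo]; simp
  rcases h.step c h3 hk k1 k2 with rfl | rfl | rfl | hk3
  · exact Finset.disjoint_left.1 hd2 (c.refl k) hk
  · exact Finset.disjoint_left.1 hd4 (c.refl k) hk
  · exact k3 rfl
  · exact h3 o1 o3 k b2 (Ne.symm k3) (Ne.symm k1) h31 hk3 hk

/-- Either there is a common outer neighbour of `o1` and `o3`, or both are adjacent to `o2` and
`o4`. -/
lemma Sq.dich (c : Cb N) (h3 : No3 N) {c1 c2 c3 c4 o1 o2 o3 o4 : V}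
    (h : Sq N c1 c2 c3 c4 o1 o2 o3 o4) :
    (∃ e, e ∈ N o1 ∧ e ∈ N o3 ∧ e ≠ o1 ∧ e ≠ o2 ∧ e ≠ o3 ∧ e ≠ o4) ∨
    (N o1 = {o1, c1, o2, o4} ∧ N o3 = {o3, c3, o4, o2}) := by
  by_cases hex : ∃ e, e ∈ N o1 ∧ e ∈ N o3 ∧ e ≠ o1 ∧ e ≠ o2 ∧ e ≠ o3 ∧ e ≠ o4
  · exact Or.inl hex
  · right
    push Not at hex
    have h13 := h.far c h3
    have h31 : o1 ∉ N o3 := fun hh => h13 (c.symm _ _ hh)
    have hc1 : c1 ∈ N o1 := c.symm _ _ (by rw [h.n1]; simp)
    have hc3 : c3 ∈ N o3 := c.symm _ _ (by rw [h.n3]; simp)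
    have hs1 : N o1 ⊆ {o1, c1, o2, o4} := by
      intro k hk
      simp only [Finset.mem_insert, Finset.mem_singleton]
      by_contra hcon
      push Not at hcon
      obtain ⟨q1, q2, q3, q4⟩ := hcon
      rcases h.step c h3 hk q1 q2 with h1 | h1 | h1 | h1
      · exact q3 h1
      · exact q4 h1
      · exact h13 (h1 ▸ hk)
      · exact q4 (hex k hk h1 q1 q3 (by rintro rfl; exact h13 hk))
    have hs3 : N o3 ⊆ {o3, c3, o4, o2} := by
      intro k hk
      simp only [Finset.mem_insert, Finset.mem_singleton]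
      by_contra hcon
      push Not at hcon
      obtain ⟨q1, q2, q3, q4⟩ := hcon
      rcases h.rot.rot.step c h3 hk q1 q2 with h1 | h1 | h1 | h1
      · exact q3 h1
      · exact q4 h1
      · exact h31 (h1 ▸ hk)
      · exact q3 (hex k h1 hk (by rintro rfl; exact h31 hk) q4 q1)
    have hr1 : (N o1).card = 4 := c.reg o1
    have hr3 : (N o3).card = 4 := c.reg o3
    constructor
    · apply Finset.eq_of_subset_of_card_le hs1
      rw [hr1]
      exact Finset.card_le_four
    · apply Finset.eq_of_subset_of_card_le hs3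
      rw [hr3]
      exact Finset.card_le_four

/-- A set closed under adjacency is everything. -/
lemma closed_univ (c : Cb N) {B : Finset V} (hB : B.Nonempty) (h : ∀ x ∈ B, N x ⊆ B) :
    B = univ := by
  by_contra hne
  obtain ⟨x, hx, y, _, hyB, hyx⟩ := c.conn.2 B (Finset.subset_univ B) hB hne
  exact hyB (h x hx hyx)

/-- Two common outer neighbours. -/
lemma Sq.two (c : Cb N) (h3 : No3 N) {c1 c2 c3 c4 o1 o2 o3 o4 e f : V}
    (h : Sq N c1 c2 c3 c4 o1 o2 o3 o4)
    (he : e ∈ N o1 ∧ e ∈ N o3 ∧ e ≠ o1 ∧ e ≠ o2 ∧ e ≠ o3 ∧ e ≠ o4)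
    (hf : f ∈ N o2 ∧ f ∈ N o4 ∧ f ≠ o2 ∧ f ≠ o3 ∧ f ≠ o4 ∧ f ≠ o1) : False := by
  obtain ⟨a1, a2, a3, a4, a5, a6⟩ := h.cc
  obtain ⟨b1, b2, b3, b4, b5, b6⟩ := h.oo
  obtain ⟨d1, d2, d3, d4⟩ := h.p1
  obtain ⟨e1, e2, e3, e4⟩ := h.p2
  obtain ⟨f1, f2, f3, f4⟩ := h.p3
  obtain ⟨g1, g2, g3, g4⟩ := h.p4
  obtain ⟨he1, he3, t1, t2, t3, t4⟩ := he
  obtain ⟨hf2, hf4, u1, u2, u3, u4⟩ := hf
  have ho1 : o1 ∈ N e := c.symm _ _ he1
  have ho3 : o3 ∈ N e := c.symm _ _ he3
  have ho2 : o2 ∈ N f := c.symm _ _ hf2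
  have ho4 : o4 ∈ N f := c.symm _ _ hf4
  have r4 : ∀ x, (N x).card = 4 := c.reg
  have oc : ∀ x, x ∈ ({c1, c2, c3, c4} : Finset V) →
      ((o1 ∈ N x → x = c1) ∧ (o2 ∈ N x → x = c2) ∧ (o3 ∈ N x → x = c3) ∧ (o4 ∈ N x → x = c4)) := by
    intro x hx
    simp only [Finset.mem_insert, Finset.mem_singleton] at hx
    rcases hx with rfl | rfl | rfl | rfl
    · rw [h.n1]
      simp [e1, e2, e4, b1.symm, f1, f2, f4, b2.symm, g1, g2, g4, b3.symm]
    · rw [h.n2]
      simp [d1, d2, d3, b1, f1, f2, f3, b4.symm, g1, g2, g3, b5.symm]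
    · rw [h.n3]
      simp [d2, d3, d4, b2, e2, e3, e4, b4, g2, g3, g4, b6.symm]
    · rw [h.n4]
      simp [d1, d3, d4, b3, e1, e3, e4, b5, f1, f3, f4, b6]
  have hec : e ∉ ({c1, c2, c3, c4} : Finset V) := fun hh =>
    a2 (((oc e hh).1 ho1).symm.trans ((oc e hh).2.2.1 ho3))
  have hfc : f ∉ ({c1, c2, c3, c4} : Finset V) := fun hh =>
    a5 (((oc f hh).2.1 ho2).symm.trans ((oc f hh).2.2.2 ho4))
  have hef : e ≠ f := by
    rintro rfl
    have hsub : ({e, o1, o3, o2, o4} : Finset V) ⊆ N e := by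
      intro x hx
      simp only [Finset.mem_insert, Finset.mem_singleton] at hx
      rcases hx with rfl | rfl | rfl | rfl | rfl
      · exact c.refl _
      · exact ho1
      · exact ho3
      · exact ho2
      · exact ho4
    have h1 := Finset.card_le_card hsub
    rw [r4, Finset.card_insert_of_notMem (by simp [t1, t2, t3, t4]),
      Finset.card_insert_of_notMem (by simp [b1, b2, b3]),
      Finset.card_insert_of_notMem (by simp [b4.symm, b6]),
      Finset.card_pair b5] at h1
    omega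
  simp only [Finset.mem_insert, Finset.mem_singleton, not_or] at hec hfc
  obtain ⟨v1, v2, v3, v4⟩ := hec
  obtain ⟨w1, w2, w3, w4⟩ := hfc
  set B : Finset V := {c1, c2, c3, c4} with hB
  have hBc : B.card = 4 := by
    rw [hB, Finset.card_insert_of_notMem (by simp [a1, a2, a3]),
      Finset.card_insert_of_notMem (by simp [a4, a5]), Finset.card_pair a6]
  set F : Finset V := N e ∪ N f ∪ B with hFd
  have hF : ∀ x, x ∈ F ↔ x ∈ N e ∨ x ∈ N f ∨ x ∈ B := by
    intro x
    rw [hFd, Finset.mem_union, Finset.mem_union, or_assoc]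
  have hF12 : F.card ≤ 12 := by
    have h1 : F.card ≤ (N e ∪ N f).card + B.card := Finset.card_union_le (N e ∪ N f) B
    have h2 := Finset.card_union_le (N e) (N f)
    rw [r4, r4] at h2
    omega
  have hF10 : 10 ≤ F.card := by
    have hsub : insert e (insert f (insert o1 (insert o2 (insert o3 (insert o4 B))))) ⊆ F := by
      intro x hx
      simp only [Finset.mem_insert] at hx
      rw [hF]
      rcases hx with rfl | rfl | rfl | rfl | rfl | rfl | hx
      · exact Or.inl (c.refl _)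
      · exact Or.inr (Or.inl (c.refl _))
      · exact Or.inl ho1
      · exact Or.inr (Or.inl ho2)
      · exact Or.inl ho3
      · exact Or.inr (Or.inl ho4)
      · exact Or.inr (Or.inr hx)
    have h1 := Finset.card_le_card hsub
    have k4 : o4 ∉ B := by
      rw [hB]; simp [g1, g2, g3, g4]
    have k3 : o3 ∉ insert o4 B := by
      rw [hB]; simp [b6, f1, f2, f3, f4]
    have k2 : o2 ∉ insert o3 (insert o4 B) := by
      rw [hB]; simp [b4, b5, e1, e2, e3, e4]
    have k1 : o1 ∉ insert o2 (insert o3 (insert o4 B)) := by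
      rw [hB]; simp [b1, b2, b3, d1, d2, d3, d4]
    have k5 : f ∉ insert o1 (insert o2 (insert o3 (insert o4 B))) := by
      rw [hB]; simp [u1, u2, u3, u4, w1, w2, w3, w4]
    have k6 : e ∉ insert f (insert o1 (insert o2 (insert o3 (insert o4 B)))) := by
      rw [hB]; simp [hef, t1, t2, t3, t4, v1, v2, v3, v4]
    rw [Finset.card_insert_of_notMem k6, Finset.card_insert_of_notMem k5,
      Finset.card_insert_of_notMem k1, Finset.card_insert_of_notMem k2,
      Finset.card_insert_of_notMem k3, Finset.card_insert_of_notMem k4, hBc] at h1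
    exact h1
  have hBF : ∀ x ∈ B, N x ⊆ F := by
    intro x hx y hy
    rw [hB] at hx
    simp only [Finset.mem_insert, Finset.mem_singleton] at hx
    rw [hF, hB]
    simp only [Finset.mem_insert, Finset.mem_singleton]
    rcases hx with rfl | rfl | rfl | rfl
    · rw [h.n1] at hy
      simp only [Finset.mem_insert, Finset.mem_singleton] at hy
      rcases hy with rfl | rfl | rfl | rfl
      · simp
      · simp
      · simp
      · exact Or.inl ho1
    · rw [h.n2] at hy
      simp only [Finset.mem_insert, Finset.mem_singleton] at hy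
      rcases hy with rfl | rfl | rfl | rfl
      · simp
      · simp
      · simp
      · exact Or.inr (Or.inl ho2)
    · rw [h.n3] at hy
      simp only [Finset.mem_insert, Finset.mem_singleton] at hy
      rcases hy with rfl | rfl | rfl | rfl
      · simp
      · simp
      · simp
      · exact Or.inl ho3
    · rw [h.n4] at hy
      simp only [Finset.mem_insert, Finset.mem_singleton] at hy
      rcases hy with rfl | rfl | rfl | rfl
      · simp
      · simp
      · simp
      · exact Or.inr (Or.inl ho4)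
  have hBh : ∀ x ∈ B, ∃ y ∈ N x, y ∈ N e ∨ y ∈ N f := by
    intro x hx
    rw [hB] at hx
    simp only [Finset.mem_insert, Finset.mem_singleton] at hx
    rcases hx with rfl | rfl | rfl | rfl
    · exact ⟨o1, by rw [h.n1]; simp, Or.inl ho1⟩
    · exact ⟨o2, by rw [h.n2]; simp, Or.inr ho2⟩
    · exact ⟨o3, by rw [h.n3]; simp, Or.inl ho3⟩
    · exact ⟨o4, by rw [h.n4]; simp, Or.inr ho4⟩
  obtain ⟨P, hP⟩ := exists_comps (N := N) c.symm (univ \ F)
  have hcfg : Cfg N F {e, f} P := by
    refine ⟨hP, ⟨e, (hF e).2 (Or.inl (c.refl e))⟩, ?_, ?_⟩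
    · intro y hy x hx
      rw [Finset.mem_insert, Finset.mem_singleton] at hy
      rcases hy with rfl | rfl
      · exact (hF x).2 (Or.inl hx)
      · exact (hF x).2 (Or.inr (Or.inl hx))
    · rintro c' _ ⟨x, hx, hxF⟩
      rcases (hF x).1 hxF with h1 | h1 | h1
      · exact ⟨e, by simp, x, hx, h1⟩
      · exact ⟨f, by simp, x, hx, h1⟩
      · have hc' := c.symm _ _ hx
        rcases (hF c').1 (hBF x h1 hc') with h2 | h2 | h2
        · exact ⟨e, by simp, c', c.refl c', h2⟩
        · exact ⟨f, by simp, c', c.refl c', h2⟩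
        · obtain ⟨y, hy, h4 | h4⟩ := hBh c' h2
          · exact ⟨e, by simp, y, hy, h4⟩
          · exact ⟨f, by simp, y, hy, h4⟩
  have hsub : insert e (insert f B) ⊆ F := by
    intro x hx
    simp only [Finset.mem_insert] at hx
    rw [hF]
    rcases hx with rfl | rfl | hx
    · exact Or.inl (c.refl _)
    · exact Or.inr (Or.inl (c.refl _))
    · exact Or.inr (Or.inr hx)
  have hMc : (F \ insert e (insert f B)).card + 6 = F.card := by
    have h1 := Finset.card_sdiff_add_card_eq_card hsub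
    rw [Finset.card_insert_of_notMem (by
      rw [hB]; simp [hef, v1, v2, v3, v4]),
      Finset.card_insert_of_notMem (by
      rw [hB]; simp [w1, w2, w3, w4]), hBc] at h1
    exact h1
  have hout : ∀ y ∈ F, ∀ x, x ∉ F → x ∈ N y → y ∈ F \ insert e (insert f B) := by
    intro y hy x hx hxy
    refine Finset.mem_sdiff.2 ⟨hy, ?_⟩
    intro hh
    simp only [Finset.mem_insert] at hh
    rcases hh with rfl | rfl | hh
    · exact hx ((hF x).2 (Or.inl hxy))
    · exact hx ((hF x).2 (Or.inr (Or.inl hxy)))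
    · exact hx (hBF y hh hxy)
  have hmain := c.main F {e, f} _ P hcfg (by rw [Finset.card_pair hef]; omega) hout (by omega)
  rw [Finset.card_pair hef] at hmain
  obtain ⟨_, m2, m3, _⟩ := hmain
  omega

end

end Ten

/-- No cycle with four vertices. -/
theorem no4 {V : Type*} [DecidableEq V] [Fintype V] {N : V → Finset V} (c : Cb N) (h3 : No3 N) :
    No4 N := by
  intro x1 x2 x3 x4 hnd h12 h23 h34 h41
  simp only [List.nodup_cons, List.mem_cons, List.not_mem_nil, or_false, not_or,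
    List.nodup_nil, and_true, not_false_eq_true] at hnd
  obtain ⟨⟨a1, a2, a3⟩, ⟨a4, a5⟩, a6⟩ := hnd
  have h21 := c.symm _ _ h12
  have h32 := c.symm _ _ h23
  have h43 := c.symm _ _ h34
  have h14 := c.symm _ _ h41
  -- the outer neighbours
  obtain ⟨o1, p1, p2, p3, n1⟩ := Ten.fourth (c.reg x1) (c.refl x1) h12 h14 a1 a3 a5
  obtain ⟨o2, q1, q2, q3, n2⟩ := Ten.fourth (c.reg x2) (c.refl x2) h23 h21 a4 (Ne.symm a1)
    (Ne.symm a2)
  obtain ⟨o3, r1, r2, r3, n3⟩ := Ten.fourth (c.reg x3) (c.refl x3) h34 h32 a6 (Ne.symm a4)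
    (Ne.symm a5)
  obtain ⟨o4, s1, s2, s3, n4⟩ := Ten.fourth (c.reg x4) (c.refl x4) h41 h43 (Ne.symm a3)
    (Ne.symm a6) a2
  have k1 : o1 ∈ N x1 := by rw [n1]; simp
  have k2 : o2 ∈ N x2 := by rw [n2]; simp
  have k3 : o3 ∈ N x3 := by rw [n3]; simp
  have k4 : o4 ∈ N x4 := by rw [n4]; simp
  have w1 : o1 ≠ x3 := by
    rintro rfl
    exact h3 x1 x2 o1 a1 a4 a2 h12 h23 k1
  have w2 : o2 ≠ x4 := by
    rintro rfl
    exact h3 x2 x3 o2 a4 a6 a5 h23 h34 k2
  have w3 : o3 ≠ x1 := by
    rintro rfl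
    exact h3 x3 x4 o3 a6 (Ne.symm a3) (Ne.symm a2) h34 h41 k3
  have w4 : o4 ≠ x2 := by
    rintro rfl
    exact h3 x4 x1 o4 (Ne.symm a3) a1 (Ne.symm a5) h41 h12 k4
  have b1 : o1 ≠ o2 := by
    rintro rfl
    exact h3 x1 x2 o1 a1 (Ne.symm q1) (Ne.symm p1) h12 k2 k1
  have b4 : o2 ≠ o3 := by
    rintro rfl
    exact h3 x2 x3 o2 a4 (Ne.symm r1) (Ne.symm q1) h23 k3 k2
  have b6 : o3 ≠ o4 := by
    rintro rfl
    exact h3 x3 x4 o3 a6 (Ne.symm s1) (Ne.symm r1) h34 k4 k3
  have b3 : o1 ≠ o4 := by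
    rintro rfl
    exact h3 x4 x1 o1 (Ne.symm a3) (Ne.symm p1) (Ne.symm s1) h41 k1 k4
  have b2 : o1 ≠ o3 := by
    rintro rfl
    apply c.k23 x1 x3 a2 (c.reg x1) (c.reg x3)
    rw [n1, n3, Finset.erase_insert (by simp [a1, a3, Ne.symm p1]),
      Finset.erase_insert (by simp [a6, Ne.symm a4, Ne.symm r1])]
    exact Finset.insert_comm _ _ _
  have b5 : o2 ≠ o4 := by
    rintro rfl
    apply c.k23 x2 x4 a5 (c.reg x2) (c.reg x4)
    rw [n2, n4, Finset.erase_insert (by simp [a4, Ne.symm a1, Ne.symm q1]),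
      Finset.erase_insert (by simp [Ne.symm a3, Ne.symm a6, Ne.symm s1])]
    exact Finset.insert_comm _ _ _
  have hS : Ten.Sq N x1 x2 x3 x4 o1 o2 o3 o4 := ⟨n1, n2, n3, n4, ⟨a1, a2, a3, a4, a5, a6⟩,
    ⟨b1, b2, b3, b4, b5, b6⟩, ⟨p1, p2, w1, p3⟩, ⟨q3, q1, q2, w2⟩, ⟨w3, r3, r1, r2⟩,
    ⟨s2, w4, s3, s1⟩⟩
  rcases hS.dich c h3 with ⟨e, he⟩ | ⟨g1, g3⟩
  · rcases hS.rot.dich c h3 with ⟨f, hf⟩ | ⟨g2, g4⟩
    · exact hS.two c h3 he hf
    · obtain ⟨he1, he3, t1, t2, t3, t4⟩ := he
      have c1 : o1 ∈ N o2 := by rw [g2]; simp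
      have c2 : o1 ∈ N o4 := by rw [g4]; simp
      have c3 := c.symm _ _ c1
      have c4 := c.symm _ _ c2
      have c5 := c.symm _ _ k1
      have ex : e ≠ x1 := by
        rintro rfl
        have := c.symm _ _ he3
        rw [n1] at this
        simp [w3, r3, r2, Ne.symm b2] at this
      have hsub : ({o1, x1, e, o2, o4} : Finset V) ⊆ N o1 := by
        intro x hx
        simp only [Finset.mem_insert, Finset.mem_singleton] at hx
        rcases hx with rfl | rfl | rfl | rfl | rfl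
        · exact c.refl _
        · exact c5
        · exact he1
        · exact c3
        · exact c4
      have h1 := Finset.card_le_card hsub
      have hr : (N o1).card = 4 := c.reg o1
      rw [hr, Finset.card_insert_of_notMem (by simp [p1, Ne.symm t1, b1, b3]),
        Finset.card_insert_of_notMem (by simp [Ne.symm ex, Ne.symm q3, Ne.symm s2]),
        Finset.card_insert_of_notMem (by simp [t2, t4]), Finset.card_pair b5] at h1
      omega
  · rcases hS.rot.dich c h3 with ⟨f, hf⟩ | ⟨g2, g4⟩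
    · obtain ⟨hf1, hf3, t1, t2, t3, t4⟩ := hf
      have c1 : o2 ∈ N o1 := by rw [g1]; simp
      have c2 : o2 ∈ N o3 := by rw [g3]; simp
      have c3 := c.symm _ _ c1
      have c4 := c.symm _ _ c2
      have c5 := c.symm _ _ k2
      have ex : f ≠ x2 := by
        rintro rfl
        have := c.symm _ _ hf3
        rw [n2] at this
        simp [w4, s3, s2, Ne.symm b5] at this
      have hsub : ({o2, x2, f, o1, o3} : Finset V) ⊆ N o2 := by
        intro x hx
        simp only [Finset.mem_insert, Finset.mem_singleton] at hx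
        rcases hx with rfl | rfl | rfl | rfl | rfl
        · exact c.refl _
        · exact c5
        · exact hf1
        · exact c3
        · exact c4
      have h1 := Finset.card_le_card hsub
      have hr : (N o2).card = 4 := c.reg o2
      rw [hr, Finset.card_insert_of_notMem (by simp [q1, Ne.symm t1, Ne.symm b1, b4]),
        Finset.card_insert_of_notMem (by simp [Ne.symm ex, Ne.symm p2, Ne.symm r3]),
        Finset.card_insert_of_notMem (by simp [t4, t2]), Finset.card_pair b2] at h1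
      omega
    · have huniv := Ten.closed_univ c (B := {x1, x2, x3, x4} ∪ {o1, o2, o3, o4})
        ⟨x1, by simp⟩ (by
          intro x hx y hy
          rw [Finset.mem_union] at hx ⊢
          simp only [Finset.mem_insert, Finset.mem_singleton] at hx ⊢
          rcases hx with (rfl | rfl | rfl | rfl) | (rfl | rfl | rfl | rfl)
          · rw [n1] at hy; simp only [Finset.mem_insert, Finset.mem_singleton] at hy
            rcases hy with rfl | rfl | rfl | rfl <;> simp
          · rw [n2] at hy; simp only [Finset.mem_insert, Finset.mem_singleton] at hy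
            rcases hy with rfl | rfl | rfl | rfl <;> simp
          · rw [n3] at hy; simp only [Finset.mem_insert, Finset.mem_singleton] at hy
            rcases hy with rfl | rfl | rfl | rfl <;> simp
          · rw [n4] at hy; simp only [Finset.mem_insert, Finset.mem_singleton] at hy
            rcases hy with rfl | rfl | rfl | rfl <;> simp
          · rw [g1] at hy; simp only [Finset.mem_insert, Finset.mem_singleton] at hy
            rcases hy with rfl | rfl | rfl | rfl <;> simp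
          · rw [g2] at hy; simp only [Finset.mem_insert, Finset.mem_singleton] at hy
            rcases hy with rfl | rfl | rfl | rfl <;> simp
          · rw [g3] at hy; simp only [Finset.mem_insert, Finset.mem_singleton] at hy
            rcases hy with rfl | rfl | rfl | rfl <;> simp
          · rw [g4] at hy; simp only [Finset.mem_insert, Finset.mem_singleton] at hy
            rcases hy with rfl | rfl | rfl | rfl <;> simp)
      have h1 := Finset.card_union_le ({x1, x2, x3, x4} : Finset V) {o1, o2, o3, o4}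
      have h2 : ({x1, x2, x3, x4} : Finset V).card ≤ 4 := Finset.card_le_four
      have h4 : ({o1, o2, o3, o4} : Finset V).card ≤ 4 := Finset.card_le_four
      rw [huniv, Finset.card_univ] at h1
      have := c.big
      omega

end Pool.Agent.Star.K4
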