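import Pool.Agent.Star.K4.Spec
import Pool.Agent.Star.T3e

/-!
# `K = 4`: tools for configurations
-/

set_option autoImplicit false
set_option linter.unusedSectionVars false
set_option linter.unusedVariables false

namespace Pool.Agent.Star.K4

open Finset Rig

section
variable {V : Type*} [DecidableEq V] [Fintype V] {N : V → Finset V} {F Y M : Finset V}
  {P : Finset (Finset V)}

namespace Cfg

lemma notF (c : Cfg N F Y P) {U : Finset V} (hU : U ∈ P) {x : V} (hx : x ∈ U) : x ∉ F :=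
  (Finset.mem_sdiff.1 ((c.comps.cl U hU).1 hx)).2

lemma conn (c : Cfg N F Y P) {U : Finset V} (hU : U ∈ P) : Conn N U := c.comps.conn U hU

lemma ne_univ (c : Cfg N F Y P) {U : Finset V} (hU : U ∈ P) : U ≠ univ := by
  rintro rfl
  obtain ⟨f, hf⟩ := c.ne
  exact c.notF hU (Finset.mem_univ f) hf

/-- A neighbour of `U` outside `U` is in `F`. -/
lemma out (c : Cfg N F Y P) {U : Finset V} (hU : U ∈ P) {x y : V} (hx : x ∈ U) (hy : y ∈ N x)
    (hyU : y ∉ U) : y ∈ F := by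
  by_contra hyF
  exact hyU ((c.comps.cl U hU).2 x hx y (Finset.mem_sdiff.2 ⟨Finset.mem_univ _, hyF⟩) hy)

/-- A vertex outside `F` is in a component. -/
lemma cover (c : Cfg N F Y P) {x : V} (hx : x ∉ F) : ∃ U ∈ P, x ∈ U :=
  c.comps.cover x (Finset.mem_sdiff.2 ⟨Finset.mem_univ _, hx⟩)

/-- A closed neighbourhood outside `F` is inside one component. -/
lemma star (c : Cfg N F Y P) (hr : ∀ x, x ∈ N x) {x : V} (hx : ∀ y ∈ N x, y ∉ F) :
    ∃ U ∈ P, N x ⊆ U := by
  obtain ⟨U, hU, hxU⟩ := c.cover (hx x (hr x))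
  exact ⟨U, hU, fun y hy => (c.comps.cl U hU).2 x hxU y
    (Finset.mem_sdiff.2 ⟨Finset.mem_univ _, hx y hy⟩) hy⟩

lemma eq_of_mem (c : Cfg N F Y P) {U U' : Finset V} (hU : U ∈ P) (hU' : U' ∈ P) {x : V}
    (hx : x ∈ U) (hx' : x ∈ U') : U = U' := c.comps.eq_of_mem hU hU' hx hx'

/-- Every component is touched by a vertex of `F`. -/
lemma touched (c : Cfg N F Y P) (h : VS N) {U : Finset V} (hU : U ∈ P) :
    ∃ e ∈ F, Tch N e U := by
  obtain ⟨e, he, x, hx, hxe⟩ := c.comps.adj h.symm h.conn (Finset.subset_univ F) c.ne hU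
  exact ⟨e, he, x, hx, hxe⟩

lemma card_compl (c : Cfg N F Y P) : F.card + ∑ U ∈ P, U.card = Fintype.card V := by
  rw [← c.comps.card, ← Finset.card_univ, Nat.add_comm]
  exact Finset.card_sdiff_add_card_eq_card (Finset.subset_univ F)

end Cfg

/-- If `F` is connected, then the complement of a component is connected. -/
lemma Cfg.conn_compl (c : Cfg N F Y P) (h : VS N) (hF : Conn N F) {U : Finset V} (hU : U ∈ P) :
    Conn N (univ \ U) := by
  obtain ⟨f, hf⟩ := c.ne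
  have hFU : ∀ x ∈ F, x ∈ univ \ U := fun x hx =>
    Finset.mem_sdiff.2 ⟨Finset.mem_univ _, fun hxU => c.notF hU hxU hx⟩
  refine ⟨⟨f, hFU f hf⟩, ?_⟩
  intro B hB hBn hBU
  by_contra hcon
  push Not at hcon
  -- `B` is closed in the complement of `U`
  have hcl : ∀ x ∈ B, ∀ y, y ∉ U → y ∈ N x → y ∈ B := by
    intro x hx y hy hyx
    by_contra hyB
    exact hcon x hx y (Finset.mem_sdiff.2 ⟨Finset.mem_univ _, hy⟩) hyB hyx
  have hcl' : ∀ x, x ∉ B → x ∉ U → ∀ y, y ∈ N x → y ∉ B := by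
    intro x hx hxU y hyx hyB
    exact hx (hcl y hyB x hxU (h.symm _ _ hyx))
  have key : ∀ B' : Finset V, B'.Nonempty → B' ⊆ univ \ U →
      (∀ x ∈ B', ∀ y, y ∉ U → y ∈ N x → y ∈ B') → F ⊆ B' := by
    intro B' hB'n hB'U hcl
    -- `B'` meets `F`
    have hmeet : ∃ x ∈ B', x ∈ F := by
      by_contra hno
      push Not at hno
      obtain ⟨b, hb⟩ := hB'n
      obtain ⟨W, hW, hbW⟩ := c.cover (hno b hb)
      -- `B' ∩ W` is closed in `univ`
      have hne : W ≠ U := by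
        rintro rfl
        exact (Finset.mem_sdiff.1 (hB'U hb)).2 hbW
      have hWB : W ⊆ B' := by
        by_contra hnsub
        have hne2 : B' ∩ W ≠ W := fun hh => hnsub (hh ▸ Finset.inter_subset_left)
        obtain ⟨x, hx, y, hy, hyB, hyx⟩ := (c.conn hW).2 (B' ∩ W) Finset.inter_subset_right
          ⟨b, Finset.mem_inter.2 ⟨hb, hbW⟩⟩ hne2
        apply hyB
        refine Finset.mem_inter.2 ⟨hcl x (Finset.mem_inter.1 hx).1 y ?_ hyx, hy⟩
        intro hyU
        exact hne (c.eq_of_mem hW hU hy hyU)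
      obtain ⟨e, he, x, hx, hxe⟩ := c.touched h hW
      have : e ∈ B' := hcl x (hWB hx) e (fun heU => c.notF hU heU he) (h.symm _ _ hxe)
      exact hno e this he
    obtain ⟨x, hxB, hxF⟩ := hmeet
    by_contra hnsub
    have hne2 : B' ∩ F ≠ F := fun hh => hnsub (hh ▸ Finset.inter_subset_left)
    obtain ⟨x, hx, y, hy, hyB, hyx⟩ := hF.2 (B' ∩ F) Finset.inter_subset_right
      ⟨x, Finset.mem_inter.2 ⟨hxB, hxF⟩⟩ hne2
    apply hyB
    exact Finset.mem_inter.2 ⟨hcl x (Finset.mem_inter.1 hx).1 y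
      (fun hyU => c.notF hU hyU hy) hyx, hy⟩
  have h1 := key B hBn hB hcl
  have h2 := key ((univ \ U) \ B) (by
      rw [Finset.sdiff_nonempty]
      intro hsub
      exact hBU (Finset.Subset.antisymm hB hsub)) Finset.sdiff_subset (by
      intro x hx y hy hyx
      rw [Finset.mem_sdiff] at hx ⊢
      exact ⟨Finset.mem_sdiff.2 ⟨Finset.mem_univ _, hy⟩,
        hcl' x hx.2 (Finset.mem_sdiff.1 hx.1).2 y hyx⟩)
  exact (Finset.mem_sdiff.1 (h2 hf)).2 (h1 hf)

open Classical in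
/-- The vertices of `F` touching `U`. -/
noncomputable def tc (N : V → Finset V) (F U : Finset V) : Finset V :=
  F.filter (fun e => Tch N e U)

lemma mem_tc {U : Finset V} {e : V} : e ∈ tc N F U ↔ e ∈ F ∧ Tch N e U := by
  classical
  unfold tc
  rw [Finset.mem_filter]

/-- An exceptional component is a cubic star. -/
lemma Gen.isA (g : Gen N) {U : Finset V} (h : ExA N U) : ∃ t, Cub N t ∧ U = N t := g.exA U h

/-- An exceptional component has two touching vertices. -/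
lemma Gen.tcA (g : Gen N) (c : Cfg N F Y P) {U : Finset V} (hU : U ∈ P) (hA : ExA N U) :
    2 ≤ (tc N F U).card := by
  obtain ⟨t, ht, rfl⟩ := g.exA U hA
  obtain ⟨u, hu, x, hx, hxu, -⟩ := g.cut t t ht
  obtain ⟨u', hu', x', hx', hxu', hne⟩ := g.cut t x ht
  have h1 : x ∈ tc N F (N t) := mem_tc.2 ⟨c.out hU hu hxu hx, u, hu, g.symm _ _ hxu⟩
  have h2 : x' ∈ tc N F (N t) := mem_tc.2 ⟨c.out hU hu' hxu' hx', u', hu', g.symm _ _ hxu'⟩
  exact Finset.one_lt_card.2 ⟨x', h2, x, h1, hne⟩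

/-- A tight component (or with `mu = 1`) has two touching vertices. -/
lemma Gen.tcT (g : Gen N) (c : Cfg N F Y P) {U : Finset V} (hU : U ∈ P)
    (hco : Conn N (univ \ U)) (hA : ¬ ExA N U) (hmu : mu N U ≤ 1) : 2 ≤ (tc N F U).card := by
  obtain ⟨e, he, heU⟩ := c.touched g.toVS hU
  obtain ⟨u, hu, x, hx, hxu, hne⟩ := g.g4o U (c.ne_univ hU) (c.conn hU) hco hmu hA e
  have h1 : e ∈ tc N F U := mem_tc.2 ⟨he, heU⟩
  have h2 : x ∈ tc N F U := mem_tc.2 ⟨c.out hU hu hxu hx, u, hu, g.symm _ _ hxu⟩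
  exact Finset.one_lt_card.2 ⟨x, h2, e, h1, hne⟩

/-- An exceptional component has three touching vertices. -/
lemma Mid.tcA (m : Mid N) (c : Cfg N F Y P) {U : Finset V} (hU : U ∈ P) (hA : ExA N U) :
    3 ≤ (tc N F U).card := by
  obtain ⟨t, ht, rfl⟩ := m.exA U hA
  obtain ⟨w1, h1, -, -, l1, hl1, hw1⟩ := m.twoG t t t ht
  obtain ⟨w2, h2, h21, -, l2, hl2, hw2⟩ := m.twoG t w1 w1 ht
  obtain ⟨w3, h3, h31, h32, l3, hl3, hw3⟩ := m.twoG t w1 w2 ht
  have e1 : w1 ∈ tc N F (N t) := mem_tc.2 ⟨c.out hU hl1 (m.symm _ _ hw1) h1, l1, hl1, hw1⟩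
  have e2 : w2 ∈ tc N F (N t) := mem_tc.2 ⟨c.out hU hl2 (m.symm _ _ hw2) h2, l2, hl2, hw2⟩
  have e3 : w3 ∈ tc N F (N t) := mem_tc.2 ⟨c.out hU hl3 (m.symm _ _ hw3) h3, l3, hl3, hw3⟩
  exact Finset.two_lt_card.2 ⟨w1, e1, w2, e2, w3, e3, h21.symm, h31.symm, h32.symm⟩

/-- Touching sets of critical components are disjoint (from (SEP)). -/
lemma tc_disjoint {U U' : Finset V} (hsep : ∀ e, Sav N U e → Sav N U' e → U = U')
    (hU : ∀ e, Tch N e U → Sav N U e) (hU' : ∀ e, Tch N e U' → Sav N U' e) (hne : U ≠ U') :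
    Disjoint (tc N F U) (tc N F U') := by
  rw [Finset.disjoint_left]
  intro e he he'
  exact hne (hsep e (hU e (mem_tc.1 he).2) (hU' e (mem_tc.1 he').2))

/-- With all components critical, the touching sets of the components are disjoint, so their
cardinalities add up to at most the number of touching vertices. -/
lemma Gen.sum_tc (g : Gen N) (c : Cfg N F Y P) (hmu : ∀ U ∈ P, mu N U = 0)
    (hsep : ∀ e, ∀ U ∈ P, ∀ U' ∈ P, Sav N U e → Sav N U' e → U = U')
    (hM : ∀ e ∈ F, ∀ x, x ∉ F → x ∈ N e → e ∈ M) {Q : Finset (Finset V)} (hQ : Q ⊆ P) :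
    ∑ U ∈ Q, (tc N F U).card ≤ M.card := by
  rw [← Finset.card_biUnion]
  · apply Finset.card_le_card
    intro e he
    obtain ⟨U, hU, heU⟩ := Finset.mem_biUnion.1 he
    obtain ⟨h1, x, hx, hxe⟩ := mem_tc.1 heU
    exact hM e h1 x (c.notF (hQ hU) hx) hxe
  · intro U hU U' hU' hne
    exact tc_disjoint (fun e h1 h2 => hsep e U (hQ hU) U' (hQ hU') h1 h2)
      (g.tight U (c.ne_univ (hQ hU)) (c.conn (hQ hU)) (hmu U (hQ hU)))
      (g.tight U' (c.ne_univ (hQ hU')) (c.conn (hQ hU')) (hmu U' (hQ hU'))) hne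

lemma mu_of_sum {P : Finset (Finset V)} (h : ∑ U ∈ P, mu N U = 0) : ∀ U ∈ P, mu N U = 0 :=
  fun U hU => by
    have := Finset.single_le_sum (f := mu N) (fun _ _ => Nat.zero_le _) hU
    omega

/-- One exceptional component: there is another component. -/
lemma Cfg.other (c : Cfg N F Y P) (h : VS N) (hF : F.card ≤ 17) {U : Finset V} (hU : U ∈ P)
    (hc : U.card = 4) : ∃ W ∈ P, W ≠ U := by
  by_contra hcon
  push Not at hcon
  have h1 : P = {U} := by
    ext W
    rw [Finset.mem_singleton]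
    exact ⟨fun hW => hcon W hW, fun hW => hW ▸ hU⟩
  have h2 := c.card_compl
  rw [h1, Finset.sum_singleton, hc] at h2
  have := h.big
  omega

/-- If exactly one component is exceptional. -/
lemma na_one {P : Finset (Finset V)} (h : na N P = 1) :
    ∃ L ∈ P, ExA N L ∧ ∀ U ∈ P, U ≠ L → ¬ ExA N U := by
  classical
  unfold na at h
  obtain ⟨L, hL⟩ := Finset.card_eq_one.1 h
  have h1 : L ∈ P.filter (ExA N) := by rw [hL]; exact Finset.mem_singleton_self L
  refine ⟨L, (Finset.mem_filter.1 h1).1, (Finset.mem_filter.1 h1).2, ?_⟩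
  intro U hU hne hA
  apply hne
  have : U ∈ P.filter (ExA N) := Finset.mem_filter.2 ⟨hU, hA⟩
  rw [hL] at this
  exact Finset.mem_singleton.1 this

lemma na_pos {P : Finset (Finset V)} (h : 1 ≤ na N P) : ∃ L ∈ P, ExA N L := by
  classical
  unfold na at h
  obtain ⟨L, hL⟩ := Finset.card_pos.1 h
  exact ⟨L, (Finset.mem_filter.1 hL).1, (Finset.mem_filter.1 hL).2⟩

lemma na_zero {P : Finset (Finset V)} (h : na N P = 0) : ∀ U ∈ P, ¬ ExA N U := by
  classical
  intro U hU hA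
  unfold na at h
  rw [Finset.card_eq_zero] at h
  have : U ∈ P.filter (ExA N) := Finset.mem_filter.2 ⟨hU, hA⟩
  rw [h] at this
  exact Finset.notMem_empty U this

/-- A small set closed under neighbours is impossible. -/
lemma VS.closed (h : VS N) {B : Finset V} (hB : B.Nonempty) (hc : B.card ≤ 21)
    (hcl : ∀ x ∈ B, ∀ y ∈ N x, y ∈ B) : False := by
  have h1 : B ≠ univ := by
    rintro rfl
    rw [Finset.card_univ] at hc
    have := h.big
    omega
  obtain ⟨x, hx, y, hy, hyB, hyx⟩ := h.conn.2 B (Finset.subset_univ _) hB h1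
  exact hyB (hcl x hx y hyx)

end

end Pool.Agent.Star.K4
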