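import Pool.Agent.Star.K4.Kit
import Pool.Agent.Star.K4.Tools

/-!
# `K = 4`, module M11a: no cycle with five vertices
-/

set_option autoImplicit false
set_option linter.unusedSectionVars false
set_option linter.unusedVariables false

namespace Pool.Agent.Star.K4

open Finset Rig

namespace M11

section
variable {V : Type*} [DecidableEq V] [Fintype V] {N : V → Finset V}

/-- The outer neighbours of a cubic star. -/
def outer (N : V → Finset V) (t : V) : Finset V :=
  ((N t).erase t).biUnion (fun l => ((N l).erase l).erase t)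

lemma outer_card (c : Cb N) (h4 : No4 N) (t : V) : (outer N t).card = 6 := by
  unfold outer
  rw [Finset.card_biUnion]
  · have h1 : ∀ l ∈ (N t).erase t, (((N l).erase l).erase t).card = 2 := by
      intro l hl
      obtain ⟨h1, h2⟩ := Finset.mem_erase.1 hl
      have h3 : (N l).card = 4 := c.reg l
      rw [Finset.card_erase_of_mem (Finset.mem_erase.2 ⟨h1.symm, c.symm _ _ h2⟩),
        Finset.card_erase_of_mem (c.refl l), h3]
    rw [Finset.sum_congr rfl h1, Finset.sum_const, Finset.card_erase_of_mem (c.refl t)]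
    have h3 : (N t).card = 4 := c.reg t
    rw [h3]
    rfl
  · intro l hl l' hl' hne
    show Disjoint (((N l).erase l).erase t) (((N l').erase l').erase t)
    rw [Finset.disjoint_left]
    intro e he he'
    rw [Finset.mem_coe, Finset.mem_erase] at hl hl'
    simp only [Finset.mem_erase] at he he'
    exact h4 t l e l' (by simp [hl.1.symm, he.1.symm, hl'.1.symm, he.2.1.symm, hne, he'.2.1])
      hl.2 he.2.2 (c.symm _ _ he'.2.2) (c.symm _ _ hl'.2)

lemma outer_spec {t e : V} (c : Cb N) (h3 : No3 N) (he : e ∈ outer N t) :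
    e ∉ N t ∧ ∃ l ∈ N t, l ≠ t ∧ e ∈ N l := by
  unfold outer at he
  obtain ⟨l, hl, he⟩ := Finset.mem_biUnion.1 he
  rw [Finset.mem_erase] at hl
  simp only [Finset.mem_erase] at he
  exact ⟨fun h => h3 t l e hl.1.symm he.2.1.symm he.1.symm hl.2 he.2.2 h,
    l, hl.2, hl.1, he.2.2⟩

/-- The complement of a component is connected if `F` and another component are connected. -/
lemma conn_compl' (h : VS N) {F L U : Finset V} {P : Finset (Finset V)}
    (hP : Comps N (univ \ F) P) (hL : L ∈ P) (hU : U ∈ P) (hne : U ≠ L)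
    (hF : Conn N (F ∪ L)) : Conn N (univ \ U) := by
  classical
  have hP' : Comps N (univ \ (F ∪ L)) (P.erase L) := by
    refine ⟨fun W hW => hP.conn W (mem_of_mem_erase hW), ?_, ?_, ?_⟩
    · intro W hW
      obtain ⟨h1, h2⟩ := mem_erase.1 hW
      obtain ⟨h3, h4⟩ := hP.cl W h2
      refine ⟨?_, ?_⟩
      · intro x hx
        have h5 := h3 hx
        rw [mem_sdiff] at h5 ⊢
        refine ⟨mem_univ _, ?_⟩
        rw [mem_union]
        rintro (h6 | h6)
        · exact h5.2 h6
        · exact disjoint_left.1 (hP.disj W h2 L hL h1) hx h6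
      · intro x hx y hy hyx
        refine h4 x hx y ?_ hyx
        rw [mem_sdiff, mem_union] at hy
        rw [mem_sdiff]
        exact ⟨mem_univ _, fun h => hy.2 (Or.inl h)⟩
    · intro W hW W' hW' hWW
      exact hP.disj W (mem_of_mem_erase hW) W' (mem_of_mem_erase hW') hWW
    · intro x hx
      rw [mem_sdiff, mem_union] at hx
      obtain ⟨W, hW, hxW⟩ := hP.cover x (mem_sdiff.2 ⟨mem_univ _, fun h => hx.2 (Or.inl h)⟩)
      refine ⟨W, mem_erase.2 ⟨?_, hW⟩, hxW⟩
      rintro rfl
      exact hx.2 (Or.inr hxW)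
  exact conn_compl h hP' hF (mem_erase.2 ⟨hne, hU⟩)

/-- The counting: two disjoint stars and one dead vertex are impossible if the girth is at
least five. -/
theorem dead7 (c : Cb N) (h3 : No3 N) (h4 : No4 N) {z1 z2 v b : V}
    (dj : Disjoint (N z1) (N z2)) (v1 : v ∉ N z1) (v2 : v ∉ N z2)
    (dead : ∀ c ∈ N v, (∃ x ∈ N c, x ∈ N z1) ∨ ∃ x ∈ N c, x ∈ N z2)
    (hb : b ∈ N z2) (hvb : v ∈ N b)
    (hv : ∀ y ∈ N v, y ≠ v → y ∉ N z2 → ∃ x ∈ N y, x ∈ N z1) : False := by
  classical
  obtain ⟨P, h⟩ := Two.ex c.toVS dj v1 v2 dead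
  have cfg : Cfg N (insert v (N z1 ∪ N z2)) {z1, z2} P := h.cfg c
  have hF9 := h.cardF c
  set F := insert v (N z1 ∪ N z2) with hF
  set M : Finset V := insert v ((N z1).erase z1 ∪ (N z2).erase z2) with hM
  have hMc : M.card ≤ 7 := by
    have r3 : ∀ x, ((N x).erase x).card = 3 := by
      intro x
      have h5 : (N x).card = 4 := c.reg x
      rw [card_erase_of_mem (c.refl x), h5]
    have h6 : M.card ≤ ((N z1).erase z1 ∪ (N z2).erase z2).card + 1 := card_insert_le _ _
    have h7 := card_union_le ((N z1).erase z1) ((N z2).erase z2)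
    have h8 := r3 z1
    have h9 := r3 z2
    omega
  have hMF : ∀ e ∈ F, ∀ x, x ∉ F → x ∈ N e → e ∈ M := by
    intro e he x hx hxe
    simp only [hF, mem_insert, mem_union, not_or] at he hx
    simp only [hM, mem_insert, mem_union, mem_erase]
    rcases he with he | he | he
    · exact Or.inl he
    · refine Or.inr (Or.inl ⟨?_, he⟩)
      rintro rfl
      exact hx.2.1 hxe
    · refine Or.inr (Or.inr ⟨?_, he⟩)
      rintro rfl
      exact hx.2.2 hxe
  obtain ⟨m1, m2, m3, m4⟩ := h.main c M (by
    intro e x he h5 h6 h7 h8 h9 hxe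
    apply hMF e (by simpa [hF] using he) x (by simp [hF, h7, h8, h9]) hxe) (by omega)
  -- exceptional components have six touching vertices
  have h6 : ∀ U ∈ P, ExA N U → 6 ≤ (tc N F U).card := by
    intro U hU hA
    obtain ⟨t, ht, rfl⟩ := c.exA U hA
    rw [← outer_card c h4 t]
    apply card_le_card
    intro e he
    obtain ⟨p1, l, hl, hlt, hel⟩ := outer_spec c h3 he
    exact mem_tc.2 ⟨cfg.out hU hl hel p1, l, hl, c.symm _ _ hel⟩
  have hsav : ∀ U ∈ P, mu N U = 0 → ∀ e, Tch N e U → Sav N U e := fun U hU hmu =>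
    c.tight U (cfg.ne_univ hU) (cfg.conn hU) hmu
  have htcM : ∀ U ∈ P, tc N F U ⊆ M := by
    intro U hU e he
    obtain ⟨h7, x, hx, hxe⟩ := mem_tc.1 he
    exact hMF e h7 x (cfg.notF hU hx) hxe
  have hdj : ∀ U ∈ P, ∀ U' ∈ P, mu N U = 0 → mu N U' = 0 → U ≠ U' →
      (tc N F U).card + (tc N F U').card ≤ 7 := by
    intro U hU U' hU' h7 h8 hne
    have h9 := tc_disjoint (F := F) (fun e => m4 e U hU U' hU') (hsav U hU h7) (hsav U' hU' h8) hne
    have h10 := card_union_of_disjoint h9
    have h11 := card_le_card (union_subset (htcM U hU) (htcM U' hU'))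
    omega
  have hna : na N P ≤ 1 := by
    by_contra hcon
    have h7 : 1 < (P.filter (ExA N)).card := by
      unfold na at hcon
      convert not_le.1 hcon
    obtain ⟨U, hU, U', hU', hne⟩ := Finset.one_lt_card.1 h7
    rw [mem_filter] at hU hU'
    have h8 := hdj U hU.1 U' hU'.1 hU.2.mu0 hU'.2.mu0 hne
    have h9 := h6 U hU.1 hU.2
    have h10 := h6 U' hU'.1 hU'.2
    omega
  have hna1 : na N P = 1 := by omega
  have hmu0 : ∀ U ∈ P, mu N U = 0 := mu_of_sum (by omega)
  obtain ⟨L, hL, hLA, hrest⟩ := na_one hna1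
  obtain ⟨W, hW, hWL⟩ := cfg.other c.toVS (by omega) hL hLA.1
  -- the complement of `W` is connected
  have hco : Conn N (univ \ W) := by
    apply conn_compl' c.toVS cfg.comps hL hW hWL
    have k1 : Conn N (L ∪ N z1) := by
      obtain ⟨x, hx, y, hy, hy1, hy2⟩ := h.side c hL
      have hxo := h.out hL hx
      rcases hy1 with rfl | hy1
      · obtain ⟨x', hx', hx'1⟩ := hv x (c.symm _ _ hy) hxo.1 hxo.2.2
        exact conn_union c.toVS (h.conn hL) (conn_star c.toVS z1) hx hx'1 hx'
      · exact conn_union c.toVS (h.conn hL) (conn_star c.toVS z1) hx hy1 hy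
    have k2 : Conn N (insert v (N z2)) := conn_insert c.toVS (conn_star c.toVS z2) hb hvb
    have k3 : Conn N ((L ∪ N z1) ∪ insert v (N z2)) := by
      obtain ⟨x, hx, y, hy, hy1, hy2⟩ := h.sy.side c hL
      refine conn_union c.toVS k1 k2 (mem_union_left _ hx) ?_ hy
      rw [mem_insert]
      exact hy1
    have k4 : F ∪ L = (L ∪ N z1) ∪ insert v (N z2) := by
      ext x
      simp only [hF, mem_union, mem_insert]
      tauto
    rw [k4]
    exact k3
  have hW2 := c.tcT cfg hW hco (hrest W hW hWL) (by rw [hmu0 W hW]; omega)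
  have hL6 := h6 L hL hLA
  have := hdj W hW L hL (hmu0 W hW) (hmu0 L hL) hWL
  omega

/-- A cycle with five vertices and its outer neighbours. -/
structure Pent (N : V → Finset V) (w x : ZMod 5 → V) : Prop where
  nw : ∀ i, N (w i) = {w i, w (i + 1), w (i - 1), x i}
  wi : Function.Injective w
  xi : Function.Injective x
  wx : ∀ i j, w i ≠ x j

lemma Pent.refl' {w x : ZMod 5 → V} (p : Pent N w x) :
    Pent N (fun i => w (-i)) (fun i => x (-i)) := by
  refine ⟨?_, fun i j h => neg_injective (p.wi h), fun i j h => neg_injective (p.xi h),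
    fun i j => p.wx _ _⟩
  intro i
  have h1 : -(i + 1) = -i - 1 := by ring
  have h2 : -(i - 1) = -i + 1 := by ring
  simp only [h1, h2]
  rw [p.nw (-i)]
  ext y
  simp only [mem_insert, mem_singleton]
  tauto

lemma Pent.half (c : Cb N) (h3 : No3 N) (h4 : No4 N) {w x : ZMod 5 → V} (p : Pent N w x)
    {i : ZMod 5} {k : V} (hk : k ∈ N (x i)) (hkx : k ≠ x i) (hkw : k ≠ w i) :
    k = x (i + 2) ∨ k = x (i + 3) ∨ x (i + 2) ∈ N k := by
  have e1 : i + 2 + 1 = i + 3 := by ring
  have e2 : i + 2 - 1 = i + 1 := by ring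
  have nwm : ∀ j y, y ∈ N (w j) ↔ y = w j ∨ y = w (j + 1) ∨ y = w (j - 1) ∨ y = x j := by
    intro j y
    rw [p.nw j]
    simp only [mem_insert, mem_singleton]
  have hxk : x i ∈ N k := c.symm _ _ hk
  -- `k` is not on the cycle
  have hkw' : ∀ j, k ≠ w j := by
    rintro j rfl
    have h1 := c.symm _ _ hk
    rcases (nwm j _).1 h1 with h | h | h | h
    · exact p.wx _ _ h.symm
    · exact p.wx _ _ h.symm
    · exact p.wx _ _ h.symm
    · rw [p.xi h] at hkw
      exact hkw rfl
  have nk : ∀ j, w j ∈ N k → k = x j := by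
    intro j hj
    rcases (nwm j _).1 (c.symm _ _ hj) with h | h | h | h
    · exact absurd h (hkw' _)
    · exact absurd h (hkw' _)
    · exact absurd h (hkw' _)
    · exact h
  by_contra hcon
  push Not at hcon
  obtain ⟨k1, k2, k3⟩ := hcon
  have nei : ∀ a b : ZMod 5, a ≠ b → w (i + a) ≠ w (i + b) := by
    intro a b hab h
    exact hab (add_left_cancel (p.wi h))
  have w1 : w (i + 1) ∈ N (w i) := (nwm i _).2 (Or.inr (Or.inl rfl))
  have w1x : x (i + 1) ∈ N (w (i + 1)) := (nwm _ _).2 (Or.inr (Or.inr (Or.inr rfl)))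
  have x0 : x i ∈ N (w i) := (nwm i _).2 (Or.inr (Or.inr (Or.inr rfl)))
  have w21 : w (i + 1) ∈ N (w (i + 2)) := (nwm _ _).2 (Or.inr (Or.inr (Or.inl (by rw [e2]))))
  have w23 : w (i + 3) ∈ N (w (i + 2)) := (nwm _ _).2 (Or.inr (Or.inl (by rw [e1])))
  have w43 : w (i + 3) ∈ N (w (i - 1)) := (nwm _ _).2 (Or.inr (Or.inr (Or.inl (by
    have : i - 1 - 1 = i + 3 := by
      have h5 : (5 : ZMod 5) = 0 := by decide
      linear_combination -h5
    rw [this]))))
  refine dead7 c h3 h4 (z1 := w (i + 2)) (z2 := k) (v := w i) (b := x i) ?_ ?_ ?_ ?_ hxk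
    (c.symm _ _ x0) ?_
  · rw [disjoint_left]
    intro y hy hyk
    rcases (nwm _ _).1 hy with rfl | rfl | rfl | rfl
    · exact k1 (nk _ hyk)
    · rw [e1] at hyk
      exact k2 (nk _ hyk)
    · rw [e2] at hyk
      have h5 := nk _ hyk
      rw [h5] at hk
      have h6 : x i ≠ x (i + 1) := fun h => by
        have := p.xi h
        have h7 : (0 : ZMod 5) = 1 := by linear_combination this
        exact absurd h7 (by decide)
      have h8 : w i ≠ w (i + 1) := by
        have := nei 0 1 (by decide)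
        simpa using this
      exact h4 (w i) (w (i + 1)) (x (i + 1)) (x i)
        (by simp [h8, p.wx, h6.symm]) w1 w1x (c.symm _ _ hk) (c.symm _ _ x0)
    · exact k3 hyk
  · intro h
    rcases (nwm _ _).1 h with h | h | h | h
    · exact nei 0 2 (by decide) (by simpa using h)
    · rw [e1] at h
      exact nei 0 3 (by decide) (by simpa using h)
    · rw [e2] at h
      exact nei 0 1 (by decide) (by simpa using h)
    · exact p.wx _ _ h
  · intro h
    have h5 := nk _ h
    exact hkx h5
  · intro d hd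
    rcases (nwm _ _).1 hd with rfl | rfl | rfl | rfl
    · exact Or.inl ⟨_, w1, w21⟩
    · exact Or.inl ⟨_, c.refl _, w21⟩
    · exact Or.inl ⟨_, w43, w23⟩
    · exact Or.inr ⟨_, c.refl _, hxk⟩
  · intro y hy hyv hyk
    rcases (nwm _ _).1 hy with rfl | rfl | rfl | rfl
    · exact absurd rfl hyv
    · exact ⟨_, c.refl _, w21⟩
    · exact ⟨_, w43, w23⟩
    · exact absurd hxk hyk

lemma Pent.full (c : Cb N) (h3 : No3 N) (h4 : No4 N) {w x : ZMod 5 → V} (p : Pent N w x)
    {i : ZMod 5} {k : V} (hk : k ∈ N (x i)) (hkx : k ≠ x i) (hkw : k ≠ w i) :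
    k = x (i + 2) ∨ k = x (i + 3) ∨ (x (i + 2) ∈ N k ∧ x (i + 3) ∈ N k) := by
  have h1 := p.half c h3 h4 hk hkx hkw
  have h2 := p.refl'.half c h3 h4 (i := -i) (k := k) (by simpa using hk) (by simpa using hkx)
    (by simpa using hkw)
  have h5 : (5 : ZMod 5) = 0 := by decide
  have e1 : -(-i + 2) = i + 3 := by linear_combination -h5
  have e2 : -(-i + 3) = i + 2 := by linear_combination -h5
  simp only [e1, e2] at h2
  tauto

lemma Pent.nx (c : Cb N) (h3 : No3 N) (h4 : No4 N) {w x : ZMod 5 → V} (p : Pent N w x)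
    (i : ZMod 5) : N (x i) ⊆ {x i, w i, x (i + 2), x (i + 3)} := by
  have x0 : x i ∈ N (w i) := by rw [p.nw i]; simp
  obtain ⟨k, k', h1, h2, h5, h6, h7, h8⟩ := nb_split (c.reg (x i)) (c.refl (x i))
    (c.symm _ _ x0) (p.wx i i)
  have hk : k ∈ N (x i) := by rw [h8]; simp
  have hk' : k' ∈ N (x i) := by rw [h8]; simp
  have key : ∀ k k', k ∈ N (x i) → k' ∈ N (x i) → k ≠ x i → k' ≠ x i → k ≠ w i → k' ≠ w i →
      k ≠ k' → k = x (i + 2) ∨ k = x (i + 3) := by
    intro k k' hk hk' hkx hkx' hkw hkw' hne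
    by_contra hcon
    push Not at hcon
    rcases p.full c h3 h4 hk hkx hkw with h | h | ⟨h9, h10⟩
    · exact hcon.1 h
    · exact hcon.2 h
    · rcases p.full c h3 h4 hk' hkx' hkw' with h | h | ⟨h9', h10'⟩
      · subst h
        exact h3 (x i) k _ hkx.symm hne hkx'.symm hk h9 hk'
      · subst h
        exact h3 (x i) k _ hkx.symm hne hkx'.symm hk h10 hk'
      · by_cases g1 : k' = x (i + 2)
        · subst g1
          exact h3 (x i) k _ hkx.symm hne hkx'.symm hk h9 hk'
        · by_cases g2 : k' = x (i + 3)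
          · subst g2
            exact h3 (x i) k _ hkx.symm hne hkx'.symm hk h10 hk'
          · have h11 : x (i + 2) ≠ x (i + 3) := fun h => by
              have := p.xi h
              have h7 : (2 : ZMod 5) = 3 := by linear_combination this
              exact absurd h7 (by decide)
            exact h4 k (x (i + 2)) k' (x (i + 3))
              (by simp [hcon.1, hne, hcon.2, Ne.symm g1, h11, g2]) h9 (c.symm _ _ h9') h10'
              (c.symm _ _ h10)
  have g1 := key k k' hk hk' h1 h2 h5 h6 h7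
  have g2 := key k' k hk' hk h2 h1 h6 h5 (Ne.symm h7)
  rw [h8]
  intro y hy
  simp only [mem_insert, mem_singleton] at hy ⊢
  rcases hy with rfl | rfl | rfl | rfl
  · exact Or.inl rfl
  · exact Or.inr (Or.inl rfl)
  · exact Or.inr (Or.inr g1)
  · exact Or.inr (Or.inr g2)

lemma Pent.absurd (c : Cb N) (h3 : No3 N) (h4 : No4 N) {w x : ZMod 5 → V} (p : Pent N w x) :
    False := by
  apply c.toVS.closed (B := univ.image w ∪ univ.image x)
  · exact ⟨w 0, mem_union_left _ (mem_image_of_mem _ (mem_univ _))⟩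
  · have h1 := card_union_le (univ.image w) (univ.image x)
    have h2 : (univ.image w).card ≤ (univ : Finset (ZMod 5)).card := card_image_le
    have h5 : (univ.image x).card ≤ (univ : Finset (ZMod 5)).card := card_image_le
    have h6 : (univ : Finset (ZMod 5)).card = 5 := by rw [card_univ, ZMod.card]
    omega
  · intro y hy z hz
    have hw : ∀ j, w j ∈ univ.image w ∪ univ.image x := fun j =>
      mem_union_left _ (mem_image_of_mem _ (mem_univ _))
    have hx : ∀ j, x j ∈ univ.image w ∪ univ.image x := fun j =>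
      mem_union_right _ (mem_image_of_mem _ (mem_univ _))
    rcases mem_union.1 hy with hy | hy
    · obtain ⟨i, -, rfl⟩ := mem_image.1 hy
      rw [p.nw i] at hz
      simp only [mem_insert, mem_singleton] at hz
      rcases hz with rfl | rfl | rfl | rfl
      · exact hw _
      · exact hw _
      · exact hw _
      · exact hx _
    · obtain ⟨i, -, rfl⟩ := mem_image.1 hy
      have hz := p.nx c h3 h4 i hz
      simp only [mem_insert, mem_singleton] at hz
      rcases hz with rfl | rfl | rfl | rfl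
      · exact hx _
      · exact hw _
      · exact hx _
      · exact hx _

end

end M11

/-- No cycle with five vertices. -/
theorem no5 {V : Type*} [DecidableEq V] [Fintype V] {N : V → Finset V} (c : Cb N) (h3 : No3 N)
    (h4 : No4 N) : No5 N := by
  intro a b d e f hnd hab hbd hde hef hfa
  simp only [List.nodup_cons, List.mem_cons, List.not_mem_nil, or_false, not_or,
    List.nodup_nil, and_true, not_false_eq_true] at hnd
  obtain ⟨⟨a1, a2, a3, a4⟩, ⟨b1, b2, b3⟩, ⟨d1, d2⟩, e1⟩ := hnd
  -- the cycle as a function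
  have hex : ∃ w : ZMod 5 → V, Function.Injective w ∧ ∀ i, w (i + 1) ∈ N (w i) := by
    refine ⟨(![a, b, d, e, f] : Fin 5 → V), ?_, ?_⟩
    · intro i j hij
      change Fin 5 at i
      change Fin 5 at j
      fin_cases i <;> fin_cases j <;> first | rfl | (exfalso; simp_all)
    · intro i
      change Fin 5 at i
      fin_cases i
      · exact hab
      · exact hbd
      · exact hde
      · exact hef
      · exact hfa
  obtain ⟨w, wi, wn⟩ := hex
  have h5 : (5 : ZMod 5) = 0 := by decide
  have nei : ∀ i a b : ZMod 5, a ≠ b → w (i + a) ≠ w (i + b) := by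
    intro i a b hab h
    exact hab (add_left_cancel (wi h))
  have wn' : ∀ i, w (i - 1) ∈ N (w i) := by
    intro i
    have := wn (i - 1)
    rw [sub_add_cancel] at this
    exact c.symm _ _ this
  have hx : ∀ i, ∃ r, r ≠ w i ∧ r ≠ w (i + 1) ∧ r ≠ w (i - 1) ∧
      N (w i) = {w i, w (i + 1), w (i - 1), r} := by
    intro i
    refine nb_third (c.reg _) (c.refl _) (wn i) ?_ (wn' i) ?_ ?_
    · have := nei i 1 0 (by decide)
      simpa using this
    · have := nei i (-1) 0 (by decide)
      simpa [sub_eq_add_neg] using this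
    · have := nei i 1 (-1) (by decide)
      simpa [sub_eq_add_neg] using this
  choose x x1 x2 x3 x4 using hx
  have xm : ∀ i, x i ∈ N (w i) := fun i => by rw [x4 i]; simp
  -- outer neighbours are not on the cycle
  have wne : ∀ i, w i ≠ w (i + 1) := fun i => by
    have := nei i 0 1 (by decide)
    simpa using this
  have wne2 : ∀ i, w i ≠ w (i + 2) := fun i => by
    have := nei i 0 2 (by decide)
    simpa using this
  have ee : ∀ i : ZMod 5, i + 1 + 1 = i + 2 := fun i => by ring
  have y2 : ∀ i, x i ≠ w (i + 2) := by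
    intro i h
    have h6 := xm i
    rw [h] at h6
    have h7 := wn (i + 1)
    rw [ee] at h7
    have h8 := wne (i + 1)
    rw [ee] at h8
    exact h3 (w i) (w (i + 1)) (w (i + 2)) (wne i) h8 (wne2 i) (wn i) h7 h6
  have y3 : ∀ i, x i ≠ w (i + 3) := by
    intro i h
    have h6 := xm i
    rw [h] at h6
    have e5 : i + 3 + 1 = i - 1 := by linear_combination h5
    have e6 : i + 3 + 2 = i := by linear_combination h5
    have h7 := wn (i + 3)
    rw [e5] at h7
    have h8 := wne (i + 3)
    rw [e5] at h8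
    have h9 := wne2 (i + 3)
    rw [e6] at h9
    have h10 : w i ≠ w (i - 1) := by
      have := nei i 0 (-1) (by decide)
      simpa [sub_eq_add_neg] using this
    exact h3 (w i) (w (i - 1)) (w (i + 3)) h10 h8.symm h9.symm (wn' i) (c.symm _ _ h7) h6
  have hwx : ∀ i j, w i ≠ x j := by
    intro i j h
    have hcase : ∀ i j : ZMod 5, i = j ∨ i = j + 1 ∨ i = j + 2 ∨ i = j + 3 ∨ i = j - 1 := by
      decide
    rcases hcase i j with rfl | rfl | rfl | rfl | rfl
    · exact x1 _ h.symm
    · exact x2 _ h.symm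
    · exact y2 _ h.symm
    · exact y3 _ h.symm
    · exact x3 _ h.symm
  have z1 : ∀ i, x i ≠ x (i + 1) := by
    intro i h
    have h6 := xm (i + 1)
    rw [← h] at h6
    exact h3 (w i) (w (i + 1)) (x i) (wne i) (hwx _ _) (hwx _ _) (wn i) h6 (xm i)
  have z2 : ∀ i, x i ≠ x (i + 2) := by
    intro i h
    have h6 := xm (i + 2)
    rw [← h] at h6
    have h7 := wn (i + 1)
    rw [ee] at h7
    have h8 := wne (i + 1)
    rw [ee] at h8
    exact h4 (w i) (w (i + 1)) (w (i + 2)) (x i)
      (by simp [wne i, wne2 i, hwx, h8]) (wn i) h7 h6 (c.symm _ _ (xm i))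
  have hxi : Function.Injective x := by
    intro i j h
    by_contra hne
    have hcase : ∀ i j : ZMod 5, i ≠ j → j = i + 1 ∨ j = i + 2 ∨ i = j + 1 ∨ i = j + 2 := by
      decide
    rcases hcase i j hne with rfl | rfl | rfl | rfl
    · exact z1 _ h
    · exact z2 _ h
    · exact z1 _ h.symm
    · exact z2 _ h.symm
  exact M11.Pent.absurd c h3 h4 ⟨x4, wi, hxi, hwx⟩

end Pool.Agent.Star.K4
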