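import Pool.Agent.Star.K4.M11a

/-!
# `K = 4`, module M11b: no cycle with six vertices
-/

set_option autoImplicit false
set_option linter.unusedSectionVars false
set_option linter.unusedVariables false

namespace Pool.Agent.Star.K4

open Finset Rig

/-- No cycle with six vertices. -/
theorem no6 {V : Type*} [DecidableEq V] [Fintype V] {N : V → Finset V} (c : Cb N) (h3 : No3 N)
    (h4 : No4 N) (h5' : No5 N) : No6 N := by
  intro a b d e f g hnd hab hbd hde hef hfg hga
  simp only [List.nodup_cons, List.mem_cons, List.not_mem_nil, or_false, not_or,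
    List.nodup_nil, and_true, not_false_eq_true] at hnd
  obtain ⟨⟨a1, a2, a3, a4, a5⟩, ⟨b1, b2, b3, b4⟩, ⟨d1, d2, d3⟩, ⟨e1, e2⟩, f1⟩ := hnd
  -- the cycle as a function
  have hex : ∃ w : ZMod 6 → V, Function.Injective w ∧ ∀ i, w (i + 1) ∈ N (w i) := by
    refine ⟨(![a, b, d, e, f, g] : Fin 6 → V), ?_, ?_⟩
    · intro i j hij
      change Fin 6 at i
      change Fin 6 at j
      fin_cases i <;> fin_cases j <;> first | rfl | (exfalso; simp_all)
    · intro i
      change Fin 6 at i
      fin_cases i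
      · exact hab
      · exact hbd
      · exact hde
      · exact hef
      · exact hfg
      · exact hga
  obtain ⟨w, wi, wn⟩ := hex
  have h6 : (6 : ZMod 6) = 0 := by decide
  have nei : ∀ i a b : ZMod 6, a ≠ b → w (i + a) ≠ w (i + b) := by
    intro i a b hab h
    exact hab (add_left_cancel (wi h))
  have wn' : ∀ i, w (i - 1) ∈ N (w i) := by
    intro i
    have := wn (i - 1)
    rw [sub_add_cancel] at this
    exact c.symm _ _ this
  have hx : ∀ i, ∃ r, r ≠ w i ∧ r ≠ w (i + 1) ∧ r ≠ w (i - 1) ∧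
      N (w i) = {w i, w (i + 1), w (i - 1), r} := by
    intro i
    refine nb_third (c.reg _) (c.refl _) (wn i) ?_ (wn' i) ?_ ?_
    · have := nei i 1 0 (by decide)
      simpa using this
    · have := nei i (-1) 0 (by decide)
      simpa [sub_eq_add_neg] using this
    · have := nei i 1 (-1) (by decide)
      simpa [sub_eq_add_neg] using this
  choose x x1 x2 x3 x4 using hx
  have xm : ∀ i, x i ∈ N (w i) := fun i => by rw [x4 i]; simp
  have nwm : ∀ j y, y ∈ N (w j) ↔ y = w j ∨ y = w (j + 1) ∨ y = w (j - 1) ∨ y = x j := by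
    intro j y
    rw [x4 j]
    simp only [mem_insert, mem_singleton]
  -- a walk along the cycle
  have ee : ∀ i : ZMod 6, i + 1 + 1 = i + 2 := fun i => by ring
  have e3 : ∀ i : ZMod 6, i + 2 + 1 = i + 3 := fun i => by ring
  have wne : ∀ i, w i ≠ w (i + 1) := fun i => by
    have := nei i 0 1 (by decide)
    simpa using this
  have wne2 : ∀ i, w i ≠ w (i + 2) := fun i => by
    have := nei i 0 2 (by decide)
    simpa using this
  have wne3 : ∀ i, w i ≠ w (i + 3) := fun i => by
    have := nei i 0 3 (by decide)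
    simpa using this
  have w12 : ∀ i, w (i + 1) ≠ w (i + 2) := fun i => nei i 1 2 (by decide)
  have w13 : ∀ i, w (i + 1) ≠ w (i + 3) := fun i => nei i 1 3 (by decide)
  have w23 : ∀ i, w (i + 2) ≠ w (i + 3) := fun i => nei i 2 3 (by decide)
  have wn2 : ∀ i, w (i + 2) ∈ N (w (i + 1)) := fun i => by
    have := wn (i + 1)
    rwa [ee] at this
  have wn3 : ∀ i, w (i + 3) ∈ N (w (i + 2)) := fun i => by
    have := wn (i + 2)
    rwa [e3] at this
  -- outer neighbours are not on the cycle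
  have y2 : ∀ i, w (i + 2) ∉ N (w i) := by
    intro i h
    exact h3 (w i) (w (i + 1)) (w (i + 2)) (wne i) (w12 i) (wne2 i) (wn i) (wn2 i) h
  have y3 : ∀ i, w (i + 3) ∉ N (w i) := by
    intro i h
    exact h4 (w i) (w (i + 1)) (w (i + 2)) (w (i + 3))
      (by simp [wne i, wne2 i, wne3 i, w12 i, w13 i, w23 i]) (wn i) (wn2 i) (wn3 i)
      (c.symm _ _ h)
  have y4 : ∀ i, w (i - 2) ∉ N (w i) := by
    intro i h
    apply y2 (i - 2)
    rw [sub_add_cancel]
    exact c.symm _ _ h
  have hwx : ∀ i j, w i ≠ x j := by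
    intro i j h
    have hcase : ∀ i j : ZMod 6, i = j ∨ i = j + 1 ∨ i = j + 2 ∨ i = j + 3 ∨ i = j - 2 ∨
        i = j - 1 := by
      decide
    rcases hcase i j with rfl | rfl | rfl | rfl | rfl | rfl
    · exact x1 _ h.symm
    · exact x2 _ h.symm
    · exact y2 _ (h ▸ xm j)
    · exact y3 _ (h ▸ xm j)
    · exact y4 _ (h ▸ xm j)
    · exact x3 _ h.symm
  have z1 : ∀ i, x i ≠ x (i + 1) := by
    intro i h
    have h7 := xm (i + 1)
    rw [← h] at h7
    exact h3 (w i) (w (i + 1)) (x i) (wne i) (hwx _ _) (hwx _ _) (wn i) h7 (xm i)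
  have z2 : ∀ i, x i ≠ x (i + 2) := by
    intro i h
    have h7 := xm (i + 2)
    rw [← h] at h7
    exact h4 (w i) (w (i + 1)) (w (i + 2)) (x i)
      (by simp [wne i, wne2 i, hwx, w12 i]) (wn i) (wn2 i) h7 (c.symm _ _ (xm i))
  have z3 : ∀ i, x i ≠ x (i + 3) := by
    intro i h
    have h7 := xm (i + 3)
    rw [← h] at h7
    exact h5' (w i) (w (i + 1)) (w (i + 2)) (w (i + 3)) (x i)
      (by simp [wne i, wne2 i, wne3 i, w12 i, w13 i, w23 i, hwx]) (wn i) (wn2 i) (wn3 i) h7
      (c.symm _ _ (xm i))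
  have hxi : Function.Injective x := by
    intro i j h
    by_contra hne
    have hcase : ∀ i j : ZMod 6, i ≠ j → j = i + 1 ∨ j = i + 2 ∨ j = i + 3 ∨ i = j + 1 ∨
        i = j + 2 := by
      decide
    rcases hcase i j hne with rfl | rfl | rfl | rfl | rfl
    · exact z1 _ h
    · exact z2 _ h
    · exact z3 _ h
    · exact z1 _ h.symm
    · exact z2 _ h.symm
  -- outer neighbours at distance two on the cycle are not adjacent
  have u2 : ∀ i, x (i + 2) ∉ N (x i) := by
    intro i h
    exact h5' (w i) (w (i + 1)) (w (i + 2)) (x (i + 2)) (x i)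
      (by simp [wne i, wne2 i, w12 i, hwx, (z2 i).symm]) (wn i) (wn2 i) (xm _) (c.symm _ _ h)
      (c.symm _ _ (xm i))
  -- the counting
  have key : ∀ k, k ∈ N (x 0) → k ≠ x 0 → k ≠ w 0 → k = x 3 ∨ x 3 ∈ N k := by
    intro k hk hkx hkw
    by_contra hcon
    push Not at hcon
    obtain ⟨k1, k2⟩ := hcon
    have hxk : x 0 ∈ N k := c.symm _ _ hk
    have hkw' : ∀ j, k ≠ w j := by
      rintro j rfl
      rcases (nwm j _).1 (c.symm _ _ hk) with h | h | h | h
      · exact hwx _ _ h.symm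
      · exact hwx _ _ h.symm
      · exact hwx _ _ h.symm
      · rw [hxi h] at hkw
        exact hkw rfl
    have nk : ∀ j, w j ∈ N k → k = x j := by
      intro j hj
      rcases (nwm j _).1 (c.symm _ _ hj) with h | h | h | h
      · exact absurd h (hkw' _)
      · exact absurd h (hkw' _)
      · exact absurd h (hkw' _)
      · exact h
    have n3 : ∀ y, y ∈ N (w 3) ↔ y = w 3 ∨ y = w 4 ∨ y = w 2 ∨ y = x 3 := fun y => nwm 3 y
    have n0 : ∀ y, y ∈ N (w 0) ↔ y = w 0 ∨ y = w 1 ∨ y = w 5 ∨ y = x 0 := fun y => nwm 0 y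
    have n1 : ∀ y, y ∈ N (w 1) ↔ y = w 1 ∨ y = w 2 ∨ y = w 0 ∨ y = x 1 := fun y => nwm 1 y
    have n5 : ∀ y, y ∈ N (w 5) ↔ y = w 5 ∨ y = w 0 ∨ y = w 4 ∨ y = x 5 := fun y => nwm 5 y
    have w23' : w 2 ∈ N (w 3) := (n3 _).2 (by simp)
    have w43' : w 4 ∈ N (w 3) := (n3 _).2 (by simp)
    have w12' : w 2 ∈ N (w 1) := (n1 _).2 (by simp)
    have w54' : w 4 ∈ N (w 5) := (n5 _).2 (by simp)
    refine M11.dead7 c h3 h4 (z1 := w 3) (z2 := k) (v := w 0) (b := x 0) ?_ ?_ ?_ ?_ hxk
      (c.symm _ _ (xm 0)) ?_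
    · rw [disjoint_left]
      intro y hy hyk
      rcases (n3 y).1 hy with rfl | rfl | rfl | rfl
      · exact k1 (nk _ hyk)
      · have h7 := nk _ hyk
        subst h7
        have h8 := u2 4
        exact h8 (c.symm _ _ hk)
      · have h7 := nk _ hyk
        subst h7
        exact u2 0 hk
      · exact k2 hyk
    · intro h
      rcases (n3 _).1 h with h | h | h | h
      · exact absurd (wi h) (by decide)
      · exact absurd (wi h) (by decide)
      · exact absurd (wi h) (by decide)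
      · exact hwx _ _ h
    · intro h
      exact hkx (nk _ h)
    · intro y hy
      rcases (n0 y).1 hy with rfl | rfl | rfl | rfl
      · exact Or.inr ⟨_, xm 0, hxk⟩
      · exact Or.inl ⟨_, w12', w23'⟩
      · exact Or.inl ⟨_, w54', w43'⟩
      · exact Or.inr ⟨_, c.refl _, hxk⟩
    · intro y hy hyv hyk
      rcases (n0 y).1 hy with rfl | rfl | rfl | rfl
      · exact absurd rfl hyv
      · exact ⟨_, w12', w23'⟩
      · exact ⟨_, w54', w43'⟩
      · exact absurd hxk hyk
  obtain ⟨k, k', q1, q2, q3, q4, q5, q6⟩ := nb_split (c.reg (x 0)) (c.refl (x 0))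
    (c.symm _ _ (xm 0)) (hwx 0 0)
  have hk : k ∈ N (x 0) := by rw [q6]; simp
  have hk' : k' ∈ N (x 0) := by rw [q6]; simp
  have hx03 : x 0 ≠ x 3 := fun h => absurd (hxi h) (by decide)
  rcases key k hk q1 q3 with rfl | h
  · rcases key k' hk' q2 q4 with rfl | h'
    · exact q5 rfl
    · exact h3 (x 0) (x 3) k' hx03 q5 q2.symm hk (c.symm _ _ h') hk'
  · rcases key k' hk' q2 q4 with rfl | h'
    · exact h3 (x 0) (x 3) k hx03 q5.symm q1.symm hk' (c.symm _ _ h) hk
    · by_cases g1 : k = x 3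
      · subst g1
        exact h3 (x 0) (x 3) k' hx03 q5 q2.symm hk (c.symm _ _ h') hk'
      · by_cases g2 : k' = x 3
        · subst g2
          exact h3 (x 0) (x 3) k hx03 q5.symm q1.symm hk' (c.symm _ _ h) hk
        · exact h4 (x 0) k (x 3) k' (by simp [q1.symm, hx03, q2.symm, g1, q5, Ne.symm g2]) hk h
            (c.symm _ _ h') (c.symm _ _ hk')

end Pool.Agent.Star.K4
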