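import Pool.Agent.Star.K4.Tools

/-!
# `K = 4`, module M12: girth at least seven is impossible
-/

set_option autoImplicit false
set_option linter.unusedSectionVars false
set_option linter.unusedVariables false

namespace Pool.Agent.Star.K4

open Finset Rig

namespace M12

section
variable {V : Type*} [DecidableEq V] [Fintype V] {N : V → Finset V}

/-- The other two elements of a set with four elements. -/
lemma enum2 {S : Finset V} (h : S.card = 4) {a b : V} (ha : a ∈ S) (hb : b ∈ S) (hab : a ≠ b) :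
    ∃ c d, c ≠ d ∧ c ≠ a ∧ c ≠ b ∧ d ≠ a ∧ d ≠ b ∧ c ∈ S ∧ d ∈ S ∧
      ∀ x ∈ S, x = a ∨ x = b ∨ x = c ∨ x = d := by
  have h1 : ((S.erase a).erase b).card = 2 := by
    rw [Finset.card_erase_of_mem (Finset.mem_erase.2 ⟨hab.symm, hb⟩),
      Finset.card_erase_of_mem ha, h]
  obtain ⟨c, d, hcd, he⟩ := Finset.card_eq_two.1 h1
  have hc : c ∈ (S.erase a).erase b := by rw [he]; simp
  have hd : d ∈ (S.erase a).erase b := by rw [he]; simp
  simp only [Finset.mem_erase] at hc hd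
  refine ⟨c, d, hcd, hc.2.1, hc.1, hd.2.1, hd.1, hc.2.2, hd.2.2, ?_⟩
  intro x hx
  by_cases hxa : x = a
  · exact Or.inl hxa
  by_cases hxb : x = b
  · exact Or.inr (Or.inl hxb)
  have h2 : x ∈ (S.erase a).erase b := by simp [hxa, hxb, hx]
  rw [he] at h2
  simp only [Finset.mem_insert, Finset.mem_singleton] at h2
  exact Or.inr (Or.inr h2)

/-- The union of `Y` and optimal sets of the components hits everything. -/
lemma le_sum (g : Gen N) {F Y : Finset V} {P : Finset (Finset V)} (c : Cfg N F Y P) :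
    fv N univ ≤ Y.card + ∑ U ∈ P, fv N U := by
  choose D hD hk hc using g.opt
  have h1 := g.lower (Y ∪ P.biUnion D) (by
    intro x hx _
    by_cases hF : ∃ z ∈ N x, z ∈ F
    · obtain ⟨y, hy, z, hz, hzy⟩ := c.dead x hx hF
      exact ⟨y, Finset.mem_union_left _ hy, z, hz, hzy⟩
    · push Not at hF
      obtain ⟨U, hU, hs⟩ := c.star g.refl hF
      obtain ⟨d, hd, z, hz, hzd⟩ := hk U x hx hs
      exact ⟨d, Finset.mem_union_right _ (Finset.mem_biUnion.2 ⟨U, hU, hd⟩), z, hz, hzd⟩)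
  calc fv N univ ≤ (Y ∪ P.biUnion D).card := h1
    _ ≤ Y.card + (P.biUnion D).card := Finset.card_union_le _ _
    _ ≤ Y.card + ∑ U ∈ P, (D U).card := Nat.add_le_add_left Finset.card_biUnion_le _
    _ = Y.card + ∑ U ∈ P, fv N U := by simp only [hc]

/-- If `9 |Y| ≤ 2 |F|`, then some component is exceptional. -/
lemma exists_A (g : Gen N) {F Y : Finset V} {P : Finset (Finset V)} (c : Cfg N F Y P)
    (hF : 9 * Y.card ≤ 2 * F.card) : ∃ L ∈ P, ExA N L := by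
  by_contra hcon
  push Not at hcon
  have h1 := le_sum g c
  have h2 : 9 * ∑ U ∈ P, fv N U ≤ 2 * ∑ U ∈ P, U.card := by
    rw [Finset.mul_sum, Finset.mul_sum]
    apply Finset.sum_le_sum
    intro U hU
    rcases g.val U (c.ne_univ hU) (c.conn hU) with h | h
    · exact absurd h (hcon U hU)
    · omega
  have h3 := c.card_compl
  have h4 := g.ex
  omega

/-- Girth at least seven, in a convenient form. -/
structure G7 (N : V → Finset V) : Prop where
  c3 : ∀ a b c, a ≠ b → b ≠ c → a ≠ c → b ∈ N a → c ∈ N b → c ∈ N a → False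
  c4 : ∀ a b c d, a ≠ b → a ≠ c → a ≠ d → b ≠ c → b ≠ d → c ≠ d →
    b ∈ N a → c ∈ N b → d ∈ N c → a ∈ N d → False
  c5 : ∀ a b c d e, a ≠ b → a ≠ c → a ≠ d → a ≠ e → b ≠ c → b ≠ d → b ≠ e → c ≠ d → c ≠ e →
    d ≠ e → b ∈ N a → c ∈ N b → d ∈ N c → e ∈ N d → a ∈ N e → False
  c6 : ∀ a b c d e f, a ≠ b → a ≠ c → a ≠ d → a ≠ e → a ≠ f → b ≠ c → b ≠ d → b ≠ e → b ≠ f →
    c ≠ d → c ≠ e → c ≠ f → d ≠ e → d ≠ f → e ≠ f →
    b ∈ N a → c ∈ N b → d ∈ N c → e ∈ N d → f ∈ N e → a ∈ N f → False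

lemma G7.of (h3 : No3 N) (h4 : No4 N) (h5 : No5 N) (h6 : No6 N) : G7 N := by
  refine ⟨h3, ?_, ?_, ?_⟩
  · intro a b c d _ _ _ _ _ _
    exact h4 a b c d (by simp [*])
  · intro a b c d e _ _ _ _ _ _ _ _ _ _
    exact h5 a b c d e (by simp [*])
  · intro a b c d e f _ _ _ _ _ _ _ _ _ _ _ _ _ _ _
    exact h6 a b c d e f (by simp [*])

/-- The outer neighbours of a cubic star. -/
def outer (N : V → Finset V) (t : V) : Finset V :=
  ((N t).erase t).biUnion (fun l => ((N l).erase l).erase t)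

lemma outer_card (c : Cb N) (g : G7 N) (t : V) : (outer N t).card = 6 := by
  unfold outer
  rw [Finset.card_biUnion]
  · have h1 : ∀ l ∈ (N t).erase t, (((N l).erase l).erase t).card = 2 := by
      intro l hl
      obtain ⟨h1, h2⟩ := Finset.mem_erase.1 hl
      have h3 : (N l).card = 4 := c.reg l
      rw [Finset.card_erase_of_mem (Finset.mem_erase.2 ⟨h1.symm, c.symm _ _ h2⟩),
        Finset.card_erase_of_mem (c.refl l), h3]
    rw [Finset.sum_congr rfl h1, Finset.sum_const, Finset.card_erase_of_mem (c.refl t)]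
    have h3 : (N t).card = 4 := c.reg t
    rw [h3]
    rfl
  · intro l hl l' hl' hne
    show Disjoint (((N l).erase l).erase t) (((N l').erase l').erase t)
    rw [Finset.disjoint_left]
    intro e he he'
    rw [Finset.mem_coe, Finset.mem_erase] at hl hl'
    simp only [Finset.mem_erase] at he he'
    exact g.c4 t l e l' hl.1.symm he.1.symm hl'.1.symm he.2.1.symm hne he'.2.1
      hl.2 he.2.2 (c.symm _ _ he'.2.2) (c.symm _ _ hl'.2)

lemma outer_spec {t e : V} (c : Cb N) (g : G7 N) (he : e ∈ outer N t) :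
    e ∉ N t ∧ ∃ l ∈ N t, l ≠ t ∧ e ∈ N l := by
  unfold outer at he
  obtain ⟨l, hl, he⟩ := Finset.mem_biUnion.1 he
  rw [Finset.mem_erase] at hl
  simp only [Finset.mem_erase] at he
  exact ⟨fun h => g.c3 t l e hl.1.symm he.2.1.symm he.1.symm hl.2 he.2.2 h,
    l, hl.2, hl.1, he.2.2⟩

lemma side (c : Cb N) (g : G7 N) {w w' x y : V} (hw : w ≠ w') (hww : w' ∈ N w) (hx : x ∈ N w)
    (h1 : x ≠ w) (h2 : x ≠ w') (hy : y ∈ N x) (h3 : y ≠ x) (h4 : y ≠ w) :
    y ≠ w' ∧ w ∉ N y ∧ w' ∉ N y := by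
  have h5 : y ≠ w' := by
    rintro rfl
    exact g.c3 w x y h1.symm h2 hw hx hy hww
  refine ⟨h5, ?_, ?_⟩
  · intro h
    exact g.c3 w x y h1.symm h3.symm h4.symm hx hy (c.symm _ _ h)
  · intro h
    exact g.c4 w x y w' h1.symm h4.symm hw h3.symm h2 h5 hx hy h (c.symm _ _ hww)

/-- No choice without conflicts. -/
lemma main (c : Cb N) (g : G7 N) {w w' x1 x2 x3 x4 y1 y2 y3 y4 : V} (hw : w ≠ w') (hww : w' ∈ N w)
    (hx1 : x1 ∈ N w) (hx2 : x2 ∈ N w) (hx3 : x3 ∈ N w') (hx4 : x4 ∈ N w')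
    (h12 : x1 ≠ x2) (h34 : x3 ≠ x4) (h1w : x1 ≠ w) (h1w' : x1 ≠ w') (h2w : x2 ≠ w)
    (h2w' : x2 ≠ w') (h3w : x3 ≠ w) (h3w' : x3 ≠ w') (h4w : x4 ≠ w) (h4w' : x4 ≠ w')
    (hy1 : y1 ∈ N x1) (hy2 : y2 ∈ N x2) (hy3 : y3 ∈ N x3) (hy4 : y4 ∈ N x4)
    (e1 : y1 ≠ x1) (e2 : y2 ≠ x2) (e3 : y3 ≠ x3) (e4 : y4 ≠ x4)
    (f1 : y1 ≠ w) (f2 : y2 ≠ w) (f3 : y3 ≠ w') (f4 : y4 ≠ w')
    (d12 : Disjoint (N y1) (N y2)) (d13 : Disjoint (N y1) (N y3)) (d14 : Disjoint (N y1) (N y4))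
    (d23 : Disjoint (N y2) (N y3)) (d24 : Disjoint (N y2) (N y4))
    (d34 : Disjoint (N y3) (N y4)) : False := by
  classical
  have sy := c.symm
  have rf := c.refl
  have hww' : w ∈ N w' := sy _ _ hww
  have Nw : ∀ x ∈ N w, x = w ∨ x = w' ∨ x = x1 ∨ x = x2 := by
    obtain ⟨a, b, hab, h1, h2, h3, h4, ha, hb, hall⟩ := enum2 (c.reg w) (rf w) hww hw
    intro x hx
    rcases hall x hx with h | h | h | h
    · exact Or.inl h
    · exact Or.inr (Or.inl h)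
    · subst h
      rcases hall x1 hx1 with h | h | h | h
      · exact absurd h h1w
      · exact absurd h h1w'
      · exact Or.inr (Or.inr (Or.inl h.symm))
      · rcases hall x2 hx2 with h' | h' | h' | h'
        · exact absurd h' h2w
        · exact absurd h' h2w'
        · exact Or.inr (Or.inr (Or.inr h'.symm))
        · exact absurd (h.trans h'.symm) h12
    · subst h
      rcases hall x1 hx1 with h | h | h | h
      · exact absurd h h1w
      · exact absurd h h1w'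
      · rcases hall x2 hx2 with h' | h' | h' | h'
        · exact absurd h' h2w
        · exact absurd h' h2w'
        · exact absurd (h.trans h'.symm) h12
        · exact Or.inr (Or.inr (Or.inr h'.symm))
      · exact Or.inr (Or.inr (Or.inl h.symm))
  have Nw' : ∀ x ∈ N w', x = w' ∨ x = w ∨ x = x3 ∨ x = x4 := by
    obtain ⟨a, b, hab, h1, h2, h3, h4, ha, hb, hall⟩ := enum2 (c.reg w') (rf w') hww' hw.symm
    intro x hx
    rcases hall x hx with h | h | h | h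
    · exact Or.inl h
    · exact Or.inr (Or.inl h)
    · subst h
      rcases hall x3 hx3 with h | h | h | h
      · exact absurd h h3w'
      · exact absurd h h3w
      · exact Or.inr (Or.inr (Or.inl h.symm))
      · rcases hall x4 hx4 with h' | h' | h' | h'
        · exact absurd h' h4w'
        · exact absurd h' h4w
        · exact Or.inr (Or.inr (Or.inr h'.symm))
        · exact absurd (h.trans h'.symm) h34
    · subst h
      rcases hall x3 hx3 with h | h | h | h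
      · exact absurd h h3w'
      · exact absurd h h3w
      · rcases hall x4 hx4 with h' | h' | h' | h'
        · exact absurd h' h4w'
        · exact absurd h' h4w
        · exact absurd (h.trans h'.symm) h34
        · exact Or.inr (Or.inr (Or.inr h'.symm))
      · exact Or.inr (Or.inr (Or.inl h.symm))
  obtain ⟨-, a1, a1'⟩ := side c g hw hww hx1 h1w h1w' hy1 e1 f1
  obtain ⟨-, a2, a2'⟩ := side c g hw hww hx2 h2w h2w' hy2 e2 f2
  obtain ⟨-, a3', a3⟩ := side c g hw.symm hww' hx3 h3w' h3w hy3 e3 f3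
  obtain ⟨-, a4', a4⟩ := side c g hw.symm hww' hx4 h4w' h4w hy4 e4 f4
  -- the elements of `F`
  set F : Finset V := insert w (insert w' (N y1 ∪ (N y2 ∪ (N y3 ∪ N y4)))) with hF
  have memF : ∀ x, x ∈ F ↔ x = w ∨ x = w' ∨ x ∈ N y1 ∨ x ∈ N y2 ∨ x ∈ N y3 ∨ x ∈ N y4 := by
    intro x
    simp only [hF, Finset.mem_insert, Finset.mem_union]
  have cardF : F.card = 18 := by
    have c1 : (N y1).card = 4 := c.reg y1
    have c2 : (N y2).card = 4 := c.reg y2
    have c3 : (N y3).card = 4 := c.reg y3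
    have c4 : (N y4).card = 4 := c.reg y4
    rw [hF, Finset.card_insert_of_notMem, Finset.card_insert_of_notMem,
      Finset.card_union_of_disjoint, Finset.card_union_of_disjoint,
      Finset.card_union_of_disjoint d34, c1, c2, c3, c4]
    · exact Finset.disjoint_union_right.2 ⟨d23, d24⟩
    · exact Finset.disjoint_union_right.2 ⟨d12, Finset.disjoint_union_right.2 ⟨d13, d14⟩⟩
    · simp [a1', a2', a3', a4']
    · simp [a1, a2, a3, a4, hw]
  obtain ⟨P, hP⟩ := exists_comps (N := N) c.symm (univ \ F)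
  set Y : Finset V := {y1, y2, y3, y4} with hY
  have cardY : Y.card ≤ 4 := Finset.card_le_four
  have cfg : Cfg N F Y P := by
    refine ⟨hP, ⟨w, (memF w).2 (Or.inl rfl)⟩, ?_, ?_⟩
    · intro y hy x hx
      rw [memF]
      simp only [hY, Finset.mem_insert, Finset.mem_singleton] at hy
      rcases hy with rfl | rfl | rfl | rfl
      · simp [hx]
      · simp [hx]
      · simp [hx]
      · simp [hx]
    · intro d hd ⟨x, hxd, hxF⟩
      have i1 : y1 ∈ Y := by simp [hY]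
      have i2 : y2 ∈ Y := by simp [hY]
      have i3 : y3 ∈ Y := by simp [hY]
      have i4 : y4 ∈ Y := by simp [hY]
      have k1 : x1 ∈ N y1 := sy _ _ hy1
      have k2 : x2 ∈ N y2 := sy _ _ hy2
      have k3 : x3 ∈ N y3 := sy _ _ hy3
      have k4 : x4 ∈ N y4 := sy _ _ hy4
      rcases (memF x).1 hxF with h | h | h | h | h | h
      · subst h
        rcases Nw d (sy _ _ hxd) with h | h | h | h
        · subst h; exact ⟨y1, i1, x1, hx1, k1⟩
        · subst h; exact ⟨y3, i3, x3, hx3, k3⟩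
        · subst h; exact ⟨y1, i1, d, rf d, k1⟩
        · subst h; exact ⟨y2, i2, d, rf d, k2⟩
      · subst h
        rcases Nw' d (sy _ _ hxd) with h | h | h | h
        · subst h; exact ⟨y3, i3, x3, hx3, k3⟩
        · subst h; exact ⟨y1, i1, x1, hx1, k1⟩
        · subst h; exact ⟨y3, i3, d, rf d, k3⟩
        · subst h; exact ⟨y4, i4, d, rf d, k4⟩
      · exact ⟨y1, i1, x, hxd, h⟩
      · exact ⟨y2, i2, x, hxd, h⟩
      · exact ⟨y3, i3, x, hxd, h⟩
      · exact ⟨y4, i4, x, hxd, h⟩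
  obtain ⟨L, hL, hA⟩ := exists_A c.toGen cfg (by omega)
  obtain ⟨t, ht, rfl⟩ := c.exA L hA
  -- the outer neighbours of `t`
  have hout : ∀ e ∈ outer N t, ∃ y ∈ Y, e ∈ N y := by
    intro e he
    obtain ⟨h1, l, hl, hlt, hel⟩ := outer_spec c g he
    have h2 : e ∈ F := cfg.out hL hl hel h1
    have hlF : l ∉ F := cfg.notF hL hl
    rcases (memF e).1 h2 with h | h | h | h | h | h
    · subst h
      exfalso
      apply hlF
      rw [memF]
      rcases Nw l (sy _ _ hel) with h | h | h | h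
      · exact Or.inl h
      · exact Or.inr (Or.inl h)
      · subst h; simp [sy _ _ hy1]
      · subst h; simp [sy _ _ hy2]
    · subst h
      exfalso
      apply hlF
      rw [memF]
      rcases Nw' l (sy _ _ hel) with h | h | h | h
      · exact Or.inr (Or.inl h)
      · exact Or.inl h
      · subst h; simp [sy _ _ hy3]
      · subst h; simp [sy _ _ hy4]
    · exact ⟨y1, by simp [hY], h⟩
    · exact ⟨y2, by simp [hY], h⟩
    · exact ⟨y3, by simp [hY], h⟩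
    · exact ⟨y4, by simp [hY], h⟩
  choose! φ hφ hφ' using hout
  have h6 := outer_card c g t
  obtain ⟨e, he, e', he', hne, heq⟩ :=
    Finset.exists_ne_map_eq_of_card_lt_of_maps_to (s := outer N t) (t := Y) (f := φ) (by omega) hφ
  obtain ⟨p1, l, hl, hlt, hel⟩ := outer_spec c g he
  obtain ⟨p2, l', hl', hlt', hel'⟩ := outer_spec c g he'
  have q1 := hφ' e he
  have q2 := hφ' e' he'
  rw [← heq] at q2
  set y := φ e with hy
  have hyF : ∀ x ∈ N y, x ∈ F := cfg.nbh y (hφ e he)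
  have hlF : l ∉ F := cfg.notF hL hl
  have hlF' : l' ∉ F := cfg.notF hL hl'
  have htF : t ∉ F := cfg.notF hL (rf t)
  have heF : e ∈ F := cfg.out hL hl hel p1
  have heF' : e' ∈ F := cfg.out hL hl' hel' p2
  have hye : y ≠ e := by
    rintro h
    apply hlF
    apply hyF
    rw [h]
    exact sy _ _ hel
  have hye' : y ≠ e' := by
    rintro h
    apply hlF'
    apply hyF
    rw [h]
    exact sy _ _ hel'
  have hyF0 : y ∈ F := hyF y (rf y)
  have n1 : ∀ {a b : V}, a ∈ F → b ∉ F → a ≠ b := by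
    rintro a b ha hb rfl
    exact hb ha
  by_cases hll : l = l'
  · subst hll
    exact g.c4 y e l e' hye (n1 hyF0 hlF) hye' (n1 heF hlF) hne (n1 heF' hlF).symm
      q1 (sy _ _ hel) hel' (sy _ _ q2)
  · exact g.c6 y e l t l' e' hye (n1 hyF0 hlF) (n1 hyF0 htF) (n1 hyF0 hlF') hye'
      (n1 heF hlF) (n1 heF htF) (n1 heF hlF') hne hlt hll (n1 heF' hlF).symm
      hlt'.symm (n1 heF' htF).symm (n1 heF' hlF').symm
      q1 (sy _ _ hel) (sy _ _ hl) hl' hel' (sy _ _ q2)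

lemma enum4 {S : Finset V} (h : S.card = 4) {a b c d : V} (ha : a ∈ S) (hb : b ∈ S) (hc : c ∈ S)
    (hd : d ∈ S) (hab : a ≠ b) (hac : a ≠ c) (had : a ≠ d) (hbc : b ≠ c) (hbd : b ≠ d)
    (hcd : c ≠ d) : ∀ x ∈ S, x = a ∨ x = b ∨ x = c ∨ x = d := by
  have h1 : ({a, b, c, d} : Finset V) = S := by
    apply Finset.eq_of_subset_of_card_le
    · intro x hx
      simp only [Finset.mem_insert, Finset.mem_singleton] at hx
      rcases hx with rfl | rfl | rfl | rfl <;> assumption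
    · rw [h, Finset.card_insert_of_notMem (by simp [hab, hac, had]),
        Finset.card_insert_of_notMem (by simp [hbc, hbd]),
        Finset.card_insert_of_notMem (by simp [hcd]), Finset.card_singleton]
  intro x hx
  rw [← h1] at hx
  simpa using hx

/-- Vertices at distance three on different sides of an edge. -/
lemma far (c : Cb N) (g : G7 N) {w w' x x' y y' : V} (hw : w ≠ w') (hww : w' ∈ N w) (hx : x ∈ N w)
    (h1 : x ≠ w) (h2 : x ≠ w') (hy : y ∈ N x) (h3 : y ≠ x) (h4 : y ≠ w)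
    (hx' : x' ∈ N w') (h1' : x' ≠ w') (h2' : x' ≠ w) (hy' : y' ∈ N x') (h3' : y' ≠ x')
    (h4' : y' ≠ w') : y ∉ N x' ∧ y ∉ N y' := by
  have sy := c.symm
  have hww' : w ∈ N w' := sy _ _ hww
  have i1 : x ≠ x' := by
    rintro rfl
    exact g.c3 w w' x hw h1'.symm h1.symm hww hx' hx
  obtain ⟨i2, i3, i4⟩ := side c g hw hww hx h1 h2 hy h3 h4
  obtain ⟨j2, j3, j4⟩ := side c g hw.symm hww' hx' h1' h2' hy' h3' h4'
  have i5 : y ≠ x' := by
    rintro rfl
    exact g.c4 w x y w' h1.symm h4.symm hw h3.symm h2 i2 hx hy (sy _ _ hx') hww'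
  have i5' : y' ≠ x := by
    rintro rfl
    exact g.c4 w' x' y' w h1'.symm h4'.symm hw.symm h3'.symm h2' j2 hx' hy' (sy _ _ hx) hww
  have i6 : y ∉ N x' := fun h =>
    g.c5 w x y x' w' h1.symm h4.symm h2'.symm hw h3.symm i1 h2 i5 i2 h1' hx hy (sy _ _ h)
      (sy _ _ hx') hww'
  refine ⟨i6, fun h => ?_⟩
  have i7 : y ≠ y' := by
    rintro rfl
    exact i6 hy'
  exact g.c6 w x y y' x' w' h1.symm h4.symm j2.symm h2'.symm hw h3.symm i5'.symm i1 h2 i7 i5 i2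
    h3' h4' h1' hx hy (sy _ _ h) (sy _ _ hy') (sy _ _ hx') hww'

/-- Vertices at distance two on the same side of an edge. -/
lemma same (c : Cb N) (g : G7 N) {w x1 x2 y1 y2 : V} (hx1 : x1 ∈ N w) (hx2 : x2 ∈ N w)
    (h1 : x1 ≠ w) (h2 : x2 ≠ w) (h12 : x1 ≠ x2) (hy1 : y1 ∈ N x1) (hy2 : y2 ∈ N x2)
    (e1 : y1 ≠ x1) (e2 : y2 ≠ x2) (f1 : y1 ≠ w) (f2 : y2 ≠ w) : Disjoint (N y1) (N y2) := by
  have sy := c.symm
  have i1 : y1 ≠ x2 := by
    rintro rfl
    exact g.c3 w x1 y1 h1.symm h12 h2.symm hx1 hy1 hx2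
  have i2 : y2 ≠ x1 := by
    rintro rfl
    exact g.c3 w x2 y2 h2.symm h12.symm h1.symm hx2 hy2 hx1
  have i3 : y1 ∉ N x2 := fun h =>
    g.c4 w x1 y1 x2 h1.symm f1.symm h2.symm e1.symm h12 i1 hx1 hy1 (sy _ _ h) (sy _ _ hx2)
  have i4 : y2 ∉ N x1 := fun h =>
    g.c4 w x2 y2 x1 h2.symm f2.symm h1.symm e2.symm h12.symm i2 hx2 hy2 (sy _ _ h) (sy _ _ hx1)
  have i5 : y1 ≠ y2 := by
    rintro rfl
    exact i3 hy2
  have i6 : y2 ∉ N y1 := fun h =>
    g.c5 w x1 y1 y2 x2 h1.symm f1.symm f2.symm h2.symm e1.symm i2.symm h12 i5 i1 e2 hx1 hy1 h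
      (sy _ _ hy2) (sy _ _ hx2)
  rw [Finset.disjoint_left]
  intro z hz1 hz2
  have k1 : w ≠ z := by
    rintro rfl
    exact g.c3 w x1 y1 h1.symm e1.symm f1.symm hx1 hy1 (sy _ _ hz1)
  have k2 : x1 ≠ z := by
    rintro rfl
    exact i4 (sy _ _ hz2)
  have k3 : z ≠ x2 := by
    rintro rfl
    exact i3 (sy _ _ hz1)
  have k4 : y1 ≠ z := by
    rintro rfl
    exact i6 (sy _ _ hz2)
  have k5 : z ≠ y2 := by
    rintro rfl
    exact i6 hz1
  exact g.c6 w x1 y1 z y2 x2 h1.symm f1.symm k1 f2.symm h2.symm e1.symm k2 i2.symm h12 k4 i5 i1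
    k5 k3 e2 hx1 hy1 hz1 (sy _ _ hz2) (sy _ _ hy2) (sy _ _ hx2)

/-- A vertex conflicts with at most one of the two outer neighbours. -/
lemma pick (c : Cb N) (g : G7 N) {w w' x x' y : V} (hw : w ≠ w') (hww : w' ∈ N w) (hx : x ∈ N w)
    (h1 : x ≠ w) (h2 : x ≠ w') (hy : y ∈ N x) (h3 : y ≠ x) (h4 : y ≠ w)
    (hx' : x' ∈ N w') (h1' : x' ≠ w') (h2' : x' ≠ w) :
    ∃ y' ∈ N x', y' ≠ x' ∧ y' ≠ w' ∧ Disjoint (N y) (N y') := by
  have sy := c.symm
  obtain ⟨p, q, hpq, hp1, hp2, hq1, hq2, hp, hq, -⟩ :=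
    enum2 (c.reg x') (c.refl x') (sy _ _ hx') h1'
  by_contra hcon
  push Not at hcon
  have hcp := hcon p hp hp1 hp2
  have hcq := hcon q hq hq1 hq2
  rw [Finset.not_disjoint_iff] at hcp hcq
  obtain ⟨z, hz1, hz2⟩ := hcp
  obtain ⟨z', hz1', hz2'⟩ := hcq
  obtain ⟨k1, k2⟩ := far c g hw hww hx h1 h2 hy h3 h4 hx' h1' h2' hp hp1 hp2
  obtain ⟨-, k3⟩ := far c g hw hww hx h1 h2 hy h3 h4 hx' h1' h2' hq hq1 hq2
  have zx : x' ≠ z := by
    rintro rfl
    exact k1 (sy _ _ hz1)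
  have zx' : z' ≠ x' := by
    rintro rfl
    exact k1 (sy _ _ hz1')
  have yx : x' ≠ y := by
    rintro rfl
    exact k1 (c.refl _)
  have zp : p ≠ z := by
    rintro rfl
    exact k2 (sy _ _ hz1)
  have zq : z ≠ q := by
    rintro rfl
    exact k3 (sy _ _ hz1)
  have zp' : p ≠ z' := by
    rintro rfl
    exact k2 (sy _ _ hz1')
  have zq' : z' ≠ q := by
    rintro rfl
    exact k3 (sy _ _ hz1')
  have yp : p ≠ y := by
    rintro rfl
    exact k1 hp
  have yq : y ≠ q := by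
    rintro rfl
    exact k1 hq
  have yz : z ≠ y := by
    rintro rfl
    exact k2 hz2
  have yz' : y ≠ z' := by
    rintro rfl
    exact k3 hz2'
  by_cases hzz : z = z'
  · subst hzz
    exact g.c4 x' p z q hp1.symm zx hq1.symm zp hpq zq hp hz2 (sy _ _ hz2') (sy _ _ hq)
  · exact g.c6 x' p z y z' q hp1.symm zx yx zx'.symm hq1.symm zp yp zp' hpq yz hzz zq
      yz' yq zq' hp hz2 (sy _ _ hz1) hz1' (sy _ _ hz2') (sy _ _ hq)

/-- Every outer vertex has a conflict with each of the opposite branches. -/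
lemma step (c : Cb N) (g : G7 N) {w w' x1 x2 x3 x4 y1 : V} (hw : w ≠ w') (hww : w' ∈ N w)
    (hx1 : x1 ∈ N w) (hx2 : x2 ∈ N w) (hx3 : x3 ∈ N w') (hx4 : x4 ∈ N w')
    (h12 : x1 ≠ x2) (h34 : x3 ≠ x4) (h1w : x1 ≠ w) (h1w' : x1 ≠ w') (h2w : x2 ≠ w)
    (h2w' : x2 ≠ w') (h3w : x3 ≠ w) (h3w' : x3 ≠ w') (h4w : x4 ≠ w) (h4w' : x4 ≠ w')
    (hy1 : y1 ∈ N x1) (e1 : y1 ≠ x1) (f1 : y1 ≠ w) :
    ∃ y3 ∈ N x3, y3 ≠ x3 ∧ y3 ≠ w' ∧ ¬ Disjoint (N y1) (N y3) := by
  by_contra hcon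
  push Not at hcon
  have hww' : w ∈ N w' := c.symm _ _ hww
  obtain ⟨y4, hy4, e4, f4, d14⟩ := pick c g hw hww hx1 h1w h1w' hy1 e1 f1 hx4 h4w' h4w
  obtain ⟨y2, hy2, e2, f2, d42⟩ := pick c g hw.symm hww' hx4 h4w' h4w hy4 e4 f4 hx2 h2w h2w'
  obtain ⟨y3, hy3, e3, f3, d23⟩ := pick c g hw hww hx2 h2w h2w' hy2 e2 f2 hx3 h3w' h3w
  exact main c g hw hww hx1 hx2 hx3 hx4 h12 h34 h1w h1w' h2w h2w' h3w h3w' h4w h4w' hy1 hy2 hy3 hy4
    e1 e2 e3 e4 f1 f2 f3 f4 (same c g hx1 hx2 h1w h2w h12 hy1 hy2 e1 e2 f1 f2)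
    (hcon y3 hy3 e3 f3) d14 d23 d42.symm (same c g hx3 hx4 h3w' h4w' h34 hy3 hy4 e3 e4 f3 f4)

/-- The fourth element. -/
lemma third {S : Finset V} (h : S.card = 4) {a b x : V} (ha : a ∈ S) (hb : b ∈ S) (hab : a ≠ b) :
    ∃ p ∈ S, p ≠ a ∧ p ≠ b ∧ p ≠ x := by
  obtain ⟨p, q, hpq, hp1, hp2, hq1, hq2, hp, hq, -⟩ := enum2 h ha hb hab
  by_cases hpx : p = x
  · exact ⟨q, hq, hq1, hq2, fun h => hpq (hpx.trans h.symm)⟩
  · exact ⟨p, hp, hp1, hp2, hpx⟩

/-- The outer neighbours of a vertex at distance two are adjacent to vertices at distance three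
in the other branches. -/
lemma key (c : Cb N) (g : G7 N) {w w' x y z : V} (hw : w ≠ w') (hww : w' ∈ N w) (hx : x ∈ N w)
    (h1 : x ≠ w) (h2 : x ≠ w') (hy : y ∈ N x) (h3 : y ≠ x) (h4 : y ≠ w) (hz : z ∈ N y)
    (h5 : z ≠ y) (h6 : z ≠ x) :
    ∃ x' ∈ N w', x' ≠ w' ∧ x' ≠ w ∧ ∃ y' ∈ N x', y' ≠ x' ∧ y' ≠ w' ∧ y' ∈ N z ∧ z ≠ y' := by
  have sy := c.symm
  have hww' : w ∈ N w' := sy _ _ hww
  obtain ⟨x2, hx2, a1, a2, a3⟩ := third (x := x) (c.reg w) (c.refl w) hww hw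
  obtain ⟨p, q, hpq, hp1, hp2, hq1, hq2, hp, hq, -⟩ :=
    enum2 (c.reg w') (c.refl w') hww' hw.symm
  obtain ⟨y3, hy3, b1, b2, b3⟩ := step c g hw hww hx hx2 hp hq a3.symm hpq h1 h2 a1 a2 hp2 hp1
    hq2 hq1 hy h3 h4
  obtain ⟨y4, hy4, c1, c2, c3⟩ := step c g hw hww hx hx2 hq hp a3.symm hpq.symm h1 h2 a1 a2 hq2 hq1
    hp2 hp1 hy h3 h4
  have dis := same c g hp hq hp1 hq1 hpq hy3 hy4 b1 c1 b2 c2
  obtain ⟨f1, f2⟩ := far c g hw hww hx h1 h2 hy h3 h4 hp hp1 hp2 hy3 b1 b2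
  obtain ⟨f3, f4⟩ := far c g hw hww hx h1 h2 hy h3 h4 hq hq1 hq2 hy4 c1 c2
  obtain ⟨f5, -⟩ := far c g hw.symm hww' hp hp1 hp2 hy3 b1 b2 hx h1 h2 hy h3 h4
  obtain ⟨f6, -⟩ := far c g hw.symm hww' hq hq1 hq2 hy4 c1 c2 hx h1 h2 hy h3 h4
  rw [Finset.not_disjoint_iff] at b3 c3
  obtain ⟨z3, z3y, z33⟩ := b3
  obtain ⟨z4, z4y, z44⟩ := c3
  have k1 : y ≠ z3 := by
    rintro rfl
    exact f2 z33
  have k2 : y ≠ z4 := by
    rintro rfl
    exact f4 z44
  have k3 : x ≠ z3 := by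
    rintro rfl
    exact f5 (sy _ _ z33)
  have k4 : x ≠ z4 := by
    rintro rfl
    exact f6 (sy _ _ z44)
  have k5 : z3 ≠ z4 := by
    rintro rfl
    exact Finset.disjoint_left.1 dis z33 z44
  have k6 : z3 ≠ y3 := by
    rintro rfl
    exact f2 (sy _ _ z3y)
  have k7 : z4 ≠ y4 := by
    rintro rfl
    exact f4 (sy _ _ z4y)
  rcases enum4 (c.reg y) (c.refl y) (sy _ _ hy) z3y z4y h3 k1 k2 k3 k4 k5 z hz with h | h | h | h
  · exact absurd h h5
  · exact absurd h h6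
  · subst h
    exact ⟨p, hp, hp1, hp2, y3, hy3, b1, b2, sy _ _ z33, k6⟩
  · subst h
    exact ⟨q, hq, hq1, hq2, y4, hy4, c1, c2, sy _ _ z44, k7⟩

/-- The vertices at distance at most three from `w` are closed under neighbours. -/
lemma closed (c : Cb N) (g : G7 N) {w v v' : V} (hv : ∃ u ∈ N w, ∃ x ∈ N u, x ∈ N v)
    (hv' : v' ∈ N v) : ∃ u ∈ N w, ∃ x ∈ N u, x ∈ N v' := by
  have sy := c.symm
  obtain ⟨u, hu, x, hxu, hxv⟩ := hv
  by_cases h0 : ∃ u ∈ N w, v ∈ N u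
  · obtain ⟨u, hu, hvu⟩ := h0
    exact ⟨u, hu, v, hvu, sy _ _ hv'⟩
  push Not at h0
  have a1 : u ≠ w := by
    rintro rfl
    exact h0 x hxu (sy _ _ hxv)
  have a2 : x ≠ u := by
    rintro rfl
    exact h0 x hu (sy _ _ hxv)
  have a3 : x ≠ w := by
    rintro rfl
    exact h0 x (c.refl _) (sy _ _ hxv)
  have a4 : v ≠ x := by
    rintro rfl
    exact h0 u hu hxu
  have a5 : v ≠ u := by
    rintro rfl
    exact h0 v hu (c.refl v)
  obtain ⟨p, q, hpq, hp1, hp2, hq1, hq2, hp, hq, -⟩ := enum2 (c.reg w) (c.refl w) hu a1.symm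
  obtain ⟨x3, hx3, b1, b2, y3, hy3, b3, b4, b5, b6⟩ :=
    key c g hp1.symm hp hu a1 hp2.symm hxu a2 a3 (sy _ _ hxv) a4 a5
  obtain ⟨x4, hx4, c1, c2, y4, hy4, c3, c4, c5, c6⟩ :=
    key c g hq1.symm hq hu a1 hq2.symm hxu a2 a3 (sy _ _ hxv) a4 a5
  obtain ⟨f1, f2⟩ := far c g hp1.symm hp hu a1 hp2.symm hxu a2 a3 hx3 b1 b2 hy3 b3 b4
  obtain ⟨f3, f4⟩ := far c g hq1.symm hq hu a1 hq2.symm hxu a2 a3 hx4 c1 c2 hy4 c3 c4
  have k1 : x ≠ y3 := by
    rintro rfl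
    exact f1 hy3
  have k2 : x ≠ y4 := by
    rintro rfl
    exact f3 hy4
  have k3 : y3 ≠ y4 := by
    rintro rfl
    -- `w p x3 y3 x4 q`
    have m1 : w ∉ N x3 := fun h => g.c3 w p x3 hp1.symm b1.symm b2.symm hp hx3 (sy _ _ h)
    have m2 : w ∉ N x4 := fun h => g.c3 w q x4 hq1.symm c1.symm c2.symm hq hx4 (sy _ _ h)
    have m3 : w ≠ y3 := by
      rintro rfl
      exact m1 hy3
    have m4 : x3 ≠ q := by
      rintro rfl
      exact m1 (sy _ _ hq)
    have m5 : p ≠ x4 := by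
      rintro rfl
      exact m2 (sy _ _ hp)
    by_cases h : x3 = x4
    · subst h
      exact g.c4 w p x3 q hp1.symm b2.symm hq1.symm b1.symm hpq m4 hp hx3 (sy _ _ hx4) (sy _ _ hq)
    · exact g.c6 w p x3 y3 x4 q hp1.symm b2.symm m3 c2.symm hq1.symm b1.symm b4.symm m5 hpq b3.symm
        h m4 c3 c4 c1 hp hx3 hy3 (sy _ _ hy4) (sy _ _ hx4) (sy _ _ hq)
  rcases enum4 (c.reg v) (c.refl v) hxv b5 c5 a4 b6 c6 k1 k2 k3 v' hv' with h | h | h | h
  · subst h; exact ⟨u, hu, x, hxu, hxv⟩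
  · subst h; exact ⟨u, hu, v', hxu, c.refl _⟩
  · subst h; exact ⟨p, hp, x3, hx3, sy _ _ hy3⟩
  · subst h; exact ⟨q, hq, x4, hx4, sy _ _ hy4⟩

end

end M12

section
variable {V : Type*} [DecidableEq V] [Fintype V] {N : V → Finset V}

/-- Module M12: the end of the proof. -/
theorem fin (c : Cb N) (h3 : No3 N) (h4 : No4 N) (h5 : No5 N) (h6 : No6 N) : False := by
  classical
  have g := M12.G7.of h3 h4 h5 h6
  obtain ⟨w, -⟩ := c.conn.1
  have hB : (univ.filter (fun v => ∃ u ∈ N w, ∃ x ∈ N u, x ∈ N v)) = (univ : Finset V) := by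
    by_contra hne
    obtain ⟨x, hx, y, -, hy, hyx⟩ := c.conn.2 _ (Finset.subset_univ _)
      ⟨w, Finset.mem_filter.2 ⟨Finset.mem_univ _, w, c.refl w, w, c.refl w, c.refl w⟩⟩ hne
    apply hy
    exact Finset.mem_filter.2 ⟨Finset.mem_univ _, M12.closed c g (Finset.mem_filter.1 hx).2 hyx⟩
  have h1 : fv N univ ≤ (N w).card := by
    apply c.lower
    intro d hd _
    have : d ∈ (univ.filter (fun v => ∃ u ∈ N w, ∃ x ∈ N u, x ∈ N v)) := by
      rw [hB]; exact Finset.mem_univ d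
    obtain ⟨u, hu, x, hx, hxd⟩ := (Finset.mem_filter.1 this).2
    exact ⟨u, hu, x, hxd, hx⟩
  have h2 : (N w).card = 4 := c.reg w
  have := c.five
  omega

theorem m12 (c : Cb N) (h3 : No3 N) (h4 : No4 N) (h5 : No5 N) (h6 : No6 N) : False :=
  fin c h3 h4 h5 h6

end

end Pool.Agent.Star.K4
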