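import Pool.Agent.Star.K4.M2d

/-!
# `K = 4`, module M2: the general facts collected
-/

set_option autoImplicit false
set_option linter.unusedSectionVars false
set_option linter.unusedVariables false

namespace Pool.Agent.Star.K4

open Finset Rig

/-- Module M2. -/
theorem gen {V : Type*} [DecidableEq V] [Fintype V] {N : V → Finset V} (h : VC N)
    (hB : FactB N) : Gen N where
  toVC := h
  lower := h.lower'
  opt := h.opt'
  fvle := h.fvle'
  val := h.val' hB
  exA := h.exA1
  exA' := h.exA2
  cut := h.cut'
  tight := h.tight' hB
  mu1 := h.mu1' hB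
  optm := h.optm' hB
  g4o := h.g4o' hB
  g4i := h.g4i' hB
  main := h.main' hB

end Pool.Agent.Star.K4
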