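import Pool.Agent.Star.K4.Spec

/-!
# `K = 4`, module M3: FACT B

In a connected set with eight vertices and value two every vertex has exactly three neighbours.
-/

set_option autoImplicit false
set_option linter.unusedSectionVars false
set_option linter.unusedVariables false

namespace Pool.Agent.Star.K4

open Finset Rig

section
variable {V : Type*} [DecidableEq V] {N : V → Finset V} {U : Finset V}

/-- The assumptions of FACT B. -/
structure Blk (N : V → Finset V) (U : Finset V) : Prop where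
  refl : ∀ x, x ∈ N x
  symm : ∀ x y, x ∈ N y → y ∈ N x
  conn : Conn N U
  card : U.card = 8
  miss : ∀ v ∈ U, ∃ S ∈ stars N 4 U, Disjoint S (N v)

namespace Blk

variable (h : Blk N U)
include h

/-- The complement of a star set, and its centre. -/
lemma comp {p : Finset V} (hp : p ∈ stars N 4 U) : U \ p ∈ stars N 4 U ∧
    ∃ c ∈ p, ∀ y ∈ U, (y ∈ N c ↔ y ∈ p) := by
  obtain ⟨hpU, hp4, c, hc, hpc⟩ := mem_stars.1 hp
  obtain ⟨S, hS, hSc⟩ := h.miss c (hpU hc)
  obtain ⟨hSU, hS4, -⟩ := mem_stars.1 hS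
  have h1 : S = U \ p := by
    apply Finset.eq_of_subset_of_card_le
    · intro y hy
      refine Finset.mem_sdiff.2 ⟨hSU hy, fun hyp => ?_⟩
      exact Finset.disjoint_left.1 hSc hy (hpc hyp)
    · have := Finset.card_sdiff_add_card_eq_card hpU
      have := h.card
      omega
  refine ⟨h1 ▸ hS, c, hc, fun y hy => ⟨fun hyc => ?_, fun hyp => hpc hyp⟩⟩
  by_contra hyp
  have : y ∈ S := by rw [h1]; exact Finset.mem_sdiff.2 ⟨hy, hyp⟩
  exact Finset.disjoint_left.1 hSc this hyc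

/-- Every vertex is contained with its neighbours in a star set. -/
lemma of (v : V) (hv : v ∈ U) : ∃ p, p ∈ stars N 4 U ∧ (∀ y ∈ N v, y ∈ U → y ∈ p) ∧
    U \ p ∈ stars N 4 U := by
  obtain ⟨r, hr, h1⟩ := h.miss v hv
  have hrU := (mem_stars.1 hr).1
  refine ⟨U \ r, (h.comp hr).1, ?_, ?_⟩
  · intro y hy hyU
    exact Finset.mem_sdiff.2 ⟨hyU, fun hyr => Finset.disjoint_left.1 h1 hyr hy⟩
  · rw [Finset.sdiff_sdiff_eq_self hrU]
    exact hr

/-- Some star set containing `v` is not the only one. -/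
lemma two {v : V} (hv : v ∈ U) :
    ∃ p q, p ∈ stars N 4 U ∧ q ∈ stars N 4 U ∧ v ∈ p ∧ v ∈ q ∧ p ≠ q := by
  by_contra hcon
  push Not at hcon
  obtain ⟨S, hS, h1, h2⟩ := h.of v hv
  have hvS : v ∈ S := h1 v (h.refl v) hv
  obtain ⟨hSU, hS4, -⟩ := mem_stars.1 hS
  obtain ⟨u, hu, w, hw, hwS, huw⟩ := h.conn.2 S hSU ⟨v, hvS⟩ (by
    rintro rfl
    have := h.card
    omega)
  obtain ⟨p, hp, h3, h4⟩ := h.of u (hSU hu)
  by_cases hvp : v ∈ p
  · have h5 := hcon S p hS hp hvS hvp
    subst h5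
    exact hwS (h3 w huw hw)
  · have h5 : v ∈ U \ p := Finset.mem_sdiff.2 ⟨hv, hvp⟩
    have h6 := hcon S _ hS h4 hvS h5
    rw [h6] at hu
    exact (Finset.mem_sdiff.1 hu).2 (h3 u (h.refl u) (Finset.mem_sdiff.1 hu).1)

/-- FACT B. -/
theorem main {v : V} (hv : v ∈ U) : (N v ∩ U).card = 4 := by
  obtain ⟨p0, hp0, hp0v, -⟩ := h.of v hv
  have hle : (N v ∩ U).card ≤ 4 := by
    rw [← (mem_stars.1 hp0).2.1]
    apply Finset.card_le_card
    intro y hy
    exact hp0v y (Finset.mem_inter.1 hy).1 (Finset.mem_inter.1 hy).2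
  by_contra hcon'
  have hcon : (N v ∩ U).card ≤ 3 := by omega
  obtain ⟨p, q, hp, hq, hvp, hvq, hpq⟩ := h.two hv
  -- the centre of a star set containing `v` is a neighbour of `v` different from `v`
  have cen : ∀ p, p ∈ stars N 4 U → v ∈ p → ∃ c ∈ p, c ≠ v ∧ c ∈ N v ∧
      (∀ y ∈ U, (y ∈ N c ↔ y ∈ p)) := by
    intro p hp hvp
    obtain ⟨-, c, hc, hcp⟩ := h.comp hp
    have h1 : c ∈ N v := h.symm _ _ ((hcp v hv).2 hvp)
    refine ⟨c, hc, ?_, h1, hcp⟩
    rintro rfl
    have h2 : p ⊆ N c ∩ U := fun y hy => Finset.mem_inter.2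
      ⟨(hcp y ((mem_stars.1 hp).1 hy)).2 hy, (mem_stars.1 hp).1 hy⟩
    have := Finset.card_le_card h2
    rw [(mem_stars.1 hp).2.1] at this
    omega
  obtain ⟨c1, hc1, hc1v, hc1N, hc1p⟩ := cen p hp hvp
  obtain ⟨c2, hc2, hc2v, hc2N, hc2q⟩ := cen q hq hvq
  have hc1U : c1 ∈ U := (mem_stars.1 hp).1 hc1
  have hc2U : c2 ∈ U := (mem_stars.1 hq).1 hc2
  have eqs : ∀ (r s : Finset V) (c : V), r ∈ stars N 4 U → s ∈ stars N 4 U →
      (∀ y ∈ U, (y ∈ N c ↔ y ∈ r)) → (∀ y ∈ U, (y ∈ N c ↔ y ∈ s)) → r = s := by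
    intro r s c hr hs h1 h2
    ext y
    constructor
    · intro hy
      have hyU := (mem_stars.1 hr).1 hy
      exact (h2 y hyU).1 ((h1 y hyU).2 hy)
    · intro hy
      have hyU := (mem_stars.1 hs).1 hy
      exact (h1 y hyU).1 ((h2 y hyU).2 hy)
  have hc12 : c1 ≠ c2 := by
    rintro rfl
    exact hpq (eqs p q c1 hp hq hc1p hc2q)
  have hcard3 : ∀ a b : V, a ≠ b → a ≠ v → b ≠ v → ({v, a, b} : Finset V).card = 3 := by
    intro a b hab hav hbv
    rw [Finset.card_insert_of_notMem, Finset.card_pair hab]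
    rw [Finset.mem_insert, Finset.mem_singleton]
    push Not
    exact ⟨hav.symm, hbv.symm⟩
  -- the neighbours of `v` in `U` are `v`, `c1`, `c2`
  have hNv : N v ∩ U = {v, c1, c2} := by
    symm
    apply Finset.eq_of_subset_of_card_le
    · intro y hy
      rw [Finset.mem_insert, Finset.mem_insert, Finset.mem_singleton] at hy
      rcases hy with rfl | rfl | rfl
      · exact Finset.mem_inter.2 ⟨h.refl _, hv⟩
      · exact Finset.mem_inter.2 ⟨hc1N, hc1U⟩
      · exact Finset.mem_inter.2 ⟨hc2N, hc2U⟩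
    · rw [hcard3 c1 c2 hc12 hc1v hc2v]
      exact hcon
  have only : ∀ r, r ∈ stars N 4 U → v ∈ r → r = p ∨ r = q := by
    intro r hr hvr
    obtain ⟨c, hc, hcv, hcN, hcr⟩ := cen r hr hvr
    have h1 : c ∈ N v ∩ U := Finset.mem_inter.2 ⟨hcN, (mem_stars.1 hr).1 hc⟩
    rw [hNv, Finset.mem_insert, Finset.mem_insert, Finset.mem_singleton] at h1
    rcases h1 with h1 | h1 | h1
    · exact absurd h1 hcv
    · subst h1
      exact Or.inl (eqs r p c hr hp hcr hc1p)
    · subst h1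
      exact Or.inr (eqs r q c hr hq hcr hc2q)
  -- `c1` and `c2` are adjacent
  have hadj : c2 ∈ N c1 := by
    have hvr : v ∈ p0 := hp0v v (h.refl v) hv
    rcases only p0 hp0 hvr with rfl | rfl
    · exact (hc1p c2 hc2U).2 (hp0v c2 hc2N hc2U)
    · exact h.symm _ _ ((hc2q c1 hc1U).2 (hp0v c1 hc1N hc1U))
  have hc2p : c2 ∈ p := (hc1p c2 hc2U).1 hadj
  have hc1q : c1 ∈ q := (hc2q c1 hc1U).1 (h.symm _ _ hadj)
  -- the fourth element of `p`
  have hcard := hcard3 c1 c2 hc12 hc1v hc2v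
  have hsub1 : ({v, c1, c2} : Finset V) ⊆ p := by
    intro y hy
    rw [Finset.mem_insert, Finset.mem_insert, Finset.mem_singleton] at hy
    rcases hy with rfl | rfl | rfl
    · exact hvp
    · exact hc1
    · exact hc2p
  have hsub2 : ({v, c1, c2} : Finset V) ⊆ q := by
    intro y hy
    rw [Finset.mem_insert, Finset.mem_insert, Finset.mem_singleton] at hy
    rcases hy with rfl | rfl | rfl
    · exact hvq
    · exact hc1q
    · exact hc2
  have hp4 := (mem_stars.1 hp).2.1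
  have hq4 := (mem_stars.1 hq).2.1
  obtain ⟨x, hx, hxq⟩ : ∃ x ∈ p, x ∉ q := by
    by_contra hcon
    push Not at hcon
    exact hpq (Finset.eq_of_subset_of_card_le hcon (by rw [hp4, hq4]))
  have hxU : x ∈ U := (mem_stars.1 hp).1 hx
  have hpx : p = insert x {v, c1, c2} := by
    symm
    apply Finset.eq_of_subset_of_card_le
    · intro y hy
      rcases Finset.mem_insert.1 hy with rfl | hy
      · exact hx
      · exact hsub1 hy
    · rw [hp4, Finset.card_insert_of_notMem (fun h' => hxq (hsub2 h')), hcard]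
  have hqp : ∀ y ∈ p, y ≠ x → y ∈ q := by
    intro y hy hyx
    rw [hpx] at hy
    rcases Finset.mem_insert.1 hy with h' | h'
    · exact absurd h' hyx
    · exact hsub2 h'
  -- `x` misses a star set
  obtain ⟨r, hr, h2⟩ := h.miss x hxU
  have hxr : x ∉ r := fun hxr => Finset.disjoint_left.1 h2 hxr (h.refl x)
  have hc1x : c1 ∈ N x := h.symm _ _ ((hc1p x hxU).2 hx)
  have hc1r : c1 ∉ r := fun hh => Finset.disjoint_left.1 h2 hh hc1x
  have hvr : v ∉ r := by
    intro hvr
    rcases only r hr hvr with rfl | rfl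
    · exact hxr hx
    · exact hc1r hc1q
  -- the complement of `r` is `p` or `q`
  have hJ' := (h.comp hr).1
  rcases only _ hJ' (Finset.mem_sdiff.2 ⟨hv, hvr⟩) with h3 | h3
  · -- `r` is the complement of `p`; the complement of `q` has a centre adjacent to `x`
    have hrp : ∀ y ∈ U, (y ∈ r ↔ y ∉ p) := by
      intro y hy
      rw [← h3, Finset.mem_sdiff]
      tauto
    obtain ⟨-, e, he, heq⟩ := h.comp (h.comp hq).1
    obtain ⟨heU, heq'⟩ := Finset.mem_sdiff.1 he
    have hxe : x ∈ N e := (heq x hxU).2 (Finset.mem_sdiff.2 ⟨hxU, hxq⟩)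
    have hex : e ≠ x := by
      rintro rfl
      have := (heq c1 hc1U).1 hc1x
      exact (Finset.mem_sdiff.1 this).2 hc1q
    have hep : e ∉ p := fun h' => heq' (hqp e h' hex)
    exact Finset.disjoint_left.1 h2 ((hrp e heU).2 hep) (h.symm _ _ hxe)
  · have : x ∈ U \ r := Finset.mem_sdiff.2 ⟨hxU, hxr⟩
    rw [h3] at this
    exact hxq this

end Blk

end

section
variable {V : Type*} [DecidableEq V] [Fintype V] {N : V → Finset V}

/-- FACT B. -/
theorem factB (h : VS N) : FactB N := by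
  intro U hU hUc h8 h2 x hx
  refine Blk.main (h := ⟨h.refl, h.symm, hUc, h8, ?_⟩) hx
  intro v hv
  by_contra hcon
  push Not at hcon
  have h1 : fv N U ≤ ({v} : Finset V).card := by
    apply gk_le (Finset.singleton_subset_iff.2 hv)
    intro S hS
    obtain ⟨y, hy, hyv⟩ := Finset.not_disjoint_iff.1 (hcon S hS)
    exact ⟨v, Finset.mem_singleton_self v, y, hy, hyv⟩
  rw [Finset.card_singleton, h2] at h1
  omega

end

end Pool.Agent.Star.K4
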