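import Pool.Agent.Star.K4.M4b

/-!
# `K = 4`, module M4, part (2a): no exceptional components with eight vertices

`nob`: no component of the complement of a closed neighbourhood is exceptional with eight
vertices.  With `deg3_of_nob` all degrees are at most three (`deg3`).
-/

set_option autoImplicit false
set_option linter.unusedSectionVars false
set_option linter.unusedVariables false

namespace Pool.Agent.Star.K4.M4b

open Finset Rig

section
variable {V : Type*} [DecidableEq V] [Fintype V] {N : V → Finset V}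

lemma comp_ne (h : VS N) {z : V} {P : Finset (Finset V)} (hP : Comps N (univ \ N z) P)
    {U : Finset V} (hU : U ∈ P) : U ≠ univ := by
  rintro rfl
  exact (Finset.mem_sdiff.1 ((hP.cl _ hU).1 (Finset.mem_univ z))).2 (h.refl z)

lemma comp_notN {z : V} {P : Finset (Finset V)} (hP : Comps N (univ \ N z) P)
    {U : Finset V} (hU : U ∈ P) {v : V} (hv : v ∈ U) : v ∉ N z :=
  (Finset.mem_sdiff.1 ((hP.cl U hU).1 hv)).2

lemma comp_out {z : V} {P : Finset (Finset V)} (hP : Comps N (univ \ N z) P)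
    {U : Finset V} (hU : U ∈ P) {v y : V} (hv : v ∈ U) (hy : y ∈ N v) (hyU : y ∉ U) :
    y ∈ N z := by
  by_contra hyz
  exact hyU ((hP.cl U hU).2 v hv y (Finset.mem_sdiff.2 ⟨Finset.mem_univ _, hyz⟩) hy)

open Classical in
/-- Two exceptional components cannot be touched by the same neighbour of `z`. -/
lemma one_touch (h : VS N) {z : V} {P : Finset (Finset V)} (hP : Comps N (univ \ N z) P)
    {r : V} (hr : r ∈ (N z).erase z) {L M : Finset V} (hL : L ∈ P) (hM : M ∈ P)
    (hLE : Ex N L) (hME : Ex N M) (hrL : Tch N r L) (hrM : Tch N r M) : L = M := by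
  obtain ⟨-, -, h3, -⟩ := degz h (deg_eight h z) hP
  by_contra hne
  have h4 := h3 r hr
  have h5 : ({L, M} : Finset (Finset V)) ⊆ (P.filter (Ex N)).filter (Tch N r) := by
    intro U hU
    rcases Finset.mem_insert.1 hU with rfl | hU
    · exact Finset.mem_filter.2 ⟨Finset.mem_filter.2 ⟨hL, hLE⟩, hrL⟩
    · rw [Finset.mem_singleton.1 hU]
      exact Finset.mem_filter.2 ⟨Finset.mem_filter.2 ⟨hM, hME⟩, hrM⟩
  have h6 := Finset.card_le_card h5
  rw [Finset.card_pair hne] at h6
  omega

open Classical in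
/-- The weight of the exceptional components around a vertex. -/
lemma weight (h : VS N) {z : V} {P : Finset (Finset V)} (hP : Comps N (univ \ N z) P) :
    2 * (N z).card + ∑ U ∈ P, mu N U = 8 + ∑ U ∈ P.filter (Ex N), fv N U := by
  obtain ⟨h1, -, -, -⟩ := degz h (deg_eight h z) hP
  have hne : univ \ N z ≠ univ := by
    intro hh
    have : z ∈ univ \ N z := by rw [hh]; exact Finset.mem_univ z
    exact (Finset.mem_sdiff.1 this).2 (h.refl z)
  have h5 := acc h hP hne
  have h7 := h.ex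
  have h8 : (univ \ N z).card + (N z).card = Fintype.card V := by
    rw [← Finset.card_univ]
    exact Finset.card_sdiff_add_card_eq_card (Finset.subset_univ _)
  omega

open Classical in
/-- (SEP) for an exceptional and another component. -/
lemma sep (h : VS N) {z r : V} {P : Finset (Finset V)} (hP : Comps N (univ \ N z) P)
    (hr : r ∈ (N z).erase z) {L M : Finset V} (hL : L ∈ P) (hM : M ∈ P) (hLM : L ≠ M)
    (hLE : Ex N L) (hrL : Tch N r L) {D : Finset V}
    (hD : ∀ S ∈ stars N 4 M, (∀ x ∈ S, x ∉ N r) → Hit N D S) : fv N M ≤ D.card := by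
  by_contra hcon
  push Not at hcon
  obtain ⟨h1, -, -, -⟩ := degz h (deg_eight h z) hP
  obtain ⟨y, hy, hyg⟩ := hrL
  obtain ⟨D', h7, h8, h9⟩ := critS h (comp_ne h hP hL) hLE hy
  have hgz : r ≠ z := (Finset.mem_erase.1 hr).1
  have h10 := cnt h (Q := N z) (Y := {z, r}) (T := {M, L}) hP (Finset.subset_univ _)
    (fun S hS hn => by
      rw [Finset.not_subset] at hn
      obtain ⟨v, hv, hvn⟩ := hn
      refine ⟨z, by simp, v, hv, ?_⟩
      by_contra hvz
      exact hvn (Finset.mem_sdiff.2 ⟨Finset.mem_univ _, hvz⟩))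
    (by
      intro U hU
      rcases Finset.mem_insert.1 hU with rfl | hU
      · exact hM
      · rw [Finset.mem_singleton.1 hU]; exact hL)
    (by
      intro U hU
      rcases Finset.mem_insert.1 hU with rfl | hU
      · refine ⟨D, Finset.subset_univ _, ?_, hcon⟩
        intro S hS
        by_cases hxS : ∃ x ∈ S, x ∈ N r
        · obtain ⟨x, hx, hxr⟩ := hxS
          exact Or.inl ⟨r, by simp, x, hx, hxr⟩
        · push Not at hxS
          exact Or.inr (hD S hS hxS)
      · rw [Finset.mem_singleton.1 hU]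
        refine ⟨D', Finset.subset_univ _, ?_, h9⟩
        intro S hS
        by_cases hyS : y ∈ S
        · exact Or.inl ⟨r, by simp, y, hyS, hyg⟩
        · exact Or.inr (h8 S hS hyS))
  rw [Finset.card_pair hLM.symm, Finset.card_pair hgz.symm] at h10
  omega

open Classical in
/-- A component attached to `r` alone, where `r` touches an exceptional component. -/
lemma pend (h : VS N) {z r : V} {P : Finset (Finset V)} (hP : Comps N (univ \ N z) P)
    (hr : r ∈ (N z).erase z) {L M : Finset V} (hL : L ∈ P) (hM : M ∈ P) (hLM : L ≠ M)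
    (hLE : Ex N L) (hrL : Tch N r L) (hME : ¬ Ex N M) (hmu : mu N M ≤ 1) (hrM : Tch N r M)
    (hout : ∀ v ∈ M, ∀ y ∈ N v, y ∉ M → y = r) : False := by
  obtain ⟨P4, hP4⟩ := exists_comps (N := N) h.symm (M \ (M ∩ N r))
  obtain ⟨Pr, hPr⟩ := exists_comps (N := N) h.symm (univ \ N r)
  have hMne := comp_ne h hP hM
  have hval : 9 * fv N M + mu N M = 2 * M.card := by
    unfold mu
    rcases h.small M hMne (hP.conn M hM) with h8 | h8
    · omega
    · exact absurd h8 hME
  -- the sum over the components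
  have hsum : fv N M ≤ ∑ W ∈ P4, fv N W := by
    have h7 := gk_le_sum (K := 4) h.refl hP4 (stars_sys (N := N) (K := 4) (A := M))
      Finset.sdiff_subset
    have h8 : ∑ W ∈ P4, gk N W (res (stars N 4 M) W) = ∑ W ∈ P4, fv N W :=
      Finset.sum_congr rfl (fun W hW => by
        rw [res_st ((hP4.cl W hW).1.trans Finset.sdiff_subset)]; rfl)
    rw [h8, res_st Finset.sdiff_subset] at h7
    obtain ⟨D, h9, h10, h11⟩ := exists_gk (N := N) h.refl (A := M)
      (C := stars N 4 (M \ (M ∩ N r))) (fun S hS => (st_sub hS).trans Finset.sdiff_subset)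
      (fun S hS => stars_sys.nonempty hS)
    have h12 := sep h hP hr hL hM hLM hLE hrL (D := D) (fun S hS hxS => h10 S (st_of hS
      (fun v hv => Finset.mem_sdiff.2 ⟨st_sub hS hv, fun hh =>
        hxS v hv (Finset.mem_inter.1 hh).2⟩)))
    omega
  have hne4 : M \ (M ∩ N r) ≠ univ := by
    intro hh
    apply hMne
    apply Finset.univ_subset_iff.1
    rw [← hh]
    exact Finset.sdiff_subset
  have hac := acc h hP4 hne4
  have hj : 1 ≤ (M ∩ N r).card := by
    obtain ⟨x, hx, hxr⟩ := hrM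
    exact Finset.card_pos.2 ⟨x, Finset.mem_inter.2 ⟨hx, hxr⟩⟩
  have hcM : (M \ (M ∩ N r)).card + (M ∩ N r).card = M.card :=
    Finset.card_sdiff_add_card_eq_card Finset.inter_subset_left
  -- the components of `M \ N r` are components of the complement of `N r`
  have hsub : ∀ W ∈ P4, W ∈ Pr := by
    intro W hW
    refine hPr.mem_of (hP4.conn W hW) ⟨?_, ?_⟩
    · intro v hv
      have h1 := Finset.mem_sdiff.1 ((hP4.cl W hW).1 hv)
      exact Finset.mem_sdiff.2 ⟨Finset.mem_univ _, fun hh => h1.2 (Finset.mem_inter.2 ⟨h1.1, hh⟩)⟩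
    · intro v hv y hy hyv
      have h1 := Finset.mem_sdiff.1 ((hP4.cl W hW).1 hv)
      have hyr : y ∉ N r := (Finset.mem_sdiff.1 hy).2
      by_cases hyM : y ∈ M
      · exact (hP4.cl W hW).2 v hv y (Finset.mem_sdiff.2 ⟨hyM, fun hh =>
          hyr (Finset.mem_inter.1 hh).2⟩) hyv
      · exfalso
        rw [hout v h1.1 y hyv hyM] at hyr
        exact hyr (h.refl r)
  obtain ⟨-, -, hd3, hd4⟩ := degz h (deg_eight h r) hPr
  set E := P4.filter (Ex N) with hE
  set R := M ∩ N r with hR
  have hEsub : E ⊆ Pr.filter (Ex N) := by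
    intro W hW
    obtain ⟨h1, h2⟩ := Finset.mem_filter.1 hW
    exact Finset.mem_filter.2 ⟨hsub W h1, h2⟩
  have hrM' : r ∉ M := fun hh => comp_notN hP hM hh (Finset.mem_of_mem_erase hr)
  have h2E : 2 * E.card ≤ R.card := by
    have h1 : ∀ W ∈ E, 2 ≤ (R.filter (fun e => Tch N e W)).card := by
      intro W hW
      obtain ⟨e, he, e', he', hne, ht, ht'⟩ := hd4 W (hEsub hW)
      have hWP := (Finset.mem_filter.1 hW).1
      have hin : ∀ e ∈ (N r).erase r, Tch N e W → e ∈ R := by
        rintro e he ⟨x, hx, hxe⟩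
        obtain ⟨h5, h6⟩ := Finset.mem_erase.1 he
        refine Finset.mem_inter.2 ⟨?_, h6⟩
        by_contra heM
        have hxM := (Finset.mem_sdiff.1 ((hP4.cl W hWP).1 hx)).1
        exact h5 (hout x hxM e (h.symm _ _ hxe) heM)
      have h5 : ({e, e'} : Finset V) ⊆ R.filter (fun e => Tch N e W) := by
        intro y hy
        rcases Finset.mem_insert.1 hy with rfl | hy
        · exact Finset.mem_filter.2 ⟨hin _ he ht, ht⟩
        · rw [Finset.mem_singleton.1 hy]
          exact Finset.mem_filter.2 ⟨hin _ he' ht', ht'⟩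
      have := Finset.card_le_card h5
      rwa [Finset.card_pair hne] at this
    have h2 : ∑ e ∈ R, (E.filter (Tch N e)).card =
        ∑ W ∈ E, (R.filter (fun e => Tch N e W)).card := by
      simp only [Finset.card_filter]
      exact Finset.sum_comm
    have h3 : ∀ e ∈ R, (E.filter (Tch N e)).card ≤ 1 := by
      intro e he
      obtain ⟨heM, her⟩ := Finset.mem_inter.1 he
      have her' : e ∈ (N r).erase r := Finset.mem_erase.2 ⟨by rintro rfl; exact hrM' heM, her⟩
      exact (Finset.card_le_card (Finset.filter_subset_filter _ hEsub)).trans (hd3 e her')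
    calc 2 * E.card = ∑ W ∈ E, 2 := by rw [Finset.sum_const, smul_eq_mul, Nat.mul_comm]
      _ ≤ ∑ W ∈ E, (R.filter (fun e => Tch N e W)).card := Finset.sum_le_sum h1
      _ = ∑ e ∈ R, (E.filter (Tch N e)).card := h2.symm
      _ ≤ ∑ e ∈ R, 1 := Finset.sum_le_sum h3
      _ = R.card := by rw [Finset.sum_const, smul_eq_mul, Nat.mul_one]
  have hw : ∑ W ∈ E, fv N W ≤ 2 * E.card := by
    rw [Nat.mul_comm, ← smul_eq_mul, ← Finset.sum_const]
    apply Finset.sum_le_sum
    intro W hW
    rcases (Finset.mem_filter.1 hW).2 with ⟨_, h7⟩ | ⟨_, h7⟩ <;> omega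
  have hc1 : R.card ≤ 1 := by omega
  have hE0 : E.card = 0 := by omega
  omega

open Classical in
/-- (2a) -/
theorem nob (h : VS N) (hB : FactB N) : NoB N := by
  intro z P hP L hL hL8 hL2
  have hLE : Ex N L := Or.inr ⟨hL8, hL2⟩
  obtain ⟨r, hr, w, hw, hwr⟩ := hP.adj h.symm h.conn (Finset.subset_univ _) ⟨z, h.refl z⟩ hL
  have hwz : w ∉ N z := comp_notN hP hL hw
  have hrR : r ∈ (N z).erase z := Finset.mem_erase.2 ⟨by rintro rfl; exact hwz hwr, hr⟩
  have hrw : r ∈ N w := h.symm _ _ hwr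
  have hrL : r ∉ L := fun hh => comp_notN hP hL hh hr
  have hLn := hB L (comp_ne h hP hL) (hP.conn L hL) hL8 hL2 w hw
  set Γ := N w \ L with hΓ
  have hΓz : ∀ v ∈ Γ, v ∈ N z := by
    intro v hv
    obtain ⟨h1, h2⟩ := Finset.mem_sdiff.1 hv
    exact comp_out hP hL hw h1 h2
  have hΓc : Γ.card + 4 = (N w).card := by
    rw [← hLn]
    exact Finset.card_sdiff_add_card_inter (N w) L
  have hrΓ : r ∈ Γ := Finset.mem_sdiff.2 ⟨hrw, hrL⟩
  have hΓ1 : 1 ≤ Γ.card := Finset.card_pos.2 ⟨r, hrΓ⟩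
  obtain ⟨P', hP'⟩ := exists_comps (N := N) h.symm (univ \ N w)
  have hzw : z ∈ univ \ N w := Finset.mem_sdiff.2 ⟨Finset.mem_univ _, fun hh =>
    hwz (h.symm _ _ hh)⟩
  obtain ⟨G, hG, hzG⟩ := hP'.cover z hzw
  -- the components at `w` other than `G` miss `N z`
  have hmiss : ∀ U ∈ P', U ≠ G → ∀ v ∈ U, v ∉ N z := by
    intro U hU hne v hv hvz
    apply hne
    exact hP'.eq_of_mem hU hG ((hP'.cl U hU).2 v hv z hzw (h.symm _ _ hvz)) hzG
  have hloc : ∀ U ∈ P', U ≠ G → ∃ M ∈ P, U ⊆ M := by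
    intro U hU hne
    obtain ⟨v, hv⟩ := (hP'.conn U hU).1
    obtain ⟨M, hM, hvM⟩ := hP.cover v (Finset.mem_sdiff.2 ⟨Finset.mem_univ _,
      hmiss U hU hne v hv⟩)
    exact ⟨M, hM, (hP'.conn U hU).subset_of_closed (fun x hx => Finset.mem_sdiff.2
      ⟨Finset.mem_univ _, hmiss U hU hne x hx⟩) (hP.cl M hM) hv hvM⟩
  -- a component `M ≠ L` misses `N w`
  have hMw : ∀ M ∈ P, M ≠ L → M ⊆ univ \ N w := by
    intro M hM hne v hv
    refine Finset.mem_sdiff.2 ⟨Finset.mem_univ _, fun hvw => ?_⟩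
    by_cases hvL : v ∈ L
    · exact hne (hP.eq_of_mem hM hL hv hvL)
    · exact comp_notN hP hM hv (hΓz v (Finset.mem_sdiff.2 ⟨hvw, hvL⟩))
  have hMP' : ∀ M ∈ P, M ≠ L → ∀ U ∈ P', U ≠ G → U ⊆ M → U = M := by
    intro M hM hne U hU hUG hUM
    obtain ⟨v, hv⟩ := (hP'.conn U hU).1
    exact Finset.Subset.antisymm hUM ((hP.conn M hM).subset_of_closed (hMw M hM hne)
      (hP'.cl U hU) (hUM hv) hv)
  -- the touching vertices of such a component are in `Γ`
  have hgate : ∀ M ∈ P, M ∈ P' → ∀ v ∈ M, ∀ y ∈ N v, y ∉ M → y ∈ Γ := by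
    intro M hM hM' v hv y hy hyM
    have h1 := comp_out hP hM hv hy hyM
    have h2 := comp_out hP' hM' hv hy hyM
    exact Finset.mem_sdiff.2 ⟨h2, fun hh => comp_notN hP hL hh h1⟩
  have hΓt : ∀ e ∈ Γ, e ∈ (N z).erase z ∧ Tch N e L := by
    intro e he
    have h1 := (Finset.mem_sdiff.1 he).1
    refine ⟨Finset.mem_erase.2 ⟨?_, hΓz e he⟩, w, hw, h.symm _ _ h1⟩
    rintro rfl
    exact hwz (h.symm _ _ h1)
  have hnE : ∀ M ∈ P, M ≠ L → M ∈ P' → ¬ Ex N M := by
    intro M hM hne hM' hME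
    obtain ⟨e, he, x, hx, hxe⟩ := hP'.adj h.symm h.conn (Finset.subset_univ _) ⟨w, h.refl w⟩ hM'
    have heM : e ∉ M := fun hh => comp_notN hP' hM' hh he
    have heΓ := hgate M hM hM' x hx e (h.symm _ _ hxe) heM
    obtain ⟨h1, h2⟩ := hΓt e heΓ
    exact hne (one_touch h hP h1 hM hL hME hLE ⟨x, hx, hxe⟩ h2)
  -- the weight at `w`
  have hwt := weight h hP'
  have hLw : (L \ N w).card = 4 := by
    have h1 := Finset.card_sdiff_add_card_inter L (N w)
    rw [Finset.inter_comm] at h1
    omega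
  have hone : ∀ U ∈ P', Ex N U → U ≠ G → U = L \ N w ∧ fv N U = 1 := by
    intro U hU hUE hne
    obtain ⟨M, hM, hUM⟩ := hloc U hU hne
    have hML : M = L := by
      by_contra hML
      have h1 := hMP' M hM hML U hU hne hUM
      subst h1
      exact hnE U hM hML hU hUE
    subst hML
    have h1 : U ⊆ M \ N w := fun v hv => Finset.mem_sdiff.2 ⟨hUM hv, comp_notN hP' hU hv⟩
    have h2 := Finset.card_le_card h1
    rcases hUE with ⟨h3, h4⟩ | ⟨h3, _⟩
    · exact ⟨Finset.eq_of_subset_of_card_le h1 (by omega), h4⟩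
    · omega
  have hbound : ∑ U ∈ (P'.filter (Ex N)).erase G, fv N U ≤ 1 := by
    have h1 : (P'.filter (Ex N)).erase G ⊆ {L \ N w} := by
      intro U hU
      obtain ⟨h2, h3⟩ := Finset.mem_erase.1 hU
      obtain ⟨h4, h5⟩ := Finset.mem_filter.1 h3
      exact Finset.mem_singleton.2 (hone U h4 h5 h2).1
    have h2 := Finset.card_le_card h1
    rw [Finset.card_singleton] at h2
    have h3 : ∑ U ∈ (P'.filter (Ex N)).erase G, fv N U = ((P'.filter (Ex N)).erase G).card := by
      rw [Finset.card_eq_sum_ones]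
      apply Finset.sum_congr rfl
      intro U hU
      obtain ⟨h2, h3⟩ := Finset.mem_erase.1 hU
      obtain ⟨h4, h5⟩ := Finset.mem_filter.1 h3
      exact (hone U h4 h5 h2).2
    omega
  have hGE : Ex N G := by
    by_contra hGE
    have h1 : (P'.filter (Ex N)).erase G = P'.filter (Ex N) := Finset.erase_eq_of_notMem
      (fun hh => hGE (Finset.mem_filter.1 hh).2)
    rw [h1] at hbound
    omega
  have hGm : G ∈ P'.filter (Ex N) := Finset.mem_filter.2 ⟨hG, hGE⟩
  rw [← Finset.sum_erase_add _ _ hGm] at hwt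
  have hG8 : G.card ≤ 8 ∧ fv N G ≤ 2 := by
    rcases hGE with ⟨h1, h2⟩ | ⟨h1, h2⟩ <;> omega
  have hΓ1' : Γ.card = 1 := by omega
  have hΓr : ∀ v ∈ Γ, v = r := by
    intro v hv
    exact Finset.card_le_one.1 (by omega) v hv r hrΓ
  have hmu1 : ∀ U ∈ P', mu N U ≤ 1 := by
    intro U hU
    have := Finset.single_le_sum (f := mu N) (fun _ _ => Nat.zero_le _) hU
    omega
  -- all other components are in `G`
  have hin : ∀ M ∈ P, M ≠ L → M ⊆ G := by
    intro M hM hne
    by_contra hMG
    rw [Finset.not_subset] at hMG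
    obtain ⟨v, hv, hvG⟩ := hMG
    obtain ⟨U, hU, hvU⟩ := hP'.cover v (hMw M hM hne hv)
    have hUG : U ≠ G := by rintro rfl; exact hvG hvU
    obtain ⟨M', hM', hUM'⟩ := hloc U hU hUG
    have h1 : M' = M := hP.eq_of_mem hM' hM (hUM' hvU) hv
    subst h1
    have h2 := hMP' M' hM' hne U hU hUG hUM'
    subst h2
    have hnEx := hnE U hM hne hU
    obtain ⟨e, he, x, hx, hxe⟩ := hP'.adj h.symm h.conn (Finset.subset_univ _) ⟨w, h.refl w⟩ hU
    have heM : e ∉ U := fun hh => comp_notN hP' hU hh he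
    have heΓ := hΓr e (hgate U hM hU x hx e (h.symm _ _ hxe) heM)
    subst heΓ
    exact pend h hP hrR hL hM hne.symm hLE ⟨w, hw, hwr⟩ hnEx (hmu1 U hU) ⟨x, hx, hxe⟩
      (fun v hv y hy hyU => hΓr y (hgate U hM hU v hv y hy hyU))
  -- the vertices
  have huniv : (univ : Finset V) ⊆ insert r (G ∪ L) := by
    intro v _
    by_cases hvz : v ∈ N z
    · by_cases hvw : v ∈ N w
      · rw [hΓr v (Finset.mem_sdiff.2 ⟨hvw, fun hh => comp_notN hP hL hh hvz⟩)]
        exact Finset.mem_insert_self _ _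
      · exact Finset.mem_insert_of_mem (Finset.mem_union_left _
          ((hP'.cl G hG).2 z hzG v (Finset.mem_sdiff.2 ⟨Finset.mem_univ _, hvw⟩) hvz))
    · obtain ⟨M, hM, hvM⟩ := hP.cover v (Finset.mem_sdiff.2 ⟨Finset.mem_univ _, hvz⟩)
      by_cases hML : M = L
      · exact Finset.mem_insert_of_mem (Finset.mem_union_right _ (hML ▸ hvM))
      · exact Finset.mem_insert_of_mem (Finset.mem_union_left _ (hin M hM hML hvM))
  have h1 := Finset.card_le_card huniv
  have h2 := Finset.card_insert_le r (G ∪ L)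
  have h3 := Finset.card_union_le G L
  rw [Finset.card_univ] at h1
  have h4 := h.big
  omega

end

end Pool.Agent.Star.K4.M4b

namespace Pool.Agent.Star.K4

open Finset Rig

variable {V : Type*} [DecidableEq V] [Fintype V] {N : V → Finset V}

/-- Module M4: all degrees are at most three. -/
theorem deg3 (h : VS N) (hB : FactB N) : ∀ x, (N x).card ≤ 4 :=
  M4b.deg3_of_nob h hB (M4b.nob h hB)

end Pool.Agent.Star.K4
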