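import Pool.Agent.Star.K4.Spec

/-!
# `K = 4`, module M2a: the general facts
-/

set_option autoImplicit false
set_option linter.unusedSectionVars false
set_option linter.unusedVariables false

namespace Pool.Agent.Star.K4

open Finset Rig

section
variable {V : Type*} [DecidableEq V] [Fintype V] {N : V → Finset V}

lemma VC.mem_st (h : VC N) {U S : Finset V} : S ∈ stars N 4 U ↔ ∃ c, Cub N c ∧ S = N c ∧ N c ⊆ U := by
  rw [mem_stars]
  constructor
  · rintro ⟨h1, h2, c, hc, hcN⟩
    have h3 : S = N c := Finset.eq_of_subset_of_card_le hcN (by rw [h2]; exact h.deg c)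
    refine ⟨c, ?_, h3, h3 ▸ h1⟩
    unfold Cub
    rw [← h3, h2]
  · rintro ⟨c, hc, rfl, hcU⟩
    exact ⟨hcU, hc, c, h.refl c, Finset.Subset.refl _⟩

lemma VC.kills (h : VC N) {D U : Finset V} : Kills N D (stars N 4 U) ↔ KI N D U := by
  constructor
  · intro hk c hc hcU
    exact hk (N c) (h.mem_st.2 ⟨c, hc, rfl, hcU⟩)
  · intro hk S hS
    obtain ⟨c, hc, rfl, hcU⟩ := h.mem_st.1 hS
    exact hk c hc hcU

lemma VC.fvle' (h : VC N) (U D : Finset V) (hD : D ⊆ U) (hk : KI N D U) : fv N U ≤ D.card :=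
  gk_le hD (h.kills.2 hk)

lemma VC.opt' (h : VC N) (U : Finset V) : ∃ D ⊆ U, KI N D U ∧ D.card = fv N U := by
  obtain ⟨D, h1, h2, h3⟩ := exists_gk (N := N) h.refl (A := U) (C := stars N 4 U)
    stars_sys.sub (fun S hS => stars_sys.nonempty hS)
  exact ⟨D, h1, h.kills.1 h2, h3⟩

lemma VC.lower' (h : VC N) (D : Finset V) (hk : KI N D univ) : fv N univ ≤ D.card :=
  h.fvle' univ D (Finset.subset_univ D) hk

/-- A set closed under neighbours is everything. -/
lemma VS.clo (h : VS N) {B : Finset V} (hB : B.Nonempty) (hcl : ∀ x ∈ B, ∀ y ∈ N x, y ∈ B) :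
    B = univ := by
  by_contra hne
  obtain ⟨x, hx, y, hy, hyB, hyx⟩ := h.conn.2 B (Finset.subset_univ _) hB hne
  exact hyB (hcl x hx y hyx)

lemma VC.val' (h : VC N) (hB : FactB N) (U : Finset V) (hU : U ≠ univ) (hc : Conn N U) :
    ExA N U ∨ 9 * fv N U + mu N U = 2 * U.card := by
  rcases h.small U hU hc with h1 | h1 | ⟨h1, h2⟩
  · right
    unfold mu
    omega
  · exact Or.inl h1
  · exfalso
    apply hU
    apply h.clo hc.1
    intro x hx y hy
    have h3 := hB U hU hc h1 h2 x hx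
    have h4 : N x ∩ U = N x := Finset.eq_of_subset_of_card_le Finset.inter_subset_left
      (by rw [h3]; exact h.deg x)
    rw [← h4] at hy
    exact (Finset.mem_inter.1 hy).2

lemma VC.exA1 (h : VC N) (U : Finset V) (hA : ExA N U) : ∃ t, Cub N t ∧ U = N t := by
  by_contra hcon
  push Not at hcon
  have h1 : KI N ∅ U := by
    intro c hc hcU
    exact absurd (Finset.eq_of_subset_of_card_le hcU (by rw [hA.1]; exact hc.ge)).symm (hcon c hc)
  have h2 := h.fvle' U ∅ (Finset.empty_subset _) h1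
  rw [hA.2] at h2
  simp at h2

lemma VC.exA2 (h : VC N) (t : V) (ht : Cub N t) : ExA N (N t) := by
  refine ⟨ht, ?_⟩
  apply le_antisymm
  · have h1 : KI N {t} (N t) := fun c hc hct =>
      ⟨t, Finset.mem_singleton_self t, c, h.refl c, hct (h.refl c)⟩
    exact h.fvle' (N t) {t} (Finset.singleton_subset_iff.2 (h.refl t)) h1
  · obtain ⟨D, h1, h2, h3⟩ := h.opt' (N t)
    rw [← h3]
    obtain ⟨d, hd, _⟩ := h2 t ht (Finset.Subset.refl _)
    exact Finset.card_pos.2 ⟨d, hd⟩

lemma VC.cut' (h : VC N) (t v : V) (ht : Cub N t) :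
    ∃ u ∈ N t, ∃ x, x ∉ N t ∧ x ∈ N u ∧ x ≠ v := by
  by_contra hcon
  push Not at hcon
  have hbig := h.big
  have hcard : (N t).card = 4 := ht
  by_cases hv : v ∈ N t
  · have h1 : N t = univ := by
      apply h.clo ⟨t, h.refl t⟩
      intro u hu x hx
      by_contra hxt
      have h2 := hcon u hu x hxt hx
      rw [h2] at hxt
      exact hxt hv
    rw [h1, Finset.card_univ] at hcard
    omega
  · have h2 : res (stars N 4 univ) (N t) = stars N 4 (N t) := by
      ext S
      rw [mem_res, mem_stars, mem_stars]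
      constructor
      · rintro ⟨⟨_, h3, h4⟩, h5⟩
        exact ⟨h5, h3, h4⟩
      · rintro ⟨h5, h3, h4⟩
        exact ⟨⟨Finset.subset_univ _, h3, h4⟩, h5⟩
    refine h.toVS.vs0.cut (v := v) ?_ (Finset.mem_univ v) (U := N t)
      (conn_star h.symm (h.refl t) (Finset.Subset.refl _)) ?_ ?_
    · rw [Finset.card_univ]
      exact h.ex
    · refine ⟨fun x hx => Finset.mem_sdiff.2 ⟨Finset.mem_univ _, ?_⟩, ?_⟩
      · rw [Finset.mem_singleton]
        rintro rfl
        exact hv hx
      · intro u hu x hx hxu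
        by_contra hxt
        rw [Finset.mem_sdiff, Finset.mem_singleton] at hx
        exact hx.2 (hcon u hu x hxt hxu)
    · left
      rw [h2]
      exact ⟨hcard, (h.exA2 t ht).2⟩

/-- The counting bound: `e` saves in all members of `T`. -/
lemma VC.sep_count (h : VC N) {F Y : Finset V} {P : Finset (Finset V)} (c : Cfg N F Y P) (e : V)
    {T : Finset (Finset V)} (hT : T ⊆ P) (hs : ∀ U ∈ T, Sav N U e) (E : Finset V)
    (hE : T.Nonempty → e ∈ E) :
    fv N univ + T.card ≤ Y.card + E.card + ∑ U ∈ P, fv N U := by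
  classical
  choose D1 hD1 hD1k hD1c using h.opt'
  have h2 : ∀ U : Finset V, ∃ D : Finset V, U ∈ T → D ⊆ U ∧
      (∀ c, Cub N c → N c ⊆ U → (∃ x ∈ N c, x ∈ N e) ∨ ∃ d ∈ D, ∃ x ∈ N c, x ∈ N d) ∧
      D.card + 1 ≤ fv N U := by
    intro U
    by_cases hU : U ∈ T
    · obtain ⟨D, h3, h4, h5⟩ := hs U hU
      exact ⟨D, fun _ => ⟨h3, h4, h5⟩⟩
    · exact ⟨∅, fun hc => absurd hc hU⟩
  choose D2 hD2 using h2
  have h3 : KI N (Y ∪ E ∪ P.biUnion (fun U => if U ∈ T then D2 U else D1 U)) univ := by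
    intro x hx _
    by_cases hxF : ∃ y ∈ N x, y ∈ F
    · obtain ⟨y, hy, w, hw, hwy⟩ := c.dead x hx hxF
      exact ⟨y, Finset.mem_union_left _ (Finset.mem_union_left _ hy), w, hw, hwy⟩
    · push Not at hxF
      obtain ⟨U, hU, hxU⟩ := c.comps.cover x (Finset.mem_sdiff.2 ⟨Finset.mem_univ _,
        hxF x (h.refl x)⟩)
      have hNU : N x ⊆ U := fun y hy => (c.comps.cl U hU).2 x hxU y
        (Finset.mem_sdiff.2 ⟨Finset.mem_univ _, hxF y hy⟩) hy
      by_cases hUT : U ∈ T
      · rcases (hD2 U hUT).2.1 x hx hNU with ⟨w, hw, hwe⟩ | ⟨d, hd, w, hw, hwd⟩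
        · exact ⟨e, Finset.mem_union_left _ (Finset.mem_union_right _ (hE ⟨U, hUT⟩)), w, hw, hwe⟩
        · refine ⟨d, Finset.mem_union_right _ (Finset.mem_biUnion.2 ⟨U, hU, ?_⟩), w, hw, hwd⟩
          simp only [hUT, if_true]
          exact hd
      · obtain ⟨d, hd, w, hw, hwd⟩ := hD1k U x hx hNU
        refine ⟨d, Finset.mem_union_right _ (Finset.mem_biUnion.2 ⟨U, hU, ?_⟩), w, hw, hwd⟩
        simp only [hUT, if_false]
        exact hd
  have h4 := h.lower' _ h3
  have h5 : ∑ U ∈ P, (if U ∈ T then D2 U else D1 U).card + T.card ≤ ∑ U ∈ P, fv N U := by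
    have h6 : T.card = ∑ U ∈ P, (if U ∈ T then 1 else 0) := by
      rw [← Finset.card_filter]
      congr 1
      ext U
      rw [Finset.mem_filter]
      exact ⟨fun hU => ⟨hT hU, hU⟩, fun hU => hU.2⟩
    rw [h6, ← Finset.sum_add_distrib]
    apply Finset.sum_le_sum
    intro U hU
    by_cases hUT : U ∈ T
    · simp only [hUT, if_true]; exact (hD2 U hUT).2.2
    · simp only [hUT, if_false]; rw [hD1c U]; omega
  have h6 := Finset.card_union_le (Y ∪ E) (P.biUnion (fun U => if U ∈ T then D2 U else D1 U))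
  have h7 := Finset.card_union_le Y E
  have h8 : (P.biUnion (fun U => if U ∈ T then D2 U else D1 U)).card ≤
      ∑ U ∈ P, (if U ∈ T then D2 U else D1 U).card := Finset.card_biUnion_le
  omega

/-- A touching vertex saves in an exceptional set. -/
lemma VC.savA (h : VC N) {U : Finset V} (hA : ExA N U) {e : V} (he : Tch N e U) :
    Sav N U e := by
  obtain ⟨x, hx, hxe⟩ := he
  refine ⟨∅, Finset.empty_subset _, ?_, ?_⟩
  · intro c hc hcU
    left
    have h1 : N c = U := Finset.eq_of_subset_of_card_le hcU (by rw [hA.1]; exact hc.ge)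
    exact ⟨x, h1 ▸ hx, hxe⟩
  · rw [hA.2]; simp

/-- (G0) and (SEP). -/
theorem VC.main' (h : VC N) (hB : FactB N) (F Y M : Finset V) (P : Finset (Finset V))
    (c : Cfg N F Y P) (hY : 9 * Y.card ≤ 2 * F.card)
    (hM : ∀ e ∈ F, ∀ x, x ∉ F → x ∈ N e → e ∈ M) (hM8 : M.card ≤ 8) :
    fv N univ = Y.card + ∑ U ∈ P, fv N U ∧
    na N P + 9 * Y.card = 2 * F.card + 1 + ∑ U ∈ P, mu N U ∧
    2 * na N P ≤ M.card ∧
    ∀ e, ∀ U ∈ P, ∀ U' ∈ P, Sav N U e → Sav N U' e → U = U' := by
  classical
  -- the union bound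
  have hnu : ∀ U ∈ P, U ≠ univ := by
    rintro U hU rfl
    obtain ⟨f, hf⟩ := c.ne
    exact (Finset.mem_sdiff.1 ((c.comps.cl _ hU).1 (Finset.mem_univ f))).2 hf
  have h1 : fv N univ ≤ Y.card + ∑ U ∈ P, fv N U := by
    obtain ⟨f, hf⟩ := c.ne
    have := h.sep_count c f (T := ∅) (Finset.empty_subset _)
      (fun U hU => absurd hU (Finset.notMem_empty U)) ∅
      (fun hh => absurd hh Finset.not_nonempty_empty)
    rw [Finset.card_empty, Finset.card_empty] at this
    omega
  have h2 : F.card + ∑ U ∈ P, U.card = Fintype.card V := by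
    rw [← c.comps.card, ← Finset.card_univ, Nat.add_comm]
    exact Finset.card_sdiff_add_card_eq_card (Finset.subset_univ F)
  have h3 : 9 * ∑ U ∈ P, fv N U + ∑ U ∈ P, mu N U = 2 * ∑ U ∈ P, U.card + na N P := by
    unfold na
    rw [Finset.card_filter, Finset.mul_sum, Finset.mul_sum, ← Finset.sum_add_distrib,
      ← Finset.sum_add_distrib]
    apply Finset.sum_congr rfl
    intro U hU
    by_cases hA : ExA N U
    · rw [if_pos hA]
      obtain ⟨a1, a2⟩ := hA
      unfold mu
      rw [a1, a2]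
      norm_num
    · rw [if_neg hA]
      rcases h.val' hB U (hnu U hU) (c.comps.conn U hU) with h4 | h4
      · exact absurd h4 hA
      · exact h4
  have hex := h.ex
  obtain ⟨j, hj⟩ : ∃ j, Y.card + ∑ U ∈ P, fv N U = fv N univ + j :=
    Nat.exists_eq_add_of_le h1
  set X := P.filter (ExA N) with hX
  have hna : na N P = X.card := rfl
  -- each vertex touches at most `1 + j` exceptional components
  have hone : ∀ e : V, (X.filter (fun U => Tch N e U)).card ≤ 1 + j := by
    intro e
    have := h.sep_count c e (T := X.filter (fun U => Tch N e U))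
      (fun U hU => (Finset.mem_filter.1 (Finset.mem_filter.1 hU).1).1)
      (fun U hU => by
        obtain ⟨h4, h5⟩ := Finset.mem_filter.1 hU
        exact h.savA (Finset.mem_filter.1 h4).2 h5) {e}
      (fun _ => Finset.mem_singleton_self e)
    rw [Finset.card_singleton] at this
    omega
  -- two vertices of `M` touch an exceptional component
  have htwo : ∀ U ∈ X, 2 ≤ (M.filter (fun e => Tch N e U)).card := by
    intro U hU
    obtain ⟨hUP, hA⟩ := Finset.mem_filter.1 hU
    obtain ⟨t, ht, rfl⟩ := h.exA1 U hA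
    have hmem : ∀ u ∈ N t, ∀ x, x ∉ N t → x ∈ N u → x ∈ M.filter (fun e => Tch N e (N t)) := by
      intro u hu x hx hxu
      have hxF : x ∈ F := by
        by_contra hxF
        exact hx ((c.comps.cl _ hUP).2 u hu x (Finset.mem_sdiff.2 ⟨Finset.mem_univ _, hxF⟩) hxu)
      have huF : u ∉ F := (Finset.mem_sdiff.1 ((c.comps.cl _ hUP).1 hu)).2
      exact Finset.mem_filter.2 ⟨hM x hxF u huF (h.symm _ _ hxu), u, hu, h.symm _ _ hxu⟩
    obtain ⟨u, hu, x, hx, hxu, -⟩ := h.cut' t t ht
    obtain ⟨u', hu', x', hx', hxu', hne⟩ := h.cut' t x ht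
    exact Finset.one_lt_card.2 ⟨x', hmem u' hu' x' hx' hxu', x, hmem u hu x hx hxu, hne⟩
  have hcount : 2 * X.card ≤ M.card * (1 + j) := by
    have h5 : ∑ e ∈ M, (X.filter (fun U => Tch N e U)).card =
        ∑ U ∈ X, (M.filter (fun e => Tch N e U)).card := by
      simp only [Finset.card_filter]
      exact Finset.sum_comm
    calc 2 * X.card = ∑ U ∈ X, 2 := by rw [Finset.sum_const, smul_eq_mul, Nat.mul_comm]
      _ ≤ ∑ U ∈ X, (M.filter (fun e => Tch N e U)).card := Finset.sum_le_sum htwo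
      _ = ∑ e ∈ M, (X.filter (fun U => Tch N e U)).card := h5.symm
      _ ≤ ∑ e ∈ M, (1 + j) := Finset.sum_le_sum (fun e _ => hone e)
      _ = M.card * (1 + j) := by rw [Finset.sum_const, smul_eq_mul]
  have hj0 : j = 0 := by
    by_contra hj0
    have h6 : M.card * (1 + j) ≤ 8 * (1 + j) := Nat.mul_le_mul_right _ hM8
    omega
  subst hj0
  refine ⟨by omega, by omega, by omega, ?_⟩
  intro e U hU U' hU' hs hs'
  by_contra hne
  have := h.sep_count c e (T := {U, U'})
    (fun W hW => by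
      rcases Finset.mem_insert.1 hW with rfl | hW
      · exact hU
      · rw [Finset.mem_singleton.1 hW]; exact hU')
    (fun W hW => by
      rcases Finset.mem_insert.1 hW with rfl | hW
      · exact hs
      · rw [Finset.mem_singleton.1 hW]; exact hs') {e} (fun _ => Finset.mem_singleton_self e)
  rw [Finset.card_singleton, Finset.card_pair hne] at this
  omega

end

end Pool.Agent.Star.K4
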