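import Pool.Agent.Star.K4.Tools
import Pool.Agent.Star.K4.M2a

/-!
# `K = 4`, module M5: the basic facts
-/

set_option autoImplicit false
set_option linter.unusedSectionVars false
set_option linter.unusedVariables false

namespace Pool.Agent.Star.K4

open Finset Rig

section
variable {V : Type*} [DecidableEq V] [Fintype V] {N : V → Finset V}

/-- The configuration of a cubic star. -/
lemma Gen.cfg1 (g : Gen N) {z : V} (hz : Cub N z) {P : Finset (Finset V)}
    (hP : Comps N (univ \ N z) P) : Cfg N (N z) {z} P := by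
  refine ⟨hP, ⟨z, g.refl z⟩, ?_, ?_⟩
  · intro y hy
    rw [mem_singleton] at hy
    subst hy
    exact Subset.refl _
  · rintro c hc ⟨x, hx, hxz⟩
    exact ⟨z, mem_singleton_self z, x, hx, hxz⟩

/-- (G0) and (SEP) for a cubic star. -/
theorem Gen.main0 (g : Gen N) {z : V} (hz : Cub N z) {P : Finset (Finset V)}
    (hP : Comps N (univ \ N z) P) :
    fv N univ = 1 + ∑ U ∈ P, fv N U ∧ na N P = ∑ U ∈ P, mu N U ∧ 2 * na N P ≤ 3 ∧
    ∀ e, ∀ U ∈ P, ∀ U' ∈ P, Sav N U e → Sav N U' e → U = U' := by
  classical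
  have c := g.cfg1 hz hP
  have h := g.toVC
  have hz4 : (N z).card = 4 := hz
  have h1 : fv N univ ≤ 1 + ∑ U ∈ P, fv N U := by
    have := h.sep_count c z (T := ∅) (Finset.empty_subset _)
      (fun U hU => absurd hU (Finset.notMem_empty U)) ∅
      (fun hh => absurd hh Finset.not_nonempty_empty)
    rw [Finset.card_empty, Finset.card_empty, Finset.card_singleton] at this
    omega
  have h2 := c.card_compl
  have h3 : 9 * ∑ U ∈ P, fv N U + ∑ U ∈ P, mu N U = 2 * ∑ U ∈ P, U.card + na N P := by
    unfold na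
    rw [Finset.card_filter, Finset.mul_sum, Finset.mul_sum, ← Finset.sum_add_distrib,
      ← Finset.sum_add_distrib]
    apply Finset.sum_congr rfl
    intro U hU
    by_cases hA : ExA N U
    · rw [if_pos hA]
      obtain ⟨a1, a2⟩ := hA
      unfold mu
      rw [a1, a2]
      norm_num
    · rw [if_neg hA]
      rcases g.val U (c.ne_univ hU) (c.conn hU) with h4 | h4
      · exact absurd h4 hA
      · exact h4
  have hex := g.ex
  obtain ⟨j, hj⟩ : ∃ j, 1 + ∑ U ∈ P, fv N U = fv N univ + j := Nat.exists_eq_add_of_le h1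
  set X := P.filter (ExA N) with hX
  have hna : na N P = X.card := rfl
  set M := (N z).erase z with hM
  have hM3 : M.card = 3 := by
    rw [hM, card_erase_of_mem (g.refl z), hz4]
  have hone : ∀ e : V, (X.filter (fun U => Tch N e U)).card ≤ 1 + j := by
    intro e
    have := h.sep_count c e (T := X.filter (fun U => Tch N e U))
      (fun U hU => (Finset.mem_filter.1 (Finset.mem_filter.1 hU).1).1)
      (fun U hU => by
        obtain ⟨h4, h5⟩ := Finset.mem_filter.1 hU
        exact h.savA (Finset.mem_filter.1 h4).2 h5) {e}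
      (fun _ => Finset.mem_singleton_self e)
    rw [Finset.card_singleton, Finset.card_singleton] at this
    omega
  have htwo : ∀ U ∈ X, 2 ≤ (M.filter (fun e => Tch N e U)).card := by
    intro U hU
    obtain ⟨hUP, hA⟩ := Finset.mem_filter.1 hU
    have h4 := g.tcA c hUP hA
    refine h4.trans (card_le_card ?_)
    intro e he
    obtain ⟨h5, x, hx, hxe⟩ := mem_tc.1 he
    refine mem_filter.2 ⟨mem_erase.2 ⟨?_, h5⟩, x, hx, hxe⟩
    rintro rfl
    exact c.notF hUP hx hxe
  have hcount : 2 * X.card ≤ M.card * (1 + j) := by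
    have h5 : ∑ e ∈ M, (X.filter (fun U => Tch N e U)).card =
        ∑ U ∈ X, (M.filter (fun e => Tch N e U)).card := by
      simp only [Finset.card_filter]
      exact Finset.sum_comm
    calc 2 * X.card = ∑ U ∈ X, 2 := by rw [Finset.sum_const, smul_eq_mul, Nat.mul_comm]
      _ ≤ ∑ U ∈ X, (M.filter (fun e => Tch N e U)).card := Finset.sum_le_sum htwo
      _ = ∑ e ∈ M, (X.filter (fun U => Tch N e U)).card := h5.symm
      _ ≤ ∑ e ∈ M, (1 + j) := Finset.sum_le_sum (fun e _ => hone e)
      _ = M.card * (1 + j) := by rw [Finset.sum_const, smul_eq_mul]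
  rw [hM3] at hcount
  have hj0 : j = 0 := by
    by_contra hj0
    omega
  subst hj0
  refine ⟨by omega, by omega, by omega, ?_⟩
  intro e U hU U' hU' hs hs'
  by_contra hne
  have := h.sep_count c e (T := {U, U'})
    (fun W hW => by
      rcases Finset.mem_insert.1 hW with rfl | hW
      · exact hU
      · rw [Finset.mem_singleton.1 hW]; exact hU')
    (fun W hW => by
      rcases Finset.mem_insert.1 hW with rfl | hW
      · exact hs
      · rw [Finset.mem_singleton.1 hW]; exact hs') {e} (fun _ => Finset.mem_singleton_self e)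
  rw [Finset.card_singleton, Finset.card_pair hne, Finset.card_singleton] at this
  omega

lemma Gen.conn_star (g : Gen N) {z : V} : Conn N (N z) := by
  refine ⟨⟨z, g.refl z⟩, ?_⟩
  intro B hB hBn hBne
  by_cases hzB : z ∈ B
  · obtain ⟨y, hy, hyB⟩ : ∃ y ∈ N z, y ∉ B := by
      by_contra hcon
      push Not at hcon
      exact hBne (Subset.antisymm hB hcon)
    exact ⟨z, hzB, y, hy, hyB, hy⟩
  · obtain ⟨b, hb⟩ := hBn
    exact ⟨b, hb, z, g.refl z, hzB, g.symm _ _ (hB hb)⟩

/-- (A1) in terms of components: there is only one, and it is tight. -/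
theorem Gen.single (g : Gen N) {z : V} (hz : Cub N z) {P : Finset (Finset V)}
    (hP : Comps N (univ \ N z) P) : ∃ U, P = {U} ∧ mu N U = 0 ∧ ¬ ExA N U := by
  classical
  have c := g.cfg1 hz hP
  have hz4 : (N z).card = 4 := hz
  obtain ⟨h1, h2, h3, h4⟩ := g.main0 hz hP
  have hbig := g.toVS.big
  have hcompl := c.card_compl
  -- touching vertices are in `N z` without `z`
  have htc : ∀ U ∈ P, tc N (N z) U ⊆ (N z).erase z := by
    intro U hU e he
    obtain ⟨h5, x, hx, hxe⟩ := mem_tc.1 he
    refine mem_erase.2 ⟨?_, h5⟩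
    rintro rfl
    exact c.notF hU hx hxe
  have hM3 : ((N z).erase z).card = 3 := by
    rw [card_erase_of_mem (g.refl z), hz4]
  have two_ex : ∀ U ∈ P, ∀ U' ∈ P, U ≠ U' → 2 ≤ (tc N (N z) U).card →
      2 ≤ (tc N (N z) U').card → Disjoint (tc N (N z) U) (tc N (N z) U') → False := by
    intro U hU U' hU' hne ha hb hd
    have h5 := card_le_card (union_subset (htc U hU) (htc U' hU'))
    rw [card_union_of_disjoint hd, hM3] at h5
    omega
  have hco : ∀ U ∈ P, Conn N (univ \ U) := fun U hU => c.conn_compl g.toVS g.conn_star hU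
  rcases Nat.eq_zero_or_pos (na N P) with h0 | h0
  · have hmu : ∀ U ∈ P, mu N U = 0 := mu_of_sum (by omega)
    have hex := na_zero h0
    -- at most one component
    have hle : P.card ≤ 1 := by
      by_contra hcon
      obtain ⟨U, hU, U', hU', hne⟩ := one_lt_card.1 (by omega : 1 < P.card)
      refine two_ex U hU U' hU' hne (g.tcT c hU (hco U hU) (hex U hU) (by rw [hmu U hU]; omega))
        (g.tcT c hU' (hco U' hU') (hex U' hU') (by rw [hmu U' hU']; omega)) ?_
      exact tc_disjoint (fun e a b => h4 e U hU U' hU' a b)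
        (g.tight U (c.ne_univ hU) (c.conn hU) (hmu U hU))
        (g.tight U' (c.ne_univ hU') (c.conn hU') (hmu U' hU')) hne
    have hne : P.Nonempty := by
      by_contra hcon
      rw [not_nonempty_iff_eq_empty] at hcon
      rw [hcon, sum_empty] at hcompl
      omega
    obtain ⟨U, hU⟩ := card_eq_one.1 (by have := card_pos.2 hne; omega : P.card = 1)
    have hUP : U ∈ P := by rw [hU]; exact mem_singleton_self U
    exact ⟨U, hU, hmu U hUP, hex U hUP⟩
  · exfalso
    have hna1 : na N P = 1 := by omega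
    obtain ⟨L, hL, hLA, hLo⟩ := na_one hna1
    -- a component with `mu = 1`
    have hsum : ∑ U ∈ P, mu N U = 1 := by omega
    have hmuL : mu N L = 0 := by
      obtain ⟨a1, a2⟩ := hLA
      unfold mu
      rw [a1, a2]
    obtain ⟨M, hM, hMmu⟩ : ∃ M ∈ P, mu N M ≠ 0 := by
      by_contra hcon
      push Not at hcon
      rw [sum_eq_zero hcon] at hsum
      omega
    have hMle : mu N M ≤ 1 := by
      have := single_le_sum (f := mu N) (fun _ _ => Nat.zero_le _) hM
      omega
    have hM1 : mu N M = 1 := by omega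
    have hML : M ≠ L := by
      rintro rfl
      exact hMmu hmuL
    have hothers : ∀ U ∈ P, U ≠ M → mu N U = 0 := by
      intro U hU hne
      by_contra hcon
      have h5 : ∑ W ∈ ({U, M} : Finset (Finset V)), mu N W ≤ ∑ W ∈ P, mu N W := by
        apply sum_le_sum_of_subset
        intro W hW
        rcases mem_insert.1 hW with rfl | hW
        · exact hU
        · rw [mem_singleton.1 hW]; exact hM
      rw [sum_pair hne] at h5
      omega
    have hLtc := g.tcA c hL hLA
    -- there are no others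
    have hP2 : P = {L, M} := by
      ext W
      rw [mem_insert, mem_singleton]
      constructor
      · intro hW
        by_contra hcon
        push Not at hcon
        obtain ⟨hWL, hWM⟩ := hcon
        have hmW := hothers W hW hWM
        refine two_ex L hL W hW (Ne.symm hWL) hLtc
          (g.tcT c hW (hco W hW) (hLo W hW hWL) (by rw [hmW]; omega)) ?_
        exact tc_disjoint (fun e a b => h4 e L hL W hW a b)
          (g.tight L (c.ne_univ hL) (c.conn hL) hmuL)
          (g.tight W (c.ne_univ hW) (c.conn hW) hmW) (Ne.symm hWL)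
      · rintro (rfl | rfl)
        · exact hL
        · exact hM
    have hMcard : 14 ≤ M.card := by
      rw [hP2, sum_pair (Ne.symm hML), hLA.1] at hcompl
      omega
    refine two_ex L hL M hM (Ne.symm hML) hLtc
      (g.tcT c hM (hco M hM) (hLo M hM hML) (by omega)) ?_
    rw [disjoint_left]
    intro e he he'
    obtain ⟨-, heL⟩ := mem_tc.1 he
    obtain ⟨-, y, hy, hye⟩ := mem_tc.1 he'
    have hsL := g.tight L (c.ne_univ hL) (c.conn hL) hmuL e heL
    have hnM : ¬ Sav N M e := fun hs => hML (h4 e L hL M hM hsL hs).symm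
    have := (g.mu1 M (c.ne_univ hM) (c.conn hM) hM1 e y hy hye hnM).1
    omega

/-- (A1) -/
theorem Gen.A1 (g : Gen N) {z : V} (hz : Cub N z) :
    Conn N (univ \ N z) ∧ fv N (univ \ N z) + 1 = fv N univ ∧ mu N (univ \ N z) = 0 := by
  obtain ⟨P, hP⟩ := exists_comps (N := N) g.symm (univ \ N z)
  obtain ⟨U, rfl, hmu, hA⟩ := g.single hz hP
  obtain ⟨h1, -⟩ := g.main0 hz hP
  have hU : U = univ \ N z := by
    apply Subset.antisymm (hP.cl U (mem_singleton_self U)).1
    intro x hx
    obtain ⟨W, hW, hxW⟩ := hP.cover x hx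
    rw [mem_singleton.1 hW] at hxW
    exact hxW
  subst hU
  rw [sum_singleton] at h1
  exact ⟨hP.conn _ (mem_singleton_self _), by omega, hmu⟩

/-- (A2) -/
theorem Gen.A2 (g : Gen N) {z v : V} (hz : Cub N z) (hv : v ∉ N z) :
    ∃ c, Cub N c ∧ v ∈ N c ∧ Disjoint (N c) (N z) := by
  classical
  by_contra hcon
  push Not at hcon
  obtain ⟨P, hP⟩ := exists_comps (N := N) g.symm (univ \ insert v (N z))
  have hz4 : (N z).card = 4 := hz
  have c : Cfg N (insert v (N z)) {z} P := by
    refine ⟨hP, ⟨v, mem_insert_self _ _⟩, ?_, ?_⟩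
    · intro y hy
      rw [mem_singleton.1 hy]
      exact subset_insert _ _
    · rintro x hx ⟨y, hy, hyF⟩
      refine ⟨z, mem_singleton_self z, ?_⟩
      rcases mem_insert.1 hyF with rfl | hyF
      · have := hcon x hx hy
        obtain ⟨w, hw, hw'⟩ := not_disjoint_iff.1 this
        exact ⟨w, hw, hw'⟩
      · exact ⟨y, hy, hyF⟩
  have hF5 : (insert v (N z)).card = 5 := by rw [card_insert_of_notMem hv, hz4]
  have hMc : ((insert v (N z)).erase z).card = 4 := by
    rw [card_erase_of_mem (mem_insert_of_mem (g.refl z)), hF5]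
  obtain ⟨h1, h2, h3, h4⟩ := g.main _ _ ((insert v (N z)).erase z) P c
    (by rw [card_singleton, hF5]; omega) (by
      intro e he x hx hxe
      refine mem_erase.2 ⟨?_, he⟩
      rintro rfl
      exact hx (mem_insert_of_mem hxe)) (by omega)
  rw [card_singleton, hF5] at h2
  rw [hMc] at h3
  have hna : na N P = 2 := by omega
  -- two exceptional components, both touched by `v`
  unfold na at hna
  obtain ⟨L1, L2, hne, hL⟩ := card_eq_two.1 hna
  have hL1 : L1 ∈ P ∧ ExA N L1 := mem_filter.1 (by rw [hL]; exact mem_insert_self _ _)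
  have hL2 : L2 ∈ P ∧ ExA N L2 := mem_filter.1 (by
    rw [hL]; exact mem_insert_of_mem (mem_singleton_self _))
  obtain ⟨hTc, -, -⟩ := g.A1 hz
  have key : ∀ L, L ∈ P → ExA N L → Tch N v L := by
    intro L hLP hLA
    have hsub : L ⊆ univ \ N z := by
      intro x hx
      have := c.notF hLP hx
      rw [mem_insert, not_or] at this
      exact mem_sdiff.2 ⟨mem_univ _, this.2⟩
    have hvL : v ∉ L := fun h' => c.notF hLP h' (mem_insert_self _ _)
    obtain ⟨x, hx, y, hy, hyL, hyx⟩ := hTc.2 L hsub (c.conn hLP).1 (by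
      intro hh
      apply hvL
      rw [hh]
      exact mem_sdiff.2 ⟨mem_univ _, hv⟩)
    have h5 := c.out hLP hx hyx hyL
    rcases mem_insert.1 h5 with rfl | h5
    · exact ⟨x, hx, g.symm _ _ hyx⟩
    · exact absurd h5 (mem_sdiff.1 hy).2
  exact hne (h4 v L1 hL1.1 L2 hL2.1 (g.toVC.savA hL1.2 (key L1 hL1.1 hL1.2))
    (g.toVC.savA hL2.2 (key L2 hL2.1 hL2.2)))

/-- Cubic vertices exist. -/
lemma Gen.exCub (g : Gen N) : ∃ c, Cub N c := by
  by_contra hcon
  push Not at hcon
  have h1 : KI N ∅ univ := fun c hc => absurd hc (hcon c)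
  have h2 := g.lower ∅ h1
  have h3 := g.five
  rw [card_empty] at h2
  omega

lemma Gen.card3 (g : Gen N) {v : V} (hv : ¬ Cub N v) : (N v).card ≤ 3 := by
  have := g.deg v
  unfold Cub at hv
  omega

/-- (D2), the counting part: a star alone in its neighbourhood is impossible. -/
lemma Gen.lonely (g : Gen N) {x : V} (hx : Cub N x)
    (hl : ∀ z, Cub N z → z ≠ x → Disjoint (N x) (N z)) : False := by
  classical
  have hx4 : (N x).card = 4 := hx
  obtain ⟨u₀, hu₀, u, huo, hu, -⟩ := g.cut x x hx
  -- `u₀` in the star, `u` outside, adjacent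
  have hux : u ≠ x := by
    rintro rfl
    exact huo (g.refl _)
  have hu₀u : u₀ ∈ N u := g.symm _ _ hu
  have hucub : ¬ Cub N u := fun hc => disjoint_left.1 (hl u hc hux) hu₀ hu₀u
  have hu₀x : u₀ ≠ x := by
    rintro rfl
    exact huo hu
  have hu₀cub : ¬ Cub N u₀ := fun hc => disjoint_left.1 (hl u₀ hc hu₀x) hu₀ (g.refl u₀)
  have hcu := g.card3 hucub
  have hcu₀ := g.card3 hu₀cub
  have hNu₀ : N u₀ = {u₀, x, u} := by
    symm
    apply eq_of_subset_of_card_le
    · intro y hy
      rw [mem_insert, mem_insert, mem_singleton] at hy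
      rcases hy with rfl | rfl | rfl
      · exact g.refl _
      · exact g.symm _ _ hu₀
      · exact hu
    · have : ({u₀, x, u} : Finset V).card = 3 := by
        rw [card_insert_of_notMem, card_pair hux.symm]
        rw [mem_insert, mem_singleton]
        push Not
        refine ⟨hu₀x, ?_⟩
        rintro rfl
        exact huo hu₀
      omega
  obtain ⟨P, hP⟩ := exists_comps (N := N) g.symm (univ \ (N x ∪ N u))
  have c : Cfg N (N x ∪ N u) {u} P := by
    refine ⟨hP, ⟨x, mem_union_left _ (g.refl x)⟩, ?_, ?_⟩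
    · intro y hy
      rw [mem_singleton.1 hy]
      exact subset_union_right
    · rintro z hz ⟨y, hy, hyF⟩
      refine ⟨u, mem_singleton_self u, ?_⟩
      rcases mem_union.1 hyF with hyF | hyF
      · have hzx : z = x := by
          by_contra hne
          exact disjoint_left.1 (hl z hz hne) hyF hy
        subst hzx
        exact ⟨u₀, hu₀, hu₀u⟩
      · exact ⟨y, hy, hyF⟩
  have hFge : 5 ≤ (N x ∪ N u).card := by
    have h1 : insert u (N x) ⊆ N x ∪ N u := by
      intro y hy
      rcases mem_insert.1 hy with rfl | hy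
      · exact mem_union_right _ (g.refl _)
      · exact mem_union_left _ hy
    have h2 := card_le_card h1
    rw [card_insert_of_notMem huo, hx4] at h2
    exact h2
  have hFle : (N x ∪ N u).card ≤ 6 := by
    have h1 := card_union_add_card_inter (N x) (N u)
    have h2 : 1 ≤ (N x ∩ N u).card := card_pos.2 ⟨u₀, mem_inter.2 ⟨hu₀, hu₀u⟩⟩
    omega
  have hMle : ((((N x ∪ N u).erase x).erase u).erase u₀).card ≤ 3 := by
    rw [card_erase_of_mem, card_erase_of_mem, card_erase_of_mem]
    · omega
    · exact mem_union_left _ (g.refl x)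
    · exact mem_erase.2 ⟨hux, mem_union_right _ (g.refl u)⟩
    · refine mem_erase.2 ⟨?_, mem_erase.2 ⟨hu₀x, mem_union_left _ hu₀⟩⟩
      rintro rfl
      exact huo hu₀
  obtain ⟨h1, h2, h3, h4⟩ := g.main _ _ ((((N x ∪ N u).erase x).erase u).erase u₀) P c
    (by rw [card_singleton]; omega) (by
      intro e he y hy hye
      refine mem_erase.2 ⟨?_, mem_erase.2 ⟨?_, mem_erase.2 ⟨?_, he⟩⟩⟩
      · rintro rfl
        rw [hNu₀, mem_insert, mem_insert, mem_singleton] at hye
        rcases hye with rfl | rfl | rfl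
        · exact hy he
        · exact hy (mem_union_left _ (g.refl _))
        · exact hy (mem_union_right _ (g.refl _))
      · rintro rfl
        exact hy (mem_union_right _ hye)
      · rintro rfl
        exact hy (mem_union_left _ hye)) (by omega)
  rw [card_singleton] at h2
  omega

/-- (D2): a vertex which is not cubic has two cubic neighbours. -/
theorem Gen.D2 (g : Gen N) {v : V} (hv : ¬ Cub N v) :
    (N v).card = 3 ∧ ∀ x ∈ N v, x ≠ v → Cub N x := by
  classical
  have h3 := g.card3 hv
  -- the cubic neighbours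
  by_contra hcon
  have h1 : ((N v).filter (fun x => Cub N x)).card ≤ 1 := by
    by_contra hc
    push Not at hc
    apply hcon
    have h4 : insert v ((N v).filter (fun x => Cub N x)) ⊆ N v := by
      intro x hx
      rcases mem_insert.1 hx with rfl | hx
      · exact g.refl _
      · exact (mem_filter.1 hx).1
    have h5 : v ∉ (N v).filter (fun x => Cub N x) := fun h' => hv (mem_filter.1 h').2
    have h6 := card_le_card h4
    rw [card_insert_of_notMem h5] at h6
    have h7 := eq_of_subset_of_card_le h4 (by rw [card_insert_of_notMem h5]; omega)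
    refine ⟨by omega, fun x hx hxv => ?_⟩
    rw [← h7] at hx
    rcases mem_insert.1 hx with rfl | hx
    · exact absurd rfl hxv
    · exact (mem_filter.1 hx).2
  -- some cubic vertex
  have ex : ∃ x, Cub N x ∧ x ∈ N v := by
    obtain ⟨z, hz⟩ := g.exCub
    by_cases hzv : z ∈ N v
    · exact ⟨z, hz, hzv⟩
    · obtain ⟨c, hc, hvc, -⟩ := g.A2 hz (fun h' => hzv (g.symm _ _ h'))
      exact ⟨c, hc, g.symm _ _ hvc⟩
  obtain ⟨x, hx, hxv⟩ := ex
  have uniq : ∀ y, Cub N y → y ∈ N v → y = x := by
    intro y hy hyv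
    exact card_le_one.1 h1 y (mem_filter.2 ⟨hyv, hy⟩) x (mem_filter.2 ⟨hxv, hx⟩)
  apply g.lonely hx
  intro z hz hzx
  have hvz : v ∉ N z := fun h' => hzx (uniq z hz (g.symm _ _ h'))
  obtain ⟨c, hc, hvc, hd⟩ := g.A2 hz hvz
  rw [uniq c hc (g.symm _ _ hvc)] at hd
  exact hd

/-- (C3): a cubic vertex has a cubic neighbour. -/
theorem Gen.C3 (g : Gen N) {x : V} (hx : Cub N x) : ∃ c, c ≠ x ∧ Cub N c ∧ c ∈ N x := by
  by_contra hcon
  push Not at hcon
  have hx4 : (N x).card = 4 := hx
  obtain ⟨y, hy, hyx⟩ := exists_mem_ne (by omega : 1 < (N x).card) x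
  have hyc : ¬ Cub N y := fun h' => hcon y hyx h' hy
  obtain ⟨h3, h4⟩ := g.D2 hyc
  -- the other neighbour of `y`
  have hxy : x ∈ N y := g.symm _ _ hy
  obtain ⟨e, he, hex⟩ := exists_mem_ne (s := (N y).erase y)
    (by rw [card_erase_of_mem (g.refl y), h3]; omega) x
  obtain ⟨hey, hey'⟩ := mem_erase.1 he
  have hec := h4 e hey' hey
  have hxe : x ∉ N e := fun h' => hcon e hex hec (g.symm _ _ h')
  obtain ⟨c, hc, hxc, hd⟩ := g.A2 hec hxe
  have hcx : c = x := by
    by_contra hne
    exact hcon c hne hc (g.symm _ _ hxc)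
  subst hcx
  exact disjoint_left.1 hd hy (g.symm _ _ hey')

/-- (V2) -/
theorem Gen.V2 (g : Gen N) {v x1 x2 z : V} (hv : ¬ Cub N v) (h1 : x1 ∈ N v) (h2 : x2 ∈ N v)
    (h1v : x1 ≠ v) (h2v : x2 ≠ v) (h12 : x1 ≠ x2) (hz : Cub N z) (hz1 : z ≠ x1) (hz2 : z ≠ x2)
    (hw1 : ∃ w ∈ N z, w ∈ N x1) (hw2 : ∃ w ∈ N z, w ∈ N x2) : False := by
  have h3 := (g.D2 hv).1
  have hNv : N v = {v, x1, x2} := by
    symm
    apply eq_of_subset_of_card_le
    · intro y hy
      rw [mem_insert, mem_insert, mem_singleton] at hy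
      rcases hy with rfl | rfl | rfl
      · exact g.refl _
      · exact h1
      · exact h2
    · have : ({v, x1, x2} : Finset V).card = 3 := by
        rw [card_insert_of_notMem, card_pair h12]
        rw [mem_insert, mem_singleton]
        push Not
        exact ⟨h1v.symm, h2v.symm⟩
      omega
  have cases : ∀ c, Cub N c → v ∈ N c → c = x1 ∨ c = x2 := by
    intro c hc hvc
    have h4 : c ∈ N v := g.symm _ _ hvc
    rw [hNv, mem_insert, mem_insert, mem_singleton] at h4
    rcases h4 with rfl | h4 | h4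
    · exact absurd hc hv
    · exact Or.inl h4
    · exact Or.inr h4
  have hvz : v ∉ N z := by
    intro h'
    rcases cases z hz h' with h4 | h4
    · exact hz1 h4
    · exact hz2 h4
  obtain ⟨c, hc, hvc, hd⟩ := g.A2 hz hvz
  rcases cases c hc hvc with rfl | rfl
  · obtain ⟨w, hw, hw'⟩ := hw1
    exact disjoint_left.1 hd hw' hw
  · obtain ⟨w, hw, hw'⟩ := hw2
    exact disjoint_left.1 hd hw' hw

/-- (K23) -/
theorem Gen.K23 (g : Gen N) {a b : V} (hab : a ≠ b) (ha : Cub N a) (hb : Cub N b)
    (h : (N a).erase a = (N b).erase b) : False := by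
  have hb4 : (N b).card = 4 := hb
  have hba : b ∉ N a := by
    intro h'
    have h1 : b ∈ (N a).erase a := mem_erase.2 ⟨hab.symm, h'⟩
    rw [h] at h1
    exact (mem_erase.1 h1).1 rfl
  obtain ⟨c, hc, hbc, hd⟩ := g.A2 ha hba
  by_cases hcb : c = b
  · subst hcb
    obtain ⟨y, hy, hyc⟩ := exists_mem_ne (by omega : 1 < (N c).card) c
    have h1 : y ∈ (N c).erase c := mem_erase.2 ⟨hyc, hy⟩
    rw [← h] at h1
    exact disjoint_left.1 hd hy (mem_erase.1 h1).2
  · have h1 : c ∈ (N b).erase b := mem_erase.2 ⟨hcb, g.symm _ _ hbc⟩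
    rw [← h] at h1
    exact disjoint_left.1 hd (g.refl c) (mem_erase.1 h1).2

/-- **Module M5.** -/
theorem bas (g : Gen N) : Bas N where
  toGen := g
  a1c := fun z hz => (g.A1 hz).1
  a1 := fun z hz => (g.A1 hz).2.1
  a2 := fun z v hz hv => g.A2 hz hv
  d2 := fun v hv => g.D2 hv
  c3 := fun x hx => g.C3 hx
  v2 := fun v x1 x2 z hv h1 h2 h3 h4 h5 h6 h7 h8 h9 h10 => g.V2 hv h1 h2 h3 h4 h5 h6 h7 h8 h9 h10
  k23 := fun a b hab ha hb h => g.K23 hab ha hb h

end

end Pool.Agent.Star.K4
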