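import Pool.Agent.Star.K4.Spec

/-!
# `K = 4`: small tools, and the configurations with two disjoint stars and one dead vertex
-/

set_option autoImplicit false
set_option linter.unusedSectionVars false
set_option linter.unusedVariables false

namespace Pool.Agent.Star.K4

open Finset Rig

section
variable {V : Type*} [DecidableEq V] [Fintype V] {N : V → Finset V}

lemma ExA.mu0 {U : Finset V} (h : ExA N U) : mu N U = 0 := by
  obtain ⟨h1, h2⟩ := h
  unfold mu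
  omega

lemma conn_iff {A : Finset V} : Conn N A ↔ A.Nonempty ∧ ∀ C ⊆ A, C.Nonempty →
    (∀ x ∈ C, ∀ y ∈ A, y ∈ N x → y ∈ C) → A ⊆ C := by
  constructor
  · rintro ⟨h1, h2⟩
    refine ⟨h1, fun C hC hne hcl => ?_⟩
    by_contra hcon
    obtain ⟨x, hx, y, hy, hyC, hyx⟩ := h2 C hC hne (by rintro rfl; exact hcon (Subset.refl _))
    exact hyC (hcl x hx y hy hyx)
  · rintro ⟨h1, h2⟩
    refine ⟨h1, fun C hC hne hneq => ?_⟩
    by_contra hcon
    push Not at hcon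
    apply hneq
    apply Finset.Subset.antisymm hC
    apply h2 C hC hne
    intro x hx y hy hyx
    by_contra hyC
    exact hcon x hx y hy hyC hyx

lemma conn_star (h : VS N) (z : V) : Conn N (N z) := by
  rw [conn_iff]
  refine ⟨⟨z, h.refl z⟩, fun C hC hne hcl => ?_⟩
  obtain ⟨b, hb⟩ := hne
  have hz : z ∈ C := hcl b hb z (h.refl z) (h.symm _ _ (hC hb))
  intro y hy
  exact hcl z hz y hy hy

lemma conn_union (h : VS N) {A B : Finset V} (hA : Conn N A) (hB : Conn N B) {a b : V}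
    (ha : a ∈ A) (hb : b ∈ B) (hab : b ∈ N a) : Conn N (A ∪ B) := by
  rw [conn_iff] at hA hB ⊢
  refine ⟨⟨a, mem_union_left _ ha⟩, fun C hC hne hcl => ?_⟩
  have kA : (C ∩ A).Nonempty → A ⊆ C := by
    intro hne'
    have := hA.2 (C ∩ A) inter_subset_right hne' (fun x hx y hy hyx =>
      mem_inter.2 ⟨hcl x (mem_inter.1 hx).1 y (mem_union_left _ hy) hyx, hy⟩)
    exact this.trans inter_subset_left
  have kB : (C ∩ B).Nonempty → B ⊆ C := by
    intro hne'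
    have := hB.2 (C ∩ B) inter_subset_right hne' (fun x hx y hy hyx =>
      mem_inter.2 ⟨hcl x (mem_inter.1 hx).1 y (mem_union_right _ hy) hyx, hy⟩)
    exact this.trans inter_subset_left
  obtain ⟨c, hc⟩ := hne
  rcases mem_union.1 (hC hc) with hc' | hc'
  · have h1 := kA ⟨c, mem_inter.2 ⟨hc, hc'⟩⟩
    have h2 : b ∈ C := hcl a (h1 ha) b (mem_union_right _ hb) hab
    exact union_subset h1 (kB ⟨b, mem_inter.2 ⟨h2, hb⟩⟩)
  · have h1 := kB ⟨c, mem_inter.2 ⟨hc, hc'⟩⟩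
    have h2 : a ∈ C := hcl b (h1 hb) a (mem_union_left _ ha) (h.symm _ _ hab)
    exact union_subset (kA ⟨a, mem_inter.2 ⟨h2, ha⟩⟩) h1

lemma conn_insert (h : VS N) {A : Finset V} (hA : Conn N A) {a b : V}
    (ha : a ∈ A) (hab : b ∈ N a) : Conn N (insert b A) := by
  rw [conn_iff] at hA ⊢
  refine ⟨⟨b, mem_insert_self _ _⟩, fun C hC hne hcl => ?_⟩
  have kA : (C ∩ A).Nonempty → A ⊆ C := by
    intro hne'
    have := hA.2 (C ∩ A) inter_subset_right hne' (fun x hx y hy hyx =>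
      mem_inter.2 ⟨hcl x (mem_inter.1 hx).1 y (mem_insert_of_mem hy) hyx, hy⟩)
    exact this.trans inter_subset_left
  obtain ⟨c, hc⟩ := hne
  have h0 : A ⊆ C := by
    rcases mem_insert.1 (hC hc) with rfl | hc'
    · have h2 : a ∈ C := hcl _ hc a (mem_insert_of_mem ha) (h.symm _ _ hab)
      exact kA ⟨a, mem_inter.2 ⟨h2, ha⟩⟩
    · exact kA ⟨c, mem_inter.2 ⟨hc, hc'⟩⟩
  exact insert_subset (hcl a (h0 ha) b (mem_insert_self _ _) hab) h0

/-- The complement of a component is connected. -/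
lemma conn_compl (h : VS N) {F : Finset V} {P : Finset (Finset V)}
    (hP : Comps N (univ \ F) P) (hF : Conn N F) {U : Finset V} (hU : U ∈ P) :
    Conn N (univ \ U) := by
  have hFU : ∀ x ∈ F, x ∉ U := fun x hx hxU =>
    (mem_sdiff.1 ((hP.cl U hU).1 hxU)).2 hx
  have hF' := conn_iff.1 hF
  have hadj : ∀ W ∈ P, ∃ z ∈ F, ∃ x ∈ W, x ∈ N z := fun W hW =>
    Comps.adj h.symm h.conn (subset_univ F) hF.1 hP hW
  rw [conn_iff]
  obtain ⟨f0, hf0⟩ := hF.1
  refine ⟨⟨f0, mem_sdiff.2 ⟨mem_univ _, hFU f0 hf0⟩⟩, fun C hC hne hcl => ?_⟩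
  have kF : (C ∩ F).Nonempty → F ⊆ C := by
    intro hne'
    have := hF'.2 (C ∩ F) inter_subset_right hne' (fun x hx y hy hyx =>
      mem_inter.2 ⟨hcl x (mem_inter.1 hx).1 y (mem_sdiff.2 ⟨mem_univ _, hFU y hy⟩) hyx, hy⟩)
    exact this.trans inter_subset_left
  have kW : ∀ W ∈ P, (C ∩ W).Nonempty → W ⊆ C := by
    intro W hW hne'
    have hWU : W ≠ U := by
      rintro rfl
      obtain ⟨x, hx⟩ := hne'
      rw [mem_inter] at hx
      exact (mem_sdiff.1 (hC hx.1)).2 hx.2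
    have := (conn_iff.1 (hP.conn W hW)).2 (C ∩ W) inter_subset_right hne' (fun x hx y hy hyx =>
      mem_inter.2 ⟨hcl x (mem_inter.1 hx).1 y (mem_sdiff.2 ⟨mem_univ _, fun hyU =>
        disjoint_left.1 (hP.disj W hW U hU hWU) hy hyU⟩) hyx, hy⟩)
    exact this.trans inter_subset_left
  have h1 : F ⊆ C := by
    apply kF
    obtain ⟨c, hc⟩ := hne
    by_cases hcF : c ∈ F
    · exact ⟨c, mem_inter.2 ⟨hc, hcF⟩⟩
    · obtain ⟨W, hW, hcW⟩ := hP.cover c (mem_sdiff.2 ⟨mem_univ _, hcF⟩)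
      have h2 := kW W hW ⟨c, mem_inter.2 ⟨hc, hcW⟩⟩
      obtain ⟨z, hz, x, hx, hxz⟩ := hadj W hW
      exact ⟨z, mem_inter.2 ⟨hcl x (h2 hx) z (mem_sdiff.2 ⟨mem_univ _, hFU z hz⟩)
        (h.symm _ _ hxz), hz⟩⟩
  intro y hy
  by_cases hyF : y ∈ F
  · exact h1 hyF
  · obtain ⟨W, hW, hyW⟩ := hP.cover y (mem_sdiff.2 ⟨mem_univ _, hyF⟩)
    obtain ⟨z, hz, x, hx, hxz⟩ := hadj W hW
    have hWU : W ≠ U := by
      rintro rfl
      exact (mem_sdiff.1 hy).2 hyW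
    have hxU : x ∉ U := fun hxU => disjoint_left.1 (hP.disj W hW U hU hWU) hx hxU
    exact kW W hW ⟨x, mem_inter.2 ⟨hcl z (h1 hz) x (mem_sdiff.2 ⟨mem_univ _, hxU⟩) hxz, hx⟩⟩ hyW

lemma nb4 {x p q r : V} (hc : Cub N x) (hx : x ∈ N x) (hp : p ∈ N x) (hq : q ∈ N x)
    (hr : r ∈ N x) (h1 : p ≠ x) (h2 : q ≠ x) (h3 : r ≠ x) (h4 : p ≠ q) (h5 : p ≠ r)
    (h6 : q ≠ r) : N x = {x, p, q, r} := by
  symm
  apply Finset.eq_of_subset_of_card_le
  · intro y hy
    simp only [mem_insert, mem_singleton] at hy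
    rcases hy with rfl | rfl | rfl | rfl <;> assumption
  · unfold Cub at hc
    rw [hc, card_insert_of_notMem, card_insert_of_notMem, card_insert_of_notMem,
      card_singleton] <;> simp [*, Ne.symm h1, Ne.symm h2, Ne.symm h3]

/-- The two other neighbours of a cubic vertex. -/
lemma nb_split {x p : V} (hc : Cub N x) (hx : x ∈ N x) (hp : p ∈ N x) (h : p ≠ x) :
    ∃ q r, q ≠ x ∧ r ≠ x ∧ q ≠ p ∧ r ≠ p ∧ q ≠ r ∧ N x = {x, p, q, r} := by
  have h1 : (((N x).erase x).erase p).card = 2 := by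
    rw [card_erase_of_mem (mem_erase.2 ⟨h, hp⟩), card_erase_of_mem hx]
    unfold Cub at hc
    omega
  obtain ⟨q, r, hqr, h2⟩ := card_eq_two.1 h1
  have hq : q ∈ ((N x).erase x).erase p := by rw [h2]; simp
  have hr : r ∈ ((N x).erase x).erase p := by rw [h2]; simp
  simp only [mem_erase] at hq hr
  exact ⟨q, r, hq.2.1, hr.2.1, hq.1, hr.1, hqr, nb4 hc hx hp hq.2.2 hr.2.2 h hq.2.1 hr.2.1
    (Ne.symm hq.1) (Ne.symm hr.1) hqr⟩

/-- The third neighbour of a cubic vertex. -/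
lemma nb_third {x p q : V} (hc : Cub N x) (hx : x ∈ N x) (hp : p ∈ N x) (h : p ≠ x)
    (hq : q ∈ N x) (h' : q ≠ x) (hpq : p ≠ q) :
    ∃ r, r ≠ x ∧ r ≠ p ∧ r ≠ q ∧ N x = {x, p, q, r} := by
  obtain ⟨s, r, h1, h2, h3, h4, h5, h6⟩ := nb_split hc hx hp h
  have hq' := hq
  rw [h6] at hq'
  simp only [mem_insert, mem_singleton] at hq'
  rcases hq' with h7 | h7 | h7 | h7
  · exact absurd h7 h'
  · exact absurd h7.symm hpq
  · subst h7
    exact ⟨r, h2, h4, Ne.symm h5, h6⟩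
  · subst h7
    refine ⟨s, h1, h3, h5, ?_⟩
    rw [h6]
    ext y
    simp only [mem_insert, mem_singleton]
    tauto

lemma three_le {S : Finset V} (v0 : V) (h : ∀ w1 w2, ∃ w ∈ S, w ≠ w1 ∧ w ≠ w2) :
    3 ≤ S.card := by
  obtain ⟨a, ha, _⟩ := h v0 v0
  obtain ⟨b, hb, hb1, _⟩ := h a a
  obtain ⟨c, hc, hc1, hc2⟩ := h a b
  exact two_lt_card.2 ⟨a, ha, b, hb, c, hc, Ne.symm hb1, Ne.symm hc1, Ne.symm hc2⟩

/-- A set with defect one has a neighbour which saves (all vertices cubic). -/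
lemma noM5 (c : Cb N) {M : Finset V} (hM : M ≠ univ) (hMc : Conn N M) (hmu : mu N M = 1)
    (hs : ∀ e, e ∉ M → Tch N e M → ¬ Sav N M e) : False := by
  have key : ∀ y ∈ M, ∀ e, e ∉ M → e ∈ N y → M.card = 5 ∧ ∃ t, Cub N t ∧ M.erase y = N t := by
    intro y hy e he hey
    have h1 := c.mu1 M hM hMc hmu e y hy (c.symm _ _ hey) (hs e he ⟨y, hy, c.symm _ _ hey⟩)
    exact ⟨h1.1, h1.2.2⟩
  obtain ⟨x, hx, e, _, he, hex⟩ := c.conn.2 M (subset_univ M) hMc.1 hM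
  obtain ⟨h5, t, ht, hMx⟩ := key x hx e he hex
  obtain ⟨w, hwt, hwx, _, y, hyt, hyw⟩ := c.twoG t x x ht
  have hyM : y ∈ M := by rw [← hMx] at hyt; exact mem_of_mem_erase hyt
  have hyx : y ≠ x := by rw [← hMx] at hyt; exact ne_of_mem_erase hyt
  have hwM : w ∉ M := fun h => hwt (by rw [← hMx]; exact mem_erase.2 ⟨hwx, h⟩)
  obtain ⟨_, u, hu, hMy⟩ := key y hyM w hwM (c.symm _ _ hyw)
  -- `N t = M - x`, `N u = M - y`
  have mt : ∀ v, v ∈ N t ↔ v ≠ x ∧ v ∈ M := fun v => by rw [← hMx]; exact mem_erase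
  have mv : ∀ v, v ∈ N u ↔ v ≠ y ∧ v ∈ M := fun v => by rw [← hMy]; exact mem_erase
  have htM := (mt t).1 (c.refl t)
  have huM := (mv u).1 (c.refl u)
  have htu : t ≠ u := by
    rintro rfl
    exact ((mt x).1 ((mv x).2 ⟨Ne.symm hyx, hx⟩)).1 rfl
  by_cases hty : t = y
  · -- `t = y`, `u = x`
    subst hty
    have hux : u = x := by
      by_contra hne
      have h1 : u ∈ N t := (mt u).2 ⟨hne, huM.2⟩
      exact ((mv t).1 (c.symm _ _ h1)).1 rfl
    subst hux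
    refine c.k23 t u htu ht hu ?_
    ext v
    simp only [mem_erase, mt, mv]
    tauto
  · have hux : u ≠ x := by
      rintro rfl
      have h1 : t ∈ N u := (mv t).2 ⟨hty, htM.2⟩
      exact ((mt u).1 (c.symm _ _ h1)).1 rfl
    have hut : u ∈ N t := (mt u).2 ⟨hux, huM.2⟩
    have hyt' : y ∈ N t := hyt
    obtain ⟨k, hk1, hk2, hk3, hNt⟩ := nb_third ht (c.refl t) hyt' (Ne.symm hty) hut (Ne.symm htu)
      (Ne.symm huM.1)
    have hkt : k ∈ N t := by rw [hNt]; simp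
    have hkM := (mt k).1 hkt
    have hku : k ∈ N u := (mv k).2 ⟨hk2, hkM.2⟩
    have htu' : t ∈ N u := c.symm _ _ hut
    obtain ⟨d, hd1, hd2, hd3, hNk⟩ := nb_third (c.reg k) (c.refl k) (c.symm _ _ hkt) (Ne.symm hk1)
      (c.symm _ _ hku) (Ne.symm hk3) htu
    have hdk : d ∈ N k := by rw [hNk]; simp
    by_cases hdM : d ∈ M
    · -- `M = {x, y, t, u, k}`
      have hcases : d = x ∨ d = y := by
        by_contra hcon
        push Not at hcon
        have h1 : d ∈ N t := (mt d).2 ⟨hcon.1, hdM⟩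
        rw [hNt] at h1
        simp only [mem_insert, mem_singleton] at h1
        rcases h1 with h1 | h1 | h1 | h1
        · exact hd2 h1
        · exact hcon.2 h1
        · exact hd3 h1
        · exact hd1 h1
      rcases hcases with rfl | rfl
      · -- `u ~ k`, common neighbours `t`, `x`
        have hxu : d ∈ N u := (mv d).2 ⟨Ne.symm hyx, hx⟩
        exact c.dia u k t d (Ne.symm hk3) htM.1 htu (Ne.symm hk1) (Ne.symm hux) hd1 hku
          htu' (c.symm _ _ hkt) hxu hdk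
      · exact c.dia t k u d (Ne.symm hk1) huM.1 (Ne.symm htu) (Ne.symm hk3) (Ne.symm hty)
          hd1 hkt hut (c.symm _ _ hku) hyt' hdk
    · obtain ⟨_, r, hr, hMk⟩ := key k hkM.2 d hdM hdk
      have mr : ∀ v, v ∈ N r ↔ v ≠ k ∧ v ∈ M := fun v => by rw [← hMk]; exact mem_erase
      have hrM := (mr r).1 (c.refl r)
      -- `r` is adjacent to `x, y, t, u`
      have hrx : x ∈ N r := (mr x).2 ⟨by rintro rfl; exact hkM.1 rfl, hx⟩
      have hry : y ∈ N r := (mr y).2 ⟨Ne.symm hk2, hyM⟩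
      have hrt : t ∈ N r := (mr t).2 ⟨Ne.symm hk1, htM.2⟩
      have hru : u ∈ N r := (mr u).2 ⟨Ne.symm hk3, huM.2⟩
      have h1 : r ∈ N t := c.symm _ _ hrt
      have h2 : r ∈ N u := c.symm _ _ hru
      have h3 : r ≠ y := ((mv r).1 h2).1
      have h4 : r ≠ x := ((mt r).1 h1).1
      have h5 : r ≠ t := by
        rintro rfl
        exact ((mt x).1 hrx).1 rfl
      rw [hNt] at h1
      simp only [mem_insert, mem_singleton] at h1
      rcases h1 with h1 | h1 | h1 | h1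
      · exact h5 h1
      · exact h3 h1
      · subst h1
        exact ((mv y).1 hry).1 rfl
      · exact hrM.1 h1

/-- Two disjoint stars and one dead vertex; `P` are the components of the rest. -/
structure Two (N : V → Finset V) (z1 z2 v : V) (P : Finset (Finset V)) : Prop where
  dj : Disjoint (N z1) (N z2)
  v1 : v ∉ N z1
  v2 : v ∉ N z2
  dead : ∀ c ∈ N v, (∃ x ∈ N c, x ∈ N z1) ∨ ∃ x ∈ N c, x ∈ N z2
  comps : Comps N (univ \ insert v (N z1 ∪ N z2)) P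

lemma Two.ex (h : VS N) {z1 z2 v : V} (h1 : Disjoint (N z1) (N z2)) (h2 : v ∉ N z1)
    (h3 : v ∉ N z2) (h4 : ∀ c ∈ N v, (∃ x ∈ N c, x ∈ N z1) ∨ ∃ x ∈ N c, x ∈ N z2) :
    ∃ P, Two N z1 z2 v P := by
  obtain ⟨P, hP⟩ := exists_comps (N := N) h.symm (univ \ insert v (N z1 ∪ N z2))
  exact ⟨P, h1, h2, h3, h4, hP⟩

lemma Two.sy {z1 z2 v : V} {P : Finset (Finset V)} (h : Two N z1 z2 v P) :
    Two N z2 z1 v P :=
  ⟨h.dj.symm, h.v2, h.v1, fun c hc => (h.dead c hc).symm, by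
    rw [union_comm]; exact h.comps⟩

section
variable {z1 z2 v : V} {P : Finset (Finset V)}

lemma Two.ne (h : Two N z1 z2 v P) (c : Cb N) : z1 ≠ z2 := by
  rintro rfl
  exact disjoint_left.1 h.dj (c.refl z1) (c.refl z1)

lemma Two.cfg (h : Two N z1 z2 v P) (c : Cb N) :
    Cfg N (insert v (N z1 ∪ N z2)) {z1, z2} P := by
  refine ⟨h.comps, ⟨v, mem_insert_self _ _⟩, ?_, ?_⟩
  · intro y hy
    simp only [mem_insert, mem_singleton] at hy
    rcases hy with rfl | rfl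
    · exact subset_union_left.trans (subset_insert _ _)
    · exact subset_union_right.trans (subset_insert _ _)
  · rintro d _ ⟨x, hx, hxF⟩
    have h0 : (∃ x ∈ N d, x ∈ N z1) ∨ ∃ x ∈ N d, x ∈ N z2 := by
      simp only [mem_insert, mem_union] at hxF
      rcases hxF with rfl | hxF | hxF
      · exact h.dead d (c.symm _ _ hx)
      · exact Or.inl ⟨x, hx, hxF⟩
      · exact Or.inr ⟨x, hx, hxF⟩
    rcases h0 with h0 | h0
    · exact ⟨z1, by simp, h0⟩
    · exact ⟨z2, by simp, h0⟩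

lemma Two.cardF (h : Two N z1 z2 v P) (c : Cb N) : (insert v (N z1 ∪ N z2)).card = 9 := by
  rw [card_insert_of_notMem, card_union_of_disjoint h.dj]
  · have h1 := c.reg z1
    have h2 := c.reg z2
    unfold Cub at h1 h2
    omega
  · rw [mem_union]
    rintro (h1 | h1)
    · exact h.v1 h1
    · exact h.v2 h1

/-- a vertex of a component -/
lemma Two.out (h : Two N z1 z2 v P) {U : Finset V} (hU : U ∈ P) {x : V} (hx : x ∈ U) :
    x ≠ v ∧ x ∉ N z1 ∧ x ∉ N z2 := by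
  have h1 := (mem_sdiff.1 ((h.comps.cl U hU).1 hx)).2
  simp only [mem_insert, mem_union, not_or] at h1
  exact h1

/-- an outside neighbour of a component -/
lemma Two.nb (h : Two N z1 z2 v P) (c : Cb N) {U : Finset V} (hU : U ∈ P) {x y : V} (hx : x ∈ U)
    (hy : y ∈ N x) (hyU : y ∉ U) : (y = v ∨ y ∈ N z1 ∨ y ∈ N z2) ∧ y ≠ z1 ∧ y ≠ z2 := by
  have h0 := h.out hU hx
  refine ⟨?_, ?_, ?_⟩
  · by_contra hcon
    apply hyU
    refine (h.comps.cl U hU).2 x hx y (mem_sdiff.2 ⟨mem_univ _, ?_⟩) hy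
    simp only [mem_insert, mem_union]
    exact hcon
  · rintro rfl
    exact h0.2.1 (c.symm _ _ hy)
  · rintro rfl
    exact h0.2.2 (c.symm _ _ hy)

lemma Two.univ (h : Two N z1 z2 v P) {U : Finset V} (hU : U ∈ P) : U ≠ univ := by
  rintro rfl
  exact (h.out hU (mem_univ v)).1 rfl

lemma Two.conn (h : Two N z1 z2 v P) {U : Finset V} (hU : U ∈ P) : Conn N U :=
  h.comps.conn U hU

/-- a component touches `N z1` or `v` -/
lemma Two.side (h : Two N z1 z2 v P) (c : Cb N) {U : Finset V} (hU : U ∈ P) :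
    ∃ x ∈ U, ∃ y ∈ N x, (y = v ∨ y ∈ N z1) ∧ y ≠ z1 := by
  have h1 : U ⊆ Finset.univ \ N z2 := fun x hx =>
    mem_sdiff.2 ⟨mem_univ _, (h.out hU hx).2.2⟩
  have h2 : U ≠ Finset.univ \ N z2 := by
    intro h3
    have h4 : v ∈ U := by rw [h3]; exact mem_sdiff.2 ⟨mem_univ _, h.v2⟩
    exact (h.out hU h4).1 rfl
  obtain ⟨x, hx, y, hy, hyU, hyx⟩ := (c.a1c z2 (c.reg z2)).2 U h1 (h.conn hU).1 h2
  obtain ⟨h3, h4, h5⟩ := h.nb c hU hx hyx hyU
  refine ⟨x, hx, y, hyx, ?_, h4⟩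
  rcases h3 with h3 | h3 | h3
  · exact Or.inl h3
  · exact Or.inr h3
  · exact absurd h3 (mem_sdiff.1 hy).2

/-- The counting of `Gen.main`. -/
lemma Two.main (h : Two N z1 z2 v P) (c : Cb N) (M : Finset V)
    (hM : ∀ e x, (e = v ∨ e ∈ N z1 ∨ e ∈ N z2) → e ≠ z1 → e ≠ z2 → x ≠ v → x ∉ N z1 →
      x ∉ N z2 → x ∈ N e → e ∈ M) (hMc : M.card ≤ 8) :
    fv N Finset.univ = 2 + ∑ U ∈ P, fv N U ∧ na N P = 1 + ∑ U ∈ P, mu N U ∧
    2 * na N P ≤ M.card ∧
    ∀ e, ∀ U ∈ P, ∀ U' ∈ P, Sav N U e → Sav N U' e → U = U' := by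
  have h2 : ({z1, z2} : Finset V).card = 2 := card_pair (h.ne c)
  have h3 := h.cardF c
  obtain ⟨m1, m2, m3, m4⟩ := c.main (insert v (N z1 ∪ N z2)) {z1, z2} M P (h.cfg c) (by omega) (by
    intro e he x hx hxe
    simp only [mem_insert, mem_union, not_or] at he hx
    refine hM e x he ?_ ?_ hx.1 hx.2.1 hx.2.2 hxe
    · rintro rfl
      exact hx.2.1 hxe
    · rintro rfl
      exact hx.2.2 hxe) hMc
  exact ⟨by omega, by omega, m3, m4⟩

/-- The number of all vertices. -/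
lemma Two.card (h : Two N z1 z2 v P) (c : Cb N) :
    13 ≤ ∑ U ∈ P, U.card := by
  rw [← h.comps.card, card_sdiff_of_subset (subset_univ _), h.cardF c, card_univ]
  have := c.big
  omega

/-- The connectedness of the complement of a component. -/
lemma Two.compl (h : Two N z1 z2 v P) (c : Cb N) {a b : V} (ha : a ∈ N z1) (hva : v ∈ N a)
    (hb : b ∈ N z2) (hvb : v ∈ N b) {U : Finset V} (hU : U ∈ P) : Conn N (Finset.univ \ U) := by
  refine conn_compl c.toVS h.comps ?_ hU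
  have h1 : Conn N (insert v (N z1)) := conn_insert c.toVS (conn_star c.toVS z1) ha hva
  have h2 := conn_union c.toVS h1 (conn_star c.toVS z2) (mem_insert_self _ _) hb
    (c.symm _ _ hvb)
  rwa [insert_union] at h2

/-- `SWAP`, with a good vertex. -/
lemma Two.swap1 (h : Two N z1 z2 v P) (c : Cb N) (hf : fv N Finset.univ = 2 + ∑ U ∈ P, fv N U)
    (hv : ∃ x ∈ N v, x ∈ N z2) {t w : V} (ht : N t ∈ P)
    (hmu : ∀ U ∈ P, U ≠ N t → mu N U ≤ 1)
    (hg : ∀ U ∈ P, U ≠ N t → ∃ g, ∀ e ∈ N z1, e ≠ z1 → Tch N e U → e = g)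
    (hw : w ∈ N z1) (hw1 : w ≠ z1) (hwt : Tch N w (N t))
    (hgood : ∀ d ∈ N t, (∃ x ∈ N d, x ∈ N w) ∨ ∃ x ∈ N d, x ∈ N z2) : False := by
  refine c.swap z1 z2 w t _ P (c.reg _) (c.reg _) (h.cfg c) hf ?_ (c.reg _) ht hmu hg hw hw1 hwt
    (fun d hd _ => hgood d hd)
  intro d hd _ hd1
  simp only [mem_insert, mem_union] at hd
  rcases hd with rfl | hd | hd
  · exact hv
  · exact absurd hd hd1
  · exact ⟨d, c.refl d, hd⟩

/-- `SWAP`, with one or two touching vertices on the first side. -/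
lemma Two.swap2 (h : Two N z1 z2 v P) (c : Cb N) (hf : fv N Finset.univ = 2 + ∑ U ∈ P, fv N U)
    (hv : ∃ x ∈ N v, x ∈ N z2) {t : V} {W : Finset V} (ht : N t ∈ P)
    (hmu : ∀ U ∈ P, U ≠ N t → mu N U ≤ 1)
    (hg : ∀ U ∈ P, U ≠ N t → ∃ g, ∀ e ∈ N z1, e ≠ z1 → Tch N e U → e = g)
    (hW : ∀ w ∈ W, w ∈ N z1 ∧ w ≠ z1 ∧ Tch N w (N t)) (hWn : W.Nonempty) (hWc : W.card ≤ 2)
    (hgood : ∀ d ∈ N t, ∀ x ∈ N d, x ∉ N t → x ∈ W ∨ ∃ y ∈ N d, y ∈ N z2) : False := by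
  obtain ⟨w, w', hWw⟩ : ∃ w w', W = {w, w'} := by
    have h1 := card_pos.2 hWn
    rcases (by omega : W.card = 1 ∨ W.card = 2) with h2 | h2
    · obtain ⟨w, hw⟩ := card_eq_one.1 h2
      exact ⟨w, w, by simp [hw]⟩
    · obtain ⟨w, w', _, hw⟩ := card_eq_two.1 h2
      exact ⟨w, w', hw⟩
  have hw := hW w (by rw [hWw]; simp)
  have hw' := hW w' (by rw [hWw]; simp)
  have hnt : ∀ w, w ∈ N z1 → w ∉ N t := fun w hw hwt => (h.out ht hwt).2.1 hw
  have h0 := c.good t w w' z2 (c.reg t) (hnt w hw.1) (hnt w' hw'.1) hw.2.2 hw'.2.2 (by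
    intro d hd _
    by_cases hd2 : ∃ y ∈ N d, y ∈ N z2
    · exact Or.inr hd2
    · left
      intro x hx hxt
      rcases hgood d hd x hx hxt with h1 | h1
      · rw [hWw] at h1
        simpa using h1
      · exact absurd h1 hd2)
  rcases h0 with h0 | h0
  · exact h.swap1 c hf hv ht hmu hg hw.1 hw.2.1 hw.2.2 (fun d hd => h0 d hd (c.reg d))
  · exact h.swap1 c hf hv ht hmu hg hw'.1 hw'.2.1 hw'.2.2 (fun d hd => h0 d hd (c.reg d))

end

end

end Pool.Agent.Star.K4
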