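import Pool.Agent.Star.K4.M6a
import Pool.Agent.Star.K4.Kit

/-!
# `K = 4`, module M6b: a cubic star has three outer neighbours
-/

set_option autoImplicit false
set_option linter.unusedSectionVars false
set_option linter.unusedVariables false

namespace Pool.Agent.Star.K4

open Finset Rig

section
variable {V : Type*} [DecidableEq V] [Fintype V] {N : V → Finset V}

/-- One leaf of the star is adjacent to both outer neighbours. -/
lemma m6_both (b : Bas N) {t l w1 w2 : V} (ht : Cub N t) (hl : l ∈ N t)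
    (h1 : w1 ∈ N l) (h2 : w2 ∈ N l) (hw1 : w1 ∉ N t) (hw2 : w2 ∉ N t) (hne : w1 ≠ w2)
    (hout : ∀ w, w ∉ N t → ∀ u ∈ N t, w ∈ N u → w = w1 ∨ w = w2) : False := by
  classical
  have htc : (N t).card = 4 := ht
  set F : Finset V := insert w1 (insert w2 (N t)) with hF
  have hFc : F.card = 6 := by
    rw [hF, Finset.card_insert_of_notMem, Finset.card_insert_of_notMem hw2, htc]
    rw [Finset.mem_insert, not_or]
    exact ⟨hne, hw1⟩
  have hF1 : w1 ∈ F := Finset.mem_insert_self _ _
  have hF2 : w2 ∈ F := Finset.mem_insert_of_mem (Finset.mem_insert_self _ _)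
  have hFt : ∀ x ∈ N t, x ∈ F := fun x hx =>
    Finset.mem_insert_of_mem (Finset.mem_insert_of_mem hx)
  have hmem : ∀ x ∈ F, x = w1 ∨ x = w2 ∨ x ∈ N t := by
    intro x hx
    rw [hF, Finset.mem_insert, Finset.mem_insert] at hx
    exact hx
  have hnl : ∀ u ∈ N t, ∀ x ∈ N u, x ∈ F := by
    intro u hu x hx
    by_cases hxt : x ∈ N t
    · exact hFt x hxt
    · rcases hout x hxt u hu hx with rfl | rfl
      exacts [hF1, hF2]
  obtain ⟨P, hP⟩ := exists_comps (N := N) b.symm (univ \ F)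
  have hcfg : Cfg N F {l} P := by
    refine ⟨hP, ⟨w1, hF1⟩, ?_, ?_⟩
    · intro y hy
      rw [Finset.mem_singleton] at hy
      subst hy
      exact hnl y hl
    · rintro c hc ⟨x, hxc, hxF⟩
      refine ⟨l, Finset.mem_singleton_self _, ?_⟩
      rcases hmem x hxF with rfl | rfl | hxt
      · exact ⟨x, hxc, h1⟩
      · exact ⟨x, hxc, h2⟩
      · by_cases hct : c ∈ N t
        · exact ⟨t, b.symm _ _ hct, b.symm _ _ hl⟩
        · rcases hout c hct x hxt (b.symm _ _ hxc) with rfl | rfl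
          · exact ⟨c, b.refl _, h1⟩
          · exact ⟨c, b.refl _, h2⟩
  have hMc : ({w1, w2} : Finset V).card = 2 := Finset.card_pair hne
  have hYc : ({l} : Finset V).card = 1 := Finset.card_singleton l
  obtain ⟨-, h3, h4, -⟩ := b.main F {l} {w1, w2} P hcfg (by rw [hYc, hFc]; omega) (by
    intro e he x hx hxe
    rw [Finset.mem_insert, Finset.mem_singleton]
    rcases hmem e he with rfl | rfl | het
    · exact Or.inl rfl
    · exact Or.inr rfl
    · exact absurd (hnl e het x hxe) hx) (by omega)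
  rw [hYc, hFc] at h3
  rw [hMc] at h4
  omega

/-- The neighbourhood of a vertex of degree two. -/
lemma m6_deg2 (b : Bas N) {v p : V} (hv : ¬ Cub N v) (hp : p ∈ N v) (hpv : p ≠ v) :
    ∃ q, q ≠ v ∧ q ≠ p ∧ q ∈ N v ∧ ∀ x, x ∈ N v ↔ x = v ∨ x = p ∨ x = q := by
  have h1 : (((N v).erase v).erase p).card = 1 := by
    rw [Finset.card_erase_of_mem (Finset.mem_erase.2 ⟨hpv, hp⟩),
      Finset.card_erase_of_mem (b.refl v), (b.d2 v hv).1]
  obtain ⟨q, hq⟩ := Finset.card_eq_one.1 h1
  have hq1 : q ∈ ((N v).erase v).erase p := by rw [hq]; exact Finset.mem_singleton_self _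
  rw [Finset.mem_erase, Finset.mem_erase] at hq1
  refine ⟨q, hq1.2.1, hq1.1, hq1.2.2, fun x => ⟨fun hx => ?_, ?_⟩⟩
  · by_cases h2 : x = v
    · exact Or.inl h2
    · by_cases h3 : x = p
      · exact Or.inr (Or.inl h3)
      · have : x ∈ ((N v).erase v).erase p :=
          Finset.mem_erase.2 ⟨h3, Finset.mem_erase.2 ⟨h2, hx⟩⟩
        rw [hq, Finset.mem_singleton] at this
        exact Or.inr (Or.inr this)
  · rintro (rfl | rfl | rfl)
    exacts [b.refl _, hp, hq1.2.2]

/-- The main part: one edge `l1 l2` among the leaves. -/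
lemma m6_edge (b : Bas N) {t l1 l2 l3 w1 w2 : V} (ht : Cub N t)
    (mt : ∀ x, x ∈ N t ↔ x = t ∨ x = l1 ∨ x = l2 ∨ x = l3) (h1t : l1 ≠ t) (h2t : l2 ≠ t)
    (h3t : l3 ≠ t) (h12 : l1 ≠ l2) (h13 : l1 ≠ l3) (h23 : l2 ≠ l3)
    (hw1 : w1 ∉ N t) (hw2 : w2 ∉ N t) (hne : w1 ≠ w2)
    (hout : ∀ w, w ∉ N t → ∀ u ∈ N t, w ∈ N u → w = w1 ∨ w = w2)
    (hc1 : Cub N l1) (hedge : l2 ∈ N l1) : False := by
  classical
  have e1 : l1 ∈ N t := (mt l1).2 (by simp)
  have e2 : l2 ∈ N t := (mt l2).2 (by simp)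
  have e3 : l3 ∈ N t := (mt l3).2 (by simp)
  have t1 : t ∈ N l1 := b.symm _ _ e1
  have t2 : t ∈ N l2 := b.symm _ _ e2
  have t3 : t ∈ N l3 := b.symm _ _ e3
  have hedge' : l1 ∈ N l2 := b.symm _ _ hedge
  have hboth : ∀ u ∈ N t, ∀ x y, x ∉ N t → y ∉ N t → x ≠ y → x ∈ N u → y ∈ N u → False := by
    intro u hu x y hx hy hxy hxu hyu
    rcases hout x hx u hu hxu with rfl | rfl
    · rcases hout y hy u hu hyu with rfl | rfl
      · exact hxy rfl
      · exact m6_both b ht hu hxu hyu hx hy hne hout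
    · rcases hout y hy u hu hyu with rfl | rfl
      · exact m6_both b ht hu hyu hxu hy hx hne hout
      · exact hxy rfl
  have h31 : l3 ∉ N l1 := fun hh => dia b t l1 l2 l3 h1t.symm h23 h2t h12.symm h3t h13.symm
    e1 e2 hedge e3 hh
  have h32 : l3 ∉ N l2 := fun hh => dia b t l2 l1 l3 h2t.symm h13 h1t h12 h3t h23.symm
    e2 e1 hedge' e3 hh
  have h13' : l1 ∉ N l3 := fun hh => h31 (b.symm _ _ hh)
  have h23' : l2 ∉ N l3 := fun hh => h32 (b.symm _ _ hh)
  -- the vertex `l3` has degree two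
  have hc3 : ¬ Cub N l3 := by
    intro hh
    obtain ⟨q, r, hq3, hr3, hqt, hrt, hqr, hN⟩ := nb_split hh (b.refl _) t3 h3t.symm
    have hq : q ∈ N l3 := by rw [hN]; simp
    have hr : r ∈ N l3 := by rw [hN]; simp
    have key : ∀ x, x ∈ N l3 → x ≠ l3 → x ≠ t → x ∉ N t := by
      intro x hx hx3 hxt hxN
      rcases (mt x).1 hxN with h | h | h | h
      · exact hxt h
      · exact h13' (h ▸ hx)
      · exact h23' (h ▸ hx)
      · exact hx3 h
    exact hboth l3 e3 q r (key q hq hq3 hqt) (key r hr hr3 hrt) hqr hq hr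
  obtain ⟨wb, hb3, hbt, hbN, m3⟩ := m6_deg2 b hc3 t3 h3t.symm
  have hbt' : wb ∉ N t := by
    intro hxN
    rcases (mt wb).1 hxN with h | h | h | h
    · exact hbt h
    · exact h13' (h ▸ hbN)
    · exact h23' (h ▸ hbN)
    · exact hb3 h
  have hbc : Cub N wb := (b.d2 l3 hc3).2 wb hbN hb3
  -- the third neighbour of `l1`
  obtain ⟨w, hwl1, hwt, hwl2, hN1⟩ := nb_third hc1 (b.refl _) t1 h1t.symm hedge h12.symm
    h2t.symm
  have hw : w ∈ N l1 := by rw [hN1]; simp
  have m1 : ∀ x, x ∈ N l1 ↔ x = l1 ∨ x = t ∨ x = l2 ∨ x = w := by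
    intro x; rw [hN1]; simp
  have hwN : w ∉ N t := by
    intro hxN
    rcases (mt w).1 hxN with h | h | h | h
    · exact hwt h
    · exact hwl1 h
    · exact hwl2 h
    · exact h31 (h ▸ hw)
  by_cases hc2 : Cub N l2
  · obtain ⟨w', hwl2', hwt', hwl1', hN2⟩ := nb_third hc2 (b.refl _) t2 h2t.symm hedge' h12
      h1t.symm
    have hw' : w' ∈ N l2 := by rw [hN2]; simp
    have hwN' : w' ∉ N t := by
      intro hxN
      rcases (mt w').1 hxN with h | h | h | h
      · exact hwt' h
      · exact hwl1' h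
      · exact hwl2' h
      · exact h32 (h ▸ hw')
    by_cases hww : w = w'
    · subst hww
      exact dia b l1 l2 t w h12 hwt.symm h1t.symm h2t.symm hwl1 hwl2 hedge t1 t2 hw hw'
    · have h4 : wb = w ∨ wb = w' := by
        rcases hout wb hbt' l3 e3 hbN with h | h <;> rcases hout w hwN l1 e1 hw with h' | h' <;>
          rcases hout w' hwN' l2 e2 hw' with h'' | h''
        · exact absurd (h'.trans h''.symm) hww
        · exact Or.inl (h.trans h'.symm)
        · exact Or.inr (h.trans h''.symm)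
        · exact absurd (h'.trans h''.symm) hww
        · exact absurd (h'.trans h''.symm) hww
        · exact Or.inr (h.trans h''.symm)
        · exact Or.inl (h.trans h'.symm)
        · exact absurd (h'.trans h''.symm) hww
      rcases h4 with rfl | rfl
      · exact b.v2 l3 t wb l1 hc3 t3 hbN h3t.symm hb3 hbt.symm hc1 h1t hwl1.symm
          ⟨t, t1, b.refl t⟩ ⟨wb, hw, b.refl _⟩
      · exact b.v2 l3 t wb l2 hc3 t3 hbN h3t.symm hb3 hbt.symm hc2 h2t hwl2'.symm
          ⟨t, t2, b.refl t⟩ ⟨wb, hw', b.refl _⟩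
  · -- `l2` has the neighbours `t`, `l1` only
    have m2 : ∀ x, x ∈ N l2 ↔ x = l2 ∨ x = t ∨ x = l1 := by
      obtain ⟨q, hq2, hqt, hqN, m⟩ := m6_deg2 b hc2 t2 h2t.symm
      have : l1 = q := by
        rcases (m l1).1 hedge' with h | h | h
        exacts [absurd h h12, absurd h h1t, h]
      rw [this]
      exact m
    have hwc : ¬ Cub N w := by
      intro hh
      exact b.v2 l2 t l1 w hc2 t2 hedge' h2t.symm h12 h1t.symm hh hwt hwl1
        ⟨l1, b.symm _ _ hw, e1⟩ ⟨w, b.refl _, hw⟩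
    have hwb : w ≠ wb := by rintro rfl; exact hwc hbc
    have hwl3 : w ≠ l3 := by rintro rfl; exact hwN e3
    obtain ⟨z, hzw, hzl1, hzN, mw⟩ := m6_deg2 b hwc (b.symm _ _ hw) hwl1.symm
    have hzc : Cub N z := (b.d2 w hwc).2 z hzN hzw
    have hzt : z ≠ t := by
      rintro rfl
      exact hwN (b.symm _ _ hzN)
    have hzl2 : z ≠ l2 := by
      rintro rfl
      exact hc2 hzc
    have hzl3 : z ≠ l3 := by
      rintro rfl
      exact hc3 hzc
    have hwz : w ∈ N z := b.symm _ _ hzN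
    have hl3b : l3 ∈ N wb := b.symm _ _ hbN
    have hbl1 : wb ≠ l1 := by rintro rfl; exact hbt' e1
    have hbl2 : wb ≠ l2 := by rintro rfl; exact hbt' e2
    by_cases hzb : z = wb
    · subst hzb
      have h5 : l2 ∉ N z := by
        intro hh
        rcases (m2 z).1 (b.symm _ _ hh) with h | h | h
        exacts [hzl2 h, hzt h, hzl1 h]
      obtain ⟨c, hc, hcl, hdis⟩ := b.a2 z l2 hzc h5
      rw [Finset.disjoint_left] at hdis
      rcases (m2 c).1 (b.symm _ _ hcl) with rfl | rfl | rfl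
      · exact hc2 hc
      · exact hdis e3 hl3b
      · exact hdis hw hwz
    · refine pl b z wb w l3 {t, l1, l2} hzc hbc hzb hwz hl3b hwl3 hzw.symm hwb hzl3.symm
        hb3.symm ?_ ?_ ?_ ?_ ?_ ?_ ?_
      · rw [Finset.card_eq_three]
        exact ⟨t, l1, l2, h1t.symm, h2t.symm, h12, rfl⟩
      · rw [Finset.disjoint_left]
        intro x hx hxz
        have hzx := b.symm _ _ hxz
        simp only [Finset.mem_insert, Finset.mem_singleton] at hx
        rcases hx with rfl | rfl | rfl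
        · rcases (mt z).1 hzx with h | h | h | h
          exacts [hzt h, hzl1 h, hzl2 h, hzl3 h]
        · rcases (m1 z).1 hzx with h | h | h | h
          exacts [hzl1 h, hzt h, hzl2 h, hzw h]
        · rcases (m2 z).1 hzx with h | h | h
          exacts [hzl2 h, hzt h, hzl1 h]
      · rw [Finset.disjoint_left]
        intro x hx hxz
        have hzx := b.symm _ _ hxz
        simp only [Finset.mem_insert, Finset.mem_singleton] at hx
        rcases hx with rfl | rfl | rfl
        · exact hbt' hzx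
        · rcases (m1 wb).1 hzx with h | h | h | h
          exacts [hbl1 h, hbt h, hbl2 h, hwb h.symm]
        · rcases (m2 wb).1 hzx with h | h | h
          exacts [hbl2 h, hbt h, hbl1 h]
      · intro k hk x hx
        simp only [Finset.mem_insert, Finset.mem_singleton] at hk ⊢
        rcases hk with rfl | rfl | rfl
        · rcases (mt x).1 hx with h | h | h | h <;> simp [h]
        · rcases (m1 x).1 hx with h | h | h | h <;> simp [h]
        · rcases (m2 x).1 hx with h | h | h <;> simp [h]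
      · intro x hx
        simp only [Finset.mem_insert, Finset.mem_singleton]
        rcases (mw x).1 hx with h | h | h <;> simp [h]
      · intro x hx
        simp only [Finset.mem_insert, Finset.mem_singleton]
        rcases (m3 x).1 hx with h | h | h <;> simp [h]
      · rintro c hc ⟨k, hk, hkc⟩
        have hck := b.symm _ _ hkc
        simp only [Finset.mem_insert, Finset.mem_singleton] at hk
        have h6 : c = t ∨ c = l1 ∨ c = l2 ∨ c = l3 ∨ c = w := by
          rcases hk with rfl | rfl | rfl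
          · rcases (mt c).1 hck with h | h | h | h <;> simp [h]
          · rcases (m1 c).1 hck with h | h | h | h <;> simp [h]
          · rcases (m2 c).1 hck with h | h | h <;> simp [h]
        rcases h6 with rfl | rfl | rfl | rfl | rfl
        · exact ⟨l3, e3, Or.inr hl3b⟩
        · exact ⟨w, hw, Or.inl hwz⟩
        · exact absurd hc hc2
        · exact absurd hc hc3
        · exact absurd hc hwc

/-- (2G): a cubic star has three outer neighbours. -/
theorem twoG (b : Bas N) : ∀ t w1 w2, Cub N t →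
    ∃ w, w ∉ N t ∧ w ≠ w1 ∧ w ≠ w2 ∧ ∃ l ∈ N t, l ∈ N w := by
  classical
  intro t w1 w2 ht
  by_contra hcon
  have hout : ∀ w, w ∉ N t → ∀ u ∈ N t, w ∈ N u → w = w1 ∨ w = w2 := by
    intro w hw u hu hwu
    by_contra h
    rw [not_or] at h
    exact hcon ⟨w, hw, h.1, h.2, u, hu, b.symm _ _ hwu⟩
  obtain ⟨u1, hu1, x1, hx1, hxu1, hn1⟩ := b.cut t w2 ht
  have e1 : x1 = w1 := (hout x1 hx1 u1 hu1 hxu1).resolve_right hn1
  subst e1
  obtain ⟨u2, hu2, x2, hx2, hxu2, hn2⟩ := b.cut t x1 ht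
  have e2 : x2 = w2 := (hout x2 hx2 u2 hu2 hxu2).resolve_left hn2
  subst e2
  obtain ⟨l1, hl1t, hc1, hl1⟩ := b.c3 t ht
  obtain ⟨l2, l3, h2t, h3t, h21, h31, h23, hN⟩ := nb_split ht (b.refl t) hl1 hl1t
  have mt : ∀ x, x ∈ N t ↔ x = t ∨ x = l1 ∨ x = l2 ∨ x = l3 := by
    intro x; rw [hN]; simp
  by_cases h2 : l2 ∈ N l1
  · exact m6_edge b ht mt hl1t h2t h3t h21.symm h31.symm h23 hx1 hx2 hn1 hout hc1 h2
  by_cases h3 : l3 ∈ N l1
  · refine m6_edge b ht (l1 := l1) (l2 := l3) (l3 := l2) ?_ hl1t h3t h2t h31.symm h21.symm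
      h23.symm hx1 hx2 hn1 hout hc1 h3
    intro x
    rw [mt x]
    tauto
  obtain ⟨q, r, hq1, hr1, hqt, hrt, hqr, hN1⟩ := nb_split hc1 (b.refl _) (b.symm _ _ hl1) hl1t.symm
  have hq : q ∈ N l1 := by rw [hN1]; simp
  have hr : r ∈ N l1 := by rw [hN1]; simp
  have key : ∀ x, x ∈ N l1 → x ≠ l1 → x ≠ t → x ∉ N t := by
    intro x hx hx1' hxt hxN
    rcases (mt x).1 hxN with h | h | h | h
    · exact hxt h
    · exact hx1' h
    · exact h2 (h ▸ hx)
    · exact h3 (h ▸ hx)
  have hqN := key q hq hq1 hqt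
  have hrN := key r hr hr1 hrt
  rcases hout q hqN l1 hl1 hq with rfl | rfl
  · rcases hout r hrN l1 hl1 hr with rfl | rfl
    · exact hqr rfl
    · exact m6_both b ht hl1 hq hr hqN hrN hn1 hout
  · rcases hout r hrN l1 hl1 hr with rfl | rfl
    · exact m6_both b ht hl1 hr hq hrN hqN hn1 hout
    · exact hqr rfl

/-- The fields of `Mid`. -/
theorem mid (b : Bas N) : Mid N := { b with pl := pl b, dia := dia b, twoG := twoG b }

end

end Pool.Agent.Star.K4
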