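import Pool.Agent.Star.K4.Tools

/-!
# `K = 4`, module M7a: `SWAP` and `GOOD`
-/

set_option autoImplicit false
set_option linter.unusedSectionVars false
set_option linter.unusedVariables false

namespace Pool.Agent.Star.K4

open Finset Rig

section
variable {V : Type*} [DecidableEq V] [Fintype V] {N : V → Finset V}

/-- `SWAP`: the first side is replaced by a vertex touching the exceptional component. -/
theorem swap (m : Gen N) : Swap N := by
  classical
  intro z1 z2 w t F P hz1 hz2 hcfg hsum hF ht htP hmu hone hw hwz htch hgood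
  have hN1 : N z1 ⊆ F := hcfg.nbh z1 (by simp)
  -- the sets for the other components
  have hD : ∀ U : Finset V, ∃ D : Finset V, U ∈ P → U ≠ N t →
      KI N D U ∧ D.card = fv N U ∧
      (∀ e ∈ N z1, e ≠ z1 → Tch N e U → ∃ d ∈ D, e ∈ N d) := by
    intro U
    by_cases hU : U ∈ P ∧ U ≠ N t
    · obtain ⟨hUP, hUt⟩ := hU
      obtain ⟨g, hg⟩ := hone U hUP hUt
      by_cases hex : ∃ e ∈ N z1, e ≠ z1 ∧ Tch N e U
      · obtain ⟨e, he, hez, hte⟩ := hex
        obtain ⟨x, hx, hxe⟩ := id hte
        have heU : e ∉ U := fun hh => hcfg.notF hUP hh (hN1 he)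
        obtain ⟨D, hD1, hD2, hD3, hD4⟩ := m.optm U (hcfg.ne_univ hUP) (hcfg.conn hUP)
          (hmu U hUP hUt) x hx (fun hh => heU (hh (m.symm _ _ hxe)))
        refine ⟨D, fun _ _ => ⟨hD3, hD4, ?_⟩⟩
        intro e' he' hez' hte'
        have h1 : e' = e := (hg e' he' hez' hte').trans (hg e he hez hte).symm
        subst h1
        exact ⟨x, hD2, m.symm _ _ hxe⟩
      · push Not at hex
        obtain ⟨D, hD1, hD2, hD3⟩ := m.opt U
        exact ⟨D, fun _ _ => ⟨hD2, hD3, fun e he hez hte => absurd hte (hex e he hez)⟩⟩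
    · exact ⟨∅, fun h1 h2 => absurd ⟨h1, h2⟩ hU⟩
  choose D hD using hD
  -- the hitting set
  have hki : KI N ({w, z2} ∪ (P.erase (N t)).biUnion D) univ := by
    intro c hc _
    by_cases h2 : ∃ x ∈ N c, x ∈ N z2
    · obtain ⟨x, hx, hx2⟩ := h2
      exact ⟨z2, by simp, x, hx, hx2⟩
    · have hwin : (∃ x ∈ N c, x ∈ N w) → ∃ d ∈ {w, z2} ∪ (P.erase (N t)).biUnion D,
          ∃ x ∈ N c, x ∈ N d := fun ⟨x, hx, hxw⟩ => ⟨w, by simp, x, hx, hxw⟩
      have hUin : ∀ U ∈ P, U ≠ N t → (∃ d ∈ D U, ∃ x ∈ N c, x ∈ N d) →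
          ∃ d ∈ {w, z2} ∪ (P.erase (N t)).biUnion D, ∃ x ∈ N c, x ∈ N d := by
        rintro U hU hUt ⟨d, hd, x, hx, hxd⟩
        exact ⟨d, Finset.mem_union_right _ (Finset.mem_biUnion.2
          ⟨U, Finset.mem_erase.2 ⟨hUt, hU⟩, hd⟩), x, hx, hxd⟩
      by_cases hcF : ∃ x ∈ N c, x ∈ F
      · obtain ⟨y, hy, x, hx, hxy⟩ := hcfg.dead c hc hcF
        rw [Finset.mem_insert, Finset.mem_singleton] at hy
        rcases hy with rfl | rfl
        · by_cases hcF' : c ∈ F
          · by_cases hc1 : c ∈ N y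
            · exact hwin ⟨y, m.symm _ _ hc1, m.symm _ _ hw⟩
            · exact absurd (hF c hcF' hc hc1) h2
          · obtain ⟨U, hU, hcU⟩ := hcfg.cover hcF'
            have hxz : x ≠ y := by
              rintro rfl
              exact hcF' (hN1 (m.symm _ _ hx))
            by_cases hUt : U = N t
            · subst hUt
              rcases hgood c hcU hc with h3 | h3
              · exact hwin h3
              · exact absurd h3 h2
            · obtain ⟨d, hd, hxd⟩ := (hD U hU hUt).2.2 x hxy hxz ⟨c, hcU, m.symm _ _ hx⟩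
              exact hUin U hU hUt ⟨d, hd, x, hx, hxd⟩
        · exact absurd ⟨x, hx, hxy⟩ h2
      · push Not at hcF
        obtain ⟨U, hU, hcU⟩ := hcfg.star m.refl hcF
        by_cases hUt : U = N t
        · subst hUt
          rcases hgood c (hcU (m.refl c)) hc with h3 | h3
          · exact hwin h3
          · exact absurd h3 h2
        · exact hUin U hU hUt ((hD U hU hUt).1 c hc hcU)
  have h1 := m.lower _ hki
  have h2 : ({w, z2} ∪ (P.erase (N t)).biUnion D).card ≤ 2 + ∑ U ∈ P.erase (N t), fv N U := by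
    calc _ ≤ ({w, z2} : Finset V).card + ((P.erase (N t)).biUnion D).card :=
          Finset.card_union_le _ _
      _ ≤ 2 + ∑ U ∈ P.erase (N t), (D U).card :=
          Nat.add_le_add Finset.card_le_two Finset.card_biUnion_le
      _ = 2 + ∑ U ∈ P.erase (N t), fv N U := by
          congr 1
          apply Finset.sum_congr rfl
          intro U hU
          obtain ⟨hU1, hU2⟩ := Finset.mem_erase.1 hU
          exact (hD U hU2 hU1).2.1
  have h3 := Finset.sum_erase_add P (fv N) htP
  have h4 : fv N (N t) = 1 := (m.exA' t ht).2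
  omega

/-- A vertex `c` of `N t` for which `w` is bad. -/
lemma good_aux (m : Mid N) {t w w' z c : V} (ht : Cub N t) (hw : Tch N w (N t)) (hc : c ∈ N t)
    (hcc : Cub N c) (h1 : ¬ ∃ x ∈ N c, x ∈ N w) (h2 : ¬ ∃ x ∈ N c, x ∈ N z)
    (hout : (∀ x ∈ N c, x ∉ N t → x = w ∨ x = w') ∨ ∃ x ∈ N c, x ∈ N z) :
    c ≠ t ∧ w' ∈ N c ∧ ∃ l ∈ N c, l ∈ N t ∧ l ≠ c ∧ l ≠ t := by
  have hct : c ≠ t := by
    rintro rfl
    exact h1 hw
  have hout : ∀ x ∈ N c, x ∉ N t → x = w' := by
    intro x hx hxt
    rcases hout with hout | hout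
    · rcases hout x hx hxt with rfl | h3
      · exact absurd ⟨x, hx, m.refl x⟩ h1
      · exact h3
    · exact absurd hout h2
  have htc : t ∈ N c := m.symm _ _ hc
  have hcc' : (N c).card = 4 := hcc
  have hpair : ({c, t} : Finset V) ⊆ N c := by
    intro y hy
    rw [Finset.mem_insert, Finset.mem_singleton] at hy
    rcases hy with rfl | rfl
    · exact m.refl _
    · exact htc
  have hw'c : w' ∈ N c := by
    by_contra hcon
    have hsub : ∀ x ∈ N c, x ∈ N t := by
      intro x hx
      by_contra hxt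
      exact hcon (hout x hx hxt ▸ hx)
    have h3 : 1 < (N c \ {c, t}).card := by
      have := Finset.card_sdiff_add_card_eq_card hpair
      have := Finset.card_le_two (a := c) (b := t)
      omega
    obtain ⟨l, hl, l', hl', hne⟩ := Finset.one_lt_card.1 h3
    rw [Finset.mem_sdiff, Finset.mem_insert, Finset.mem_singleton] at hl hl'
    push Not at hl hl'
    exact m.dia t c l l' hct.symm hne hl.2.2 hl.2.1 hl'.2.2 hl'.2.1 hc (hsub l hl.1) hl.1
      (hsub l' hl'.1) hl'.1
  refine ⟨hct, hw'c, ?_⟩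
  by_contra hcon
  push Not at hcon
  have h3 : N c ⊆ {c, t, w'} := by
    intro x hx
    rw [Finset.mem_insert, Finset.mem_insert, Finset.mem_singleton]
    by_cases hxt : x ∈ N t
    · by_cases hxc : x = c
      · exact Or.inl hxc
      · exact Or.inr (Or.inl (hcon x hx hxt hxc))
    · exact Or.inr (Or.inr (hout x hx hxt))
  have h4 := Finset.card_le_card h3
  have h5 := Finset.card_le_three (a := c) (b := t) (c := w')
  omega

/-- `GOOD`: one of two touching vertices is good. -/
theorem good (m : Mid N) : Good N := by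
  intro t w w' z ht hw hw' hwt hwt' hout
  by_contra hcon
  push Not at hcon
  obtain ⟨⟨c, hc, hcc, h1, h2⟩, c', hc', hcc', h1', h2'⟩ := hcon
  have hn1 : ¬ ∃ x ∈ N c, x ∈ N w := fun ⟨x, hx, hxw⟩ => h1 x hx hxw
  have hn2 : ¬ ∃ x ∈ N c, x ∈ N z := fun ⟨x, hx, hxw⟩ => h2 x hx hxw
  have hn1' : ¬ ∃ x ∈ N c', x ∈ N w' := fun ⟨x, hx, hxw⟩ => h1' x hx hxw
  have hn2' : ¬ ∃ x ∈ N c', x ∈ N z := fun ⟨x, hx, hxw⟩ => h2' x hx hxw
  obtain ⟨hct, hwc, l, hl, hlt, hlc, hlt'⟩ := good_aux m ht hwt hc hcc hn1 hn2 (hout c hc hcc)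
  obtain ⟨hct', hwc', l', hl', hlt2, hlc', hlt2'⟩ := good_aux m (w' := w) ht hwt' hc' hcc' hn1' hn2'
    ((hout c' hc' hcc').imp (fun hh x hx hxt => (hh x hx hxt).symm) id)
  have hne : c ≠ c' := by
    rintro rfl
    exact hn1' ⟨w', hwc, m.refl w'⟩
  have hcc2 : c ∉ N c' := fun hh => hn1' ⟨c, hh, m.symm _ _ hwc⟩
  have hcc3 : c' ∉ N c := fun hh => hcc2 (m.symm _ _ hh)
  have hlc2 : l ≠ c' := by
    rintro rfl
    exact hcc3 hl
  have hlc2' : l' ≠ c := by
    rintro rfl
    exact hcc2 hl'
  have hll : l = l' := by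
    by_contra hll
    have h5 : ({t, c, c', l, l'} : Finset V) ⊆ N t := by
      intro y hy
      simp only [Finset.mem_insert, Finset.mem_singleton] at hy
      rcases hy with rfl | rfl | rfl | rfl | rfl
      · exact m.refl _
      · exact hc
      · exact hc'
      · exact hlt
      · exact hlt2
    have h6 := Finset.card_le_card h5
    have h7 : (N t).card = 4 := ht
    rw [h7] at h6
    have h8 : ({t, c, c', l, l'} : Finset V).card = 5 := by
      rw [Finset.card_insert_of_notMem, Finset.card_insert_of_notMem,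
        Finset.card_insert_of_notMem, Finset.card_pair hll]
      · simp only [Finset.mem_insert, Finset.mem_singleton]
        push Not
        exact ⟨hlc2.symm, hlc'.symm⟩
      · simp only [Finset.mem_insert, Finset.mem_singleton]
        push Not
        exact ⟨hne, hlc.symm, hlc2'.symm⟩
      · simp only [Finset.mem_insert, Finset.mem_singleton]
        push Not
        exact ⟨hct.symm, hct'.symm, hlt'.symm, hlt2'.symm⟩
    omega
  subst hll
  exact m.dia t l c c' hlt'.symm hne hct hlc.symm hct' hlc2.symm hlt hc (m.symm _ _ hl) hc'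
    (m.symm _ _ hl')

end

end Pool.Agent.Star.K4
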