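import Pool.Agent.Star.K4.Tools
import Pool.Agent.Star.K4.Kit

/-!
# `K = 4`, module M7b: (P)
-/

set_option autoImplicit false
set_option linter.unusedSectionVars false
set_option linter.unusedVariables false

namespace Pool.Agent.Star.K4

open Finset Rig

section
variable {V : Type*} [DecidableEq V] [Fintype V] {N : V → Finset V}

/-- The neighbourhood of a vertex of degree two. -/
lemma m7_deg2 (b : Bas N) {v p : V} (hv : ¬ Cub N v) (hp : p ∈ N v) (hpv : p ≠ v) :
    ∃ q, q ≠ v ∧ q ≠ p ∧ q ∈ N v ∧ ∀ x, x ∈ N v ↔ x = v ∨ x = p ∨ x = q := by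
  have h1 : (((N v).erase v).erase p).card = 1 := by
    rw [Finset.card_erase_of_mem (Finset.mem_erase.2 ⟨hpv, hp⟩),
      Finset.card_erase_of_mem (b.refl v), (b.d2 v hv).1]
  obtain ⟨q, hq⟩ := Finset.card_eq_one.1 h1
  have hq1 : q ∈ ((N v).erase v).erase p := by rw [hq]; exact Finset.mem_singleton_self _
  rw [Finset.mem_erase, Finset.mem_erase] at hq1
  refine ⟨q, hq1.2.1, hq1.1, hq1.2.2, fun x => ⟨fun hx => ?_, ?_⟩⟩
  · by_cases h2 : x = v
    · exact Or.inl h2
    · by_cases h3 : x = p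
      · exact Or.inr (Or.inl h3)
      · have : x ∈ ((N v).erase v).erase p :=
          Finset.mem_erase.2 ⟨h3, Finset.mem_erase.2 ⟨h2, hx⟩⟩
        rw [hq, Finset.mem_singleton] at this
        exact Or.inr (Or.inr this)
  · rintro (rfl | rfl | rfl)
    exacts [b.refl _, hp, hq1.2.2]

/-- A set with defect one has a neighbour which saves. -/
lemma m7_noM (c : Mid N) {M : Finset V} (hM : M ≠ univ) (hMc : Conn N M) (hmu : mu N M = 1)
    (hs : ∀ e, e ∉ M → Tch N e M → ¬ Sav N M e) : False := by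
  have key : ∀ y ∈ M, ∀ e, e ∉ M → e ∈ N y → M.card = 5 ∧ ∃ t, Cub N t ∧ M.erase y = N t := by
    intro y hy e he hey
    have h1 := c.mu1 M hM hMc hmu e y hy (c.symm _ _ hey) (hs e he ⟨y, hy, c.symm _ _ hey⟩)
    exact ⟨h1.1, h1.2.2⟩
  obtain ⟨x, hx, e, _, he, hex⟩ := c.conn.2 M (subset_univ M) hMc.1 hM
  obtain ⟨h5, t, ht, hMx⟩ := key x hx e he hex
  obtain ⟨w, hwt, hwx, _, y, hyt, hyw⟩ := c.twoG t x x ht
  have hyM : y ∈ M := by rw [← hMx] at hyt; exact mem_of_mem_erase hyt
  have hyx : y ≠ x := by rw [← hMx] at hyt; exact ne_of_mem_erase hyt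
  have hwM : w ∉ M := fun h => hwt (by rw [← hMx]; exact mem_erase.2 ⟨hwx, h⟩)
  obtain ⟨_, u, hu, hMy⟩ := key y hyM w hwM (c.symm _ _ hyw)
  -- `N t = M - x`, `N u = M - y`
  have mt : ∀ v, v ∈ N t ↔ v ≠ x ∧ v ∈ M := fun v => by rw [← hMx]; exact mem_erase
  have mv : ∀ v, v ∈ N u ↔ v ≠ y ∧ v ∈ M := fun v => by rw [← hMy]; exact mem_erase
  have htM := (mt t).1 (c.refl t)
  have huM := (mv u).1 (c.refl u)
  have htu : t ≠ u := by
    rintro rfl
    exact ((mt x).1 ((mv x).2 ⟨Ne.symm hyx, hx⟩)).1 rfl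
  by_cases hty : t = y
  · -- `t = y`, `u = x`
    subst hty
    have hux : u = x := by
      by_contra hne
      have h1 : u ∈ N t := (mt u).2 ⟨hne, huM.2⟩
      exact ((mv t).1 (c.symm _ _ h1)).1 rfl
    subst hux
    refine c.k23 t u htu ht hu ?_
    ext v
    simp only [mem_erase, mt, mv]
    tauto
  have hux : u ≠ x := by
    rintro rfl
    have h1 : t ∈ N u := (mv t).2 ⟨hty, htM.2⟩
    exact ((mt u).1 (c.symm _ _ h1)).1 rfl
  have hut : u ∈ N t := (mt u).2 ⟨hux, huM.2⟩
  have hyt' : y ∈ N t := hyt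
  obtain ⟨k, hk1, hk2, hk3, hNt⟩ := nb_third ht (c.refl t) hyt' (Ne.symm hty) hut (Ne.symm htu)
    (Ne.symm huM.1)
  have hkt : k ∈ N t := by rw [hNt]; simp
  have hkM := (mt k).1 hkt
  have hku : k ∈ N u := (mv k).2 ⟨hk2, hkM.2⟩
  have htu' : t ∈ N u := c.symm _ _ hut
  have hxu : x ∈ N u := (mv x).2 ⟨Ne.symm hyx, hx⟩
  have hMmem : ∀ d ∈ M, d = x ∨ d = t ∨ d = y ∨ d = u ∨ d = k := by
    intro d hd
    by_cases hdx : d = x
    · exact Or.inl hdx
    · have h1 : d ∈ N t := (mt d).2 ⟨hdx, hd⟩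
      rw [hNt] at h1
      simp only [mem_insert, mem_singleton] at h1
      tauto
  -- no neighbour of `k` besides `t`, `u`
  have hNk : ∀ d ∈ N k, d = k ∨ d = t ∨ d = u := by
    intro d hdk
    by_contra hcon
    push Not at hcon
    obtain ⟨hd1, hd2, hd3⟩ := hcon
    by_cases hdM : d ∈ M
    · rcases hMmem d hdM with h | h | h | h | h
      · subst h
        exact c.dia u k t d (Ne.symm hk3) htM.1 htu (Ne.symm hk1) (Ne.symm hux) hd1 hku
          htu' (c.symm _ _ hkt) hxu hdk
      · exact hd2 h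
      · subst h
        exact c.dia t k u d (Ne.symm hk1) huM.1 (Ne.symm htu) (Ne.symm hk3) (Ne.symm hty)
          hd1 hkt hut (c.symm _ _ hku) hyt' hdk
      · exact hd3 h
      · exact hd1 h
    · obtain ⟨_, r, hr, hMk⟩ := key k hkM.2 d hdM hdk
      have mr : ∀ v, v ∈ N r ↔ v ≠ k ∧ v ∈ M := fun v => by rw [← hMk]; exact mem_erase
      have hrM := (mr r).1 (c.refl r)
      have hrx : x ∈ N r := (mr x).2 ⟨by rintro rfl; exact hkM.1 rfl, hx⟩
      have hry : y ∈ N r := (mr y).2 ⟨Ne.symm hk2, hyM⟩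
      have hrt : t ∈ N r := (mr t).2 ⟨Ne.symm hk1, htM.2⟩
      have hru : u ∈ N r := (mr u).2 ⟨Ne.symm hk3, huM.2⟩
      have h1 : r ∈ N t := c.symm _ _ hrt
      have h2 : r ∈ N u := c.symm _ _ hru
      have h3 : r ≠ y := ((mv r).1 h2).1
      have h4 : r ≠ x := ((mt r).1 h1).1
      have h5 : r ≠ t := by
        rintro rfl
        exact ((mt x).1 hrx).1 rfl
      rw [hNt] at h1
      simp only [mem_insert, mem_singleton] at h1
      rcases h1 with h1 | h1 | h1 | h1
      · exact h5 h1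
      · exact h3 h1
      · subst h1
        exact ((mv y).1 hry).1 rfl
      · exact hrM.1 h1
  have hkc : ¬ Cub N k := by
    intro hh
    have h1 : N k ⊆ {k, t, u} := fun d hd => by
      simp only [mem_insert, mem_singleton]
      exact hNk d hd
    have h2 := card_le_card h1
    have h3 := card_le_three (a := k) (b := t) (c := u)
    unfold Cub at hh
    omega
  have hkt2 : t ∈ N k := c.symm _ _ hkt
  have hku2 : u ∈ N k := c.symm _ _ hku
  have hux2 : u ∈ N x := c.symm _ _ hxu
  have hty2 : t ∈ N y := c.symm _ _ hyt'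
  have hxt : x ≠ t := fun h => htM.1 h.symm
  have hyu : y ≠ u := fun h => huM.1 h.symm
  have hxc : ¬ Cub N x := fun hh => c.v2 k t u x hkc hkt2 hku2 (Ne.symm hk1) (Ne.symm hk3) htu
    hh hxt (Ne.symm hux) ⟨u, hux2, hut⟩ ⟨u, hux2, c.refl u⟩
  have hyc : ¬ Cub N y := fun hh => c.v2 k t u y hkc hkt2 hku2 (Ne.symm hk1) (Ne.symm hk3) htu
    hh (Ne.symm hty) hyu ⟨t, hty2, c.refl t⟩ ⟨t, hty2, htu'⟩
  obtain ⟨g, hgx, hgu, hg, mx⟩ := m7_deg2 c.toBas hxc hux2 hux
  obtain ⟨g', hgy, hgt, hg', my⟩ := m7_deg2 c.toBas hyc hty2 hty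
  have hgc : Cub N g := (c.d2 x hxc).2 g hg hgx
  have hgc' : Cub N g' := (c.d2 y hyc).2 g' hg' hgy
  -- `g`, `g'` are outside `M`
  have hgM : g ∉ M := by
    intro h
    rcases hMmem g h with h | h | h | h | h
    · exact hgx h
    · subst h
      exact ((mt x).1 (c.symm _ _ hg)).1 rfl
    · subst h
      exact hyc hgc
    · exact hgu h
    · subst h
      exact hkc hgc
  have hgM' : g' ∉ M := by
    intro h
    rcases hMmem g' h with h | h | h | h | h
    · subst h
      exact hxc hgc'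
    · exact hgt h
    · exact hgy h
    · subst h
      exact ((mv y).1 (c.symm _ _ hg')).1 rfl
    · subst h
      exact hkc hgc'
  have mt' : ∀ d ∈ N t, d = t ∨ d = y ∨ d = u ∨ d = k := by
    intro d hd
    rw [hNt] at hd
    simpa using hd
  have mu' : ∀ d ∈ N u, d = t ∨ d = x ∨ d = u ∨ d = k := by
    intro d hd
    obtain ⟨h1, h2⟩ := (mv d).1 hd
    rcases hMmem d h2 with h | h | h | h | h
    · exact Or.inr (Or.inl h)
    · exact Or.inl h
    · exact absurd h h1
    · exact Or.inr (Or.inr (Or.inl h))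
    · exact Or.inr (Or.inr (Or.inr h))
  have hxg : x ∈ N g := c.symm _ _ hg
  have hyg' : y ∈ N g' := c.symm _ _ hg'
  -- nothing of `k`, `t`, `u` is adjacent to an outside vertex
  have hno : ∀ w, w ∉ M → ∀ d ∈ N w, d = t ∨ d = u ∨ d = k → False := by
    intro w hwM d hd hd'
    have h1 := c.symm _ _ hd
    rcases hd' with rfl | rfl | rfl
    · exact hwM ((mt w).1 h1).2
    · exact hwM ((mv w).1 h1).2
    · rcases hNk w h1 with h | h | h
      · exact hwM (h ▸ hkM.2)
      · exact hwM (h ▸ htM.2)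
      · exact hwM (h ▸ huM.2)
  have htuk : t ≠ u ∧ t ≠ k ∧ u ≠ k := ⟨htu, Ne.symm hk1, Ne.symm hk3⟩
  by_cases hgg : g = g'
  · subst hgg
    -- the complement of `N g` is not connected
    have h1 : ({t, u, k} : Finset V) ⊆ univ \ N g := by
      intro d hd
      simp only [mem_insert, mem_singleton] at hd
      exact mem_sdiff.2 ⟨mem_univ _, fun h => hno g hgM d h hd⟩
    have h2 : ({t, u, k} : Finset V) ≠ univ \ N g := by
      intro h
      have h3 := card_sdiff_add_card_eq_card (subset_univ (N g))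
      rw [← h, card_univ] at h3
      have h4 := card_le_three (a := t) (b := u) (c := k)
      have h5 := c.big
      unfold Cub at hgc
      omega
    obtain ⟨a, ha, b, hb, hb', hba⟩ := (c.a1c g hgc).2 _ h1 ⟨t, by simp⟩ h2
    apply hb'
    have hbg := (mem_sdiff.1 hb).2
    simp only [mem_insert, mem_singleton] at ha ⊢
    rcases ha with rfl | rfl | rfl
    · rcases mt' b hba with h | h | h | h
      · exact Or.inl h
      · exact absurd (h ▸ hyg') hbg
      · exact Or.inr (Or.inl h)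
      · exact Or.inr (Or.inr h)
    · rcases mu' b hba with h | h | h | h
      · exact Or.inl h
      · exact absurd (h ▸ hxg) hbg
      · exact Or.inr (Or.inl h)
      · exact Or.inr (Or.inr h)
    · rcases hNk b hba with h | h | h
      · exact Or.inr (Or.inr h)
      · exact Or.inl h
      · exact Or.inr (Or.inl h)
  · refine c.pl g g' x y {t, u, k} hgc hgc' hgg hxg hyg' (Ne.symm hyx) (Ne.symm hgx) ?_ ?_
      (Ne.symm hgy) ?_ ?_ ?_ ?_ ?_ ?_ ?_
    · rintro rfl
      exact hxc hgc'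
    · rintro rfl
      exact hyc hgc
    · exact card_eq_three.2 ⟨t, u, k, htuk.1, htuk.2.1, htuk.2.2, rfl⟩
    · rw [disjoint_left]
      intro d hd hd'
      simp only [mem_insert, mem_singleton] at hd
      exact hno g hgM d hd' hd
    · rw [disjoint_left]
      intro d hd hd'
      simp only [mem_insert, mem_singleton] at hd
      exact hno g' hgM' d hd' hd
    · intro d hd b hb
      simp only [mem_insert, mem_singleton] at hd ⊢
      rcases hd with rfl | rfl | rfl
      · rcases mt' b hb with h | h | h | h <;> simp [h]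
      · rcases mu' b hb with h | h | h | h <;> simp [h]
      · rcases hNk b hb with h | h | h <;> simp [h]
    · intro b hb
      simp only [mem_insert, mem_singleton]
      rcases (mx b).1 hb with h | h | h <;> simp [h]
    · intro b hb
      simp only [mem_insert, mem_singleton]
      rcases (my b).1 hb with h | h | h <;> simp [h]
    · rintro b hb ⟨d, hd, hdb⟩
      have hbd := c.symm _ _ hdb
      simp only [mem_insert, mem_singleton] at hd
      have hcases : b = t ∨ b = u := by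
        rcases hd with rfl | rfl | rfl
        · rcases mt' b hbd with h | h | h | h
          · exact Or.inl h
          · exact absurd (h ▸ hb) hyc
          · exact Or.inr h
          · exact absurd (h ▸ hb) hkc
        · rcases mu' b hbd with h | h | h | h
          · exact Or.inl h
          · exact absurd (h ▸ hb) hxc
          · exact Or.inr h
          · exact absurd (h ▸ hb) hkc
        · rcases hNk b hbd with h | h | h
          · exact absurd (h ▸ hb) hkc
          · exact Or.inl h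
          · exact Or.inr h
      rcases hcases with rfl | rfl
      · exact ⟨y, hyt', Or.inr hyg'⟩
      · exact ⟨x, hxu, Or.inl hxg⟩

/-- The configuration of (P). -/
structure Pc (N : V → Finset V) (v x1 x2 z1 z2 : V) (P : Finset (Finset V)) : Prop where
  hv : ¬ Cub N v
  mv : ∀ x, x ∈ N v ↔ x = v ∨ x = x1 ∨ x = x2
  c1 : Cub N z1
  c2 : Cub N z2
  e1 : x1 ∈ N z1
  e2 : x2 ∈ N z2
  n1 : x1 ≠ z1
  n2 : x2 ≠ z2
  dj : Disjoint (N z1) (N z2)
  cfg : Cfg N (insert v (N z1 ∪ N z2)) {z1, z2} P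

lemma Pc.sy {v x1 x2 z1 z2 : V} {P : Finset (Finset V)} (h : Pc N v x1 x2 z1 z2 P) :
    Pc N v x2 x1 z2 z1 P :=
  ⟨h.hv, fun x => by rw [h.mv x]; tauto, h.c2, h.c1, h.e2, h.e1, h.n2, h.n1, h.dj.symm, by
    have := h.cfg
    rwa [union_comm, pair_comm] at this⟩

section
variable {v x1 x2 z1 z2 : V} {P : Finset (Finset V)}

lemma Pc.vz1 (h : Pc N v x1 x2 z1 z2 P) (m : Mid N) : v ∉ N z1 := by
  intro h'
  rcases (h.mv z1).1 (m.symm _ _ h') with rfl | rfl | rfl
  · exact h.hv h.c1
  · exact h.n1 rfl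
  · exact disjoint_left.1 h.dj (m.refl _) h.e2

lemma Pc.vz2 (h : Pc N v x1 x2 z1 z2 P) (m : Mid N) : v ∉ N z2 := h.sy.vz1 m

lemma Pc.cardF (h : Pc N v x1 x2 z1 z2 P) (m : Mid N) :
    (insert v (N z1 ∪ N z2)).card = 9 := by
  rw [card_insert_of_notMem, card_union_of_disjoint h.dj]
  · have h1 := h.c1
    have h2 := h.c2
    unfold Cub at h1 h2
    omega
  · rw [mem_union]
    rintro (h1 | h1)
    · exact h.vz1 m h1
    · exact h.vz2 m h1

/-- A toucher is a neighbour of `z1` or `z2`. -/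
lemma Pc.touch (h : Pc N v x1 x2 z1 z2 P) (m : Mid N) {e x : V}
    (he : e ∈ insert v (N z1 ∪ N z2)) (hx : x ∉ insert v (N z1 ∪ N z2)) (hxe : x ∈ N e) :
    e ∈ (N z1).erase z1 ∪ (N z2).erase z2 := by
  simp only [mem_insert, mem_union, not_or] at he hx
  have h1 : e ≠ z1 := by
    rintro rfl
    exact hx.2.1 hxe
  have h2 : e ≠ z2 := by
    rintro rfl
    exact hx.2.2 hxe
  rcases he with rfl | he | he
  · rcases (h.mv x).1 hxe with rfl | rfl | rfl
    · exact absurd rfl hx.1
    · exact absurd h.e1 hx.2.1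
    · exact absurd h.e2 hx.2.2
  · exact mem_union_left _ (mem_erase.2 ⟨h1, he⟩)
  · exact mem_union_right _ (mem_erase.2 ⟨h2, he⟩)

lemma Pc.cardM (h : Pc N v x1 x2 z1 z2 P) (m : Mid N) :
    ((N z1).erase z1 ∪ (N z2).erase z2).card = 6 := by
  rw [card_union_of_disjoint (disjoint_of_subset_left (erase_subset _ _)
    (disjoint_of_subset_right (erase_subset _ _) h.dj)), card_erase_of_mem (m.refl z1),
    card_erase_of_mem (m.refl z2)]
  have h1 := h.c1
  have h2 := h.c2
  unfold Cub at h1 h2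
  omega

/-- Every component touches the first side. -/
lemma Pc.side (h : Pc N v x1 x2 z1 z2 P) (m : Mid N) {U : Finset V} (hU : U ∈ P) :
    ∃ e ∈ N z1, e ≠ z1 ∧ Tch N e U := by
  have hout : ∀ x ∈ U, x ≠ v ∧ x ∉ N z1 ∧ x ∉ N z2 := by
    intro x hx
    have := h.cfg.notF hU hx
    simp only [mem_insert, mem_union, not_or] at this
    exact this
  have h1 : U ⊆ univ \ N z2 := fun x hx => mem_sdiff.2 ⟨mem_univ _, (hout x hx).2.2⟩
  have h2 : U ≠ univ \ N z2 := by
    intro h3
    have h4 : v ∈ U := by rw [h3]; exact mem_sdiff.2 ⟨mem_univ _, h.vz2 m⟩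
    exact (hout v h4).1 rfl
  obtain ⟨x, hx, y, hy, hyU, hyx⟩ := (m.a1c z2 h.c2).2 U h1 (h.cfg.conn hU).1 h2
  have h3 := h.cfg.out hU hx hyx hyU
  have h4 := h.touch m h3 (h.cfg.notF hU hx) (m.symm _ _ hyx)
  rw [mem_union] at h4
  rcases h4 with h4 | h4
  · exact ⟨y, mem_of_mem_erase h4, ne_of_mem_erase h4, x, hx, m.symm _ _ hyx⟩
  · exact absurd (mem_of_mem_erase h4) (mem_sdiff.1 hy).2

/-- The final step: the other component has at most one toucher on the first side. -/
lemma Pc.fin (h : Pc N v x1 x2 z1 z2 P) (m : Mid N) (hs : Swap N) (hg : Good N)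
    (hf : fv N univ = 2 + ∑ U ∈ P, fv N U) (hmu : ∀ U ∈ P, mu N U = 0) {t : V} (ht : Cub N t)
    (htP : N t ∈ P)
    (hsep : ∀ U ∈ P, ∀ U' ∈ P, ∀ e, Tch N e U → Tch N e U' → U = U')
    {T : Finset V} (hT : T ∈ P) (hTt : T ≠ N t) (honly : ∀ U ∈ P, U ≠ N t → U = T)
    (h1 : ∀ e ∈ N z1, ∀ e' ∈ N z1, e ≠ z1 → e' ≠ z1 → Tch N e T → Tch N e' T → e = e') :
    False := by
  classical
  obtain ⟨g, hg1, hgz, hgT⟩ := h.side m hT
  -- the touchers of `N t` on the first side
  obtain ⟨w, hw, hwz, hwt⟩ := h.side m htP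
  have hW : ∃ w', (w' ∈ N z1 ∧ w' ≠ z1 ∧ Tch N w' (N t)) ∧
      ∀ e ∈ N z1, e ≠ z1 → Tch N e (N t) → e = w ∨ e = w' := by
    by_cases hex : ∃ w' ∈ N z1, w' ≠ z1 ∧ Tch N w' (N t) ∧ w' ≠ w
    · obtain ⟨w', hw', hwz', hwt', hne⟩ := hex
      refine ⟨w', ⟨hw', hwz', hwt'⟩, fun e he hez het => ?_⟩
      by_contra hcon
      push Not at hcon
      have hgw : ∀ e, Tch N e (N t) → g ≠ e := by
        rintro e he rfl
        exact hTt (hsep T hT _ htP g hgT he)
      have h2 : ({z1, w, w', e, g} : Finset V) ⊆ N z1 := by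
        intro y hy
        simp only [mem_insert, mem_singleton] at hy
        rcases hy with rfl | rfl | rfl | rfl | rfl
        exacts [m.refl _, hw, hw', he, hg1]
      have h3 := card_le_card h2
      have h4 : ({z1, w, w', e, g} : Finset V).card = 5 := by
        have g1 := hgw w hwt
        have g2 := hgw w' hwt'
        have g3 := hgw e het
        have k1 := Ne.symm hwz
        have k2 := Ne.symm hwz'
        have k3 := Ne.symm hez
        have k4 := Ne.symm hgz
        have k5 := Ne.symm hne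
        have k6 := Ne.symm hcon.1
        have k7 := Ne.symm hcon.2
        have k8 := Ne.symm g1
        have k9 := Ne.symm g2
        have k10 := Ne.symm g3
        rw [card_insert_of_notMem, card_insert_of_notMem, card_insert_of_notMem,
          card_pair k10] <;> simp [*]
      have h5 := h.c1
      unfold Cub at h5
      omega
    · push Not at hex
      refine ⟨w, ⟨hw, hwz, hwt⟩, fun e he hez het => Or.inl (hex e he hez het)⟩
  obtain ⟨w', ⟨hw', hwz', hwt'⟩, hWall⟩ := hW
  have hz1F : ∀ x ∈ N z1, x ∈ insert v (N z1 ∪ N z2) := fun x hx =>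
    mem_insert_of_mem (mem_union_left _ hx)
  have hnt : ∀ e ∈ N z1, e ∉ N t := fun e he hh => h.cfg.notF htP hh (hz1F e he)
  have hgood := hg t w w' z2 ht (hnt w hw) (hnt w' hw') hwt hwt' (by
    intro c hc hcc
    by_cases hc2 : ∃ x ∈ N c, x ∈ N z2
    · exact Or.inr hc2
    · left
      intro x hx hxt
      have h2 := h.touch m (h.cfg.out htP hc hx hxt) (h.cfg.notF htP hc) (m.symm _ _ hx)
      rw [mem_union] at h2
      rcases h2 with h2 | h2
      · exact hWall x (mem_of_mem_erase h2) (ne_of_mem_erase h2) ⟨c, hc, m.symm _ _ hx⟩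
      · exact absurd ⟨x, hx, mem_of_mem_erase h2⟩ hc2)
  have main : ∀ w, w ∈ N z1 → w ≠ z1 → Tch N w (N t) →
      (∀ c ∈ N t, Cub N c → (∃ x ∈ N c, x ∈ N w) ∨ ∃ x ∈ N c, x ∈ N z2) → False := by
    intro w hw hwz hwt hgd
    refine hs z1 z2 w t _ P h.c1 h.c2 h.cfg hf ?_ ht htP (fun U hU _ => by
      rw [hmu U hU]; omega) ?_ hw hwz hwt hgd
    · intro c hc hcc hc1
      simp only [mem_insert, mem_union] at hc
      rcases hc with rfl | hc | hc
      · exact absurd hcc h.hv
      · exact absurd hc hc1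
      · exact ⟨c, m.refl c, hc⟩
    · intro U hU hUt
      have hUT := honly U hU hUt
      subst hUT
      exact ⟨g, fun e he hez heU => h1 e he g hg1 hez hgz heU hgT⟩
  rcases hgood with hgd | hgd
  · exact main w hw hwz hwt hgd
  · exact main w' hw' hwz' hwt' hgd

end

/-- **Module M7b: (P).** -/
theorem pp (m : Mid N) (hs : Swap N) (hg : Good N) : PP N := by
  classical
  intro v x1 x2 z1 z2 hv hx1 hx2 hx1v hx2v hx12 hz1 hz2 hz1x hz1x' hz2x hz2x' hdj
  obtain ⟨q, hqv, hqx, hqN, mv⟩ := m7_deg2 m.toBas hv hx1 hx1v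
  have hq : q = x2 := by
    rcases (mv x2).1 hx2 with h | h | h
    · exact absurd h hx2v
    · exact absurd h.symm hx12
    · exact h.symm
  subst hq
  obtain ⟨P, hP⟩ := exists_comps (N := N) m.symm (univ \ insert v (N z1 ∪ N z2))
  have e1 : x1 ∈ N z1 := m.symm _ _ hz1x
  have e2 : q ∈ N z2 := m.symm _ _ hz2x
  have hcfg : Cfg N (insert v (N z1 ∪ N z2)) {z1, z2} P := by
    refine ⟨hP, ⟨v, mem_insert_self _ _⟩, ?_, ?_⟩
    · intro y hy
      simp only [mem_insert, mem_singleton] at hy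
      rcases hy with rfl | rfl
      · exact subset_union_left.trans (subset_insert _ _)
      · exact subset_union_right.trans (subset_insert _ _)
    · rintro d hd ⟨x, hx, hxF⟩
      simp only [mem_insert, mem_union] at hxF
      rcases hxF with rfl | hxF | hxF
      · rcases (mv d).1 (m.symm _ _ hx) with rfl | rfl | rfl
        · exact absurd hd hv
        · exact ⟨z1, by simp, z1, hz1x, m.refl z1⟩
        · exact ⟨z2, by simp, z2, hz2x, m.refl z2⟩
      · exact ⟨z1, by simp, x, hx, hxF⟩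
      · exact ⟨z2, by simp, x, hx, hxF⟩
  have h : Pc N v x1 q z1 z2 P := ⟨hv, mv, hz1, hz2, e1, e2, Ne.symm hz1x', Ne.symm hz2x',
    hdj, hcfg⟩
  have hz12 : z1 ≠ z2 := by
    rintro rfl
    exact disjoint_left.1 hdj (m.refl z1) (m.refl z1)
  have hY : ({z1, z2} : Finset V).card = 2 := card_pair hz12
  have hF := h.cardF m
  have hM := h.cardM m
  have hMt : ∀ e ∈ insert v (N z1 ∪ N z2), ∀ x, x ∉ insert v (N z1 ∪ N z2) → x ∈ N e →
      e ∈ (N z1).erase z1 ∪ (N z2).erase z2 := fun e he x hx hxe => h.touch m he hx hxe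
  obtain ⟨m1, m2, m3, m4⟩ := m.main _ _ _ P hcfg (by rw [hY, hF]) hMt (by rw [hM]; omega)
  rw [hY] at m1 m2
  rw [hF] at m2
  rw [hM] at m3
  have hsub : ∀ U ∈ P, tc N (insert v (N z1 ∪ N z2)) U ⊆
      (N z1).erase z1 ∪ (N z2).erase z2 := by
    intro U hU e he
    obtain ⟨h1, x, hx, hxe⟩ := mem_tc.1 he
    exact hMt e h1 x (hcfg.notF hU hx) hxe
  have hsav : ∀ U ∈ P, mu N U = 0 → ∀ e, Tch N e U → Sav N U e := fun U hU hmu =>
    m.tight U (hcfg.ne_univ hU) (hcfg.conn hU) hmu
  have hdjt : ∀ U ∈ P, ∀ U' ∈ P, U ≠ U' → mu N U = 0 → mu N U' = 0 →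
      Disjoint (tc N (insert v (N z1 ∪ N z2)) U) (tc N (insert v (N z1 ∪ N z2)) U') :=
    fun U hU U' hU' hne hmu hmu' => tc_disjoint (fun e a b => m4 e U hU U' hU' a b)
      (hsav U hU hmu) (hsav U' hU' hmu') hne
  have hmuA : ∀ U, ExA N U → mu N U = 0 := fun U hU => hU.mu0
  -- at most two exceptional components
  have hna2 : na N P ≤ 2 := by
    by_contra hcon
    unfold na at hcon
    obtain ⟨A, hA, B, hB, C, hC, hAB, hAC, hBC⟩ := two_lt_card.1 (by omega :
      2 < (P.filter (ExA N)).card)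
    obtain ⟨hA, hA'⟩ := mem_filter.1 hA
    obtain ⟨hB, hB'⟩ := mem_filter.1 hB
    obtain ⟨hC, hC'⟩ := mem_filter.1 hC
    have t1 := m.tcA hcfg hA hA'
    have t2 := m.tcA hcfg hB hB'
    have t3 := m.tcA hcfg hC hC'
    have d1 := hdjt A hA B hB hAB (hmuA _ hA') (hmuA _ hB')
    have d2 := hdjt A hA C hC hAC (hmuA _ hA') (hmuA _ hC')
    have d3 := hdjt B hB C hC hBC (hmuA _ hB') (hmuA _ hC')
    have k1 := card_le_card (union_subset (union_subset (hsub A hA) (hsub B hB)) (hsub C hC))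
    rw [card_union_of_disjoint (disjoint_union_left.2 ⟨d2, d3⟩), card_union_of_disjoint d1,
      hM] at k1
    omega
  by_cases hna : na N P = 2
  · -- two exceptional components
    have hna' := hna
    unfold na at hna'
    obtain ⟨A, B, hAB, hABe⟩ := card_eq_two.1 hna'
    have hA0 : A ∈ P.filter (ExA N) := by rw [hABe]; simp
    have hB0 : B ∈ P.filter (ExA N) := by rw [hABe]; simp
    obtain ⟨hA, hA'⟩ := mem_filter.1 hA0
    obtain ⟨hB, hB'⟩ := mem_filter.1 hB0
    have t1 := m.tcA hcfg hA hA'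
    have t2 := m.tcA hcfg hB hB'
    have d1 := hdjt A hA B hB hAB (hmuA _ hA') (hmuA _ hB')
    have k1 : tc N (insert v (N z1 ∪ N z2)) A ∪ tc N (insert v (N z1 ∪ N z2)) B =
        (N z1).erase z1 ∪ (N z2).erase z2 := by
      apply eq_of_subset_of_card_le (union_subset (hsub A hA) (hsub B hB))
      rw [card_union_of_disjoint d1, hM]
      omega
    have hsum : ∑ U ∈ P, mu N U = 1 := by omega
    obtain ⟨W, hW, hW0⟩ : ∃ W ∈ P, mu N W ≠ 0 := by
      by_contra hcon
      push Not at hcon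
      rw [sum_eq_zero hcon] at hsum
      omega
    have hW1 : mu N W = 1 := by
      have := single_le_sum (f := mu N) (fun _ _ => Nat.zero_le _) hW
      omega
    refine m7_noM m (hcfg.ne_univ hW) (hcfg.conn hW) hW1 ?_
    intro e heW het hsv
    have he : e ∈ insert v (N z1 ∪ N z2) := by
      obtain ⟨x, hx, hxe⟩ := het
      exact hcfg.out hW hx (m.symm _ _ hxe) heW
    have he2 : e ∈ (N z1).erase z1 ∪ (N z2).erase z2 := hsub W hW (mem_tc.2 ⟨he, het⟩)
    rw [← k1, mem_union] at he2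
    rcases he2 with he2 | he2
    · have h5 := m4 e A hA W hW (hsav A hA (hmuA _ hA') e (mem_tc.1 he2).2) hsv
      rw [← h5, hmuA _ hA'] at hW1
      omega
    · have h5 := m4 e B hB W hW (hsav B hB (hmuA _ hB') e (mem_tc.1 he2).2) hsv
      rw [← h5, hmuA _ hB'] at hW1
      omega
  · -- one exceptional component
    have hna1 : na N P = 1 := by omega
    have hmu : ∀ U ∈ P, mu N U = 0 := mu_of_sum (by omega)
    obtain ⟨L, hL, hLA, hLo⟩ := na_one hna1
    obtain ⟨t, ht, rfl⟩ := m.exA L hLA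
    obtain ⟨T, hT, hTL⟩ := hcfg.other m.toVS (by omega) hL hLA.1
    have hFc : Conn N (insert v (N z1 ∪ N z2)) := by
      have h1 : Conn N (insert v (N z1)) := conn_insert m.toVS (conn_star m.toVS z1) e1
        (m.symm _ _ hx1)
      have h2 := conn_union m.toVS h1 (conn_star m.toVS z2) (mem_insert_self _ _) e2 hx2
      rwa [insert_union] at h2
    have t2 : ∀ U ∈ P, U ≠ N t → 2 ≤ (tc N (insert v (N z1 ∪ N z2)) U).card := by
      intro U hU hne
      exact m.toGen.tcT hcfg hU (hcfg.conn_compl m.toVS hFc hU) (hLo U hU hne)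
        (by rw [hmu U hU]; omega)
    have t1 := m.tcA hcfg hL hLA
    have honly : ∀ U ∈ P, U ≠ N t → U = T := by
      intro U hU hne
      by_contra hcon
      have s1 := t2 U hU hne
      have s2 := t2 T hT hTL
      have d1 := hdjt U hU T hT hcon (hmu U hU) (hmu T hT)
      have d2 := hdjt U hU _ hL hne (hmu U hU) (hmu _ hL)
      have d3 := hdjt T hT _ hL hTL (hmu T hT) (hmu _ hL)
      have k1 := card_le_card (union_subset (union_subset (hsub U hU) (hsub T hT))
        (hsub _ hL))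
      rw [card_union_of_disjoint (disjoint_union_left.2 ⟨d2, d3⟩), card_union_of_disjoint d1,
        hM] at k1
      omega
    have hsep : ∀ U ∈ P, ∀ U' ∈ P, ∀ e, Tch N e U → Tch N e U' → U = U' :=
      fun U hU U' hU' e a b => m4 e U hU U' hU' (hsav U hU (hmu U hU) e a)
        (hsav U' hU' (hmu U' hU') e b)
    have hTc : (tc N (insert v (N z1 ∪ N z2)) T).card ≤ 3 := by
      have d3 := hdjt T hT _ hL hTL (hmu T hT) (hmu _ hL)
      have k1 := card_le_card (union_subset (hsub T hT) (hsub _ hL))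
      rw [card_union_of_disjoint d3, hM] at k1
      omega
    -- at most one toucher of `T` on some side
    by_cases hs1 : ∀ e ∈ N z1, ∀ e' ∈ N z1, e ≠ z1 → e' ≠ z1 → Tch N e T → Tch N e' T → e = e'
    · exact h.fin m hs hg m1 hmu ht hL hsep hT hTL honly hs1
    · refine h.sy.fin m hs hg m1 hmu ht hL hsep hT hTL honly ?_
      intro e he e' he' hez hez' het het'
      by_contra hne
      push Not at hs1
      obtain ⟨a, ha, a', ha', haz, haz', hat, hat', hne'⟩ := hs1
      have key : ({e, e', a, a'} : Finset V) ⊆ tc N (insert v (N z1 ∪ N z2)) T := by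
        intro y hy
        simp only [mem_insert, mem_singleton] at hy
        rcases hy with rfl | rfl | rfl | rfl
        · exact mem_tc.2 ⟨mem_insert_of_mem (mem_union_right _ he), het⟩
        · exact mem_tc.2 ⟨mem_insert_of_mem (mem_union_right _ he'), het'⟩
        · exact mem_tc.2 ⟨mem_insert_of_mem (mem_union_left _ ha), hat⟩
        · exact mem_tc.2 ⟨mem_insert_of_mem (mem_union_left _ ha'), hat'⟩
      have k1 := card_le_card key
      have nd : ∀ x y, x ∈ N z1 → y ∈ N z2 → y ≠ x := by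
        rintro x y hx hy rfl
        exact disjoint_left.1 hdj hx hy
      have k2 : ({e, e', a, a'} : Finset V).card = 4 := by
        have g1 := nd a e ha he
        have g2 := nd a e' ha he'
        have g3 := nd a' e ha' he
        have g4 := nd a' e' ha' he'
        rw [card_insert_of_notMem, card_insert_of_notMem, card_pair hne'] <;> simp [*]
      omega

end

end Pool.Agent.Star.K4
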