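import Pool.Agent.Star.K4.Kit
import Pool.Agent.Star.K4.Tools

/-!
# `K = 4`, module M8: there is no vertex of degree two
-/

set_option autoImplicit false
set_option linter.unusedSectionVars false
set_option linter.unusedVariables false

namespace Pool.Agent.Star.K4

open Finset Rig

section
variable {V : Type*} [DecidableEq V] [Fintype V] {N : V → Finset V}

/-- The other neighbour of a vertex of degree two. -/
lemma deg2nb (b : Bas N) {v x : V} (hv : ¬ Cub N v) (hx : x ∈ N v) (hxv : x ≠ v) :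
    ∃ y, y ≠ v ∧ y ≠ x ∧ N v = {v, x, y} := by
  have h1 := (b.d2 v hv).1
  have h2 : (((N v).erase v).erase x).card = 1 := by
    rw [card_erase_of_mem (mem_erase.2 ⟨hxv, hx⟩), card_erase_of_mem (b.refl v), h1]
  obtain ⟨y, hy⟩ := card_eq_one.1 h2
  have hy' : y ∈ ((N v).erase v).erase x := by rw [hy]; simp
  simp only [mem_erase] at hy'
  refine ⟨y, hy'.2.1, hy'.1, ?_⟩
  symm
  apply eq_of_subset_of_card_le
  · intro z hz
    simp only [mem_insert, mem_singleton] at hz
    rcases hz with rfl | rfl | rfl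
    · exact b.refl _
    · exact hx
    · exact hy'.2.2
  · rw [h1, card_insert_of_notMem, card_pair (Ne.symm hy'.1)]
    simp [Ne.symm hxv, Ne.symm hy'.2.1]

/-- A star does not cut off a small set. -/
lemma small_comp (b : Bas N) {z : V} (hz : Cub N z) {C : Finset V} (hne : C.Nonempty)
    (hC : ∀ x ∈ C, x ∉ N z) (hcl : ∀ x ∈ C, ∀ y ∈ N x, y ∈ N z ∨ y ∈ C) (hc : C.card ≤ 17) :
    False := by
  have h1 := conn_iff.1 (b.a1c z hz)
  have h2 := h1.2 C (fun x hx => mem_sdiff.2 ⟨mem_univ _, hC x hx⟩) hne (by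
    intro x hx y hy hyx
    rcases hcl x hx y hyx with h3 | h3
    · exact absurd h3 (mem_sdiff.1 hy).2
    · exact h3)
  have h3 := card_le_card h2
  have h4 : (univ \ N z).card + (N z).card = Fintype.card V := by
    rw [card_sdiff_add_card_eq_card (subset_univ _), card_univ]
  have h5 := b.toVS.big
  have h6 : (N z).card = 4 := hz
  omega

/-- The neighbours of a vertex of degree two are not adjacent. -/
lemma caseA (m : Mid N) {v x1 x2 : V} (hv : ¬ Cub N v) (hNv : N v = {v, x1, x2})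
    (h1v : x1 ≠ v) (h2v : x2 ≠ v) (h12 : x1 ≠ x2) (h : x2 ∈ N x1) : False := by
  have sy := m.symm
  have rf := m.refl
  have hx1v : x1 ∈ N v := by rw [hNv]; simp
  have hx2v : x2 ∈ N v := by rw [hNv]; simp
  have c1 : Cub N x1 := (m.d2 v hv).2 x1 hx1v h1v
  have c2 : Cub N x2 := (m.d2 v hv).2 x2 hx2v h2v
  have h' : x1 ∈ N x2 := sy _ _ h
  obtain ⟨b1, hb1x, hb1v, hb12, hN1⟩ := nb_third c1 (rf x1) (sy _ _ hx1v) h1v.symm h h12.symm
    h2v.symm
  obtain ⟨b2, hb2x, hb2v, hb21, hN2⟩ := nb_third c2 (rf x2) (sy _ _ hx2v) h2v.symm h' h12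
    h1v.symm
  have hb1m : b1 ∈ N x1 := by rw [hN1]; simp
  have hb2m : b2 ∈ N x2 := by rw [hN2]; simp
  have hb1 : ¬ Cub N b1 := by
    intro hc
    exact m.v2 v x1 x2 b1 hv hx1v hx2v h1v h2v h12 hc hb1x hb12 ⟨b1, rf b1, hb1m⟩
      ⟨x1, sy _ _ hb1m, h'⟩
  have hb2 : ¬ Cub N b2 := by
    intro hc
    exact m.v2 v x1 x2 b2 hv hx1v hx2v h1v h2v h12 hc hb21 hb2x ⟨x2, sy _ _ hb2m, h⟩
      ⟨b2, rf b2, hb2m⟩
  have hbb : b1 ≠ b2 := by
    rintro rfl
    exact m.dia x1 x2 v b1 h12 (Ne.symm hb1v) h1v.symm h2v.symm hb1x hb12 h (sy _ _ hx1v)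
      (sy _ _ hx2v) hb1m hb2m
  obtain ⟨e1, he1b, he1x, hE1⟩ := deg2nb m.toBas hb1 (sy _ _ hb1m) (Ne.symm hb1x)
  obtain ⟨e2, he2b, he2x, hE2⟩ := deg2nb m.toBas hb2 (sy _ _ hb2m) (Ne.symm hb2x)
  have he1m : e1 ∈ N b1 := by rw [hE1]; simp
  have he2m : e2 ∈ N b2 := by rw [hE2]; simp
  have ce1 : Cub N e1 := (m.d2 b1 hb1).2 e1 he1m he1b
  have ce2 : Cub N e2 := (m.d2 b2 hb2).2 e2 he2m he2b
  have hb1x2 : x2 ∉ N b1 := by
    intro hh
    have h3 := sy _ _ hh
    rw [hN2] at h3
    simp only [mem_insert, mem_singleton] at h3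
    rcases h3 with h3 | h3 | h3 | h3
    · exact hb12 h3
    · exact hb1v h3
    · exact hb1x h3
    · exact hbb h3
  have hb2x1 : x1 ∉ N b2 := by
    intro hh
    have h3 := sy _ _ hh
    rw [hN1] at h3
    simp only [mem_insert, mem_singleton] at h3
    rcases h3 with h3 | h3 | h3 | h3
    · exact hb21 h3
    · exact hb2v h3
    · exact hb2x h3
    · exact hbb h3.symm
  have he1x2 : e1 ≠ x2 := by rintro rfl; exact hb1x2 he1m
  have he2x1 : e2 ≠ x1 := by rintro rfl; exact hb2x1 he2m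
  -- the three vertices are not in the stars of `e1`, `e2`
  have key : ∀ e, Cub N e → e ≠ x1 → e ≠ x2 → v ∉ N e ∧ x1 ∉ N e ∧ x2 ∉ N e := by
    intro e he h3 h4
    refine ⟨?_, ?_, ?_⟩
    · intro hh
      have h5 := sy _ _ hh
      rw [hNv] at h5
      simp only [mem_insert, mem_singleton] at h5
      rcases h5 with h5 | h5 | h5
      · exact hv (h5 ▸ he)
      · exact h3 h5
      · exact h4 h5
    · intro hh
      have h5 := sy _ _ hh
      rw [hN1] at h5
      simp only [mem_insert, mem_singleton] at h5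
      rcases h5 with h5 | h5 | h5 | h5
      · exact h3 h5
      · exact hv (h5 ▸ he)
      · exact h4 h5
      · exact hb1 (h5 ▸ he)
    · intro hh
      have h5 := sy _ _ hh
      rw [hN2] at h5
      simp only [mem_insert, mem_singleton] at h5
      rcases h5 with h5 | h5 | h5 | h5
      · exact h4 h5
      · exact hv (h5 ▸ he)
      · exact h3 h5
      · exact hb2 (h5 ▸ he)
  obtain ⟨q1, q2, q3⟩ := key e1 ce1 he1x he1x2
  obtain ⟨r1, r2, r3⟩ := key e2 ce2 he2x1 he2x
  by_cases hee : e1 = e2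
  · subst hee
    refine small_comp m.toBas ce1 (C := {v, x1, x2}) ⟨v, by simp⟩ ?_ ?_ ?_
    · intro x hx
      simp only [mem_insert, mem_singleton] at hx
      rcases hx with rfl | rfl | rfl
      · exact q1
      · exact q2
      · exact q3
    · intro x hx y hy
      simp only [mem_insert, mem_singleton] at hx ⊢
      rcases hx with rfl | rfl | rfl
      · rw [hNv] at hy
        simp only [mem_insert, mem_singleton] at hy
        exact Or.inr hy
      · rw [hN1] at hy
        simp only [mem_insert, mem_singleton] at hy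
        rcases hy with r | r | r | r
        · exact Or.inr (Or.inr (Or.inl r))
        · exact Or.inr (Or.inl r)
        · exact Or.inr (Or.inr (Or.inr r))
        · exact Or.inl (r ▸ sy _ _ he1m)
      · rw [hN2] at hy
        simp only [mem_insert, mem_singleton] at hy
        rcases hy with r | r | r | r
        · exact Or.inr (Or.inr (Or.inr r))
        · exact Or.inr (Or.inl r)
        · exact Or.inr (Or.inr (Or.inl r))
        · exact Or.inl (r ▸ sy _ _ he2m)
    · exact card_le_three.trans (by norm_num)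
  · refine m.pl e1 e2 b1 b2 {v, x1, x2} ce1 ce2 hee (sy _ _ he1m) (sy _ _ he2m) hbb
      (fun hh => hb1 (hh ▸ ce1)) (fun hh => hb1 (hh ▸ ce2)) (fun hh => hb2 (hh ▸ ce1))
      (fun hh => hb2 (hh ▸ ce2)) ?_ ?_ ?_ ?_ ?_ ?_ ?_
    · rw [card_insert_of_notMem, card_pair h12]
      simp [h1v.symm, h2v.symm]
    · rw [disjoint_left]
      intro x hx
      simp only [mem_insert, mem_singleton] at hx
      rcases hx with rfl | rfl | rfl
      · exact q1
      · exact q2
      · exact q3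
    · rw [disjoint_left]
      intro x hx
      simp only [mem_insert, mem_singleton] at hx
      rcases hx with rfl | rfl | rfl
      · exact r1
      · exact r2
      · exact r3
    · intro x hx y hy
      simp only [mem_insert, mem_singleton] at hx ⊢
      rcases hx with rfl | rfl | rfl
      · rw [hNv] at hy
        simp only [mem_insert, mem_singleton] at hy
        exact Or.inr (Or.inr hy)
      · rw [hN1] at hy
        simp only [mem_insert, mem_singleton] at hy
        rcases hy with r | r | r | r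
        · exact Or.inr (Or.inr (Or.inr (Or.inl r)))
        · exact Or.inr (Or.inr (Or.inl r))
        · exact Or.inr (Or.inr (Or.inr (Or.inr r)))
        · exact Or.inl r
      · rw [hN2] at hy
        simp only [mem_insert, mem_singleton] at hy
        rcases hy with r | r | r | r
        · exact Or.inr (Or.inr (Or.inr (Or.inr r)))
        · exact Or.inr (Or.inr (Or.inl r))
        · exact Or.inr (Or.inr (Or.inr (Or.inl r)))
        · exact Or.inr (Or.inl r)
    · intro y hy
      rw [hE1] at hy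
      simp only [mem_insert, mem_singleton] at hy ⊢
      rcases hy with r | r | r
      · exact Or.inl r
      · exact Or.inr (Or.inr (Or.inr (Or.inl r)))
      · exact Or.inr (Or.inl r)
    · intro y hy
      rw [hE2] at hy
      simp only [mem_insert, mem_singleton] at hy ⊢
      rcases hy with r | r | r
      · exact Or.inl r
      · exact Or.inr (Or.inr (Or.inr (Or.inr r)))
      · exact Or.inr (Or.inl r)
    · rintro c hc ⟨k, hk, hkc⟩
      have hcc : c = x1 ∨ c = x2 := by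
        have h5 := sy _ _ hkc
        simp only [mem_insert, mem_singleton] at hk
        rcases hk with rfl | rfl | rfl
        · rw [hNv] at h5
          simp only [mem_insert, mem_singleton] at h5
          rcases h5 with h5 | h5 | h5
          · exact absurd (h5 ▸ hc) hv
          · exact Or.inl h5
          · exact Or.inr h5
        · rw [hN1] at h5
          simp only [mem_insert, mem_singleton] at h5
          rcases h5 with h5 | h5 | h5 | h5
          · exact Or.inl h5
          · exact absurd (h5 ▸ hc) hv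
          · exact Or.inr h5
          · exact absurd (h5 ▸ hc) hb1
        · rw [hN2] at h5
          simp only [mem_insert, mem_singleton] at h5
          rcases h5 with h5 | h5 | h5 | h5
          · exact Or.inr h5
          · exact absurd (h5 ▸ hc) hv
          · exact Or.inl h5
          · exact absurd (h5 ▸ hc) hb2
      rcases hcc with rfl | rfl
      · exact ⟨b1, hb1m, Or.inl (sy _ _ he1m)⟩
      · exact ⟨b2, hb2m, Or.inr (sy _ _ he2m)⟩

/-- The third neighbour of `a1` is cubic. -/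
lemma third_cub (m : Mid N) {v x1 x2 p a1 a2 c1 : V} (hv : ¬ Cub N v) (hNv : N v = {v, x1, x2})
    (h1v : x1 ≠ v) (h2v : x2 ≠ v) (hp : ¬ Cub N p) (hNp : N p = {p, a1, a2})
    (ha1 : x1 ∈ N a1) (ha2 : x2 ∈ N a2) (hN : N a1 = {a1, x1, p, c1})
    (hd : [v, x1, x2, p, a1].Nodup) : Cub N c1 := by
  classical
  by_contra hc1
  have sy := m.symm
  have rf := m.refl
  obtain ⟨P, hP⟩ := exists_comps sy (univ \ {v, x1, x2, p, a1})
  have hx1v : x1 ∈ N v := by rw [hNv]; simp
  have hx2v : x2 ∈ N v := by rw [hNv]; simp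
  have c : Cfg N {v, x1, x2, p, a1} {v} P := by
    refine ⟨hP, ⟨v, by simp⟩, ?_, ?_⟩
    · intro y hy
      rw [mem_singleton] at hy
      subst hy
      rw [hNv]
      intro x hx
      simp only [mem_insert, mem_singleton] at hx ⊢
      tauto
    · rintro c hc ⟨x, hxc, hx⟩
      refine ⟨v, by simp, ?_⟩
      simp only [mem_insert, mem_singleton] at hx
      rcases hx with rfl | rfl | rfl | rfl | rfl
      · exact ⟨x, hxc, rf x⟩
      · exact ⟨x, hxc, hx1v⟩
      · exact ⟨x, hxc, hx2v⟩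
      · have h5 := sy _ _ hxc
        rw [hNp] at h5
        simp only [mem_insert, mem_singleton] at h5
        rcases h5 with h5 | h5 | h5
        · exact absurd (h5 ▸ hc) hp
        · subst h5; exact ⟨x1, ha1, hx1v⟩
        · subst h5; exact ⟨x2, ha2, hx2v⟩
      · have h5 := sy _ _ hxc
        rw [hN] at h5
        simp only [mem_insert, mem_singleton] at h5
        rcases h5 with h5 | h5 | h5 | h5
        · subst h5; exact ⟨x1, ha1, hx1v⟩
        · subst h5; exact ⟨c, rf c, hx1v⟩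
        · exact absurd (h5 ▸ hc) hp
        · exact absurd (h5 ▸ hc) hc1
  have hF : ({v, x1, x2, p, a1} : Finset V).card = 5 := by
    have := List.toFinset_card_of_nodup hd
    simpa using this
  have hM : ({x1, x2, p, a1} : Finset V).card ≤ 4 := card_le_four
  have hMF : ∀ e ∈ ({v, x1, x2, p, a1} : Finset V), ∀ x, x ∉ ({v, x1, x2, p, a1} : Finset V) →
      x ∈ N e → e ∈ ({x1, x2, p, a1} : Finset V) := by
    intro e he x hx hxe
    simp only [mem_insert, mem_singleton] at he ⊢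
    rcases he with rfl | he
    · exfalso
      apply hx
      rw [hNv] at hxe
      simp only [mem_insert, mem_singleton] at hxe ⊢
      tauto
    · exact he
  obtain ⟨-, g2, g3, g4⟩ := m.main _ _ {x1, x2, p, a1} P c (by rw [hF]; simp) hMF (by omega)
  rw [hF, card_singleton] at g2
  have hna : na N P = 2 := by omega
  have hmu : ∑ U ∈ P, mu N U = 0 := by omega
  have h1 := m.toGen.sum_tc c (mu_of_sum hmu) g4 hMF (Q := P.filter (ExA N)) (filter_subset _ _)
  have h2 : ∑ U ∈ P.filter (ExA N), 3 ≤ ∑ U ∈ P.filter (ExA N),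
      (tc N {v, x1, x2, p, a1} U).card := by
    apply sum_le_sum
    intro U hU
    rw [mem_filter] at hU
    exact m.tcA c hU.1 hU.2
  have h3 : (P.filter (ExA N)).card = 2 := hna
  rw [sum_const, h3] at h2
  simp only [smul_eq_mul] at h2
  omega

/-- The neighbours of a vertex of degree two are adjacent. -/
lemma caseB (m : Mid N) (pp : PP N) {v x1 x2 : V} (hv : ¬ Cub N v) (hNv : N v = {v, x1, x2})
    (h1v : x1 ≠ v) (h2v : x2 ≠ v) (h12 : x1 ≠ x2) (h : x2 ∉ N x1) : False := by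
  have sy := m.symm
  have rf := m.refl
  have hx1v : x1 ∈ N v := by rw [hNv]; simp
  have hx2v : x2 ∈ N v := by rw [hNv]; simp
  have k1 : Cub N x1 := (m.d2 v hv).2 x1 hx1v h1v
  have k2 : Cub N x2 := (m.d2 v hv).2 x2 hx2v h2v
  have h' : x1 ∉ N x2 := fun hh => h (sy _ _ hh)
  -- (V2) at `v`
  have V2 : ∀ z, Cub N z → z ≠ x1 → z ≠ x2 → (∃ w ∈ N z, w ∈ N x1) → (∃ w ∈ N z, w ∈ N x2) →
      False := fun z => m.v2 v x1 x2 z hv hx1v hx2v h1v h2v h12
  obtain ⟨a1, ha1x, ca1, ha1⟩ := m.c3 x1 k1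
  obtain ⟨a2, ha2x, ca2, ha2⟩ := m.c3 x2 k2
  have ha1v : a1 ≠ v := by rintro rfl; exact hv ca1
  have ha2v : a2 ≠ v := by rintro rfl; exact hv ca2
  have ha1x2 : a1 ≠ x2 := by rintro rfl; exact h ha1
  have ha2x1 : a2 ≠ x1 := by rintro rfl; exact h' ha2
  have n12 : x2 ∉ N a1 := fun hh => V2 a1 ca1 ha1x ha1x2 ⟨a1, rf a1, ha1⟩ ⟨x2, hh, rf x2⟩
  have n21 : x1 ∉ N a2 := fun hh => V2 a2 ca2 ha2x1 ha2x ⟨x1, hh, rf x1⟩ ⟨a2, rf a2, ha2⟩
  have haa : a1 ≠ a2 := by
    rintro rfl
    exact n12 (sy _ _ ha2)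
  have naa : a2 ∉ N a1 := fun hh => V2 a1 ca1 ha1x ha1x2 ⟨a1, rf a1, ha1⟩ ⟨a2, hh, ha2⟩
  have naa' : a1 ∉ N a2 := fun hh => naa (sy _ _ hh)
  -- no cubic common neighbour of `a1`, `a2`
  have com : ∀ q, q ∈ N a1 → q ∈ N a2 → ¬ Cub N q := by
    intro q hq1 hq2 hc
    have e1 : q ≠ x1 := by rintro rfl; exact n21 hq2
    have e2 : q ≠ x2 := by rintro rfl; exact n12 hq1
    exact V2 q hc e1 e2 ⟨a1, sy _ _ hq1, ha1⟩ ⟨a2, sy _ _ hq2, ha2⟩
  have hnd := pp v x1 x2 a1 a2 hv hx1v hx2v h1v h2v h12 ca1 ca2 ha1 ha1x ha2 ha2x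
  rw [not_disjoint_iff] at hnd
  obtain ⟨p, hp1, hp2⟩ := hnd
  have hp := com p hp1 hp2
  have hpa1 : p ≠ a1 := by rintro rfl; exact hp ca1
  have hpa2 : p ≠ a2 := by rintro rfl; exact hp ca2
  have hpx1 : p ≠ x1 := by rintro rfl; exact hp k1
  have hpx2 : p ≠ x2 := by rintro rfl; exact hp k2
  have hpv : p ≠ v := by
    rintro rfl
    have h5 := sy _ _ hp1
    rw [hNv] at h5
    simp only [mem_insert, mem_singleton] at h5
    rcases h5 with h5 | h5 | h5
    · exact ha1v h5
    · exact ha1x h5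
    · exact ha1x2 h5
  have hNp : N p = {p, a1, a2} := by
    obtain ⟨y, hy1, hy2, hy3⟩ := deg2nb m.toBas hp (sy _ _ hp1) hpa1.symm
    have h5 := sy _ _ hp2
    rw [hy3] at h5
    simp only [mem_insert, mem_singleton] at h5
    rcases h5 with h5 | h5 | h5
    · exact absurd h5 hpa2.symm
    · exact absurd h5.symm haa
    · rw [hy3, h5]
  have hNp' : N p = {p, a2, a1} := by
    rw [hNp]
    congr 1
    exact pair_comm _ _
  obtain ⟨c1, hc1a, hc1x, hc1p, hN1⟩ := nb_third ca1 (rf a1) (sy _ _ ha1) ha1x.symm hp1 hpa1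
    hpx1.symm
  obtain ⟨c2, hc2a, hc2x, hc2p, hN2⟩ := nb_third ca2 (rf a2) (sy _ _ ha2) ha2x.symm hp2 hpa2
    hpx2.symm
  have hNv' : N v = {v, x2, x1} := by
    rw [hNv]
    congr 1
    exact pair_comm _ _
  have cc1 : Cub N c1 := third_cub m hv hNv h1v h2v hp hNp (sy _ _ ha1) (sy _ _ ha2) hN1 (by
    simp [h1v.symm, h2v.symm, hpv.symm, ha1v.symm, h12, hpx1.symm, ha1x.symm, hpx2.symm,
      ha1x2.symm, hpa1])
  have cc2 : Cub N c2 := third_cub m hv hNv' h2v h1v hp hNp' (sy _ _ ha2) (sy _ _ ha1) hN2 (by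
    simp [h1v.symm, h2v.symm, hpv.symm, ha2v.symm, h12.symm, hpx1.symm, ha2x.symm, hpx2.symm,
      ha2x1.symm, hpa2])
  have hc1m : c1 ∈ N a1 := by rw [hN1]; simp
  have hc2m : c2 ∈ N a2 := by rw [hN2]; simp
  have hc1x2 : c1 ≠ x2 := by rintro rfl; exact n12 hc1m
  have hc2x1 : c2 ≠ x1 := by rintro rfl; exact n21 hc2m
  have hc1a2 : c1 ≠ a2 := by rintro rfl; exact naa hc1m
  have hc2a1 : c2 ≠ a1 := by rintro rfl; exact naa' hc2m
  have hpa1m : a1 ∈ N p := sy _ _ hp1
  have hpa2m : a2 ∈ N p := sy _ _ hp2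
  -- the third neighbours of `x1`, `x2`
  obtain ⟨b1, hb1x, hb1v, hb1a, hM1⟩ := nb_third k1 (rf x1) (sy _ _ hx1v) h1v.symm ha1 ha1x
    ha1v.symm
  obtain ⟨b2, hb2x, hb2v, hb2a, hM2⟩ := nb_third k2 (rf x2) (sy _ _ hx2v) h2v.symm ha2 ha2x
    ha2v.symm
  -- `c2 ~ b1`, `b1` not cubic
  have B1 : ¬ Cub N b1 ∧ c2 ∈ N b1 := by
    have hnd := pp p a2 a1 c2 x1 hp hpa2m hpa1m hpa2.symm hpa1.symm haa.symm cc2 k1 hc2m hc2a
      (sy _ _ ha1) ha1x.symm
    rw [not_disjoint_iff] at hnd
    obtain ⟨y, hy1, hy2⟩ := hnd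
    have e0 : x1 ∉ N c2 := fun hh => V2 c2 cc2 hc2x1 hc2x ⟨x1, hh, rf x1⟩ ⟨a2, sy _ _ hc2m, ha2⟩
    have e1 : y ≠ x1 := by rintro rfl; exact e0 hy1
    have e2 : y ≠ c2 := by rintro rfl; exact e0 (sy _ _ hy2)
    have e3 : y ≠ a1 := by
      rintro rfl
      exact com c2 (sy _ _ hy1) hc2m cc2
    have e4 : y ≠ a2 := by rintro rfl; exact n21 (sy _ _ hy2)
    have hyc : ¬ Cub N y := by
      intro hc
      exact m.v2 p a2 a1 y hp hpa2m hpa1m hpa2.symm hpa1.symm haa.symm hc e4 e3
        ⟨c2, sy _ _ hy1, hc2m⟩ ⟨x1, sy _ _ hy2, sy _ _ ha1⟩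
    have e5 : y ≠ v := by
      rintro rfl
      have h5 := sy _ _ hy1
      rw [hNv] at h5
      simp only [mem_insert, mem_singleton] at h5
      rcases h5 with h5 | h5 | h5
      · exact e2 h5.symm
      · exact hc2x1 h5
      · exact hc2x h5
    have hyb : y = b1 := by
      rw [hM1] at hy2
      simp only [mem_insert, mem_singleton] at hy2
      rcases hy2 with r | r | r | r
      · exact absurd r e1
      · exact absurd r e5
      · exact absurd r e3
      · exact r
    rw [← hyb]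
    exact ⟨hyc, sy _ _ hy1⟩
  have hb1m : b1 ∈ N x1 := by rw [hM1]; simp
  have hb1c2 : c2 ≠ b1 := by rintro rfl; exact B1.1 cc2
  exact m.v2 b1 x1 c2 x2 B1.1 (sy _ _ hb1m) B1.2 hb1x.symm hb1c2 hc2x1.symm k2 h12.symm
    hc2x.symm ⟨v, sy _ _ hx2v, sy _ _ hx1v⟩ ⟨a2, ha2, sy _ _ hc2m⟩

/-- Module M8: all vertices are cubic. -/
theorem reg (m : Mid N) (pp : PP N) : ∀ x, Cub N x := by
  intro v
  by_contra hv
  have h1 := (m.d2 v hv).1
  have h2 : 0 < ((N v).erase v).card := by
    rw [card_erase_of_mem (m.refl v), h1]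
    norm_num
  obtain ⟨x1, hx1⟩ := card_pos.1 h2
  rw [mem_erase] at hx1
  obtain ⟨x2, h2v, h21, hNv⟩ := deg2nb m.toBas hv hx1.2 hx1.1
  by_cases h : x2 ∈ N x1
  · exact caseA m hv hNv hx1.1 h2v h21.symm h
  · exact caseB m pp hv hNv hx1.1 h2v h21.symm h

end

end Pool.Agent.Star.K4
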