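import Pool.Agent.Star.K4.Kit

/-!
# `K = 4`, module M9: no triangle
-/

set_option autoImplicit false
set_option linter.unusedSectionVars false
set_option linter.unusedVariables false

namespace Pool.Agent.Star.K4

open Finset Rig

section
variable {V : Type*} [DecidableEq V] [Fintype V] {N : V → Finset V}

/-- A triangle with its three outer neighbours. -/
structure Tri (N : V → Finset V) (a1 a2 a3 Y1 Y2 Y3 : V) : Prop where
  n1 : N a1 = {a1, a2, a3, Y1}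
  n2 : N a2 = {a2, a1, a3, Y2}
  n3 : N a3 = {a3, a1, a2, Y3}
  a12 : a1 ≠ a2
  a13 : a1 ≠ a3
  a23 : a2 ≠ a3
  d12 : Disjoint (N Y1) (N Y2)
  d13 : Disjoint (N Y1) (N Y3)
  d23 : Disjoint (N Y2) (N Y3)
  y1 : Y1 ≠ a1
  y2 : Y2 ≠ a2
  y3 : Y3 ≠ a3

lemma Tri.s12 {a1 a2 a3 Y1 Y2 Y3 : V} (h : Tri N a1 a2 a3 Y1 Y2 Y3) :
    Tri N a2 a1 a3 Y2 Y1 Y3 :=
  ⟨h.n2, h.n1, by rw [h.n3]; ext y; simp only [mem_insert, mem_singleton]; tauto,
    h.a12.symm, h.a23, h.a13, h.d12.symm, h.d23, h.d13, h.y2, h.y1, h.y3⟩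

lemma Tri.s23 {a1 a2 a3 Y1 Y2 Y3 : V} (h : Tri N a1 a2 a3 Y1 Y2 Y3) :
    Tri N a1 a3 a2 Y1 Y3 Y2 :=
  ⟨by rw [h.n1]; ext y; simp only [mem_insert, mem_singleton]; tauto, h.n3, h.n2,
    h.a13, h.a12, h.a23.symm, h.d13, h.d12, h.d23.symm, h.y1, h.y3, h.y2⟩

lemma tri_disj (c : Cb N) {a b d Y1 Y2 : V} (ha : N a = {a, b, d, Y1}) (hb : N b = {b, a, d, Y2})
    (h1 : Y1 ≠ a) (h2 : Y1 ≠ b) (h3 : Y1 ≠ d) (h4 : Y2 ≠ b) (h5 : Y2 ≠ a) (h6 : Y2 ≠ d)
    (hab : a ≠ b) (had : a ≠ d) (hbd : b ≠ d) : Disjoint (N Y1) (N Y2) := by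
  have m1 : ∀ x, x ∈ N a ↔ x = a ∨ x = b ∨ x = d ∨ x = Y1 := fun x => by rw [ha]; simp
  have m2 : ∀ x, x ∈ N b ↔ x = b ∨ x = a ∨ x = d ∨ x = Y2 := fun x => by rw [hb]; simp
  have hne : Y1 ≠ Y2 := by
    rintro rfl
    exact c.dia a b d Y1 hab (Ne.symm h3) (Ne.symm had) (Ne.symm hbd) h1 h2
      ((m1 _).2 (by tauto)) ((m1 _).2 (by tauto)) ((m2 _).2 (by tauto)) ((m1 _).2 (by tauto))
      ((m2 _).2 (by tauto))
  have hbY : b ∉ N Y1 := by
    intro h
    have h' := (m2 Y1).1 (c.symm _ _ h)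
    tauto
  have haY : a ∈ N Y1 := c.symm _ _ ((m1 _).2 (by tauto))
  obtain ⟨e, he, hbe, hd⟩ := c.a2 Y1 b (c.reg _) hbY
  have he' := (m2 e).1 (c.symm _ _ hbe)
  have hno : a ∉ N e := fun h => disjoint_left.1 hd h haY
  rcases he' with rfl | rfl | rfl | rfl
  · exact absurd ((m2 _).2 (by tauto)) hno
  · exact absurd (c.refl _) hno
  · exact absurd (c.symm _ _ ((m1 _).2 (by tauto))) hno
  · exact hd.symm

lemma Tri.ex (c : Cb N) {a b d : V} (hab : a ≠ b) (hbd : b ≠ d) (had : a ≠ d) (h1 : b ∈ N a)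
    (h2 : d ∈ N b) (h3 : d ∈ N a) : ∃ Y1 Y2 Y3, Tri N a b d Y1 Y2 Y3 := by
  obtain ⟨Y1, p1, p2, p3, n1⟩ := nb_third (c.reg a) (c.refl a) h1 hab.symm h3 had.symm hbd
  obtain ⟨Y2, q1, q2, q3, n2⟩ := nb_third (c.reg b) (c.refl b) (c.symm _ _ h1) hab h2 hbd.symm had
  obtain ⟨Y3, r1, r2, r3, n3⟩ := nb_third (c.reg d) (c.refl d) (c.symm _ _ h3) had
    (c.symm _ _ h2) hbd hab
  refine ⟨Y1, Y2, Y3, n1, n2, n3, hab, had, hbd, ?_, ?_, ?_, p1, q1, r1⟩
  · exact tri_disj c n1 n2 p1 p2 p3 q1 q2 q3 hab had hbd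
  · refine tri_disj c (a := a) (b := d) (d := b) ?_ ?_ p1 p3 p2 r1 r2 r3 had hab hbd.symm
    · rw [n1]; ext y; simp only [mem_insert, mem_singleton]; tauto
    · rw [n3]
  · refine tri_disj c (a := b) (b := d) (d := a) ?_ ?_ q1 q3 q2 r1 r3 r2 hbd hab.symm had.symm
    · rw [n2]; ext y; simp only [mem_insert, mem_singleton]; tauto
    · rw [n3]; ext y; simp only [mem_insert, mem_singleton]; tauto

/-- The two outer neighbours of `Y1`. -/
def ea (N : V → Finset V) (Y1 a1 : V) : Finset V := ((N Y1).erase Y1).erase a1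

/-- The neighbours of `z`. -/
def eb (N : V → Finset V) (z : V) : Finset V := (N z).erase z

lemma mem_ea {Y1 a1 e : V} : e ∈ ea N Y1 a1 ↔ e ≠ a1 ∧ e ≠ Y1 ∧ e ∈ N Y1 := by
  simp [ea]

lemma mem_eb {z e : V} : e ∈ eb N z ↔ e ≠ z ∧ e ∈ N z := by
  simp [eb]

open Classical in
/-- The vertices of `E` which touch `U`. -/
noncomputable def tt (N : V → Finset V) (E U : Finset V) : Finset V :=
  E.filter (fun e => Tch N e U)

lemma mem_tt {E U : Finset V} {e : V} : e ∈ tt N E U ↔ e ∈ E ∧ Tch N e U := by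
  simp [tt]

lemma tt_sub {E U : Finset V} : tt N E U ⊆ E := fun e he => (mem_tt.1 he).1

/-- A triangle and a vertex `z` next to `Y2`. -/
structure TZ (N : V → Finset V) (a1 a2 a3 Y1 Y2 Y3 z : V) (P : Finset (Finset V)) : Prop extends
    Tri N a1 a2 a3 Y1 Y2 Y3 where
  hz : z ∈ N Y2
  hz1 : z ≠ Y2
  hz2 : z ≠ a2
  two : Two N Y1 z a2 P

section
variable {a1 a2 a3 Y1 Y2 Y3 z : V} {P : Finset (Finset V)}

lemma Tri.m1 (h : Tri N a1 a2 a3 Y1 Y2 Y3) (x : V) :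
    x ∈ N a1 ↔ x = a1 ∨ x = a2 ∨ x = a3 ∨ x = Y1 := by rw [h.n1]; simp

lemma Tri.m2 (h : Tri N a1 a2 a3 Y1 Y2 Y3) (x : V) :
    x ∈ N a2 ↔ x = a2 ∨ x = a1 ∨ x = a3 ∨ x = Y2 := by rw [h.n2]; simp

lemma Tri.m3 (h : Tri N a1 a2 a3 Y1 Y2 Y3) (x : V) :
    x ∈ N a3 ↔ x = a3 ∨ x = a1 ∨ x = a2 ∨ x = Y3 := by rw [h.n3]; simp

lemma Tri.a1Y (h : Tri N a1 a2 a3 Y1 Y2 Y3) (c : Cb N) : a1 ∈ N Y1 :=
  c.symm _ _ ((h.m1 _).2 (by tauto))

lemma Tri.a2Y (h : Tri N a1 a2 a3 Y1 Y2 Y3) (c : Cb N) : a2 ∈ N Y2 :=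
  c.symm _ _ ((h.m2 _).2 (by tauto))

lemma Tri.a3Y (h : Tri N a1 a2 a3 Y1 Y2 Y3) (c : Cb N) : a3 ∈ N Y3 :=
  c.symm _ _ ((h.m3 _).2 (by tauto))

/-- The configuration exists. -/
lemma Tri.ex_two (h : Tri N a1 a2 a3 Y1 Y2 Y3) (c : Cb N) (hz : z ∈ N Y2) (hz1 : z ≠ Y2)
    (hz2 : z ≠ a2) (hd : Disjoint (N Y1) (N z)) : ∃ P, TZ N a1 a2 a3 Y1 Y2 Y3 z P := by
  have h1 : a2 ∉ N Y1 := fun h1 => disjoint_left.1 h.d12 h1 (h.a2Y c)
  have h2 : a2 ∉ N z := by
    intro h2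
    rcases (h.m2 z).1 (c.symm _ _ h2) with h3 | h3 | h3 | h3
    · exact hz2 h3
    · subst h3
      exact disjoint_left.1 h.d12 (h.a1Y c) hz
    · subst h3
      exact disjoint_left.1 h.d23 hz (h.a3Y c)
    · exact hz1 h3
  obtain ⟨P, hP⟩ := Two.ex c.toVS hd h1 h2 (by
    intro e he
    rcases (h.m2 e).1 he with rfl | rfl | rfl | rfl
    · exact Or.inl ⟨a1, (h.m2 _).2 (by tauto), h.a1Y c⟩
    · exact Or.inl ⟨_, c.refl _, h.a1Y c⟩
    · exact Or.inl ⟨a1, (h.m3 _).2 (by tauto), h.a1Y c⟩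
    · exact Or.inr ⟨_, c.refl _, c.symm _ _ hz⟩)
  exact ⟨P, h, hz, hz1, hz2, hP⟩

lemma TZ.ea2 (h : TZ N a1 a2 a3 Y1 Y2 Y3 z P) (c : Cb N) : (ea N Y1 a1).card = 2 := by
  unfold ea
  rw [card_erase_of_mem (mem_erase.2 ⟨h.y1.symm, h.a1Y c⟩), card_erase_of_mem (c.refl _)]
  have := c.reg Y1
  unfold Cub at this
  omega

lemma TZ.eb3 (h : TZ N a1 a2 a3 Y1 Y2 Y3 z P) (c : Cb N) : (eb N z).card = 3 := by
  unfold eb
  rw [card_erase_of_mem (c.refl _)]
  have := c.reg z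
  unfold Cub at this
  omega

lemma TZ.Y2z (h : TZ N a1 a2 a3 Y1 Y2 Y3 z P) (c : Cb N) : Y2 ∈ N z := c.symm _ _ h.hz

/-- The only neighbour of `a1` in a component is `a3`. -/
lemma TZ.u1 (h : TZ N a1 a2 a3 Y1 Y2 Y3 z P) (c : Cb N) {U : Finset V} (hU : U ∈ P) {x : V}
    (hx : x ∈ U) (hx1 : a1 ∈ N x) : x = a3 := by
  have h0 := h.two.out hU hx
  rcases (h.m1 x).1 (c.symm _ _ hx1) with h1 | h1 | h1 | h1
  · subst h1
    exact absurd (h.a1Y c) h0.2.1
  · exact absurd h1 h0.1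
  · exact h1
  · subst h1
    exact absurd (c.refl _) h0.2.1

lemma TZ.u2 (h : TZ N a1 a2 a3 Y1 Y2 Y3 z P) (c : Cb N) {U : Finset V} (hU : U ∈ P) {x : V}
    (hx : x ∈ U) (hx1 : a2 ∈ N x) : x = a3 := by
  have h0 := h.two.out hU hx
  rcases (h.m2 x).1 (c.symm _ _ hx1) with h1 | h1 | h1 | h1
  · exact absurd h1 h0.1
  · subst h1
    exact absurd (h.a1Y c) h0.2.1
  · exact h1
  · subst h1
    exact absurd (h.Y2z c) h0.2.2

/-- The outside neighbours of a component. -/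
lemma TZ.cls (h : TZ N a1 a2 a3 Y1 Y2 Y3 z P) (c : Cb N) {U : Finset V} (hU : U ∈ P) {x y : V}
    (hx : x ∈ U) (hy : y ∈ N x) (hyU : y ∉ U) :
    (y = a2 ∧ x = a3) ∨ (y = a1 ∧ x = a3) ∨ y ∈ ea N Y1 a1 ∨ y ∈ eb N z := by
  obtain ⟨h1, h2, h3⟩ := h.two.nb c hU hx hy hyU
  rcases h1 with h1 | h1 | h1
  · subst h1
    exact Or.inl ⟨rfl, h.u2 c hU hx hy⟩
  · by_cases h4 : y = a1
    · subst h4
      exact Or.inr (Or.inl ⟨rfl, h.u1 c hU hx hy⟩)
    · exact Or.inr (Or.inr (Or.inl (mem_ea.2 ⟨h4, h2, h1⟩)))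
  · exact Or.inr (Or.inr (Or.inr (mem_eb.2 ⟨h3, h1⟩)))

lemma TZ.mn (h : TZ N a1 a2 a3 Y1 Y2 Y3 z P) (c : Cb N) :
    fv N Finset.univ = 2 + ∑ U ∈ P, fv N U ∧ na N P = 1 + ∑ U ∈ P, mu N U ∧
    ∀ e, ∀ U ∈ P, ∀ U' ∈ P, Sav N U e → Sav N U' e → U = U' := by
  have hc : (insert a1 (insert a2 (ea N Y1 a1 ∪ eb N z))).card ≤ 7 := by
    have h1 := h.ea2 c
    have h2 := h.eb3 c
    have h3 := card_union_le (ea N Y1 a1) (eb N z)
    have h4 := card_insert_le a2 (ea N Y1 a1 ∪ eb N z)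
    have h5 := card_insert_le a1 (insert a2 (ea N Y1 a1 ∪ eb N z))
    omega
  obtain ⟨m1, m2, m3, m4⟩ := h.two.main c (insert a1 (insert a2 (ea N Y1 a1 ∪ eb N z))) (by
    intro e x he h1 h2 _ _ _ _
    simp only [mem_insert, mem_union, mem_ea, mem_eb]
    tauto) (by omega)
  exact ⟨m1, m2, m4⟩

lemma TZ.sep (h : TZ N a1 a2 a3 Y1 Y2 Y3 z P) (c : Cb N) {U U' : Finset V} (hU : U ∈ P)
    (hU' : U' ∈ P) (h1 : mu N U = 0) (h2 : mu N U' = 0) {e : V} (h3 : Tch N e U)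
    (h4 : Tch N e U') : U = U' :=
  (h.mn c).2.2 e U hU U' hU' (c.tight U (h.two.univ hU) (h.two.conn hU) h1 e h3)
    (c.tight U' (h.two.univ hU') (h.two.conn hU') h2 e h4)

lemma TZ.dis (h : TZ N a1 a2 a3 Y1 Y2 Y3 z P) (c : Cb N) {U U' : Finset V} (hU : U ∈ P)
    (hU' : U' ∈ P) (h1 : mu N U = 0) (h2 : mu N U' = 0) (hne : U ≠ U') (E : Finset V) :
    Disjoint (tt N E U) (tt N E U') := by
  rw [disjoint_left]
  intro e he he'
  exact hne (h.sep c hU hU' h1 h2 (mem_tt.1 he).2 (mem_tt.1 he').2)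

lemma TZ.le2 (h : TZ N a1 a2 a3 Y1 Y2 Y3 z P) (c : Cb N) {U U' : Finset V} (hU : U ∈ P)
    (hU' : U' ∈ P) (h1 : mu N U = 0) (h2 : mu N U' = 0) (hne : U ≠ U') (E : Finset V) :
    (tt N E U).card + (tt N E U').card ≤ E.card := by
  rw [← card_union_of_disjoint (h.dis c hU hU' h1 h2 hne E)]
  exact card_le_card (union_subset tt_sub tt_sub)

lemma TZ.le3 (h : TZ N a1 a2 a3 Y1 Y2 Y3 z P) (c : Cb N) {U U' U'' : Finset V} (hU : U ∈ P)
    (hU' : U' ∈ P) (hU'' : U'' ∈ P) (h1 : mu N U = 0) (h2 : mu N U' = 0) (h3 : mu N U'' = 0)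
    (hne : U ≠ U') (hne' : U ≠ U'') (hne'' : U' ≠ U'') (E : Finset V) :
    (tt N E U).card + (tt N E U').card + (tt N E U'').card ≤ E.card := by
  rw [← card_union_of_disjoint (h.dis c hU hU' h1 h2 hne E), ← card_union_of_disjoint]
  · exact card_le_card (union_subset (union_subset tt_sub tt_sub) tt_sub)
  · rw [disjoint_union_left]
    exact ⟨h.dis c hU hU'' h1 h3 hne' E, h.dis c hU' hU'' h2 h3 hne'' E⟩

/-- An exceptional component without `a3` has three touching vertices. -/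
lemma TZ.b (h : TZ N a1 a2 a3 Y1 Y2 Y3 z P) (c : Cb N) {U : Finset V} (hU : U ∈ P)
    (hE : ExA N U) (h3 : a3 ∉ U) :
    3 ≤ (tt N (ea N Y1 a1) U).card + (tt N (eb N z) U).card := by
  obtain ⟨t, ht, rfl⟩ := c.exA U hE
  refine le_trans (three_le t (S := tt N (ea N Y1 a1) (N t) ∪ tt N (eb N z) (N t)) ?_)
    (card_union_le _ _)
  intro w1 w2
  obtain ⟨w, hwt, hw1, hw2, l, hl, hlw⟩ := c.twoG t w1 w2 ht
  refine ⟨w, ?_, hw1, hw2⟩
  have hT : Tch N w (N t) := ⟨l, hl, hlw⟩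
  rw [mem_union, mem_tt, mem_tt]
  rcases h.cls c hU hl (c.symm _ _ hlw) hwt with h4 | h4 | h4 | h4
  · exact absurd (h4.2 ▸ hl) h3
  · exact absurd (h4.2 ▸ hl) h3
  · exact Or.inl ⟨h4, hT⟩
  · exact Or.inr ⟨h4, hT⟩

/-- An exceptional component with `a3` is the star of `Y3`. -/
lemma TZ.c1 (h : TZ N a1 a2 a3 Y1 Y2 Y3 z P) (c : Cb N) {U : Finset V} (hU : U ∈ P)
    (hE : ExA N U) (h3 : a3 ∈ U) : U = N Y3 := by
  obtain ⟨t, ht, rfl⟩ := c.exA U hE
  have h0 := h.two.out hU (c.refl t)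
  rcases (h.m3 t).1 (c.symm _ _ h3) with h1 | h1 | h1 | h1
  · subst h1
    have h2 := h.two.out hU ((h.m3 a1).2 (by tauto))
    exact absurd (h.a1Y c) h2.2.1
  · subst h1
    exact absurd (h.a1Y c) h0.2.1
  · exact absurd h1 h0.1
  · rw [h1]

lemma TZ.c2 (h : TZ N a1 a2 a3 Y1 Y2 Y3 z P) (c : Cb N) (hU : N Y3 ∈ P) :
    2 ≤ (tt N (ea N Y1 a1) (N Y3)).card + (tt N (eb N z) (N Y3)).card := by
  obtain ⟨p, q, hp1, hq1, hp2, hq2, hpq, hY⟩ := nb_split (c.reg Y3) (c.refl _) (h.a3Y c)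
    h.y3.symm
  have hpY : p ∈ N Y3 := by rw [hY]; simp
  have hqY : q ∈ N Y3 := by rw [hY]; simp
  have key : ∀ x r, x ∈ N Y3 → x ≠ a3 → r ∈ N x → r ∉ N Y3 →
      r ∈ tt N (ea N Y1 a1) (N Y3) ∪ tt N (eb N z) (N Y3) := by
    intro x r hx hx3 hr hrY
    have hT : Tch N r (N Y3) := ⟨x, hx, c.symm _ _ hr⟩
    rw [mem_union, mem_tt, mem_tt]
    rcases h.cls c hU hx hr hrY with h4 | h4 | h4 | h4
    · exact absurd h4.2 hx3
    · exact absurd h4.2 hx3
    · exact Or.inl ⟨h4, hT⟩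
    · exact Or.inr ⟨h4, hT⟩
  refine le_trans ?_ (card_union_le _ _)
  rw [← Nat.lt_iff_add_one_le, one_lt_card]
  have ha3 : ∀ x, x ∈ N Y3 → a3 ∈ N x → x = a3 ∨ x = Y3 := by
    intro x hx hxa
    rcases (h.m3 x).1 (c.symm _ _ hxa) with h1 | h1 | h1 | h1
    · exact Or.inl h1
    · subst h1
      exact absurd (h.a1Y c) (h.two.out hU hx).2.1
    · exact absurd h1 (h.two.out hU hx).1
    · exact Or.inr h1
  have hpn : a3 ∉ N p := fun h1 => by rcases ha3 p hpY h1 with h2 | h2 <;> contradiction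
  have hqn : a3 ∉ N q := fun h1 => by rcases ha3 q hqY h1 with h2 | h2 <;> contradiction
  by_cases hpq' : q ∈ N p
  · obtain ⟨r, hr1, hr2, hr3, hNp⟩ := nb_third (c.reg p) (c.refl p) (c.symm _ _ hpY) hp1.symm hpq'
      hpq.symm hq1.symm
    obtain ⟨s, hs1, hs2, hs3, hNq⟩ := nb_third (c.reg q) (c.refl q) (c.symm _ _ hqY) hq1.symm
      (c.symm _ _ hpq') hpq hp1.symm
    have hrp : r ∈ N p := by rw [hNp]; simp
    have hsq : s ∈ N q := by rw [hNq]; simp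
    have hrY : r ∉ N Y3 := by
      rw [hY]; simp only [mem_insert, mem_singleton, not_or]
      exact ⟨hr2, fun h1 => hpn (h1 ▸ hrp), hr1, hr3⟩
    have hsY : s ∉ N Y3 := by
      rw [hY]; simp only [mem_insert, mem_singleton, not_or]
      exact ⟨hs2, fun h1 => hqn (h1 ▸ hsq), hs3, hs1⟩
    refine ⟨r, key p r hpY hp2 hrp hrY, s, key q s hqY hq2 hsq hsY, ?_⟩
    rintro rfl
    exact c.dia p q Y3 r hpq hr2.symm hp1.symm hq1.symm hr1 hr3 hpq' (c.symm _ _ hpY)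
      (c.symm _ _ hqY) hrp hsq
  · obtain ⟨r, s, hr1, hs1, hr2, hs2, hrs, hNp⟩ := nb_split (c.reg p) (c.refl p)
      (c.symm _ _ hpY) hp1.symm
    have hrp : r ∈ N p := by rw [hNp]; simp
    have hsp : s ∈ N p := by rw [hNp]; simp
    have hrY : r ∉ N Y3 := by
      rw [hY]; simp only [mem_insert, mem_singleton, not_or]
      exact ⟨hr2, fun h1 => hpn (h1 ▸ hrp), hr1, fun h1 => hpq' (h1 ▸ hrp)⟩
    have hsY : s ∉ N Y3 := by
      rw [hY]; simp only [mem_insert, mem_singleton, not_or]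
      exact ⟨hs2, fun h1 => hpn (h1 ▸ hsp), hs1, fun h1 => hpq' (h1 ▸ hsp)⟩
    exact ⟨r, key p r hpY hp2 hrp hrY, s, key p s hpY hp2 hsp hsY, hrs⟩

/-- A tight component with `a3` has a further touching vertex. -/
lemma TZ.d (h : TZ N a1 a2 a3 Y1 Y2 Y3 z P) (c : Cb N) {U : Finset V} (hU : U ∈ P)
    (hE : ¬ ExA N U) (hmu : mu N U ≤ 1) :
    1 ≤ (tt N (ea N Y1 a1) U).card + (tt N (eb N z) U).card := by
  have h1 : a2 ∈ N a1 := (h.m1 _).2 (by tauto)
  have hc := h.two.compl c (h.a1Y c) h1 (h.Y2z c) (h.a2Y c) hU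
  obtain ⟨u, hu, x, hxU, hxu, hua⟩ := c.g4i U (h.two.univ hU) (h.two.conn hU) hc hmu hE a3
  have hT : Tch N x U := ⟨u, hu, c.symm _ _ hxu⟩
  rcases h.cls c hU hu hxu hxU with h4 | h4 | h4 | h4
  · exact absurd h4.2 hua
  · exact absurd h4.2 hua
  · have := card_pos.2 ⟨x, mem_tt.2 ⟨h4, hT⟩⟩
    omega
  · have := card_pos.2 ⟨x, mem_tt.2 ⟨h4, hT⟩⟩
    omega

/-- Components without `a3` are touched from both sides. -/
lemma TZ.sd1 (h : TZ N a1 a2 a3 Y1 Y2 Y3 z P) (c : Cb N) {U : Finset V} (hU : U ∈ P)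
    (h3 : a3 ∉ U) : 1 ≤ (tt N (ea N Y1 a1) U).card := by
  obtain ⟨x, hx, y, hy, h1, h2⟩ := h.two.side c hU
  apply card_pos.2
  have ha1 : y ≠ a1 := by
    rintro rfl
    exact h3 (h.u1 c hU hx hy ▸ hx)
  rcases h1 with rfl | h1
  · exact absurd (h.u2 c hU hx hy ▸ hx) h3
  · exact ⟨y, mem_tt.2 ⟨mem_ea.2 ⟨ha1, h2, h1⟩, x, hx, c.symm _ _ hy⟩⟩

lemma TZ.sd2 (h : TZ N a1 a2 a3 Y1 Y2 Y3 z P) (c : Cb N) {U : Finset V} (hU : U ∈ P)
    (h3 : a3 ∉ U) : 1 ≤ (tt N (eb N z) U).card := by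
  obtain ⟨x, hx, y, hy, h1, h2⟩ := h.two.sy.side c hU
  apply card_pos.2
  rcases h1 with rfl | h1
  · exact absurd (h.u2 c hU hx hy ▸ hx) h3
  · exact ⟨y, mem_tt.2 ⟨mem_eb.2 ⟨h2, h1⟩, x, hx, c.symm _ _ hy⟩⟩

lemma TZ.ex3 (h : TZ N a1 a2 a3 Y1 Y2 Y3 z P) (c : Cb N) : ∃ U ∈ P, a3 ∈ U := by
  apply h.two.comps.cover
  rw [mem_sdiff]
  refine ⟨mem_univ _, ?_⟩
  simp only [mem_insert, mem_union, not_or]
  refine ⟨h.a23.symm, fun h1 => disjoint_left.1 h.d13 h1 (h.a3Y c), ?_⟩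
  intro h1
  rcases (h.m3 z).1 (c.symm _ _ h1) with h3 | h3 | h3 | h3
  · exact disjoint_left.1 h.d23 h.hz (h3 ▸ h.a3Y c)
  · exact disjoint_left.1 h.d12 (h.a1Y c) (h3 ▸ h.hz)
  · exact h.hz2 h3
  · exact disjoint_left.1 h.d23 h.hz (h3 ▸ c.refl _)

end

section
variable {a1 a2 a3 Y1 Y2 Y3 z : V} {P : Finset (Finset V)}

lemma na_two {P : Finset (Finset V)} (h : 2 ≤ na N P) :
    ∃ L ∈ P, ∃ L' ∈ P, L ≠ L' ∧ ExA N L ∧ ExA N L' := by
  classical
  unfold na at h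
  obtain ⟨L, hL, L', hL', hne⟩ := one_lt_card.1 h
  rw [mem_filter] at hL hL'
  exact ⟨L, hL.1, L', hL'.1, hne, hL.2, hL'.2⟩

lemma m9_na_one {P : Finset (Finset V)} (h : na N P = 1) :
    ∃ L ∈ P, ExA N L ∧ ∀ U ∈ P, ExA N U → U = L := by
  classical
  unfold na at h
  obtain ⟨L, hL⟩ := card_eq_one.1 h
  have h1 : L ∈ P.filter (ExA N) := by rw [hL]; simp
  rw [mem_filter] at h1
  refine ⟨L, h1.1, h1.2, fun U hU hE => ?_⟩
  have h2 : U ∈ P.filter (ExA N) := mem_filter.2 ⟨hU, hE⟩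
  rw [hL] at h2
  simpa using h2

lemma na_three {P : Finset (Finset V)} (h : 3 ≤ na N P) (A B : Finset V) :
    ∃ L ∈ P, L ≠ A ∧ L ≠ B ∧ ExA N L := by
  classical
  by_contra hcon
  push Not at hcon
  have h1 : P.filter (ExA N) ⊆ {A, B} := by
    intro L hL
    rw [mem_filter] at hL
    simp only [mem_insert, mem_singleton]
    by_contra h2
    push Not at h2
    exact hcon L hL.1 h2.1 h2.2 hL.2
  have h2 := (card_le_card h1).trans card_le_two
  unfold na at h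
  omega

/-- Exactly one exceptional component. -/
lemma TZ.na1 (h : TZ N a1 a2 a3 Y1 Y2 Y3 z P) (c : Cb N) : na N P = 1 := by
  obtain ⟨m1, m2, m3⟩ := h.mn c
  by_contra hna
  have hE2 := h.ea2 c
  have hE3 := h.eb3 c
  obtain ⟨L, hL, L', hL', hne, hEL, hEL', h3L⟩ : ∃ L ∈ P, ∃ L' ∈ P, L ≠ L' ∧ ExA N L ∧
      ExA N L' ∧ a3 ∈ L := by
    obtain ⟨L, hL, L', hL', hne, hEL, hEL'⟩ := na_two (N := N) (P := P) (by omega)
    by_cases h1 : a3 ∈ L
    · exact ⟨L, hL, L', hL', hne, hEL, hEL', h1⟩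
    · by_cases h2 : a3 ∈ L'
      · exact ⟨L', hL', L, hL, hne.symm, hEL', hEL, h2⟩
      · exfalso
        have h4 := h.b c hL hEL h1
        have h5 := h.b c hL' hEL' h2
        have h6 := h.le2 c hL hL' hEL.mu0 hEL'.mu0 hne (ea N Y1 a1)
        have h7 := h.le2 c hL hL' hEL.mu0 hEL'.mu0 hne (eb N z)
        omega
  have h3L' : a3 ∉ L' := fun h1 => hne (h.two.comps.eq_of_mem hL hL' h3L h1)
  have hLY := h.c1 c hL hEL h3L
  have hc2 := h.c2 c (hLY ▸ hL)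
  rw [← hLY] at hc2
  have hb := h.b c hL' hEL' h3L'
  have h6 := h.le2 c hL hL' hEL.mu0 hEL'.mu0 hne (ea N Y1 a1)
  have h7 := h.le2 c hL hL' hEL.mu0 hEL'.mu0 hne (eb N z)
  have hall : ∀ E : Finset V, (tt N E L).card + (tt N E L').card = E.card → ∀ e ∈ E,
      ∃ U ∈ P, mu N U = 0 ∧ Tch N e U ∧ (U = L ∨ U = L') := by
    intro E hE e he
    have h8 : tt N E L ∪ tt N E L' = E := by
      apply eq_of_subset_of_card_le (union_subset tt_sub tt_sub)
      rw [card_union_of_disjoint (h.dis c hL hL' hEL.mu0 hEL'.mu0 hne E), hE]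
    rw [← h8, mem_union, mem_tt, mem_tt] at he
    rcases he with he | he
    · exact ⟨L, hL, hEL.mu0, he.2, Or.inl rfl⟩
    · exact ⟨L', hL', hEL'.mu0, he.2, Or.inr rfl⟩
  have halla := hall (ea N Y1 a1) (by omega)
  have hallb := hall (eb N z) (by omega)
  have hthird : ∀ M ∈ P, M ≠ L → M ≠ L' → a3 ∉ M ∧ mu N M ≠ 0 := by
    intro M hM h1 h2
    have h3M : a3 ∉ M := fun h3 => h1 (h.two.comps.eq_of_mem hM hL h3 h3L)
    refine ⟨h3M, fun h0 => ?_⟩
    obtain ⟨e, he⟩ := card_pos.1 (Nat.lt_of_lt_of_le Nat.zero_lt_one (h.sd1 c hM h3M))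
    rw [mem_tt] at he
    obtain ⟨U, hU, hU0, hUe, hUL⟩ := halla e he.1
    have h4 := h.sep c hU hM hU0 h0 hUe he.2
    rcases hUL with rfl | rfl
    · exact h1 h4.symm
    · exact h2 h4.symm
  have hna2 : na N P ≤ 2 := by
    by_contra hcon
    obtain ⟨M, hM, h1, h2, hE⟩ := na_three (N := N) (P := P) (by omega) L L'
    exact (hthird M hM h1 h2).2 hE.mu0
  obtain ⟨M, hM, hM1, hM2⟩ : ∃ M ∈ P, M ≠ L ∧ M ≠ L' := by
    by_contra hcon
    push Not at hcon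
    have h1 : P ⊆ {L, L'} := by
      intro M hM
      simp only [mem_insert, mem_singleton]
      by_contra h2
      push Not at h2
      exact h2.2 (hcon M hM h2.1)
    have h2 := h.two.card c
    have h3 : ∑ U ∈ P, U.card ≤ ∑ U ∈ ({L, L'} : Finset (Finset V)), U.card :=
      sum_le_sum_of_subset h1
    rw [sum_pair hne, hEL.1, hEL'.1] at h3
    omega
  obtain ⟨h3M, hmuM⟩ := hthird M hM hM1 hM2
  have hmu1 : mu N M ≤ ∑ U ∈ P, mu N U := single_le_sum (fun _ _ => Nat.zero_le _) hM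
  refine noM5 c (h.two.univ hM) (h.two.conn hM) (by omega) ?_
  intro e he hT hS
  obtain ⟨x, hx, hxe⟩ := hT
  have hfin : ∀ U ∈ P, mu N U = 0 → Tch N e U → (U = L ∨ U = L') → False := by
    intro U hU hU0 hUe hUL
    have h4 := m3 e U hU M hM (c.tight U (h.two.univ hU) (h.two.conn hU) hU0 e hUe) hS
    rcases hUL with rfl | rfl
    · exact hM1 h4.symm
    · exact hM2 h4.symm
  rcases h.cls c hM hx (c.symm _ _ hxe) he with h4 | h4 | h4 | h4
  · exact h3M (h4.2 ▸ hx)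
  · exact h3M (h4.2 ▸ hx)
  · obtain ⟨U, hU, hU0, hUe, hUL⟩ := halla e h4
    exact hfin U hU hU0 hUe hUL
  · obtain ⟨U, hU, hU0, hUe, hUL⟩ := hallb e h4
    exact hfin U hU hU0 hUe hUL

/-- All components have defect zero. -/
lemma TZ.mu0 (h : TZ N a1 a2 a3 Y1 Y2 Y3 z P) (c : Cb N) : ∀ U ∈ P, mu N U = 0 := by
  intro U hU
  have h1 := (h.mn c).2.1
  have h2 := h.na1 c
  have h3 : mu N U ≤ ∑ U ∈ P, mu N U := single_le_sum (fun _ _ => Nat.zero_le _) hU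
  omega

lemma TZ.other (h : TZ N a1 a2 a3 Y1 Y2 Y3 z P) (c : Cb N) {L : Finset V} (hE : ExA N L) :
    ∃ U ∈ P, U ≠ L := by
  by_contra hcon
  push Not at hcon
  have h1 : P ⊆ {L} := fun M hM => by simp [hcon M hM]
  have h2 := h.two.card c
  have h3 : ∑ U ∈ P, U.card ≤ ∑ U ∈ ({L} : Finset (Finset V)), U.card :=
    sum_le_sum_of_subset h1
  rw [sum_singleton, hE.1] at h3
  omega

/-- Two components have together four touching vertices. -/
lemma TZ.four (h : TZ N a1 a2 a3 Y1 Y2 Y3 z P) (c : Cb N) : ∃ U ∈ P, ∃ U' ∈ P, U ≠ U' ∧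
    4 ≤ (tt N (ea N Y1 a1) U).card + (tt N (eb N z) U).card +
      ((tt N (ea N Y1 a1) U').card + (tt N (eb N z) U').card) := by
  obtain ⟨L, hL, hEL, hun⟩ := m9_na_one (h.na1 c)
  obtain ⟨U3, hU3, h3⟩ := h.ex3 c
  by_cases hL3 : a3 ∈ L
  · obtain ⟨T, hT, hTL⟩ := h.other c hEL
    have h3T : a3 ∉ T := fun h1 => hTL (h.two.comps.eq_of_mem hT hL h1 hL3)
    have hLY := h.c1 c hL hEL hL3
    have hc2 := h.c2 c (hLY ▸ hL)
    rw [← hLY] at hc2
    have h4 := h.sd1 c hT h3T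
    have h5 := h.sd2 c hT h3T
    exact ⟨L, hL, T, hT, hTL.symm, by omega⟩
  · have hne : L ≠ U3 := by
      rintro rfl
      exact hL3 h3
    have h4 := h.b c hL hEL hL3
    have h5 := h.d c hU3 (fun hE => hne (hun U3 hU3 hE).symm) (by rw [h.mu0 c U3 hU3]; omega)
    exact ⟨L, hL, U3, hU3, hne, by omega⟩

end

lemma nb_erase {x p q r : V} (hN : N x = {x, p, q, r}) (h1 : p ≠ x) (h2 : q ≠ x) (h3 : r ≠ x) :
    (N x).erase x = {p, q, r} := by
  rw [hN]
  apply erase_insert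
  simp only [mem_insert, mem_singleton, not_or]
  exact ⟨h1.symm, h2.symm, h3.symm⟩

section
variable {a1 a2 a3 Y1 Y2 Y3 z : V} {P : Finset (Finset V)}

/-- Second configuration, with the neighbour `q` of `Y3`. -/
lemma TZ.al2 (h : TZ N a1 a2 a3 Y1 Y2 Y3 z P) (c : Cb N) {p q e w : V}
    (hY : N Y3 = {Y3, a3, p, q}) (hNp : N p = {p, Y3, q, e}) (hNq : N q = {q, Y3, p, w})
    (he : e ∈ N Y1) (hw : w ∈ N z) (hqY : q ≠ Y3) (hqa : q ≠ a3) : False := by
  have mY : ∀ x, x ∈ N Y3 ↔ x = Y3 ∨ x = a3 ∨ x = p ∨ x = q := fun x => by rw [hY]; simp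
  have mp : ∀ x, x ∈ N p ↔ x = p ∨ x = Y3 ∨ x = q ∨ x = e := fun x => by rw [hNp]; simp
  have mq : ∀ x, x ∈ N q ↔ x = q ∨ x = Y3 ∨ x = p ∨ x = w := fun x => by rw [hNq]; simp
  have hd : Disjoint (N Y1) (N q) := by
    rw [disjoint_right]
    intro x hx hx1
    rcases (mq x).1 hx with h1 | h1 | h1 | h1
    · exact disjoint_left.1 h.d13 hx1 ((mY x).2 (by tauto))
    · exact disjoint_left.1 h.d13 hx1 ((mY x).2 (by tauto))
    · exact disjoint_left.1 h.d13 hx1 ((mY x).2 (by tauto))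
    · exact disjoint_left.1 h.two.dj hx1 (h1 ▸ hw)
  obtain ⟨P', H⟩ := h.toTri.s23.ex_two c (z := q) ((mY q).2 (by tauto)) hqY hqa hd
  obtain ⟨U, hU, U', hU', hne, h4⟩ := H.four c
  have key : ∀ U ∈ P', tt N (eb N q) U ⊆ {w} := by
    intro U hU x hx
    rw [mem_singleton]
    obtain ⟨hx1, y, hy, hyx⟩ := mem_tt.1 hx
    obtain ⟨hxq, hx2⟩ := mem_eb.1 hx1
    obtain ⟨o1, o2, o3⟩ := H.two.out hU hy
    rcases (mq x).1 hx2 with h1 | h1 | h1 | h1
    · exact absurd h1 hxq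
    · exfalso
      rw [h1] at hyx
      rcases (mY y).1 hyx with h2 | h2 | h2 | h2
      · exact o3 ((mq y).2 (by tauto))
      · exact o1 h2
      · exact o3 ((mq y).2 (by tauto))
      · exact o3 ((mq y).2 (by tauto))
    · exfalso
      rw [h1] at hyx
      rcases (mp y).1 hyx with h2 | h2 | h2 | h2
      · exact o3 ((mq y).2 (by tauto))
      · exact o3 ((mq y).2 (by tauto))
      · exact o3 ((mq y).2 (by tauto))
      · exact o2 (h2 ▸ he)
    · exact h1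
  have h5 := H.le2 c hU hU' (H.mu0 c U hU) (H.mu0 c U' hU') hne (ea N Y1 a1)
  have h6 := H.ea2 c
  have h7 : (tt N (eb N q) U).card + (tt N (eb N q) U').card ≤ 1 := by
    rw [← card_union_of_disjoint (H.dis c hU hU' (H.mu0 c U hU) (H.mu0 c U' hU') hne _)]
    exact (card_le_card (union_subset (key U hU) (key U' hU'))).trans (by simp)
  omega

/-- The exceptional component does not contain `a3`. -/
lemma TZ.al (h : TZ N a1 a2 a3 Y1 Y2 Y3 z P) (c : Cb N) {L : Finset V} (hL : L ∈ P)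
    (hEL : ExA N L) (h3L : a3 ∈ L) : False := by
  have hmu := h.mu0 c
  have hLY := h.c1 c hL hEL h3L
  subst hLY
  obtain ⟨T, hT, hTL⟩ := h.other c hEL
  have hE2 := h.ea2 c
  have hE3 := h.eb3 c
  have hB := h.c2 c hL
  have h3 : ∀ U ∈ P, U ≠ N Y3 → a3 ∉ U := fun U hU hne h1 =>
    hne (h.two.comps.eq_of_mem hU hL h1 h3L)
  have hun : ∀ U ∈ P, U ≠ N Y3 → U = T := by
    intro U hU hUL
    by_contra hne
    have h4 := h.le3 c hL hT hU (hmu _ hL) (hmu _ hT) (hmu _ hU) hTL.symm hUL.symm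
      (Ne.symm hne) (ea N Y1 a1)
    have h5 := h.le3 c hL hT hU (hmu _ hL) (hmu _ hT) (hmu _ hU) hTL.symm hUL.symm
      (Ne.symm hne) (eb N z)
    have h6 := h.sd1 c hT (h3 T hT hTL)
    have h7 := h.sd2 c hT (h3 T hT hTL)
    have h8 := h.sd1 c hU (h3 U hU hUL)
    have h9 := h.sd2 c hU (h3 U hU hUL)
    omega
  have A1 := h.sd1 c hT (h3 T hT hTL)
  have A2 := h.sd2 c hT (h3 T hT hTL)
  have l1 := h.le2 c hL hT (hmu _ hL) (hmu _ hT) hTL.symm (ea N Y1 a1)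
  have l2 := h.le2 c hL hT (hmu _ hL) (hmu _ hT) hTL.symm (eb N z)
  have ha1 : a1 ∈ N Y1 := h.a1Y c
  rcases (by omega : (tt N (eb N z) T).card = 1 ∨ (tt N (eb N z) T).card = 2) with hc | hc
  · -- `SWAP` on the side of `z`
    refine h.two.sy.swap2 c (h.mn c).1 ⟨a1, (h.m2 _).2 (by tauto), ha1⟩ (t := Y3)
      (W := tt N (eb N z) (N Y3)) hL (fun U hU _ => by rw [hmu U hU]; omega) ?_ ?_ ?_ ?_ ?_
    · intro U hU hne
      rw [hun U hU hne]
      obtain ⟨g, hg⟩ := card_eq_one.1 hc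
      refine ⟨g, fun e he he' hT' => ?_⟩
      have h4 : e ∈ tt N (eb N z) T := mem_tt.2 ⟨mem_eb.2 ⟨he', he⟩, hT'⟩
      rw [hg] at h4
      simpa using h4
    · intro w hw
      obtain ⟨h4, h5⟩ := mem_tt.1 hw
      exact ⟨(mem_eb.1 h4).2, (mem_eb.1 h4).1, h5⟩
    · apply card_pos.1
      omega
    · omega
    · intro d hd x hx hxY
      rcases h.cls c hL hd hx hxY with h4 | h4 | h4 | h4
      · exact Or.inr ⟨a1, by rw [h4.2]; exact (h.m3 _).2 (by tauto), ha1⟩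
      · exact Or.inr ⟨a1, by rw [h4.2]; exact (h.m3 _).2 (by tauto), ha1⟩
      · exact Or.inr ⟨x, hx, (mem_ea.1 h4).2.2⟩
      · exact Or.inl (mem_tt.2 ⟨h4, d, hd, c.symm _ _ hx⟩)
  · obtain ⟨e, he⟩ := card_eq_one.1 (by omega : (tt N (ea N Y1 a1) (N Y3)).card = 1)
    obtain ⟨w, hw⟩ := card_eq_one.1 (by omega : (tt N (eb N z) (N Y3)).card = 1)
    have he' : e ∈ N Y1 := by
      have h4 : e ∈ tt N (ea N Y1 a1) (N Y3) := by rw [he]; simp
      exact (mem_ea.1 (mem_tt.1 h4).1).2.2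
    have hw' : w ∈ N z := by
      have h4 : w ∈ tt N (eb N z) (N Y3) := by rw [hw]; simp
      exact (mem_eb.1 (mem_tt.1 h4).1).2
    have hew : e ≠ w := by
      rintro rfl
      exact disjoint_left.1 h.two.dj he' hw'
    obtain ⟨p, q, hp1, hq1, hp2, hq2, hpq, hY⟩ := nb_split (c.reg Y3) (c.refl _) (h.a3Y c)
      h.y3.symm
    have hpY : p ∈ N Y3 := by rw [hY]; simp
    have hqY : q ∈ N Y3 := by rw [hY]; simp
    have key : ∀ x r, x ∈ N Y3 → x ≠ a3 → r ∈ N x → r ∉ N Y3 → r = e ∨ r = w := by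
      intro x r hx hx3 hr hrY
      have hTr : Tch N r (N Y3) := ⟨x, hx, c.symm _ _ hr⟩
      rcases h.cls c hL hx hr hrY with h4 | h4 | h4 | h4
      · exact absurd h4.2 hx3
      · exact absurd h4.2 hx3
      · have h5 : r ∈ tt N (ea N Y1 a1) (N Y3) := mem_tt.2 ⟨h4, hTr⟩
        rw [he, mem_singleton] at h5
        exact Or.inl h5
      · have h5 : r ∈ tt N (eb N z) (N Y3) := mem_tt.2 ⟨h4, hTr⟩
        rw [hw, mem_singleton] at h5
        exact Or.inr h5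
    have ha3 : ∀ x, x ∈ N Y3 → a3 ∈ N x → x = a3 ∨ x = Y3 := by
      intro x hx hxa
      rcases (h.m3 x).1 (c.symm _ _ hxa) with h1 | h1 | h1 | h1
      · exact Or.inl h1
      · subst h1
        exact absurd ha1 (h.two.out hL hx).2.1
      · exact absurd h1 (h.two.out hL hx).1
      · exact Or.inr h1
    have hpn : a3 ∉ N p := fun h1 => by rcases ha3 p hpY h1 with h2 | h2 <;> contradiction
    have hqn : a3 ∉ N q := fun h1 => by rcases ha3 q hqY h1 with h2 | h2 <;> contradiction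
    by_cases hpq' : q ∈ N p
    · obtain ⟨r, hr1, hr2, hr3, hNp⟩ := nb_third (c.reg p) (c.refl p) (c.symm _ _ hpY) hp1.symm
        hpq' hpq.symm hq1.symm
      obtain ⟨s, hs1, hs2, hs3, hNq⟩ := nb_third (c.reg q) (c.refl q) (c.symm _ _ hqY) hq1.symm
        (c.symm _ _ hpq') hpq hp1.symm
      have hrp : r ∈ N p := by rw [hNp]; simp
      have hsq : s ∈ N q := by rw [hNq]; simp
      have hrY : r ∉ N Y3 := by
        rw [hY]; simp only [mem_insert, mem_singleton, not_or]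
        exact ⟨hr2, fun h1 => hpn (h1 ▸ hrp), hr1, hr3⟩
      have hsY : s ∉ N Y3 := by
        rw [hY]; simp only [mem_insert, mem_singleton, not_or]
        exact ⟨hs2, fun h1 => hqn (h1 ▸ hsq), hs3, hs1⟩
      have hrs : r ≠ s := by
        rintro rfl
        exact c.dia p q Y3 r hpq hr2.symm hp1.symm hq1.symm hr1 hr3 hpq' (c.symm _ _ hpY)
          (c.symm _ _ hqY) hrp hsq
      have hY' : N Y3 = {Y3, a3, q, p} := by
        rw [hY]; ext y; simp only [mem_insert, mem_singleton]; tauto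
      rcases key p r hpY hp2 hrp hrY with rfl | rfl
      · rcases key q s hqY hq2 hsq hsY with rfl | rfl
        · exact hrs rfl
        · exact h.al2 c hY hNp hNq he' hw' hq1 hq2
      · rcases key q s hqY hq2 hsq hsY with rfl | rfl
        · exact h.al2 c hY' hNq hNp he' hw' hp1 hp2
        · exact hrs rfl
    · have key2 : ∀ x x', x ∈ N Y3 → x ≠ Y3 → x ≠ a3 → a3 ∉ N x → x' ∉ N x →
          N Y3 = {Y3, a3, x, x'} → (N x).erase x = {Y3, e, w} := by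
        intro x x' hx hx1 hx2 hx3 hx4 hYx
        obtain ⟨r, s, hr1, hs1, hr2, hs2, hrs, hNx⟩ := nb_split (c.reg x) (c.refl x)
          (c.symm _ _ hx) hx1.symm
        have hrx : r ∈ N x := by rw [hNx]; simp
        have hsx : s ∈ N x := by rw [hNx]; simp
        have hrY : r ∉ N Y3 := by
          rw [hYx]; simp only [mem_insert, mem_singleton, not_or]
          exact ⟨hr2, fun h1 => hx3 (h1 ▸ hrx), hr1, fun h1 => hx4 (h1 ▸ hrx)⟩
        have hsY : s ∉ N Y3 := by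
          rw [hYx]; simp only [mem_insert, mem_singleton, not_or]
          exact ⟨hs2, fun h1 => hx3 (h1 ▸ hsx), hs1, fun h1 => hx4 (h1 ▸ hsx)⟩
        have h5 := nb_erase hNx hx1.symm hr1 hs1
        rcases key x r hx hx2 hrx hrY with rfl | rfl
        · rcases key x s hx hx2 hsx hsY with rfl | rfl
          · exact absurd rfl hrs
          · exact h5
        · rcases key x s hx hx2 hsx hsY with rfl | rfl
          · rw [h5]; ext y; simp only [mem_insert, mem_singleton]; tauto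
          · exact absurd rfl hrs
      have hY' : N Y3 = {Y3, a3, q, p} := by
        rw [hY]; ext y; simp only [mem_insert, mem_singleton]; tauto
      refine c.k23 p q hpq (c.reg p) (c.reg q) ?_
      rw [key2 p q hpY hp1 hp2 hpn hpq' hY, key2 q p hqY hq1 hq2 hqn
        (fun h1 => hpq' (c.symm _ _ h1)) hY']

/-- The special situation: seven vertices at the exceptional component are known. -/
lemma TZ.beS (h : TZ N a1 a2 a3 Y1 Y2 Y3 z P) (c : Cb N) {t l1 l2 l3 e w1 w2 w3 : V}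
    {U3 : Finset V} (ht : N t ∈ P) (h3t : a3 ∉ N t) (hU3 : U3 ∈ P) (h3 : a3 ∈ U3)
    (hun : ∀ U ∈ P, U ≠ N t → U = U3) (hbU : ∀ w ∈ eb N z, ¬ Tch N w U3)
    (hNt : N t = {t, l1, l2, l3}) (hN1 : N l1 = {l1, t, l2, e}) (hN2 : N l2 = {l2, t, l1, w1})
    (hN3 : N l3 = {l3, t, w2, w3}) (hNz : N z = {z, w1, w2, w3}) (he : e ∈ N Y1)
    (hw1z : w1 ≠ z) (hw12 : w1 ≠ w2) (hw13 : w1 ≠ w3) (hl2t : l2 ≠ t) : False := by
  have mt : ∀ x, x ∈ N t ↔ x = t ∨ x = l1 ∨ x = l2 ∨ x = l3 := fun x => by rw [hNt]; simp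
  have m1 : ∀ x, x ∈ N l1 ↔ x = l1 ∨ x = t ∨ x = l2 ∨ x = e := fun x => by rw [hN1]; simp
  have m2 : ∀ x, x ∈ N l2 ↔ x = l2 ∨ x = t ∨ x = l1 ∨ x = w1 := fun x => by rw [hN2]; simp
  have m3 : ∀ x, x ∈ N l3 ↔ x = l3 ∨ x = t ∨ x = w2 ∨ x = w3 := fun x => by rw [hN3]; simp
  have mz : ∀ x, x ∈ N z ↔ x = z ∨ x = w1 ∨ x = w2 ∨ x = w3 := fun x => by rw [hNz]; simp
  have hmu := h.mu0 c
  have ha1 : a1 ∈ N Y1 := h.a1Y c
  have hNa3 : ¬ N a3 ⊆ U3 := by
    intro h4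
    exact (h.two.out hU3 (h4 ((h.m3 a1).2 (by tauto)))).2.1 ha1
  obtain ⟨D, hD, haD, hDk, hDc⟩ := c.optm U3 (h.two.univ hU3) (h.two.conn hU3)
    (by rw [hmu U3 hU3]; omega) a3 h3 hNa3
  have hne : N t ≠ U3 := by
    rintro h4
    exact h3t (h4 ▸ h3)
  have hcard : (insert Y1 (insert l3 D)).card ≤ 2 + fv N U3 := by
    have h4 := card_insert_le l3 D
    have h5 := card_insert_le Y1 (insert l3 D)
    omega
  have hsum : fv N (N t) + fv N U3 ≤ ∑ U ∈ P, fv N U := by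
    rw [← sum_pair hne]
    apply sum_le_sum_of_subset
    intro U hU
    simp only [mem_insert, mem_singleton] at hU
    rcases hU with rfl | rfl
    · exact ht
    · exact hU3
  have hft : fv N (N t) = 1 := (c.exA' t (c.reg t)).2
  have hf := (h.mn c).1
  have hw1b : w1 ∈ eb N z := mem_eb.2 ⟨hw1z, (mz _).2 (by tauto)⟩
  have hw1t : w1 ∉ N t := fun h4 => (h.two.out ht h4).2.2 (mem_eb.1 hw1b).2
  have hlow := c.lower (insert Y1 (insert l3 D)) (by
    intro d _ _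
    have kY : ∀ x, x ∈ N d → x ∈ N Y1 → ∃ δ ∈ insert Y1 (insert l3 D), ∃ x ∈ N d, x ∈ N δ :=
      fun x hx hx' => ⟨Y1, by simp, x, hx, hx'⟩
    have kl : ∀ x, x ∈ N d → x ∈ N l3 → ∃ δ ∈ insert Y1 (insert l3 D), ∃ x ∈ N d, x ∈ N δ :=
      fun x hx hx' => ⟨l3, by simp, x, hx, hx'⟩
    have kz : d ∈ N z → ∃ δ ∈ insert Y1 (insert l3 D), ∃ x ∈ N d, x ∈ N δ := by
      intro hd
      rcases (mz d).1 hd with rfl | rfl | rfl | rfl
      · exact kl w2 ((mz _).2 (by tauto)) ((m3 _).2 (by tauto))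
      · -- `d = w1`
        obtain ⟨q, hq1, hq2, hq3, hNw⟩ := nb_third (c.reg d) (c.refl d) (c.symm _ _ hd)
          hw1z.symm (c.symm _ _ ((m2 _).2 (by tauto))) (by
            rintro rfl
            exact hw1t ((mt _).2 (by tauto))) (by
            rintro rfl
            exact (h.two.out ht ((mt z).2 (by tauto))).2.2 (c.refl _))
        have hqd : q ∈ N d := by rw [hNw]; simp
        have hqF : q = a2 ∨ q ∈ N Y1 ∨ q ∈ N z := by
          by_contra hcon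
          obtain ⟨U, hU, hqU⟩ := h.two.comps.cover q (mem_sdiff.2 ⟨mem_univ _, by
            simp only [mem_insert, mem_union]; exact hcon⟩)
          by_cases hUt : U = N t
          · subst hUt
            rcases (mt q).1 hqU with rfl | rfl | rfl | rfl
            · exact hw1t (c.symm _ _ hqd)
            · rcases (m1 d).1 (c.symm _ _ hqd) with h4 | h4 | h4 | h4
              · exact hq1 h4.symm
              · exact hw1t ((mt _).2 (by tauto))
              · exact hw1t ((mt _).2 (by tauto))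
              · exact disjoint_left.1 h.two.dj (h4 ▸ he) hd
            · exact hq3 rfl
            · rcases (m3 d).1 (c.symm _ _ hqd) with h4 | h4 | h4 | h4
              · exact hq1 h4.symm
              · exact hw1t ((mt _).2 (by tauto))
              · exact hw12 h4
              · exact hw13 h4
          · have h4 := hun U hU hUt
            subst h4
            exact hbU d hw1b ⟨q, hqU, hqd⟩
        rcases hqF with h4 | h4 | h4
        · refine ⟨a3, by simp [haD], q, hqd, ?_⟩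
          rw [h4]
          exact (h.m3 _).2 (by tauto)
        · exact kY q hqd h4
        · rcases (mz q).1 h4 with h5 | h5 | h5 | h5
          · exact absurd h5 hq2
          · exact absurd h5 hq1
          · exact kl q hqd ((m3 _).2 (by tauto))
          · exact kl q hqd ((m3 _).2 (by tauto))
      · exact kl _ (c.refl _) ((m3 _).2 (by tauto))
      · exact kl _ (c.refl _) ((m3 _).2 (by tauto))
    by_cases hdF : d ∈ insert a2 (N Y1 ∪ N z)
    · simp only [mem_insert, mem_union] at hdF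
      rcases hdF with h4 | h4 | h4
      · refine kY a1 ?_ ha1
        rw [h4]
        exact (h.m2 _).2 (by tauto)
      · exact kY d (c.refl d) h4
      · exact kz h4
    · obtain ⟨U, hU, hdU⟩ := h.two.comps.cover d (mem_sdiff.2 ⟨mem_univ _, hdF⟩)
      by_cases hUt : U = N t
      · subst hUt
        rcases (mt d).1 hdU with rfl | rfl | rfl | rfl
        · exact kl l3 ((mt _).2 (by tauto)) (c.refl _)
        · exact kl t ((m1 _).2 (by tauto)) ((m3 _).2 (by tauto))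
        · exact kl t ((m2 _).2 (by tauto)) ((m3 _).2 (by tauto))
        · exact kl _ (c.refl _) (c.refl _)
      · have h4 := hun U hU hUt
        subst h4
        by_cases hdU' : N d ⊆ U
        · obtain ⟨δ, hδ, x, hx, hxδ⟩ := hDk d (c.reg d) hdU'
          exact ⟨δ, by simp [hδ], x, hx, hxδ⟩
        · obtain ⟨y, hy, hyU⟩ := not_subset.1 hdU'
          rcases h.cls c hU hdU hy hyU with h4 | h4 | h4 | h4
          · refine kY a1 ?_ ha1
            rw [h4.2]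
            exact (h.m3 _).2 (by tauto)
          · refine kY a1 ?_ ha1
            rw [h4.2]
            exact (h.m3 _).2 (by tauto)
          · exact kY y hy (mem_ea.1 h4).2.2
          · exact absurd ⟨d, hdU, c.symm _ _ hy⟩ (hbU y h4))
  omega

end

section
variable {a1 a2 a3 Y1 Y2 Y3 z : V} {P : Finset (Finset V)}

/-- All three neighbours of `z` touch the exceptional component. -/
lemma TZ.be3 (h : TZ N a1 a2 a3 Y1 Y2 Y3 z P) (c : Cb N) {t e : V}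
    {U3 : Finset V} (ht : N t ∈ P) (h3t : a3 ∉ N t) (hU3 : U3 ∈ P) (h3 : a3 ∈ U3)
    (hun : ∀ U ∈ P, U ≠ N t → U = U3) (hbU : ∀ w ∈ eb N z, ¬ Tch N w U3)
    (hB1 : tt N (ea N Y1 a1) (N t) = {e}) (hb : ∀ w ∈ eb N z, Tch N w (N t)) : False := by
  have hmu := h.mu0 c
  have ha1 : a1 ∈ N Y1 := h.a1Y c
  have hE3 := h.eb3 c
  have he0 : e ∈ tt N (ea N Y1 a1) (N t) := by rw [hB1]; simp
  have he : e ∈ N Y1 := (mem_ea.1 (mem_tt.1 he0).1).2.2
  obtain ⟨l1, hl1, hel1⟩ := (mem_tt.1 he0).2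
  have hel : e ∈ N l1 := c.symm _ _ hel1
  have het : e ∉ N t := fun h4 => (h.two.out ht h4).2.1 he
  -- the outside neighbours of the component
  have key : ∀ d x, d ∈ N t → x ∈ N d → x ∉ N t → x = e ∨ x ∈ eb N z := by
    intro d x hd hx hxt
    have hTr : Tch N x (N t) := ⟨d, hd, c.symm _ _ hx⟩
    rcases h.cls c ht hd hx hxt with h4 | h4 | h4 | h4
    · exact absurd (h4.2 ▸ hd) h3t
    · exact absurd (h4.2 ▸ hd) h3t
    · have h5 : x ∈ tt N (ea N Y1 a1) (N t) := mem_tt.2 ⟨h4, hTr⟩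
      rw [hB1, mem_singleton] at h5
      exact Or.inl h5
    · exact Or.inr h4
  have fin : ∀ w ∈ eb N z, (∀ l ∈ N t, l ≠ t → l ≠ l1 → (∃ x ∈ N l, x ∈ N w) ∨
      ∃ x ∈ N l, x ∈ N Y1) → False := by
    intro w hw hgood
    refine h.two.sy.swap1 c (h.mn c).1 ⟨a1, (h.m2 _).2 (by tauto), ha1⟩ (t := t)
      (w := w) ht (fun U hU _ => by rw [hmu U hU]; omega) ?_ (mem_eb.1 hw).2 (mem_eb.1 hw).1
      (hb w hw) ?_
    · intro U hU hne
      rw [hun U hU hne]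
      exact ⟨t, fun e' he' he2 hT' => absurd hT' (hbU e' (mem_eb.2 ⟨he2, he'⟩))⟩
    · intro d hd
      by_cases hdt : d = t
      · left
        obtain ⟨x, hx, hxw⟩ := hb w hw
        exact ⟨x, hdt ▸ hx, hxw⟩
      · by_cases hdl : d = l1
        · right
          exact ⟨e, hdl ▸ hel, he⟩
        · exact hgood d hd hdt hdl
  have hl1t : l1 ≠ t := by
    rintro rfl
    exact het hel
  have hl1e : l1 ≠ e := by
    rintro rfl
    exact het hl1
  -- one edge at `l1`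
  have B1 : ∀ l2 l3, l2 ≠ t → l3 ≠ t → l2 ≠ l1 → l3 ≠ l1 → l2 ≠ l3 → N t = {t, l1, l2, l3} →
      l3 ∉ N l2 → l2 ∈ N l1 → False := by
    intro l2 l3 h2t h3t' h21 h31 h23 hNt hn32 h2l1
    have mt : ∀ x, x ∈ N t ↔ x = t ∨ x = l1 ∨ x = l2 ∨ x = l3 := fun x => by rw [hNt]; simp
    have hl2 : l2 ∈ N t := (mt _).2 (by tauto)
    have hl3 : l3 ∈ N t := (mt _).2 (by tauto)
    have hn31 : l3 ∉ N l1 := by
      intro h4
      exact c.dia t l1 l2 l3 hl1t.symm h23 h2t h21 h3t' h31 hl1 hl2 h2l1 hl3 h4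
    have hN1 : N l1 = {l1, t, l2, e} := nb4 (c.reg l1) (c.refl _) (c.symm _ _ hl1) h2l1 hel
      hl1t.symm h21 hl1e.symm h2t.symm (by rintro rfl; exact het (c.refl _))
      (by rintro rfl; exact het hl2)
    obtain ⟨o2, ho1, ho2, ho3, hN2⟩ := nb_third (c.reg l2) (c.refl l2) (c.symm _ _ hl2) h2t.symm
      (c.symm _ _ h2l1) h21.symm hl1t.symm
    have ho : o2 ∈ N l2 := by rw [hN2]; simp
    have hoe : o2 ≠ e := by
      rintro rfl
      exact c.dia l1 l2 t o2 h21.symm ho2.symm hl1t.symm h2t.symm hl1e.symm ho1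
        h2l1 (c.symm _ _ hl1) (c.symm _ _ hl2) hel ho
    have hot : o2 ∉ N t := by
      intro h4
      rcases (mt o2).1 h4 with h5 | h5 | h5 | h5
      · exact ho2 h5
      · exact ho3 h5
      · exact ho1 h5
      · exact hn32 (h5 ▸ ho)
    have hob : o2 ∈ eb N z := (key l2 o2 hl2 ho hot).resolve_left hoe
    obtain ⟨r, s, hr1, hs1, hr2, hs2, hrs, hN3⟩ := nb_split (c.reg l3) (c.refl l3)
      (c.symm _ _ hl3) h3t'.symm
    have hr : r ∈ N l3 := by rw [hN3]; simp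
    have hs : s ∈ N l3 := by rw [hN3]; simp
    have hout : ∀ x ∈ N l3, x ≠ l3 → x ≠ t → x ∉ N t := by
      intro x hx hx3 hxt h4
      rcases (mt x).1 h4 with h5 | h5 | h5 | h5
      · exact hxt h5
      · exact hn31 (c.symm _ _ (h5 ▸ hx))
      · exact hn32 (c.symm _ _ (h5 ▸ hx))
      · exact hx3 h5
    -- `o2` is good when `l3` is taken care of
    have hfin : ((∃ x ∈ N l3, x ∈ N o2) ∨ ∃ x ∈ N l3, x ∈ N Y1) → False := by
      intro h4
      refine fin o2 hob ?_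
      intro l hl hlt hll
      rcases (mt l).1 hl with h5 | h5 | h5 | h5
      · exact absurd h5 hlt
      · exact absurd h5 hll
      · subst h5
        exact Or.inl ⟨o2, ho, c.refl _⟩
      · subst h5
        exact h4
    by_cases he3 : e ∈ N l3
    · exact hfin (Or.inr ⟨e, he3, he⟩)
    · have hre : r ≠ e := by rintro rfl; exact he3 hr
      have hse : s ≠ e := by rintro rfl; exact he3 hs
      have hrb := (key l3 r hl3 hr (hout r hr hr1 hr2)).resolve_left hre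
      have hsb := (key l3 s hl3 hs (hout s hs hs1 hs2)).resolve_left hse
      by_cases hor : o2 = r
      · exact hfin (Or.inl ⟨r, hr, hor ▸ c.refl _⟩)
      by_cases hos : o2 = s
      · exact hfin (Or.inl ⟨s, hs, hos ▸ c.refl _⟩)
      have hNz : N z = {z, o2, r, s} := nb4 (c.reg z) (c.refl z) (mem_eb.1 hob).2
        (mem_eb.1 hrb).2 (mem_eb.1 hsb).2 (mem_eb.1 hob).1 (mem_eb.1 hrb).1 (mem_eb.1 hsb).1
        hor hos hrs
      exact h.beS c ht h3t hU3 h3 hun hbU hNt hN1 hN2 hN3 hNz he (mem_eb.1 hob).1 hor hos h2t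
  obtain ⟨l2, l3, h2t, h3t', h21, h31, h23, hNt⟩ := nb_split (c.reg t) (c.refl t) hl1 hl1t
  have mt : ∀ x, x ∈ N t ↔ x = t ∨ x = l1 ∨ x = l2 ∨ x = l3 := fun x => by rw [hNt]; simp
  have hNt' : N t = {t, l1, l3, l2} := by
    rw [hNt]; ext y; simp only [mem_insert, mem_singleton]; tauto
  have hl2 : l2 ∈ N t := (mt _).2 (by tauto)
  have hl3 : l3 ∈ N t := (mt _).2 (by tauto)
  have fin2 : ∀ w ∈ eb N z, ((∃ x ∈ N l2, x ∈ N w) ∨ ∃ x ∈ N l2, x ∈ N Y1) →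
      ((∃ x ∈ N l3, x ∈ N w) ∨ ∃ x ∈ N l3, x ∈ N Y1) → False := by
    intro w hw h4 h5
    refine fin w hw ?_
    intro l hl hlt hll
    rcases (mt l).1 hl with h6 | h6 | h6 | h6
    · exact absurd h6 hlt
    · exact absurd h6 hll
    · subst h6; exact h4
    · subst h6; exact h5
  by_cases h32 : l3 ∈ N l2
  · -- `l2 ~ l3`
    obtain ⟨o2, ho1, ho2, ho3, hN2⟩ := nb_third (c.reg l2) (c.refl l2) (c.symm _ _ hl2) h2t.symm
      h32 h23.symm h3t'.symm
    obtain ⟨o3, hq1, hq2, hq3, hN3⟩ := nb_third (c.reg l3) (c.refl l3) (c.symm _ _ hl3) h3t'.symm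
      (c.symm _ _ h32) h23 h2t.symm
    have ho : o2 ∈ N l2 := by rw [hN2]; simp
    have hq : o3 ∈ N l3 := by rw [hN3]; simp
    have hoq : o2 ≠ o3 := by
      rintro rfl
      exact c.dia l2 l3 t o2 h23 ho2.symm h2t.symm h3t'.symm ho1 hq1 h32 (c.symm _ _ hl2)
        (c.symm _ _ hl3) ho hq
    have hot : o2 ∉ N t := by
      intro h4
      rcases (mt o2).1 h4 with h5 | h5 | h5 | h5
      · exact ho2 h5
      · rw [h5] at ho
        exact c.dia t l2 l1 l3 h2t.symm h31.symm hl1t h21.symm h3t' h23.symm hl2 hl1 ho hl3 h32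
      · exact ho1 h5
      · exact ho3 h5
    have hqt : o3 ∉ N t := by
      intro h4
      rcases (mt o3).1 h4 with h5 | h5 | h5 | h5
      · exact hq2 h5
      · rw [h5] at hq
        exact c.dia t l3 l1 l2 h3t'.symm h21.symm hl1t h31.symm h2t h23 hl3 hl1 hq hl2
          (c.symm _ _ h32)
      · exact hq3 h5
      · exact hq1 h5
    by_cases hoe : o2 = e
    · have hqb := (key l3 o3 hl3 hq hqt).resolve_left (fun h4 => hoq (hoe.trans h4.symm))
      exact fin2 o3 hqb (Or.inl ⟨l3, h32, c.symm _ _ hq⟩) (Or.inl ⟨o3, hq, c.refl _⟩)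
    · have hob := (key l2 o2 hl2 ho hot).resolve_left hoe
      exact fin2 o2 hob (Or.inl ⟨o2, ho, c.refl _⟩)
        (Or.inl ⟨l2, c.symm _ _ h32, c.symm _ _ ho⟩)
  by_cases h12 : l2 ∈ N l1
  · exact B1 l2 l3 h2t h3t' h21 h31 h23 hNt h32 h12
  by_cases h13 : l3 ∈ N l1
  · exact B1 l3 l2 h3t' h2t h31 h21 h23.symm hNt' (fun h4 => h32 (c.symm _ _ h4)) h13
  -- no edges
  obtain ⟨r, s, hr1, hs1, hr2, hs2, hrs, hN2⟩ := nb_split (c.reg l2) (c.refl l2)
    (c.symm _ _ hl2) h2t.symm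
  obtain ⟨r', s', hr1', hs1', hr2', hs2', hrs', hN3⟩ := nb_split (c.reg l3) (c.refl l3)
    (c.symm _ _ hl3) h3t'.symm
  have hout2 : ∀ x ∈ N l2, x ≠ l2 → x ≠ t → x ∉ N t := by
    intro x hx hx3 hxt h4
    rcases (mt x).1 h4 with h5 | h5 | h5 | h5
    · exact hxt h5
    · exact h12 (c.symm _ _ (h5 ▸ hx))
    · exact hx3 h5
    · exact h32 (h5 ▸ hx)
  have hout3 : ∀ x ∈ N l3, x ≠ l3 → x ≠ t → x ∉ N t := by
    intro x hx hx3 hxt h4
    rcases (mt x).1 h4 with h5 | h5 | h5 | h5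
    · exact hxt h5
    · exact h13 (c.symm _ _ (h5 ▸ hx))
    · exact h32 (c.symm _ _ (h5 ▸ hx))
    · exact hx3 h5
  have hr : r ∈ N l2 := by rw [hN2]; simp
  have hs : s ∈ N l2 := by rw [hN2]; simp
  have hr' : r' ∈ N l3 := by rw [hN3]; simp
  have hs' : s' ∈ N l3 := by rw [hN3]; simp
  have kr := key l2 r hl2 hr (hout2 r hr hr1 hr2)
  have ks := key l2 s hl2 hs (hout2 s hs hs1 hs2)
  have kr' := key l3 r' hl3 hr' (hout3 r' hr' hr1' hr2')
  have ks' := key l3 s' hl3 hs' (hout3 s' hs' hs1' hs2')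
  by_cases he2 : e ∈ N l2
  · -- any neighbour of `l3` different from `e`
    rcases kr' with h4 | h4
    · rcases ks' with h5 | h5
      · exact hrs' (h4.trans h5.symm)
      · exact fin2 s' h5 (Or.inr ⟨e, he2, he⟩) (Or.inl ⟨s', hs', c.refl _⟩)
    · exact fin2 r' h4 (Or.inr ⟨e, he2, he⟩) (Or.inl ⟨r', hr', c.refl _⟩)
  by_cases he3 : e ∈ N l3
  · rcases kr with h4 | h4
    · rcases ks with h5 | h5
      · exact hrs (h4.trans h5.symm)
      · exact fin2 s h5 (Or.inl ⟨s, hs, c.refl _⟩) (Or.inr ⟨e, he3, he⟩)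
    · exact fin2 r h4 (Or.inl ⟨r, hr, c.refl _⟩) (Or.inr ⟨e, he3, he⟩)
  have kr := kr.resolve_left (by rintro rfl; exact he2 hr)
  have ks := ks.resolve_left (by rintro rfl; exact he2 hs)
  have kr' := kr'.resolve_left (by rintro rfl; exact he3 hr')
  have ks' := ks'.resolve_left (by rintro rfl; exact he3 hs')
  have hcommon : ∃ w ∈ eb N z, w ∈ N l2 ∧ w ∈ N l3 := by
    by_contra hcon
    push Not at hcon
    have h4 : ({r, s} ∪ {r', s'} : Finset V) ⊆ eb N z := by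
      intro x hx
      simp only [mem_union, mem_insert, mem_singleton] at hx
      rcases hx with (rfl | rfl) | (rfl | rfl) <;> assumption
    have h5 : Disjoint ({r, s} : Finset V) {r', s'} := by
      rw [disjoint_left]
      intro x hx hx'
      simp only [mem_insert, mem_singleton] at hx hx'
      have h6 : x ∈ N l2 := by rcases hx with rfl | rfl <;> assumption
      have h7 : x ∈ N l3 := by rcases hx' with rfl | rfl <;> assumption
      have h8 : x ∈ eb N z := by rcases hx with rfl | rfl <;> assumption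
      exact hcon x h8 h6 h7
    have h6 := card_le_card h4
    rw [card_union_of_disjoint h5, card_pair hrs, card_pair hrs'] at h6
    omega
  obtain ⟨w, hw, hw2, hw3⟩ := hcommon
  exact fin2 w hw (Or.inl ⟨w, hw2, c.refl _⟩) (Or.inl ⟨w, hw3, c.refl _⟩)

/-- The exceptional component contains `a3`. -/
lemma TZ.be (h : TZ N a1 a2 a3 Y1 Y2 Y3 z P) (c : Cb N) {L : Finset V} (hL : L ∈ P)
    (hEL : ExA N L) (h3L : a3 ∉ L) (hunL : ∀ U ∈ P, ExA N U → U = L) : False := by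
  have hmu := h.mu0 c
  obtain ⟨U3, hU3, h3⟩ := h.ex3 c
  have hE2 := h.ea2 c
  have hE3 := h.eb3 c
  have hne : L ≠ U3 := by
    rintro rfl
    exact h3L h3
  have hB := h.b c hL hEL h3L
  have hA := h.d c hU3 (fun hE => hne (hunL U3 hU3 hE).symm) (by rw [hmu U3 hU3]; omega)
  have hun : ∀ U ∈ P, U ≠ L → U = U3 := by
    intro U hU hUL
    by_contra hne'
    have h3U : a3 ∉ U := fun h1 => hne' (h.two.comps.eq_of_mem hU hU3 h1 h3)
    have h4 := h.le3 c hL hU3 hU (hmu _ hL) (hmu _ hU3) (hmu _ hU) hne hUL.symm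
      (Ne.symm hne') (ea N Y1 a1)
    have h5 := h.le3 c hL hU3 hU (hmu _ hL) (hmu _ hU3) (hmu _ hU) hne hUL.symm
      (Ne.symm hne') (eb N z)
    have h8 := h.sd1 c hU h3U
    have h9 := h.sd2 c hU h3U
    omega
  have B1 := h.sd1 c hL h3L
  have B2 := h.sd2 c hL h3L
  have l1 := h.le2 c hL hU3 (hmu _ hL) (hmu _ hU3) hne (ea N Y1 a1)
  have l2 := h.le2 c hL hU3 (hmu _ hL) (hmu _ hU3) hne (eb N z)
  have ha1 : a1 ∈ N Y1 := h.a1Y c
  obtain ⟨t, ht, rfl⟩ := c.exA L hEL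
  rcases (by omega : (tt N (ea N Y1 a1) U3).card = 0 ∨ (tt N (ea N Y1 a1) U3).card = 1) with
    hc | hc
  · -- `SWAP` on the side of `Y1`
    refine h.two.swap2 c (h.mn c).1 ⟨Y2, (h.m2 _).2 (by tauto), h.Y2z c⟩ (t := t)
      (W := tt N (ea N Y1 a1) (N t)) hL (fun U hU _ => by rw [hmu U hU]; omega) ?_ ?_ ?_ ?_ ?_
    · intro U hU hne'
      rw [hun U hU hne']
      refine ⟨a1, fun e he he' hT' => ?_⟩
      by_contra hea
      have h4 : e ∈ tt N (ea N Y1 a1) U3 := mem_tt.2 ⟨mem_ea.2 ⟨hea, he', he⟩, hT'⟩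
      rw [card_eq_zero] at hc
      rw [hc] at h4
      simp at h4
    · intro w hw
      obtain ⟨h4, h5⟩ := mem_tt.1 hw
      exact ⟨(mem_ea.1 h4).2.2, (mem_ea.1 h4).2.1, h5⟩
    · apply card_pos.1
      omega
    · omega
    · intro d hd x hx hxY
      rcases h.cls c hL hd hx hxY with h4 | h4 | h4 | h4
      · exact absurd (h4.2 ▸ hd) h3L
      · exact absurd (h4.2 ▸ hd) h3L
      · exact Or.inl (mem_tt.2 ⟨h4, d, hd, c.symm _ _ hx⟩)
      · exact Or.inr ⟨x, hx, (mem_eb.1 h4).2⟩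
  · rcases (by omega : (tt N (eb N z) (N t)).card = 2 ∨ (tt N (eb N z) (N t)).card = 3) with
      hb | hb
    · -- `SWAP` on the side of `z`
      refine h.two.sy.swap2 c (h.mn c).1 ⟨a1, (h.m2 _).2 (by tauto), ha1⟩ (t := t)
        (W := tt N (eb N z) (N t)) hL (fun U hU _ => by rw [hmu U hU]; omega) ?_ ?_ ?_ ?_ ?_
      · intro U hU hne'
        rw [hun U hU hne']
        rcases Nat.eq_zero_or_pos (tt N (eb N z) U3).card with h0 | h0
        · refine ⟨a1, fun e he he' hT' => ?_⟩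
          have h4 : e ∈ tt N (eb N z) U3 := mem_tt.2 ⟨mem_eb.2 ⟨he', he⟩, hT'⟩
          rw [card_eq_zero] at h0
          rw [h0] at h4
          simp at h4
        · obtain ⟨g, hg⟩ := card_eq_one.1 (by omega : (tt N (eb N z) U3).card = 1)
          refine ⟨g, fun e he he' hT' => ?_⟩
          have h4 : e ∈ tt N (eb N z) U3 := mem_tt.2 ⟨mem_eb.2 ⟨he', he⟩, hT'⟩
          rw [hg] at h4
          simpa using h4
      · intro w hw
        obtain ⟨h4, h5⟩ := mem_tt.1 hw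
        exact ⟨(mem_eb.1 h4).2, (mem_eb.1 h4).1, h5⟩
      · apply card_pos.1
        omega
      · omega
      · intro d hd x hx hxY
        rcases h.cls c hL hd hx hxY with h4 | h4 | h4 | h4
        · exact absurd (h4.2 ▸ hd) h3L
        · exact absurd (h4.2 ▸ hd) h3L
        · exact Or.inr ⟨x, hx, (mem_ea.1 h4).2.2⟩
        · exact Or.inl (mem_tt.2 ⟨h4, d, hd, c.symm _ _ hx⟩)
    · obtain ⟨e, he⟩ := card_eq_one.1 (by omega : (tt N (ea N Y1 a1) (N t)).card = 1)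
      have h0 : (tt N (eb N z) U3).card = 0 := by omega
      rw [card_eq_zero] at h0
      have hall : tt N (eb N z) (N t) = eb N z :=
        eq_of_subset_of_card_le tt_sub (by omega)
      refine h.be3 c (e := e) hL h3L hU3 h3 hun ?_ he ?_
      · intro w hw hT'
        have h4 : w ∈ tt N (eb N z) U3 := mem_tt.2 ⟨hw, hT'⟩
        rw [h0] at h4
        simp at h4
      · intro w hw
        rw [← hall] at hw
        exact (mem_tt.1 hw).2

/-- No neighbour of `Y2` except `a2` is far from `Y1`. -/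
lemma Tri.core (h : Tri N a1 a2 a3 Y1 Y2 Y3) (c : Cb N) (hz : z ∈ N Y2) (hz1 : z ≠ Y2)
    (hz2 : z ≠ a2) : ¬ Disjoint (N Y1) (N z) := by
  intro hd
  obtain ⟨P, H⟩ := h.ex_two c hz hz1 hz2 hd
  obtain ⟨L, hL, hEL, hun⟩ := m9_na_one (H.na1 c)
  by_cases h3 : a3 ∈ L
  · exact H.al c hL hEL h3
  · exact H.be c hL hEL h3 hun

/-- The neighbours of `Y2` are inside. -/
lemma Tri.closed (h : Tri N a1 a2 a3 Y1 Y2 Y3) (c : Cb N) {x : V} (hx : x ∈ N Y2) :
    ∀ y ∈ N x, y ∈ N Y1 ∨ y ∈ N Y2 ∨ y ∈ N Y3 := by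
  by_cases hx1 : x = Y2
  · subst hx1
    intro y hy
    exact Or.inr (Or.inl hy)
  by_cases hx2 : x = a2
  · subst hx2
    intro y hy
    rcases (h.m2 y).1 hy with rfl | rfl | rfl | rfl
    · exact Or.inr (Or.inl hx)
    · exact Or.inl (h.a1Y c)
    · exact Or.inr (Or.inr (h.a3Y c))
    · exact Or.inr (Or.inl (c.refl _))
  have h1 := h.core c hx hx1 hx2
  have h2 := h.s12.s23.s12.core c (z := x) hx hx1 hx2
  rw [not_disjoint_iff] at h1 h2
  obtain ⟨p, hp1, hpx⟩ := h1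
  obtain ⟨q, hq3, hqx⟩ := h2
  have hpx' : p ≠ x := by
    rintro rfl
    exact disjoint_left.1 h.d12 hp1 hx
  have hqx' : q ≠ x := by
    rintro rfl
    exact disjoint_left.1 h.d23 hx hq3
  have hpY : p ≠ Y2 := by
    rintro rfl
    exact disjoint_left.1 h.d12 hp1 (c.refl _)
  have hqY : q ≠ Y2 := by
    rintro rfl
    exact disjoint_left.1 h.d23 (c.refl _) hq3
  have hpq : p ≠ q := by
    rintro rfl
    exact disjoint_left.1 h.d13 hp1 hq3
  have hNx := nb4 (c.reg x) (c.refl x) (c.symm _ _ hx) hpx hqx (Ne.symm hx1) hpx' hqx'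
    hpY.symm hqY.symm hpq
  intro y hy
  rw [hNx] at hy
  simp only [mem_insert, mem_singleton] at hy
  rcases hy with rfl | rfl | rfl | rfl
  · exact Or.inr (Or.inl hx)
  · exact Or.inr (Or.inl (c.refl _))
  · exact Or.inl hp1
  · exact Or.inr (Or.inr hq3)

lemma Tri.no (h : Tri N a1 a2 a3 Y1 Y2 Y3) (c : Cb N) : False := by
  have h1 : ∀ x ∈ N Y1, ∀ y ∈ N x, y ∈ N Y2 ∨ y ∈ N Y1 ∨ y ∈ N Y3 := fun x hx =>
    h.s12.closed c hx
  have h2 : ∀ x ∈ N Y2, ∀ y ∈ N x, y ∈ N Y1 ∨ y ∈ N Y2 ∨ y ∈ N Y3 := fun x hx =>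
    h.closed c hx
  have h3 : ∀ x ∈ N Y3, ∀ y ∈ N x, y ∈ N Y1 ∨ y ∈ N Y3 ∨ y ∈ N Y2 := fun x hx =>
    h.s23.closed c hx
  have h4 := (conn_iff.1 c.conn).2 (N Y1 ∪ (N Y2 ∪ N Y3)) (subset_univ _)
    ⟨Y1, mem_union_left _ (c.refl _)⟩ (by
      intro x hx y _ hy
      simp only [mem_union] at hx ⊢
      rcases hx with hx | hx | hx
      · have := h1 x hx y hy
        tauto
      · have := h2 x hx y hy
        tauto
      · have := h3 x hx y hy
        tauto)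
  have h5 := card_le_card h4
  have h6 := card_union_le (N Y1) (N Y2 ∪ N Y3)
  have h7 := card_union_le (N Y2) (N Y3)
  have h8 := c.big
  have r1 := c.reg Y1
  have r2 := c.reg Y2
  have r3 := c.reg Y3
  unfold Cub at r1 r2 r3
  rw [card_univ] at h5
  omega

end

/-- Module M9: no triangle. -/
theorem no3 (c : Cb N) : No3 N := by
  intro a b d hab hbd had h1 h2 h3
  obtain ⟨Y1, Y2, Y3, hT⟩ := Tri.ex c hab hbd had h1 h2 h3
  exact hT.no c

end

end Pool.Agent.Star.K4
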