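import Pool.Agent.Star.K4.Thr
import Pool.Agent.Star.BaseE4
import Pool.Agent.Star.K4.M2
import Pool.Agent.Star.K4.M3
import Pool.Agent.Star.K4.M4a
import Pool.Agent.Star.K4.M5
import Pool.Agent.Star.K4.M6b
import Pool.Agent.Star.K4.M7a
import Pool.Agent.Star.K4.M7b
import Pool.Agent.Star.K4.M8
import Pool.Agent.Star.K4.M9
import Pool.Agent.Star.K4.M10
import Pool.Agent.Star.K4.M11a
import Pool.Agent.Star.K4.M11b
import Pool.Agent.Star.K4.M12

/-!
# `K = 4`: the bound for star systems
-/

set_option autoImplicit false
set_option linter.unusedSectionVars false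
set_option linter.unusedVariables false

namespace Pool.Agent.Star.K4

open Finset Rig

universe u

/-- There is no violator with `K = 4` and at least five tiles. -/
theorem vs_false {W : Type u} [DecidableEq W] [Fintype W] {N : W → Finset W} (h : VS N) :
    False := by
  have hB : FactB N := factB h
  have hC : VC N := ⟨h, deg3 h hB⟩
  have g : Gen N := gen hC hB
  have m : Mid N := mid (bas g)
  have hs : Swap N := swap g
  have hg : Good N := good m
  have hr := reg m (pp m hs hg)
  have c : Cb N := ⟨m, hs, hg, hr⟩
  have h3 : No3 N := no3 c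
  have h4 : No4 N := no4 c h3
  have h5 : No5 N := no5 c h3 h4
  have h6 : No6 N := no6 c h3 h4 h5
  exact fin c h3 h4 h5 h6

/-- **The bound for `K = 4`.** -/
theorem EV_four (n : ℕ) : EV (Fin n) 4 :=
  EV_four_of (fun W _ _ N h => vs_false h)
    (fun N A C h h3 => BaseAA.hbase_all (by omega) h h3)

end Pool.Agent.Star.K4
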