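import Pool.Agent.Star.K4.Spec
import Pool.Agent.Star.Construct

/-!
# `K = 4`: from the impossibility of `VS` to the bound
-/

set_option autoImplicit false
set_option linter.unusedSectionVars false
set_option linter.unusedVariables false

namespace Pool.Agent.Star.K4

open Finset Rig

universe u

/-- The bound for `K = 4` from the base case and the impossibility of `VS`. -/
theorem EV_four_of {V : Type u} [DecidableEq V]
    (H : ∀ (W : Type u) [DecidableEq W] [Fintype W] (N : W → Finset W), VS N → False)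
    (hbase : ∀ (N : V → Finset V) (A : Finset V) (C : Finset (Finset V)), Viol N 4 A C →
      gk N A C = 3 → 3 * 4 + 1 < A.card) : EV V 4 := by
  intro N hs hsym A C hS hA
  by_contra hB
  obtain ⟨N', A', C', h⟩ := exists_viol (by omega) hs hsym hS hA hB
  obtain ⟨h1, h2⟩ := h.exact (hbase N' A' C' h)
  exact H _ _ (VS.of_viol h h1 h2)

/-- The statement for one `k`. -/
theorem main_of_EV (k : ℕ) (hk : 2 ≤ k) (H : ∀ n : ℕ, EV (Fin n) (k + 1)) :
    (∀ n : ℕ, 2 * (k + 1) < n → ∀ G : SimpleGraph (Fin n), G.Connected →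
        ∃ S : Finset (Fin n), S.card ≤ 2 * n / (2 * k + 3) ∧
          ∀ v : Fin n, (v ∉ S ∧ ∀ s ∈ S, ¬ G.Adj s v) →
            {w : Fin n | G.Adj v w ∧ w ∉ S ∧ ∀ s ∈ S, ¬ G.Adj s w}.ncard < k) ∧
      (∀ N : ℕ, ∃ n : ℕ, N ≤ n ∧ ∃ G : SimpleGraph (Fin n), G.Connected ∧
        (∃ S : Finset (Fin n), S.card = 2 * n / (2 * k + 3) ∧
          ∀ v : Fin n, (v ∉ S ∧ ∀ s ∈ S, ¬ G.Adj s v) →
            {w : Fin n | G.Adj v w ∧ w ∉ S ∧ ∀ s ∈ S, ¬ G.Adj s w}.ncard < k) ∧
        ∀ S : Finset (Fin n),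
          (∀ v : Fin n, (v ∉ S ∧ ∀ s ∈ S, ¬ G.Adj s v) →
            {w : Fin n | G.Adj v w ∧ w ∉ S ∧ ∀ s ∈ S, ¬ G.Adj s w}.ncard < k) →
          2 * n / (2 * k + 3) ≤ S.card) := by
  refine ⟨?_, fun N => construction k hk N⟩
  intro n hn G hG
  have hs : ∀ x, x ∈ cnb G x := fun x => mem_cnb.2 (Or.inl rfl)
  have hsym : ∀ x y, x ∈ cnb G y → y ∈ cnb G x := by
    intro x y hxy
    rcases mem_cnb.1 hxy with h | h
    · exact mem_cnb.2 (Or.inl h.symm)
    · exact mem_cnb.2 (Or.inr h.symm)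
  have h1 := upper_of_E (N := cnb G) (K := k + 1) (H n) hs hsym (by omega)
    (conn_univ hG) (by rw [Finset.card_univ, Fintype.card_fin]; omega)
  obtain ⟨D, hD, hDc⟩ := exists_iso (N := cnb G) (K := k + 1) hs (Finset.univ : Finset (Fin n))
  refine ⟨D, ?_, isol_of_iso hD⟩
  rw [Nat.le_div_iff_mul_le (by omega), hDc]
  rw [Finset.card_univ, Fintype.card_fin] at h1
  calc f (cnb G) (k + 1) Finset.univ * (2 * k + 3)
      = (2 * (k + 1) + 1) * f (cnb G) (k + 1) Finset.univ := by ring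
    _ ≤ 2 * n := h1

end Pool.Agent.Star.K4
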