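import Pool.Agent.Star.K4.M2a

/-!
# `K = 4`, module M2c: optimal sets containing a given vertex (OPT) and (G4)
-/

set_option autoImplicit false
set_option linter.unusedSectionVars false
set_option linter.unusedVariables false

namespace Pool.Agent.Star.K4

open Finset Rig

section
variable {V : Type*} [DecidableEq V] [Fintype V] {N : V → Finset V}

/-- The values of the components of a proper set. -/
lemma VC.sumval (h : VC N) (hB : FactB N) {B : Finset V} {P : Finset (Finset V)}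
    (c : Comps N B P) (hne : B ≠ univ) :
    9 * ∑ U ∈ P, fv N U + ∑ U ∈ P, mu N U = 2 * B.card + na N P := by
  classical
  rw [c.card]
  unfold na
  rw [Finset.card_filter, Finset.mul_sum, Finset.mul_sum, ← Finset.sum_add_distrib,
    ← Finset.sum_add_distrib]
  apply Finset.sum_congr rfl
  intro U hU
  by_cases hA : ExA N U
  · rw [if_pos hA]
    obtain ⟨a1, a2⟩ := hA
    unfold mu
    rw [a1, a2]
    norm_num
  · rw [if_neg hA]
    have hU' : U ≠ univ := by
      rintro rfl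
      exact hne (Finset.eq_univ_iff_forall.2 fun x => (c.cl _ hU).1 (Finset.mem_univ x))
    rcases h.val' hB U hU' (c.conn U hU) with h4 | h4
    · exact absurd h4 hA
    · exact h4

/-- Killing sets built from the components of `U \ Q`. -/
lemma VC.split (h : VC N) {U Q Y : Finset V} {P : Finset (Finset V)} (c : Comps N (U \ Q) P)
    (hY : Y ⊆ U) (hk : ∀ c, Cub N c → N c ⊆ U → (∃ x ∈ N c, x ∈ Q) → ∃ y ∈ Y, ∃ x ∈ N c, x ∈ N y) :
    ∃ D ⊆ U, Y ⊆ D ∧ KI N D U ∧ D.card ≤ Y.card + ∑ W ∈ P, fv N W := by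
  classical
  choose D1 hD1 hD1k hD1c using h.opt'
  refine ⟨Y ∪ P.biUnion D1, ?_, Finset.subset_union_left, ?_, ?_⟩
  · apply Finset.union_subset hY
    intro x hx
    obtain ⟨W, hW, hxW⟩ := Finset.mem_biUnion.1 hx
    exact (Finset.mem_sdiff.1 ((c.cl W hW).1 (hD1 W hxW))).1
  · intro x hx hxU
    by_cases hxQ : ∃ y ∈ N x, y ∈ Q
    · obtain ⟨y, hy, w, hw, hwy⟩ := hk x hx hxU hxQ
      exact ⟨y, Finset.mem_union_left _ hy, w, hw, hwy⟩
    · push Not at hxQ
      obtain ⟨W, hW, hxW⟩ := c.cover x (Finset.mem_sdiff.2 ⟨hxU (h.refl x), hxQ x (h.refl x)⟩)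
      have hNW : N x ⊆ W := fun y hy => (c.cl W hW).2 x hxW y
        (Finset.mem_sdiff.2 ⟨hxU hy, hxQ y hy⟩) hy
      obtain ⟨d, hd, w, hw, hwd⟩ := hD1k W x hx hNW
      exact ⟨d, Finset.mem_union_right _ (Finset.mem_biUnion.2 ⟨W, hW, hd⟩), w, hw, hwd⟩
  · have h6 := Finset.card_union_le Y (P.biUnion D1)
    have h8 : (P.biUnion D1).card ≤ ∑ W ∈ P, (D1 W).card := Finset.card_biUnion_le
    have h9 : ∑ W ∈ P, (D1 W).card = ∑ W ∈ P, fv N W :=
      Finset.sum_congr rfl (fun W _ => hD1c W)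
    omega

open Classical in
/-- A vertex touches at most as many components as it has neighbours there. -/
lemma touch_le {B : Finset V} {P : Finset (Finset V)} (c : Comps N B P) (y : V) (S : Finset V)
    (hS : ∀ x ∈ N y, x ∈ B → x ∈ S) : (P.filter (fun W => Tch N y W)).card ≤ S.card := by
  have h1 : ∀ W : Finset V, ∃ x : V, W ∈ P.filter (fun W => Tch N y W) → x ∈ W ∧ x ∈ N y := by
    intro W
    by_cases hW : W ∈ P.filter (fun W => Tch N y W)
    · obtain ⟨x, hx, hxy⟩ := (Finset.mem_filter.1 hW).2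
      exact ⟨x, fun _ => ⟨hx, hxy⟩⟩
    · exact ⟨y, fun hh => absurd hh hW⟩
  choose g hg using h1
  apply Finset.card_le_card_of_injOn g
  · intro W hW
    obtain ⟨h2, h3⟩ := hg W hW
    exact hS _ h3 ((c.cl W (Finset.mem_filter.1 hW).1).1 h2)
  · intro W hW W' hW' heq
    obtain ⟨h2, h3⟩ := hg W hW
    obtain ⟨h4, h5⟩ := hg W' hW'
    rw [← heq] at h4
    exact c.eq_of_mem (Finset.mem_filter.1 hW).1 (Finset.mem_filter.1 hW').1 h2 h4

/-- (OPT) -/
theorem VC.optm' (h : VC N) (hB : FactB N) (U : Finset V) (hU : U ≠ univ) (hc : Conn N U)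
    (hmu : mu N U ≤ 1) (m : V) (hm : m ∈ U) (hmo : ¬ N m ⊆ U) :
    ∃ D ⊆ U, m ∈ D ∧ KI N D U ∧ D.card = fv N U := by
  classical
  obtain ⟨P, c⟩ := exists_comps (N := N) h.symm (U \ N m)
  obtain ⟨D, hD1, hD2, hD3, hD4⟩ := h.split c (Y := {m}) (Finset.singleton_subset_iff.2 hm)
    (fun x _ _ hx => by
      obtain ⟨y, hy, hyQ⟩ := hx
      exact ⟨m, Finset.mem_singleton_self m, y, hy, hyQ⟩)
  rw [Finset.card_singleton] at hD4
  have hfv := h.fvle' U D hD1 hD3
  by_cases hle : 1 + ∑ W ∈ P, fv N W ≤ fv N U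
  · exact ⟨D, hD1, hD2 (Finset.mem_singleton_self m), hD3, by omega⟩
  exfalso
  have hne : U \ N m ≠ univ := by
    intro hh
    have : m ∈ U \ N m := by rw [hh]; exact Finset.mem_univ m
    exact (Finset.mem_sdiff.1 this).2 (h.refl m)
  have hsum := h.sumval hB c hne
  have hcard : (U \ N m).card + (N m ∩ U).card = U.card := by
    rw [Finset.inter_comm]
    exact Finset.card_sdiff_add_card_inter U (N m)
  have hval : 2 * U.card ≤ 9 * fv N U + mu N U := by
    rcases h.val' hB U hU hc with h1 | h1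
    · rw [h1.1, h1.2]; omega
    · omega
  have hma : m ∈ N m ∩ U := Finset.mem_inter.2 ⟨h.refl m, hm⟩
  have herase : ((N m ∩ U).erase m).card + 1 = (N m ∩ U).card := Finset.card_erase_add_one hma
  -- every component is touched by a neighbour of `m` in `U`
  have htch : ∀ W ∈ P, ∃ y ∈ (N m ∩ U).erase m, Tch N y W := by
    intro W hW
    have hWU : W ⊆ U := (c.cl W hW).1.trans Finset.sdiff_subset
    have hmW : m ∉ W := fun hh => (Finset.mem_sdiff.1 ((c.cl W hW).1 hh)).2 (h.refl m)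
    obtain ⟨x, hx, y, hy, hyW, hyx⟩ := hc.2 W hWU (c.conn W hW).1 (by rintro rfl; exact hmW hm)
    have hym : y ∈ N m := by
      by_contra hym
      exact hyW ((c.cl W hW).2 x hx y (Finset.mem_sdiff.2 ⟨hy, hym⟩) hyx)
    refine ⟨y, Finset.mem_erase.2 ⟨?_, Finset.mem_inter.2 ⟨hym, hy⟩⟩, x, hx, h.symm _ _ hyx⟩
    rintro rfl
    exact (Finset.mem_sdiff.1 ((c.cl W hW).1 hx)).2 (h.symm _ _ hyx)
  have htwo : ∀ y ∈ (N m ∩ U).erase m, (P.filter (fun W => Tch N y W)).card ≤ 2 := by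
    intro y hy
    obtain ⟨hym, hyN⟩ := Finset.mem_erase.1 hy
    have hyN' := (Finset.mem_inter.1 hyN).1
    have h1 : (P.filter (fun W => Tch N y W)).card ≤ (((N y).erase y).erase m).card := by
      apply touch_le c
      intro x hx hxB
      have hxm := (Finset.mem_sdiff.1 hxB).2
      refine Finset.mem_erase.2 ⟨?_, Finset.mem_erase.2 ⟨?_, hx⟩⟩
      · rintro rfl; exact hxm (h.refl x)
      · rintro rfl; exact hxm hyN'
    have h2 : (((N y).erase y).erase m).card + 1 = ((N y).erase y).card :=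
      Finset.card_erase_add_one (Finset.mem_erase.2 ⟨Ne.symm hym, h.symm _ _ hyN'⟩)
    have h3 : ((N y).erase y).card + 1 = (N y).card := Finset.card_erase_add_one (h.refl y)
    have h4 := h.deg y
    omega
  have hcnt : P.card ≤ 2 * ((N m ∩ U).erase m).card := by
    have h5 : P ⊆ ((N m ∩ U).erase m).biUnion (fun y => P.filter (fun W => Tch N y W)) := by
      intro W hW
      obtain ⟨y, hy, hyW⟩ := htch W hW
      exact Finset.mem_biUnion.2 ⟨y, hy, Finset.mem_filter.2 ⟨hW, hyW⟩⟩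
    calc P.card ≤ _ := Finset.card_le_card h5
      _ ≤ ∑ y ∈ (N m ∩ U).erase m, (P.filter (fun W => Tch N y W)).card :=
          Finset.card_biUnion_le
      _ ≤ ∑ y ∈ (N m ∩ U).erase m, 2 := Finset.sum_le_sum htwo
      _ = 2 * ((N m ∩ U).erase m).card := by rw [Finset.sum_const, smul_eq_mul, Nat.mul_comm]
  have hna : na N P ≤ P.card := by
    unfold na
    exact Finset.card_filter_le _ _
  omega

/-- The common part of (G4): an optimal set of `U` hits the crossing stars. -/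
lemma VC.g4_aux (h : VC N) (hB : FactB N) {U : Finset V} (hU : U ≠ univ) (hc : Conn N U)
    (hR : Conn N (univ \ U)) (hmu : mu N U ≤ 1) (hA : ¬ ExA N U) {D : Finset V}
    (hD : KI N D U) (hDc : D.card = fv N U)
    (hcr : ∀ c, Cub N c → (∃ x ∈ N c, x ∈ U) → (∃ x ∈ N c, x ∉ U) →
      ∃ d ∈ D, ∃ x ∈ N c, x ∈ N d) : ExA N (univ \ U) := by
  classical
  by_contra hRA
  obtain ⟨D', h1, h2, h3⟩ := h.opt' (univ \ U)
  have h4 : KI N (D ∪ D') univ := by
    intro c hcc _
    by_cases hcU : ∃ x ∈ N c, x ∈ U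
    · by_cases hcR : ∃ x ∈ N c, x ∉ U
      · obtain ⟨d, hd, x, hx, hxd⟩ := hcr c hcc hcU hcR
        exact ⟨d, Finset.mem_union_left _ hd, x, hx, hxd⟩
      · push Not at hcR
        obtain ⟨d, hd, x, hx, hxd⟩ := hD c hcc hcR
        exact ⟨d, Finset.mem_union_left _ hd, x, hx, hxd⟩
    · push Not at hcU
      obtain ⟨d, hd, x, hx, hxd⟩ := h2 c hcc
        (fun x hx => Finset.mem_sdiff.2 ⟨Finset.mem_univ _, hcU x hx⟩)
      exact ⟨d, Finset.mem_union_right _ hd, x, hx, hxd⟩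
  have h5 := h.lower' _ h4
  have h6 := Finset.card_union_le D D'
  have h7 : univ \ U ≠ univ := by
    intro hh
    obtain ⟨x, hx⟩ := hc.1
    have : x ∈ univ \ U := by rw [hh]; exact Finset.mem_univ x
    exact (Finset.mem_sdiff.1 this).2 hx
  rcases h.val' hB U hU hc with h8 | h8
  · exact hA h8
  rcases h.val' hB (univ \ U) h7 hR with h9 | h9
  · exact hRA h9
  have h10 : (univ \ U).card + U.card = Fintype.card V := by
    rw [← Finset.card_univ]
    exact Finset.card_sdiff_add_card_eq_card (Finset.subset_univ U)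
  have h11 := h.ex
  omega

/-- There is an edge between `U` and the rest. -/
lemma VS.cross (h : VS N) {U : Finset V} (hU : U ≠ univ) (hn : U.Nonempty) :
    ∃ u ∈ U, ∃ x, x ∉ U ∧ x ∈ N u := by
  obtain ⟨u, hu, x, _, hxU, hxu⟩ := h.conn.2 U (Finset.subset_univ _) hn hU
  exact ⟨u, hu, x, hxU, hxu⟩

/-- (G4), outside -/
theorem VC.g4o' (h : VC N) (hB : FactB N) (U : Finset V) (hU : U ≠ univ) (hc : Conn N U)
    (hR : Conn N (univ \ U)) (hmu : mu N U ≤ 1) (hA : ¬ ExA N U) (y : V) :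
    ∃ u ∈ U, ∃ x, x ∉ U ∧ x ∈ N u ∧ x ≠ y := by
  classical
  by_contra hcon
  push Not at hcon
  obtain ⟨m, hm, y', hy', hym⟩ := VS.cross h.toVS hU hc.1
  have hyy : y' = y := hcon m hm y' hy' hym
  subst hyy
  obtain ⟨D, hD1, hD2, hD3, hD4⟩ := h.optm' hB U hU hc hmu m hm (fun hh => hy' (hh hym))
  -- a star with `y'` is hit
  have hhit : ∀ c, y' ∈ N c → ∃ d ∈ D, ∃ x ∈ N c, x ∈ N d :=
    fun c hyc => ⟨m, hD2, y', hyc, hym⟩
  have hcr : ∀ c, Cub N c → (∃ x ∈ N c, x ∈ U) → (∃ x ∈ N c, x ∉ U) →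
      ∃ d ∈ D, ∃ x ∈ N c, x ∈ N d := by
    rintro c hcc ⟨x, hx, hxU⟩ ⟨w, hw, hwU⟩
    by_cases hcU : c ∈ U
    · have := hcon c hcU w hwU hw
      subst this
      exact hhit c hw
    · have := hcon x hxU c hcU (h.symm _ _ hx)
      subst this
      exact hhit c (h.refl c)
  have hRA := h.g4_aux hB hU hc hR hmu hA hD3 hD4 hcr
  obtain ⟨t, ht, hRt⟩ := h.exA1 _ hRA
  have h4 : KI N D univ := by
    intro c hcc _
    by_cases hcU : ∃ x ∈ N c, x ∈ U
    · by_cases hcR : ∃ x ∈ N c, x ∉ U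
      · exact hcr c hcc hcU hcR
      · push Not at hcR
        exact hD3 c hcc hcR
    · push Not at hcU
      have h1 : N c ⊆ univ \ U :=
        fun x hx => Finset.mem_sdiff.2 ⟨Finset.mem_univ _, hcU x hx⟩
      have h2 : N c = univ \ U :=
        Finset.eq_of_subset_of_card_le h1 (by rw [hRA.1]; exact hcc.ge)
      exact hhit c (by rw [h2]; exact Finset.mem_sdiff.2 ⟨Finset.mem_univ _, hy'⟩)
  have h5 := h.lower' _ h4
  rcases h.val' hB U hU hc with h8 | h8
  · exact hA h8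
  have h10 : (univ \ U).card + U.card = Fintype.card V := by
    rw [← Finset.card_univ]
    exact Finset.card_sdiff_add_card_eq_card (Finset.subset_univ U)
  have h11 := h.ex
  have h12 := hRA.1
  omega

/-- (G4), inside -/
theorem VC.g4i' (h : VC N) (hB : FactB N) (U : Finset V) (hU : U ≠ univ) (hc : Conn N U)
    (hR : Conn N (univ \ U)) (hmu : mu N U ≤ 1) (hA : ¬ ExA N U) (y : V) :
    ∃ u ∈ U, ∃ x, x ∉ U ∧ x ∈ N u ∧ u ≠ y := by
  classical
  by_contra hcon
  push Not at hcon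
  obtain ⟨m, hm, w, hw, hwm⟩ := VS.cross h.toVS hU hc.1
  have hmy : m = y := hcon m hm w hw hwm
  subst hmy
  obtain ⟨D, hD1, hD2, hD3, hD4⟩ := h.optm' hB U hU hc hmu m hm (fun hh => hw (hh hwm))
  have hcr : ∀ c, Cub N c → (∃ x ∈ N c, x ∈ U) → (∃ x ∈ N c, x ∉ U) →
      ∃ d ∈ D, ∃ x ∈ N c, x ∈ N d := by
    rintro c hcc ⟨x, hx, hxU⟩ ⟨w, hw, hwU⟩
    by_cases hcU : c ∈ U
    · have := hcon c hcU w hwU hw
      subst this
      exact ⟨c, hD2, c, h.refl c, h.refl c⟩
    · have := hcon x hxU c hcU (h.symm _ _ hx)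
      subst this
      exact ⟨x, hD2, x, hx, h.refl x⟩
  have hRA := h.g4_aux hB hU hc hR hmu hA hD3 hD4 hcr
  obtain ⟨t, ht, hRt⟩ := h.exA1 _ hRA
  obtain ⟨u, hu, x, hx, hxu, hne⟩ := h.cut' t m ht
  rw [← hRt] at hu hx
  have hxU : x ∈ U := by
    by_contra hxU
    exact hx (Finset.mem_sdiff.2 ⟨Finset.mem_univ _, hxU⟩)
  exact hne (hcon x hxU u (Finset.mem_sdiff.1 hu).2 (h.symm _ _ hxu))

end

end Pool.Agent.Star.K4
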