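import Pool.Agent.Star.K4.M2c

/-!
# `K = 4`, module M2d: tight sets are critical (T), and (M1)
-/

set_option autoImplicit false
set_option linter.unusedSectionVars false
set_option linter.unusedVariables false

namespace Pool.Agent.Star.K4

open Finset Rig

section
variable {V : Type*} [DecidableEq V] [Fintype V] {N : V → Finset V}

/-- The components of `U \ {x}`: the counting bound with savings. -/
lemma VC.split_sav (h : VC N) {U : Finset V} {x : V} (hx : x ∈ U) {P : Finset (Finset V)}
    (c : Comps N (U \ {x}) P) {T : Finset (Finset V)} (hT : T ⊆ P) (hs : ∀ W ∈ T, Sav N W x) :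
    fv N U + T.card ≤ 1 + ∑ W ∈ P, fv N W := by
  classical
  choose D1 hD1 hD1k hD1c using h.opt'
  have h2 : ∀ W : Finset V, ∃ D : Finset V, W ∈ T → D ⊆ W ∧
      (∀ c, Cub N c → N c ⊆ W → (∃ y ∈ N c, y ∈ N x) ∨ ∃ d ∈ D, ∃ y ∈ N c, y ∈ N d) ∧
      D.card + 1 ≤ fv N W := by
    intro W
    by_cases hW : W ∈ T
    · obtain ⟨D, h3, h4, h5⟩ := hs W hW
      exact ⟨D, fun _ => ⟨h3, h4, h5⟩⟩
    · exact ⟨∅, fun hc => absurd hc hW⟩
  choose D2 hD2 using h2
  have hsub : ∀ W ∈ P, (if W ∈ T then D2 W else D1 W) ⊆ W := by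
    intro W hW
    by_cases hWT : W ∈ T
    · simp only [hWT, if_true]; exact (hD2 W hWT).1
    · simp only [hWT, if_false]; exact hD1 W
  have h3 : KI N ({x} ∪ P.biUnion (fun W => if W ∈ T then D2 W else D1 W)) U := by
    intro y hy hyU
    by_cases hxy : x ∈ N y
    · exact ⟨x, Finset.mem_union_left _ (Finset.mem_singleton_self x), x, hxy, h.refl x⟩
    · obtain ⟨W, hW, hyW⟩ := c.cover y (Finset.mem_sdiff.2 ⟨hyU (h.refl y), by
        rw [Finset.mem_singleton]
        rintro rfl
        exact hxy (h.refl _)⟩)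
      have hNW : N y ⊆ W := fun w hw => (c.cl W hW).2 y hyW w
        (Finset.mem_sdiff.2 ⟨hyU hw, by
          rw [Finset.mem_singleton]
          rintro rfl
          exact hxy hw⟩) hw
      by_cases hWT : W ∈ T
      · rcases (hD2 W hWT).2.1 y hy hNW with ⟨w, hw, hwe⟩ | ⟨d, hd, w, hw, hwd⟩
        · exact ⟨x, Finset.mem_union_left _ (Finset.mem_singleton_self x), w, hw, hwe⟩
        · refine ⟨d, Finset.mem_union_right _ (Finset.mem_biUnion.2 ⟨W, hW, ?_⟩), w, hw, hwd⟩
          simp only [hWT, if_true]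
          exact hd
      · obtain ⟨d, hd, w, hw, hwd⟩ := hD1k W y hy hNW
        refine ⟨d, Finset.mem_union_right _ (Finset.mem_biUnion.2 ⟨W, hW, ?_⟩), w, hw, hwd⟩
        simp only [hWT, if_false]
        exact hd
  have h4 := h.fvle' U _ (by
    apply Finset.union_subset (Finset.singleton_subset_iff.2 hx)
    intro y hy
    obtain ⟨W, hW, hyW⟩ := Finset.mem_biUnion.1 hy
    exact (Finset.mem_sdiff.1 ((c.cl W hW).1 (hsub W hW hyW))).1) h3
  have h5 : ∑ W ∈ P, (if W ∈ T then D2 W else D1 W).card + T.card ≤ ∑ W ∈ P, fv N W := by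
    have h6 : T.card = ∑ W ∈ P, (if W ∈ T then 1 else 0) := by
      rw [← Finset.card_filter]
      congr 1
      ext W
      rw [Finset.mem_filter]
      exact ⟨fun hW => ⟨hT hW, hW⟩, fun hW => hW.2⟩
    rw [h6, ← Finset.sum_add_distrib]
    apply Finset.sum_le_sum
    intro W hW
    by_cases hWT : W ∈ T
    · simp only [hWT, if_true]; exact (hD2 W hWT).2.2
    · simp only [hWT, if_false]; rw [hD1c W]; omega
  have h6 := Finset.card_union_le {x} (P.biUnion (fun W => if W ∈ T then D2 W else D1 W))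
  have h8 : (P.biUnion (fun W => if W ∈ T then D2 W else D1 W)).card ≤
      ∑ W ∈ P, (if W ∈ T then D2 W else D1 W).card := Finset.card_biUnion_le
  rw [Finset.card_singleton] at h6
  omega

/-- Without a saving at `e ~ x`, the components of `U \ {x}` have at least the value of `U`. -/
lemma VC.nosav (h : VC N) {U : Finset V} {x e : V} (hx : x ∈ U) (hxe : x ∈ N e)
    {P : Finset (Finset V)} (c : Comps N (U \ {x}) P) (hns : ¬ Sav N U e) :
    fv N U ≤ ∑ W ∈ P, fv N W := by
  classical
  by_contra hlt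
  apply hns
  choose D1 hD1 hD1k hD1c using h.opt'
  refine ⟨P.biUnion D1, ?_, ?_, ?_⟩
  · intro y hy
    obtain ⟨W, hW, hyW⟩ := Finset.mem_biUnion.1 hy
    exact (Finset.mem_sdiff.1 ((c.cl W hW).1 (hD1 W hyW))).1
  · intro y hy hyU
    by_cases hxy : x ∈ N y
    · exact Or.inl ⟨x, hxy, hxe⟩
    · right
      obtain ⟨W, hW, hyW⟩ := c.cover y (Finset.mem_sdiff.2 ⟨hyU (h.refl y), by
        rw [Finset.mem_singleton]
        rintro rfl
        exact hxy (h.refl _)⟩)
      have hNW : N y ⊆ W := fun w hw => (c.cl W hW).2 y hyW w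
        (Finset.mem_sdiff.2 ⟨hyU hw, by
          rw [Finset.mem_singleton]
          rintro rfl
          exact hxy hw⟩) hw
      obtain ⟨d, hd, w, hw, hwd⟩ := hD1k W y hy hNW
      exact ⟨d, Finset.mem_biUnion.2 ⟨W, hW, hd⟩, w, hw, hwd⟩
  · have h8 : (P.biUnion D1).card ≤ ∑ W ∈ P, (D1 W).card := Finset.card_biUnion_le
    have h9 : ∑ W ∈ P, (D1 W).card = ∑ W ∈ P, fv N W :=
      Finset.sum_congr rfl (fun W _ => hD1c W)
    omega

/-- All components of `U \ {x}` are touched by `x`. -/
lemma VC.tch_comp (h : VC N) {U : Finset V} {x : V} (hx : x ∈ U) (hc : Conn N U)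
    {P : Finset (Finset V)} (c : Comps N (U \ {x}) P) : ∀ W ∈ P, Tch N x W := by
  intro W hW
  have hWU : W ⊆ U := (c.cl W hW).1.trans Finset.sdiff_subset
  have hxW : x ∉ W := fun hh =>
    (Finset.mem_sdiff.1 ((c.cl W hW).1 hh)).2 (Finset.mem_singleton_self x)
  obtain ⟨w, hw, y, hy, hyW, hyw⟩ := hc.2 W hWU (c.conn W hW).1 (by rintro rfl; exact hxW hx)
  have hyx : y = x := by
    by_contra hyx
    exact hyW ((c.cl W hW).2 w hw y (Finset.mem_sdiff.2 ⟨hy, by
      rw [Finset.mem_singleton]; exact hyx⟩) hyw)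
  subst hyx
  exact ⟨w, hw, h.symm _ _ hyw⟩

lemma sdiff_one_ne {U : Finset V} {x : V} : U \ {x} ≠ univ := by
  intro hh
  have : x ∈ U \ {x} := by rw [hh]; exact Finset.mem_univ x
  exact (Finset.mem_sdiff.1 this).2 (Finset.mem_singleton_self x)

/-- (T) -/
theorem VC.tight' (h : VC N) (hB : FactB N) (U : Finset V) (hU : U ≠ univ) (hc : Conn N U)
    (hmu : mu N U = 0) (e : V) (he : Tch N e U) : Sav N U e := by
  classical
  by_cases hA : ExA N U
  · exact h.savA hA he
  obtain ⟨x, hx, hxe⟩ := he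
  by_contra hns
  obtain ⟨P, c⟩ := exists_comps (N := N) h.symm (U \ {x})
  have h1 := h.nosav hx hxe c hns
  have h2 := h.sumval hB c sdiff_one_ne
  have h3 : (U \ {x}).card + 1 = U.card := by
    have := Finset.card_sdiff_add_card_eq_card (Finset.singleton_subset_iff.2 hx)
    rwa [Finset.card_singleton] at this
  have h4 := h.split_sav hx c (T := P.filter (ExA N)) (Finset.filter_subset _ _)
    (fun W hW => h.savA (Finset.mem_filter.1 hW).2
      (h.tch_comp hx hc c W (Finset.mem_filter.1 hW).1))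
  have h5 : na N P = (P.filter (ExA N)).card := rfl
  rcases h.val' hB U hU hc with h6 | h6
  · exact hA h6
  omega

/-- (M1) -/
theorem VC.mu1' (h : VC N) (hB : FactB N) (U : Finset V) (hU : U ≠ univ) (hc : Conn N U)
    (hmu : mu N U = 1) (e : V) (y : V) (hy : y ∈ U) (hye : y ∈ N e) (hns : ¬ Sav N U e) :
    U.card = 5 ∧ fv N U = 1 ∧ ∃ t, Cub N t ∧ U.erase y = N t := by
  classical
  have hA : ¬ ExA N U := by
    rintro ⟨a1, a2⟩
    unfold mu at hmu
    rw [a1, a2] at hmu
    omega
  obtain ⟨P, c⟩ := exists_comps (N := N) h.symm (U \ {y})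
  have h1 := h.nosav hy hye c hns
  have h2 := h.sumval hB c sdiff_one_ne
  have h3 : (U \ {y}).card + 1 = U.card := by
    have := Finset.card_sdiff_add_card_eq_card (Finset.singleton_subset_iff.2 hy)
    rwa [Finset.card_singleton] at this
  have hWu : ∀ W ∈ P, W ≠ univ := by
    rintro W hW rfl
    exact (Finset.mem_sdiff.1 ((c.cl _ hW).1 (Finset.mem_univ y))).2 (Finset.mem_singleton_self y)
  have h4 := h.split_sav hy c (T := P.filter (fun W => mu N W = 0)) (Finset.filter_subset _ _)
    (fun W hW => h.tight' hB W (hWu W (Finset.mem_filter.1 hW).1)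
      (c.conn W (Finset.mem_filter.1 hW).1) (Finset.mem_filter.1 hW).2 y
      (h.tch_comp hy hc c W (Finset.mem_filter.1 hW).1))
  have h5 : na N P ≤ (P.filter (fun W => mu N W = 0)).card := by
    unfold na
    apply Finset.card_le_card
    intro W hW
    rw [Finset.mem_filter] at hW ⊢
    refine ⟨hW.1, ?_⟩
    unfold mu
    rw [hW.2.1, hW.2.2]
  rcases h.val' hB U hU hc with h6 | h6
  · exact absurd h6 hA
  -- all components have `mu = 0`, there is exactly one, and it is exceptional
  have h7 : ∑ W ∈ P, mu N W = 0 := by omega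
  have h8 : na N P = 1 := by omega
  have h9 : (P.filter (fun W => mu N W = 0)).card = 1 := by omega
  have h10 : P.filter (fun W => mu N W = 0) = P := by
    apply Finset.filter_true_of_mem
    intro W hW
    have := Finset.single_le_sum (f := mu N) (fun _ _ => Nat.zero_le _) hW
    omega
  rw [h10] at h9
  obtain ⟨W, hW⟩ := Finset.card_eq_one.1 h9
  have hWP : W ∈ P := by rw [hW]; exact Finset.mem_singleton_self W
  have hWA : ExA N W := by
    unfold na at h8
    obtain ⟨W', hW'⟩ := Finset.card_pos.1 (by rw [h8]; exact Nat.one_pos : 0 < (P.filter (ExA N)).card)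
    obtain ⟨h11, h12⟩ := Finset.mem_filter.1 hW'
    rw [hW, Finset.mem_singleton] at h11
    exact h11 ▸ h12
  have hUW : U.erase y = W := by
    rw [Finset.erase_eq, ← c.biUnion, hW]
    simp
  obtain ⟨t, ht, hWt⟩ := h.exA1 W hWA
  have h13 : U.card = 5 := by
    have := Finset.card_erase_add_one hy
    rw [hUW, hWA.1] at this
    omega
  refine ⟨h13, by omega, t, ht, by rw [hUW, hWt]⟩

end

end Pool.Agent.Star.K4
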