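import Pool.Agent.Star.K4.Spec

/-!
# `K = 4`, module M4, part (2b): all degrees are at most three

`deg3_of_nob`: if no component of the complement of a closed neighbourhood is exceptional with
eight vertices, then all degrees are at most three.
-/

set_option autoImplicit false
set_option linter.unusedSectionVars false
set_option linter.unusedVariables false

namespace Pool.Agent.Star.K4.M4b

open Finset Rig

section
variable {V : Type*} [DecidableEq V] [Fintype V] {N : V → Finset V}

/-- The exceptional sets. -/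
def Ex (N : V → Finset V) (U : Finset V) : Prop :=
  (U.card = 4 ∧ fv N U = 1) ∨ (U.card = 8 ∧ fv N U = 2)

lemma opt (h : VS N) (U : Finset V) :
    ∃ D, D ⊆ U ∧ Kills N D (stars N 4 U) ∧ D.card = fv N U :=
  exists_gk h.refl stars_sys.sub (fun S hS => stars_sys.nonempty hS)

lemma st_of {U W S : Finset V} (hS : S ∈ stars N 4 W) (hSU : S ⊆ U) : S ∈ stars N 4 U := by
  rw [mem_stars] at hS ⊢
  exact ⟨hSU, hS.2⟩

lemma st_sub {W S : Finset V} (hS : S ∈ stars N 4 W) : S ⊆ W := (mem_stars.1 hS).1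

lemma res_st {U A : Finset V} (hUA : U ⊆ A) : res (stars N 4 A) U = stars N 4 U := by
  ext S
  rw [mem_res]
  exact ⟨fun hS => st_of hS.1 hS.2, fun hS => ⟨st_of hS ((st_sub hS).trans hUA), st_sub hS⟩⟩

lemma res_far {z : V} {U : Finset V} (hU : ∀ x ∈ U, x ∉ N z) :
    res (far N (stars N 4 univ) {z}) U = stars N 4 U := by
  ext S
  rw [mem_res, mem_far]
  constructor
  · rintro ⟨⟨h1, _⟩, h2⟩
    exact st_of h1 h2
  · intro hS
    refine ⟨⟨st_of hS (Finset.subset_univ _), ?_⟩, st_sub hS⟩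
    rintro ⟨d, hd, x, hx, hxd⟩
    rw [Finset.mem_singleton] at hd
    subst hd
    exact hU x (st_sub hS hx) hxd

/-- The union bound. -/
lemma cnt (h : VS N) {A Q Y : Finset V} {P T : Finset (Finset V)} (hP : Comps N (A \ Q) P)
    (hYA : Y ⊆ A) (hdead : ∀ S ∈ stars N 4 A, ¬ S ⊆ A \ Q → Hit N Y S) (hTP : T ⊆ P)
    (hT : ∀ U ∈ T, ∃ D ⊆ A, (∀ S ∈ stars N 4 U, Hit N Y S ∨ Hit N D S) ∧
      D.card + 1 ≤ fv N U) :
    fv N A + T.card ≤ Y.card + ∑ U ∈ P, fv N U := by
  classical
  have h0 : ∀ U : Finset V, ∃ D : Finset V, (U ∈ P → D ⊆ A) ∧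
      (U ∈ P → ∀ S ∈ stars N 4 U, Hit N Y S ∨ Hit N D S) ∧
      (U ∈ P → D.card + (if U ∈ T then 1 else 0) ≤ fv N U) := by
    intro U
    by_cases hU : U ∈ T
    · obtain ⟨D, h1, h2, h3⟩ := hT U hU
      exact ⟨D, fun _ => h1, fun _ => h2, fun _ => by rw [if_pos hU]; exact h3⟩
    · obtain ⟨D, h1, h2, h3⟩ := opt h U
      exact ⟨D, fun hUP => h1.trans ((hP.cl U hUP).1.trans Finset.sdiff_subset),
        fun _ S hS => Or.inr (h2 S hS), fun _ => by rw [if_neg hU]; omega⟩
  choose D h1 h2 h3 using h0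
  have h4 := gk_le_union (K := 4) (C := stars N 4 A) (C' := stars N 4 A) (Y := Y) hP stars_sys
    Finset.sdiff_subset hYA (Finset.Subset.refl _) D h1 hdead
    (fun U hU S hS hSU => h2 U hU S (st_of hS hSU))
  have h5 : ∑ U ∈ P, (D U).card + T.card ≤ ∑ U ∈ P, fv N U := by
    have h6 : T.card = ∑ U ∈ P, (if U ∈ T then 1 else 0) := by
      rw [← Finset.card_filter]
      congr 1
      ext U
      rw [Finset.mem_filter]
      exact ⟨fun hU => ⟨hTP hU, hU⟩, fun hU => hU.2⟩
    rw [h6, ← Finset.sum_add_distrib]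
    exact Finset.sum_le_sum (fun U hU => h3 U hU)
  have h7 : fv N A ≤ Y.card + ∑ U ∈ P, (D U).card := h4
  omega

/-- All vertices of an exceptional set are critical. -/
lemma critS (h : VS N) {U : Finset V} (hne : U ≠ univ) (hT : Ex N U) {x : V} (hx : x ∈ U) :
    ∃ D ⊆ U, (∀ S ∈ stars N 4 U, x ∉ S → Hit N D S) ∧ D.card + 1 ≤ fv N U := by
  have hss : U ⊂ univ := Finset.ssubset_iff_subset_ne.2 ⟨Finset.subset_univ U, hne⟩
  obtain ⟨D, h1, h2, h3⟩ := crit (K := 4) (C := stars N 4 U) h.refl h.symm stars_sys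
    (fun A' hA' C' hC' => h.vs0.hE A' (hA'.trans hss) C'
      (hC'.trans (fun S hS => st_of hS (Finset.subset_univ _)))) hT hx
  refine ⟨D, h1, ?_, h3⟩
  intro S hS hxS
  refine h2 S (mem_res.2 ⟨hS, fun y hy => Finset.mem_erase.2 ⟨?_, st_sub hS hy⟩⟩)
  rintro rfl
  exact hxS hy

open Classical in
/-- The accounting. -/
lemma acc (h : VS N) {B : Finset V} {P : Finset (Finset V)} (hP : Comps N B P)
    (hB : B ≠ univ) :
    9 * ∑ U ∈ P, fv N U + ∑ U ∈ P, mu N U = 2 * B.card + ∑ U ∈ P.filter (Ex N), fv N U := by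
  rw [hP.card, Finset.mul_sum, Finset.mul_sum, Finset.sum_filter, ← Finset.sum_add_distrib,
    ← Finset.sum_add_distrib]
  apply Finset.sum_congr rfl
  intro U hU
  have hne : U ≠ univ := by
    rintro rfl
    exact hB (Finset.univ_subset_iff.1 (hP.cl _ hU).1)
  unfold mu
  rcases h.small U hne (hP.conn U hU) with h1 | ⟨h1, h2⟩ | ⟨h1, h2⟩
  · by_cases hE : Ex N U
    · exfalso
      rcases hE with ⟨h3, h4⟩ | ⟨h3, h4⟩ <;> omega
    · rw [if_neg hE]; omega
  · have hE : Ex N U := Or.inl ⟨h1, h2⟩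
    rw [if_pos hE]; omega
  · have hE : Ex N U := Or.inr ⟨h1, h2⟩
    rw [if_pos hE]; omega

open Classical in
/-- The structure around one vertex. -/
lemma degz (h : VS N) {z : V} (hd : (N z).card ≤ 8) {P : Finset (Finset V)}
    (hP : Comps N (univ \ N z) P) :
    fv N univ = ∑ U ∈ P, fv N U + 1 ∧
    2 * (P.filter (Ex N)).card + 1 ≤ (N z).card ∧
    (∀ r ∈ (N z).erase z, ((P.filter (Ex N)).filter (Tch N r)).card ≤ 1) ∧
    (∀ U ∈ P.filter (Ex N), ∃ r ∈ (N z).erase z, ∃ r' ∈ (N z).erase z, r ≠ r' ∧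
      Tch N r U ∧ Tch N r' U) := by
  have hex : (2 * 4 + 1) * gk N univ (stars N 4 univ) = 2 * (univ : Finset V).card + 1 := by
    have h1 := h.ex
    unfold fv at h1
    rw [Finset.card_univ]
    omega
  have hins : insert z ((N z).erase z) = N z := Finset.insert_erase (h.refl z)
  have hc : ((N z).erase z).card + 1 = (N z).card := Finset.card_erase_add_one (h.refl z)
  have hP' : Comps N (univ \ insert z ((N z).erase z)) P := by rw [hins]; exact hP
  have hout : ∀ U ∈ P, ∀ x ∈ U, x ∉ N z := fun U hU x hx =>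
    (Finset.mem_sdiff.1 ((hP.cl U hU).1 hx)).2
  have hexc : exc N 4 (far N (stars N 4 univ) {z}) P = P.filter (Ex N) := by
    ext U
    rw [mem_exc, Finset.mem_filter]
    apply and_congr_right
    intro hU
    rw [res_far (hout U hU)]
    exact Iff.rfl
  have h1 := h.vs0.deg hex (Finset.mem_univ z) (Finset.subset_univ ((N z).erase z))
    (fun r hr => Finset.mem_of_mem_erase hr) (Finset.notMem_erase z _) (by omega) hP'
  rw [hexc] at h1
  obtain ⟨h2, h3, h4, h5⟩ := h1
  refine ⟨?_, by omega, ?_, ?_⟩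
  · have h6 : ∑ U ∈ P, gk N U (res (far N (stars N 4 univ) {z}) U) = ∑ U ∈ P, fv N U :=
      Finset.sum_congr rfl (fun U hU => by rw [res_far (hout U hU)]; rfl)
    rw [h6] at h2
    exact h2
  · intro r hr
    convert h5 r hr
    exact Iff.rfl
  · intro U hU
    exact h.vs0.two_touch hex (Finset.mem_univ z) (Finset.subset_univ _) hP' (hexc ▸ hU)

/-- No exceptional components with eight vertices. -/
def NoB (N : V → Finset V) : Prop :=
  ∀ (z : V) (P : Finset (Finset V)), Comps N (univ \ N z) P → ∀ U ∈ P, U.card = 8 → fv N U ≠ 2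

lemma deg_eight (h : VS N) (z : V) : (N z).card ≤ 8 := by
  have hex : (2 * 4 + 1) * gk N univ (stars N 4 univ) = 2 * (univ : Finset V).card + 1 := by
    have h1 := h.ex
    unfold fv at h1
    rw [Finset.card_univ]
    omega
  have h1 := h.vs0.deg_le hex (Finset.mem_univ z)
  rw [Finset.inter_univ] at h1
  have hc : ((N z).erase z).card + 1 = (N z).card := Finset.card_erase_add_one (h.refl z)
  omega

open Classical in
/-- Around a vertex of degree at least four. -/
lemma loc (h : VS N) (hnob : NoB N) {z : V} (hz : 5 ≤ (N z).card) {P : Finset (Finset V)}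
    (hP : Comps N (univ \ N z) P) :
    (N z).card = 5 ∧ (P.filter (Ex N)).card = 2 ∧ (∀ U ∈ P, mu N U = 0) := by
  obtain ⟨h1, h2, h3, h4⟩ := degz h (deg_eight h z) hP
  have hne : univ \ N z ≠ univ := by
    intro hh
    have : z ∈ univ \ N z := by rw [hh]; exact Finset.mem_univ z
    exact (Finset.mem_sdiff.1 this).2 (h.refl z)
  have h5 := acc h hP hne
  have h6 : ∑ U ∈ P.filter (Ex N), fv N U = (P.filter (Ex N)).card := by
    rw [Finset.card_eq_sum_ones]
    apply Finset.sum_congr rfl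
    intro U hU
    obtain ⟨hUP, hUE⟩ := Finset.mem_filter.1 hU
    rcases hUE with ⟨_, h7⟩ | ⟨h7, h8⟩
    · exact h7
    · exact absurd h8 (hnob z P hP U hUP h7)
  have h7 := h.ex
  have h8 : (univ \ N z).card + (N z).card = Fintype.card V := by
    rw [← Finset.card_univ]
    exact Finset.card_sdiff_add_card_eq_card (Finset.subset_univ _)
  refine ⟨by omega, by omega, ?_⟩
  intro U hU
  have := Finset.single_le_sum (f := mu N) (fun _ _ => Nat.zero_le _) hU
  omega

open Classical in
/-- Every neighbour of `z` touches an exceptional component. -/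
lemma touch_all (h : VS N) (hnob : NoB N) {z : V} (hz : 5 ≤ (N z).card)
    {P : Finset (Finset V)} (hP : Comps N (univ \ N z) P) {g : V} (hg : g ∈ (N z).erase z) :
    ∃ L ∈ P, Ex N L ∧ Tch N g L := by
  obtain ⟨h1, h2, h3, h4⟩ := degz h (deg_eight h z) hP
  obtain ⟨h5, h6, -⟩ := loc h hnob hz hP
  set A := P.filter (Ex N) with hA
  set R := (N z).erase z with hR
  have hRc : R.card = 4 := by
    have h8 : R.card + 1 = (N z).card := Finset.card_erase_add_one (h.refl z)
    omega
  have h7 : ∑ r ∈ R, (A.filter (Tch N r)).card =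
      ∑ U ∈ A, (R.filter (fun r => Tch N r U)).card := by
    simp only [Finset.card_filter]
    exact Finset.sum_comm
  have h8 : 4 ≤ ∑ U ∈ A, (R.filter (fun r => Tch N r U)).card := by
    have h9 : ∑ U ∈ A, 2 ≤ ∑ U ∈ A, (R.filter (fun r => Tch N r U)).card := by
      apply Finset.sum_le_sum
      intro U hU
      obtain ⟨r, hr, r', hr', hne, ht, ht'⟩ := h4 U hU
      have h10 : ({r, r'} : Finset V) ⊆ R.filter (fun r => Tch N r U) := by
        intro y hy
        rcases Finset.mem_insert.1 hy with rfl | hy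
        · exact Finset.mem_filter.2 ⟨hr, ht⟩
        · rw [Finset.mem_singleton.1 hy]
          exact Finset.mem_filter.2 ⟨hr', ht'⟩
      have := Finset.card_le_card h10
      rwa [Finset.card_pair hne] at this
    rw [Finset.sum_const, smul_eq_mul, h6] at h9
    omega
  by_contra hcon
  push Not at hcon
  have h11 : (A.filter (Tch N g)).card = 0 := by
    rw [Finset.card_eq_zero, Finset.filter_eq_empty_iff]
    intro U hU
    obtain ⟨hUP, hUE⟩ := Finset.mem_filter.1 hU
    exact hcon U hUP hUE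
  have h12 : ∑ r ∈ R, (A.filter (Tch N r)).card ≤ 3 := by
    rw [← Finset.sum_erase_add R _ hg, h11]
    have h13 : ∑ r ∈ R.erase g, (A.filter (Tch N r)).card ≤ ∑ r ∈ R.erase g, 1 :=
      Finset.sum_le_sum (fun r hr => h3 r (Finset.mem_of_mem_erase hr))
    rw [Finset.sum_const, smul_eq_mul, Finset.card_erase_of_mem hg, hRc] at h13
    omega
  omega

open Classical in
/-- A neighbour `x` of `g` in a component `X` which is not exceptional: a component of `X - x` is
exceptional with eight vertices, and no other component of `X - x` is exceptional. -/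
lemma inside (h : VS N) (hnob : NoB N) {z : V} (hz : 5 ≤ (N z).card)
    {P : Finset (Finset V)} (hP : Comps N (univ \ N z) P) {X : Finset V} (hX : X ∈ P)
    (hXE : ¬ Ex N X) {g x : V} (hg : g ∈ (N z).erase z) (hx : x ∈ X) (hxg : x ∈ N g)
    {P2 : Finset (Finset V)} (hP2 : Comps N (X \ {x}) P2) :
    ∃ W0 ∈ P2, W0.card = 8 ∧ fv N W0 = 2 ∧ ∀ W ∈ P2, Ex N W → W = W0 := by
  obtain ⟨h1, -, -, -⟩ := degz h (deg_eight h z) hP
  obtain ⟨h5, h6, hmu⟩ := loc h hnob hz hP
  obtain ⟨L, hL, hLE, hgL⟩ := touch_all h hnob hz hP hg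
  have hneu : ∀ U ∈ P, U ≠ univ := by
    rintro U hU rfl
    exact (Finset.mem_sdiff.1 ((hP.cl _ hU).1 (Finset.mem_univ z))).2 (h.refl z)
  have hXL : X ≠ L := by rintro rfl; exact hXE hLE
  have hval : 9 * fv N X = 2 * X.card := by
    have h7 := hmu X hX
    unfold mu at h7
    rcases h.small X (hneu X hX) (hP.conn X hX) with h8 | h8
    · omega
    · exact absurd h8 hXE
  -- SEP
  have hsep : ∀ D : Finset V, (∀ S ∈ stars N 4 X, x ∉ S → Hit N D S) → fv N X ≤ D.card := by
    intro D hD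
    by_contra hcon
    push Not at hcon
    obtain ⟨y, hy, hyg⟩ := hgL
    obtain ⟨D', h7, h8, h9⟩ := critS h (hneu L hL) hLE hy
    have hgz : g ≠ z := (Finset.mem_erase.1 hg).1
    have h10 := cnt h (Q := N z) (Y := {z, g}) (T := {X, L}) hP (Finset.subset_univ _)
      (fun S hS hn => by
        rw [Finset.not_subset] at hn
        obtain ⟨v, hv, hvn⟩ := hn
        refine ⟨z, by simp, v, hv, ?_⟩
        by_contra hvz
        exact hvn (Finset.mem_sdiff.2 ⟨Finset.mem_univ _, hvz⟩))
      (by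
        intro U hU
        rcases Finset.mem_insert.1 hU with rfl | hU
        · exact hX
        · rw [Finset.mem_singleton.1 hU]; exact hL)
      (by
        intro U hU
        rcases Finset.mem_insert.1 hU with rfl | hU
        · refine ⟨D, Finset.subset_univ _, ?_, hcon⟩
          intro S hS
          by_cases hxS : x ∈ S
          · exact Or.inl ⟨g, by simp, x, hxS, hxg⟩
          · exact Or.inr (hD S hS hxS)
        · rw [Finset.mem_singleton.1 hU]
          refine ⟨D', Finset.subset_univ _, ?_, h9⟩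
          intro S hS
          by_cases hyS : y ∈ S
          · exact Or.inl ⟨g, by simp, y, hyS, hyg⟩
          · exact Or.inr (h8 S hS hyS))
    rw [Finset.card_pair hXL, Finset.card_pair hgz.symm] at h10
    omega
  -- the sum over the components
  have hsum : fv N X ≤ ∑ W ∈ P2, fv N W := by
    have h7 := gk_le_sum (K := 4) h.refl hP2 (stars_sys (N := N) (K := 4) (A := X))
      Finset.sdiff_subset
    have h8 : ∑ W ∈ P2, gk N W (res (stars N 4 X) W) = ∑ W ∈ P2, fv N W :=
      Finset.sum_congr rfl (fun W hW => by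
        rw [res_st ((hP2.cl W hW).1.trans Finset.sdiff_subset)]; rfl)
    rw [h8, res_st Finset.sdiff_subset] at h7
    obtain ⟨D, h9, h10, h11⟩ := exists_gk (N := N) h.refl (A := X)
      (C := stars N 4 (X \ {x})) (fun S hS => (st_sub hS).trans Finset.sdiff_subset)
      (fun S hS => stars_sys.nonempty hS)
    have h12 := hsep D (fun S hS hxS => h10 S (st_of hS (fun v hv =>
      Finset.mem_sdiff.2 ⟨st_sub hS hv, by
        rw [Finset.mem_singleton]
        rintro rfl
        exact hxS hv⟩)))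
    omega
  have hxX : ({x} : Finset V) ⊆ X := Finset.singleton_subset_iff.2 hx
  have hneW : ∀ W ∈ P2, W ≠ univ := by
    rintro W hW rfl
    exact (Finset.mem_sdiff.1 ((hP2.cl _ hW).1 (Finset.mem_univ x))).2
      (Finset.mem_singleton_self x)
  have hcnt := cnt h (Y := {x}) (T := P2.filter (Ex N)) hP2 hxX
    (fun S hS hn => by
      refine ⟨x, Finset.mem_singleton_self x, x, ?_, h.refl x⟩
      by_contra hxS
      apply hn
      intro v hv
      refine Finset.mem_sdiff.2 ⟨st_sub hS hv, ?_⟩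
      rw [Finset.mem_singleton]
      rintro rfl
      exact hxS hv)
    (Finset.filter_subset _ _)
    (fun W hW => by
      obtain ⟨hWP, hWE⟩ := Finset.mem_filter.1 hW
      obtain ⟨e, he, y, hy, hye⟩ := hP2.adj h.symm (hP.conn X hX) hxX
        (Finset.singleton_nonempty x) hWP
      rw [Finset.mem_singleton] at he
      subst he
      obtain ⟨D, h7, h8, h9⟩ := critS h (hneW W hWP) hWE hy
      refine ⟨D, h7.trans ((hP2.cl W hWP).1.trans Finset.sdiff_subset), ?_, h9⟩
      intro S hS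
      by_cases hyS : y ∈ S
      · exact Or.inl ⟨e, Finset.mem_singleton_self e, y, hyS, hye⟩
      · exact Or.inr (h8 S hS hyS))
  rw [Finset.card_singleton] at hcnt
  have hac := acc h hP2 (by
    intro hh
    have : x ∈ X \ {x} := by rw [hh]; exact Finset.mem_univ x
    exact (Finset.mem_sdiff.1 this).2 (Finset.mem_singleton_self x))
  have hcX : (X \ {x}).card + 1 = X.card := by
    have := Finset.card_sdiff_add_card_eq_card hxX
    rwa [Finset.card_singleton] at this
  have hw : ∑ W ∈ P2.filter (Ex N), fv N W ≤ 2 * (P2.filter (Ex N)).card := by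
    rw [Nat.mul_comm, ← smul_eq_mul, ← Finset.sum_const]
    apply Finset.sum_le_sum
    intro W hW
    rcases (Finset.mem_filter.1 hW).2 with ⟨_, h7⟩ | ⟨_, h7⟩ <;> omega
  have hone : (P2.filter (Ex N)).card = 1 := by omega
  have hwt : ∑ W ∈ P2.filter (Ex N), fv N W = 2 := by omega
  obtain ⟨W0, hW0⟩ := Finset.card_eq_one.1 hone
  have hW0m : W0 ∈ P2.filter (Ex N) := by rw [hW0]; exact Finset.mem_singleton_self _
  obtain ⟨hW0P, hW0E⟩ := Finset.mem_filter.1 hW0m
  rw [hW0, Finset.sum_singleton] at hwt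
  refine ⟨W0, hW0P, ?_, hwt, ?_⟩
  · rcases hW0E with ⟨_, h7⟩ | ⟨h7, _⟩
    · omega
    · exact h7
  · intro W hW hWE
    have : W ∈ P2.filter (Ex N) := Finset.mem_filter.2 ⟨hW, hWE⟩
    rw [hW0] at this
    exact Finset.mem_singleton.1 this

open Classical in
/-- (2b): all degrees are at most three. -/
theorem deg3_of_nob (h : VS N) (hB : FactB N) (hnob : NoB N) : ∀ x, (N x).card ≤ 4 := by
  intro z
  by_contra hz
  push Not at hz
  obtain ⟨P, hP⟩ := exists_comps (N := N) h.symm (univ \ N z)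
  obtain ⟨hz5, hEc, hmu⟩ := loc h hnob hz hP
  have hz0 : (N z).Nonempty := ⟨z, h.refl z⟩
  have hneu : ∀ U ∈ P, U ≠ univ := by
    rintro U hU rfl
    exact (Finset.mem_sdiff.1 ((hP.cl _ hU).1 (Finset.mem_univ z))).2 (h.refl z)
  -- a component which is not exceptional
  obtain ⟨X, hX, hXE⟩ : ∃ X ∈ P, ¬ Ex N X := by
    by_contra hcon
    push Not at hcon
    have h1 : P.filter (Ex N) = P := Finset.filter_true_of_mem hcon
    rw [h1] at hEc
    have h2 : ∑ U ∈ P, U.card = ∑ U ∈ P, 4 := Finset.sum_congr rfl (fun U hU => by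
      rcases hcon U hU with ⟨h3, _⟩ | ⟨h3, h4⟩
      · exact h3
      · exact absurd h4 (hnob z P hP U hU h3))
    rw [Finset.sum_const, smul_eq_mul, hEc, ← hP.card] at h2
    have h3 : (univ \ N z).card + (N z).card = Fintype.card V := by
      rw [← Finset.card_univ]
      exact Finset.card_sdiff_add_card_eq_card (Finset.subset_univ _)
    have := h.big
    omega
  obtain ⟨g, hg, x, hx, hxg⟩ := hP.adj h.symm h.conn (Finset.subset_univ _) hz0 hX
  have hxz : x ∉ N z := (Finset.mem_sdiff.1 ((hP.cl X hX).1 hx)).2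
  have hgR : g ∈ (N z).erase z := Finset.mem_erase.2 ⟨by rintro rfl; exact hxz hxg, hg⟩
  obtain ⟨P2, hP2⟩ := exists_comps (N := N) h.symm (X \ {x})
  obtain ⟨W0, hW0, hW08, hW02, hW0u⟩ := inside h hnob hz hP hX hXE hgR hx hxg hP2
  have hxX : ({x} : Finset V) ⊆ X := Finset.singleton_subset_iff.2 hx
  have hW0X : W0 ⊆ X := (hP2.cl W0 hW0).1.trans Finset.sdiff_subset
  have hxW0 : ∀ W ∈ P2, x ∉ W := fun W hW hh =>
    (Finset.mem_sdiff.1 ((hP2.cl W hW).1 hh)).2 (Finset.mem_singleton_self x)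
  obtain ⟨e, he, u, hu, hux⟩ := hP2.adj h.symm (hP.conn X hX) hxX
    (Finset.singleton_nonempty x) hW0
  rw [Finset.mem_singleton] at he
  subst he
  have hW0ne : W0 ≠ univ := by
    rintro rfl
    exact hxW0 _ hW0 (Finset.mem_univ e)
  have h4 := hB W0 hW0ne (hP2.conn W0 hW0) hW08 hW02 u hu
  have hins : insert e (N u ∩ W0) ⊆ N u := Finset.insert_subset (h.symm _ _ hux)
    Finset.inter_subset_left
  have hinsc : (insert e (N u ∩ W0)).card = 5 := by
    rw [Finset.card_insert_of_notMem (fun hh => hxW0 W0 hW0 (Finset.mem_inter.1 hh).2), h4]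
  have hu5 : 5 ≤ (N u).card := by
    rw [← hinsc]
    exact Finset.card_le_card hins
  obtain ⟨P3, hP3⟩ := exists_comps (N := N) h.symm (univ \ N u)
  obtain ⟨hu5', hEc3, -⟩ := loc h hnob hu5 hP3
  have hNu : insert e (N u ∩ W0) = N u := Finset.eq_of_subset_of_card_le hins (by omega)
  have hNuX : ∀ v ∈ N u, v ∈ X := by
    intro v hv
    rw [← hNu] at hv
    rcases Finset.mem_insert.1 hv with rfl | hv
    · exact hx
    · exact hW0X (Finset.mem_inter.1 hv).2
  have hNuW : ∀ v ∈ N u, v = e ∨ v ∈ W0 := by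
    intro v hv
    rw [← hNu] at hv
    rcases Finset.mem_insert.1 hv with rfl | hv
    · exact Or.inl rfl
    · exact Or.inr (Finset.mem_inter.1 hv).2
  have hXz : ∀ v ∈ X, v ∉ N z := fun v hv => (Finset.mem_sdiff.1 ((hP.cl X hX).1 hv)).2
  have hcz : Conn N (N z) := conn_star h.symm (h.refl z) (fun v hv => hv)
  have hzu : N z ⊆ univ \ N u := fun v hv => Finset.mem_sdiff.2 ⟨Finset.mem_univ _, fun hvu =>
    hXz v (hNuX v hvu) hv⟩
  -- the exceptional components at `u` are in `W0 \ N u`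
  have key : ∀ U ∈ P3, Ex N U → U ⊆ W0 \ N u ∧ U.card = 4 := by
    intro U hU hUE
    have hU4 : U.card = 4 := by
      rcases hUE with ⟨h1, _⟩ | ⟨h1, h2⟩
      · exact h1
      · exact absurd h2 (hnob u P3 hP3 U hU h1)
    have hnz : ∀ v ∈ U, v ∉ N z := by
      intro v hv hvz
      have h1 : N z ⊆ U := hcz.subset_of_closed hzu (hP3.cl U hU) hvz hv
      have := Finset.card_le_card h1
      omega
    have hUX : ∀ v ∈ U, v ∈ X := by
      intro v hv
      by_contra hvX
      obtain ⟨X', hX', hvX'⟩ := hP.cover v (Finset.mem_sdiff.2 ⟨Finset.mem_univ _, hnz v hv⟩)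
      have hXX' : X' ≠ X := by rintro rfl; exact hvX hvX'
      have h1 : X' ⊆ univ \ N u := fun w hw => Finset.mem_sdiff.2 ⟨Finset.mem_univ _,
        fun hwu => hXX' (hP.eq_of_mem hX' hX hw (hNuX w hwu))⟩
      have h2 : X' ⊆ U := (hP.conn X' hX').subset_of_closed h1 (hP3.cl U hU) hvX' hv
      obtain ⟨r, hr, y, hy, hyr⟩ := hP.adj h.symm h.conn (Finset.subset_univ _) hz0 hX'
      exact hnz r ((hP3.cl U hU).2 y (h2 hy) r (hzu hr) (h.symm _ _ hyr)) hr
    have hUsub : U ⊆ X \ {e} := by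
      intro v hv
      refine Finset.mem_sdiff.2 ⟨hUX v hv, ?_⟩
      rw [Finset.mem_singleton]
      rintro rfl
      exact (Finset.mem_sdiff.1 ((hP3.cl U hU).1 hv)).2 (h.symm _ _ hux)
    obtain ⟨v, hv⟩ := (hP3.conn U hU).1
    obtain ⟨W, hW, hvW⟩ := hP2.cover v (hUsub hv)
    have hUW : U ⊆ W := (hP3.conn U hU).subset_of_closed hUsub (hP2.cl W hW) hv hvW
    have hWW0 : W = W0 := by
      by_contra hne
      have h1 : W ⊆ univ \ N u := fun w hw => Finset.mem_sdiff.2 ⟨Finset.mem_univ _, fun hwu => by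
        rcases hNuW w hwu with rfl | h2
        · exact hxW0 W hW hw
        · exact hne (hP2.eq_of_mem hW hW0 hw h2)⟩
      have h2 : W ⊆ U := (hP2.conn W hW).subset_of_closed h1 (hP3.cl U hU) hvW hv
      have h3 : U = W := Finset.Subset.antisymm hUW h2
      rw [h3] at hUE
      exact hne (hW0u W hW hUE)
    refine ⟨?_, hU4⟩
    intro w hw
    exact Finset.mem_sdiff.2 ⟨hWW0 ▸ hUW hw, (Finset.mem_sdiff.1 ((hP3.cl U hU).1 hw)).2⟩
  obtain ⟨U1, U2, hne12, hE12⟩ := Finset.card_eq_two.1 hEc3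
  have hm1 : U1 ∈ P3.filter (Ex N) := by rw [hE12]; exact Finset.mem_insert_self _ _
  have hm2 : U2 ∈ P3.filter (Ex N) := by
    rw [hE12]; exact Finset.mem_insert_of_mem (Finset.mem_singleton_self _)
  obtain ⟨hp1, he1⟩ := Finset.mem_filter.1 hm1
  obtain ⟨hp2, he2⟩ := Finset.mem_filter.1 hm2
  obtain ⟨hs1, hc1⟩ := key U1 hp1 he1
  obtain ⟨hs2, hc2⟩ := key U2 hp2 he2
  have h5 := Finset.card_le_card (Finset.union_subset hs1 hs2)
  rw [Finset.card_union_of_disjoint (hP3.disj U1 hp1 U2 hp2 hne12)] at h5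
  have h6 : (W0 \ N u).card + (N u ∩ W0).card = W0.card := by
    rw [Finset.inter_comm]
    exact Finset.card_sdiff_add_card_inter W0 (N u)
  omega

end

end Pool.Agent.Star.K4.M4b
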