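import Pool.Agent.Star.K4.Spec
import Pool.Agent.Star.MC1

/-!
# `K = 4`, module M6a: the pattern lemma and the diamond
-/

set_option autoImplicit false
set_option linter.unusedSectionVars false
set_option linter.unusedVariables false

namespace Pool.Agent.Star.K4

open Finset Rig

section
variable {V : Type*} [DecidableEq V] [Fintype V] {N : V → Finset V}

/-- Neighbours of a component of the complement of `F` lie in `F`. -/
lemma m6_out (hs : ∀ x y, x ∈ N y → y ∈ N x) {F Y : Finset V} {P : Finset (Finset V)}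
    (h : Cfg N F Y P) {U : Finset V} (hU : U ∈ P) {u x : V} (hu : u ∈ U) (hx : x ∉ U)
    (hxu : x ∈ N u) : x ∈ F ∧ u ∉ F ∧ u ∈ N x := by
  have huF : u ∉ F := (Finset.mem_sdiff.1 ((h.comps.cl U hU).1 hu)).2
  refine ⟨?_, huF, hs _ _ hxu⟩
  by_contra hxF
  exact hx ((h.comps.cl U hU).2 u hu x (Finset.mem_sdiff.2 ⟨Finset.mem_univ _, hxF⟩) hxu)

/-- A component is not everything. -/
lemma m6_ne {F Y : Finset V} {P : Finset (Finset V)} (h : Cfg N F Y P) {U : Finset V}
    (hU : U ∈ P) : U ≠ univ := by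
  rintro rfl
  obtain ⟨x, hx⟩ := h.ne
  exact (Finset.mem_sdiff.1 ((h.comps.cl _ hU).1 (Finset.mem_univ x))).2 hx

/-- There is a component different from a given cubic star. -/
lemma m6_other (hbig : 22 ≤ Fintype.card V) {F Y : Finset V} {P : Finset (Finset V)}
    (h : Cfg N F Y P) (hF : F.card ≤ 17) {U0 : Finset V} (hU0 : U0.card = 4) :
    ∃ U ∈ P, U ≠ U0 := by
  have h1 : ∃ v, v ∉ F ∪ U0 := by
    by_contra hcon
    push Not at hcon
    have h2 : (univ : Finset V) ⊆ F ∪ U0 := fun v _ => hcon v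
    have h3 := Finset.card_le_card h2
    have h4 := Finset.card_union_le F U0
    rw [Finset.card_univ] at h3
    omega
  obtain ⟨v, hv⟩ := h1
  rw [Finset.mem_union, not_or] at hv
  obtain ⟨U, hU, hvU⟩ := h.comps.cover v (Finset.mem_sdiff.2 ⟨Finset.mem_univ _, hv.1⟩)
  refine ⟨U, hU, ?_⟩
  rintro rfl
  exact hv.2 hvU

/-- Two different touching vertices of an exceptional component. -/
lemma m6_two (b : Bas N) {F Y M : Finset V} {P : Finset (Finset V)} (h : Cfg N F Y P)
    (hM : ∀ e ∈ F, ∀ x, x ∉ F → x ∈ N e → e ∈ M) {t : V} (ht : Cub N t) (hP : N t ∈ P) :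
    ∃ m1 ∈ M, ∃ m2 ∈ M, m1 ≠ m2 ∧ Tch N m1 (N t) ∧ Tch N m2 (N t) := by
  obtain ⟨u1, hu1, x1, hx1, hxu1, -⟩ := b.cut t t ht
  obtain ⟨h1, h2, h3⟩ := m6_out b.symm h hP hu1 hx1 hxu1
  obtain ⟨u2, hu2, x2, hx2, hxu2, hne⟩ := b.cut t x1 ht
  obtain ⟨h4, h5, h6⟩ := m6_out b.symm h hP hu2 hx2 hxu2
  exact ⟨x1, hM x1 h1 u1 h2 h3, x2, hM x2 h4 u2 h5 h6, hne.symm, ⟨u1, hu1, h3⟩, ⟨u2, hu2, h6⟩⟩

/-- A component and an exceptional component have no common touching vertex if their defects
vanish. -/
lemma m6_sep (b : Bas N) {F Y M : Finset V} {P : Finset (Finset V)} (h : Cfg N F Y P)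
    (hcard : 9 * Y.card ≤ 2 * F.card)
    (hM : ∀ e ∈ F, ∀ x, x ∉ F → x ∈ N e → e ∈ M) (hMc : M.card ≤ 8)
    {U U' : Finset V} (hU : U ∈ P) (hU' : U' ∈ P) (hne : U ≠ U') (hmu : mu N U = 0)
    (hmu' : mu N U' = 0) (e : V) : ¬ (Tch N e U ∧ Tch N e U') := by
  rintro ⟨h1, h2⟩
  obtain ⟨-, -, -, h3⟩ := b.main F Y M P h hcard hM hMc
  exact hne (h3 e U hU U' hU' (b.tight U (m6_ne h hU) (h.comps.conn U hU) hmu e h1)
    (b.tight U' (m6_ne h hU') (h.comps.conn U' hU') hmu' e h2))

/-- The end of the argument with one exceptional component and all defects zero. -/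
lemma m6_end (b : Bas N) {F Y M : Finset V} {P : Finset (Finset V)} (h : Cfg N F Y P)
    (hcard : 9 * Y.card ≤ 2 * F.card) (hFc : F.card ≤ 17)
    (hM : ∀ e ∈ F, ∀ x, x ∉ F → x ∈ N e → e ∈ M)
    (h0 : na N P + 9 * Y.card = 2 * F.card + 1 + ∑ U ∈ P, mu N U → na N P = 1 ∧
      ∀ U ∈ P, mu N U = 0)
    (hMc : M.card ≤ 2 ∨ (M.card ≤ 3 ∧ Conn N F)) : False := by
  classical
  have hM8 : M.card ≤ 8 := by omega
  obtain ⟨-, h2, h3, -⟩ := b.main F Y M P h hcard hM hM8
  obtain ⟨hna, hmu⟩ := h0 h2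
  unfold na at hna
  obtain ⟨U0, hU0⟩ := Finset.card_eq_one.1 hna
  have hU0' : U0 ∈ P.filter (ExA N) := by rw [hU0]; exact Finset.mem_singleton_self _
  obtain ⟨hU0P, hU0E⟩ := Finset.mem_filter.1 hU0'
  obtain ⟨t, ht, rfl⟩ := b.exA U0 hU0E
  obtain ⟨m1, hm1, m2, hm2, hm12, ht1, ht2⟩ := m6_two b h hM ht hU0P
  obtain ⟨U, hUP, hUne⟩ := m6_other b.big h hFc (U0 := N t) ht
  have hsep := fun e => m6_sep b h hcard hM hM8 hUP hU0P hUne (hmu U hUP) (hmu _ hU0P) e
  obtain ⟨e, he, x, hx, hxe⟩ := h.comps.adj b.symm b.conn (Finset.subset_univ F) h.ne hUP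
  have hxF : x ∉ F := (Finset.mem_sdiff.1 ((h.comps.cl U hUP).1 hx)).2
  have heM : e ∈ M := hM e he x hxF hxe
  have he1 : e ≠ m1 := by
    rintro rfl
    exact hsep e ⟨⟨x, hx, hxe⟩, ht1⟩
  have he2 : e ≠ m2 := by
    rintro rfl
    exact hsep e ⟨⟨x, hx, hxe⟩, ht2⟩
  have h3c : 3 ≤ M.card := by
    have : ({m1, m2, e} : Finset V) ⊆ M := by
      intro y hy
      rw [Finset.mem_insert, Finset.mem_insert, Finset.mem_singleton] at hy
      rcases hy with rfl | rfl | rfl <;> assumption
    have h4 := Finset.card_le_card this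
    rwa [Finset.card_eq_three.2 ⟨m1, m2, e, hm12, he1.symm, he2.symm, rfl⟩] at h4
  rcases hMc with hMc | ⟨hMc, hFconn⟩
  · omega
  · have hUconn : Conn N (univ \ U) :=
      MC.conn_compl b.symm b.conn (Finset.subset_univ F) hFconn (h.comps.cl U hUP)
    have hUE : ¬ ExA N U := by
      intro hh
      have : U ∈ P.filter (ExA N) := Finset.mem_filter.2 ⟨hUP, hh⟩
      rw [hU0, Finset.mem_singleton] at this
      exact hUne this
    obtain ⟨u, hu, w, hw, hwu, hwe⟩ := b.g4o U (m6_ne h hUP) (h.comps.conn U hUP) hUconn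
      (by rw [hmu U hUP]; omega) hUE e
    obtain ⟨h5, h6, h7⟩ := m6_out b.symm h hUP hu hw hwu
    have hwM : w ∈ M := hM w h5 u h6 h7
    have hw1 : w ≠ m1 := by
      rintro rfl
      exact hsep w ⟨⟨u, hu, h7⟩, ht1⟩
    have hw2 : w ≠ m2 := by
      rintro rfl
      exact hsep w ⟨⟨u, hu, h7⟩, ht2⟩
    have : ({m1, m2, e, w} : Finset V) ⊆ M := by
      intro y hy
      rw [Finset.mem_insert, Finset.mem_insert, Finset.mem_insert, Finset.mem_singleton] at hy
      rcases hy with rfl | rfl | rfl | rfl <;> assumption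
    have h4 := Finset.card_le_card this
    rw [Finset.card_insert_of_notMem (by
        rw [Finset.mem_insert, Finset.mem_insert, Finset.mem_singleton]
        rintro (hh | hh | hh)
        · exact hm12 hh
        · exact he1 hh.symm
        · exact hw1 hh.symm),
      Finset.card_eq_three.2 ⟨m2, e, w, he2.symm, hw2.symm, hwe.symm, rfl⟩] at h4
    omega

/-- The complement of a cubic star is connected: no small closed part. -/
lemma m6_a1 (b : Bas N) {k : V} {B : Finset V} (hk : Cub N k) (hBne : B.Nonempty)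
    (hBk : Disjoint B (N k)) (hcl : ∀ x ∈ B, ∀ y ∈ N x, y ∉ B → y ∈ N k) (hBc : B.card ≤ 17) :
    False := by
  have hbig := b.big
  have hk' : (N k).card = 4 := hk
  have h1 : B ⊆ univ \ N k := fun x hx =>
    Finset.mem_sdiff.2 ⟨Finset.mem_univ _, Finset.disjoint_left.1 hBk hx⟩
  have h2 : B ≠ univ \ N k := by
    intro hh
    have h3 : (univ \ N k).card + (N k).card = (univ : Finset V).card :=
      Finset.card_sdiff_add_card_eq_card (Finset.subset_univ _)
    rw [← hh, Finset.card_univ] at h3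
    omega
  obtain ⟨x, hx, y, hy, hyB, hyx⟩ := (b.a1c k hk).2 B h1 hBne h2
  exact (Finset.mem_sdiff.1 hy).2 (hcl x hx y hyx hyB)

/-- The pattern lemma. -/
theorem pl (b : Bas N) : ∀ (g g' x y : V) (Kc : Finset V), Cub N g → Cub N g' → g ≠ g' →
    x ∈ N g → y ∈ N g' →
    x ≠ y → x ≠ g → x ≠ g' → y ≠ g → y ≠ g' → Kc.card = 3 → Disjoint Kc (N g) →
    Disjoint Kc (N g') → (∀ k ∈ Kc, N k ⊆ insert x (insert y Kc)) →
    N x ⊆ insert x (insert g Kc) → N y ⊆ insert y (insert g' Kc) →
    (∀ c, Cub N c → (∃ k ∈ Kc, k ∈ N c) → ∃ w ∈ N c, w ∈ N g ∨ w ∈ N g') → False := by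
  classical
  intro g g' x y Kc hg hg' hgg hxg hyg hxy hxg1 hxg2 hyg1 hyg2 hKc hKg hKg' hK hx hy hdead
  have hbig := b.big
  have hgK : g ∉ Kc := fun hh => Finset.disjoint_left.1 hKg hh (b.refl g)
  have hgK' : g' ∉ Kc := fun hh => Finset.disjoint_left.1 hKg' hh (b.refl g')
  have hxK : x ∉ Kc := fun hh => Finset.disjoint_left.1 hKg hh hxg
  have hyK : y ∉ Kc := fun hh => Finset.disjoint_left.1 hKg' hh hyg
  have hxn : x ∉ N g' := by
    intro hh
    have := hx (b.symm _ _ hh)
    simp only [Finset.mem_insert] at this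
    rcases this with h1 | h1 | h1
    · exact hxg2 h1.symm
    · exact hgg h1.symm
    · exact hgK' h1
  have hyn : y ∉ N g := by
    intro hh
    have := hy (b.symm _ _ hh)
    simp only [Finset.mem_insert] at this
    rcases this with h1 | h1 | h1
    · exact hyg1 h1.symm
    · exact hgg h1
    · exact hgK h1
  have hgc : (N g).card = 4 := hg
  have hgc' : (N g').card = 4 := hg'
  set o := (N g ∩ N g').card with ho
  have hun : (N g ∪ N g').card + o = 8 := by
    rw [ho, Finset.card_union_add_card_inter, hgc, hgc']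
  have hI1 : N g ∩ N g' ⊆ (N g).erase x := by
    intro z hz
    rw [Finset.mem_inter] at hz
    exact Finset.mem_erase.2 ⟨fun hh => hxn (hh ▸ hz.2), hz.1⟩
  have hI2 : N g ∩ N g' ⊆ (N g').erase y := by
    intro z hz
    rw [Finset.mem_inter] at hz
    exact Finset.mem_erase.2 ⟨fun hh => hyn (hh ▸ hz.1), hz.2⟩
  have he1 : ((N g).erase x).card = 3 := by rw [Finset.card_erase_of_mem hxg, hgc]
  have he2 : ((N g').erase y).card = 3 := by rw [Finset.card_erase_of_mem hyg, hgc']
  have ho3 : o ≤ 3 := by rw [← he1]; exact Finset.card_le_card hI1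
  set F := (N g ∪ N g') ∪ Kc with hF
  have hFc : F.card + o = 11 := by
    have h1 : Disjoint (N g ∪ N g') Kc := Finset.disjoint_union_left.2 ⟨hKg.symm, hKg'.symm⟩
    rw [hF, Finset.card_union_of_disjoint h1, hKc]
    omega
  have hgF : N g ⊆ F := fun z hz => Finset.mem_union_left _ (Finset.mem_union_left _ hz)
  have hgF' : N g' ⊆ F := fun z hz => Finset.mem_union_left _ (Finset.mem_union_right _ hz)
  have hKF : Kc ⊆ F := fun z hz => Finset.mem_union_right _ hz
  have hxF : N x ⊆ F := by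
    intro z hz
    have := hx hz
    simp only [Finset.mem_insert] at this
    rcases this with rfl | rfl | h1
    · exact hgF hxg
    · exact hgF (b.refl _)
    · exact hKF h1
  have hyF : N y ⊆ F := by
    intro z hz
    have := hy hz
    simp only [Finset.mem_insert] at this
    rcases this with rfl | rfl | h1
    · exact hgF' hyg
    · exact hgF' (b.refl _)
    · exact hKF h1
  have hKF' : ∀ k ∈ Kc, N k ⊆ F := by
    intro k hk z hz
    have := hK k hk hz
    simp only [Finset.mem_insert] at this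
    rcases this with rfl | rfl | h1
    · exact hgF hxg
    · exact hgF' hyg
    · exact hKF h1
  set M := ((((N g ∪ N g').erase g).erase g').erase x).erase y with hM
  have hMmem : ∀ e ∈ F, ∀ z, z ∉ F → z ∈ N e → e ∈ M := by
    intro e he z hz hze
    have h1 : e ≠ g := by rintro rfl; exact hz (hgF hze)
    have h2 : e ≠ g' := by rintro rfl; exact hz (hgF' hze)
    have h3 : e ≠ x := by rintro rfl; exact hz (hxF hze)
    have h4 : e ≠ y := by rintro rfl; exact hz (hyF hze)
    have h5 : e ∉ Kc := fun hh => hz (hKF' e hh hze)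
    have h6 : e ∈ N g ∪ N g' := by
      rcases Finset.mem_union.1 he with hh | hh
      · exact hh
      · exact absurd hh h5
    exact Finset.mem_erase.2 ⟨h4, Finset.mem_erase.2 ⟨h3, Finset.mem_erase.2 ⟨h2,
      Finset.mem_erase.2 ⟨h1, h6⟩⟩⟩⟩
  have hMc : M.card + o = 4 := by
    have h1 : g ∈ N g ∪ N g' := Finset.mem_union_left _ (b.refl g)
    have h2 : g' ∈ (N g ∪ N g').erase g :=
      Finset.mem_erase.2 ⟨hgg.symm, Finset.mem_union_right _ (b.refl g')⟩
    have h3 : x ∈ ((N g ∪ N g').erase g).erase g' :=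
      Finset.mem_erase.2 ⟨hxg2, Finset.mem_erase.2 ⟨hxg1, Finset.mem_union_left _ hxg⟩⟩
    have h4 : y ∈ (((N g ∪ N g').erase g).erase g').erase x :=
      Finset.mem_erase.2 ⟨hxy.symm, Finset.mem_erase.2 ⟨hyg2,
        Finset.mem_erase.2 ⟨hyg1, Finset.mem_union_right _ hyg⟩⟩⟩
    rw [hM, Finset.card_erase_of_mem h4, Finset.card_erase_of_mem h3,
      Finset.card_erase_of_mem h2, Finset.card_erase_of_mem h1]
    omega
  obtain ⟨P, hP⟩ := exists_comps (N := N) b.symm (univ \ F)
  have hcfg : Cfg N F {g, g'} P := by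
    refine ⟨hP, ⟨g, hgF (b.refl g)⟩, ?_, ?_⟩
    · intro z hz
      rw [Finset.mem_insert, Finset.mem_singleton] at hz
      rcases hz with rfl | rfl
      · exact hgF
      · exact hgF'
    · rintro c hc ⟨z, hz, hzF⟩
      have h1 : ∃ w ∈ N c, w ∈ N g ∨ w ∈ N g' := by
        rcases Finset.mem_union.1 hzF with hh | hh
        · rcases Finset.mem_union.1 hh with hh | hh
          · exact ⟨z, hz, Or.inl hh⟩
          · exact ⟨z, hz, Or.inr hh⟩
        · exact hdead c hc ⟨z, hh, hz⟩
      obtain ⟨w, hw, hw' | hw'⟩ := h1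
      · exact ⟨g, Finset.mem_insert_self _ _, w, hw, hw'⟩
      · exact ⟨g', Finset.mem_insert_of_mem (Finset.mem_singleton_self _), w, hw, hw'⟩
  have hYc : ({g, g'} : Finset V).card = 2 := Finset.card_pair hgg
  by_cases ho3' : o = 3
  · -- three common vertices
    have h1 : N g ∩ N g' = (N g).erase x :=
      Finset.eq_of_subset_of_card_le hI1 (by omega)
    have h2 : N g ∩ N g' = (N g').erase y :=
      Finset.eq_of_subset_of_card_le hI2 (by omega)
    have hgg1 : g ∈ N g' := by
      have : g ∈ (N g).erase x := Finset.mem_erase.2 ⟨hxg1.symm, b.refl g⟩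
      rw [← h1] at this
      exact (Finset.mem_inter.1 this).2
    have hgg2 : g' ∈ N g := b.symm _ _ hgg1
    obtain ⟨k, y0, hkF, hy0F, hy0k⟩ : ∃ k y0, k ∈ F ∧ y0 ∉ F ∧ y0 ∈ N k := by
      have hne : F ≠ univ := by
        intro hh
        have : F.card = Fintype.card V := by rw [hh, Finset.card_univ]
        omega
      obtain ⟨k, hk, y0, -, hy0, hy0k⟩ := b.conn.2 F (Finset.subset_univ F)
        ⟨g, hgF (b.refl g)⟩ hne
      exact ⟨k, y0, hk, hy0, hy0k⟩
    have hkM := hMmem k hkF y0 hy0F hy0k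
    rw [hM] at hkM
    simp only [Finset.mem_erase, Finset.mem_union] at hkM
    obtain ⟨hky, hkx, hkg', hkg, hkU⟩ := hkM
    have hkI : k ∈ N g ∧ k ∈ N g' := by
      rcases hkU with hh | hh
      · have : k ∈ (N g).erase x := Finset.mem_erase.2 ⟨hkx, hh⟩
        rw [← h1] at this
        exact Finset.mem_inter.1 this
      · have : k ∈ (N g').erase y := Finset.mem_erase.2 ⟨hky, hh⟩
        rw [← h2] at this
        exact Finset.mem_inter.1 this
    have hsub : ({k, g, g', y0} : Finset V) ⊆ N k := by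
      intro z hz
      simp only [Finset.mem_insert, Finset.mem_singleton] at hz
      rcases hz with rfl | rfl | rfl | rfl
      · exact b.refl _
      · exact b.symm _ _ hkI.1
      · exact b.symm _ _ hkI.2
      · exact hy0k
    have hy0k' : k ≠ y0 := by rintro rfl; exact hy0F hkF
    have hy0g : g ≠ y0 := by rintro rfl; exact hy0F (hgF (b.refl _))
    have hy0g' : g' ≠ y0 := by rintro rfl; exact hy0F (hgF' (b.refl _))
    have hc4 : ({k, g, g', y0} : Finset V).card = 4 := by
      rw [Finset.card_insert_of_notMem, Finset.card_eq_three.2 ⟨g, g', y0, hgg, hy0g, hy0g', rfl⟩]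
      simp only [Finset.mem_insert, Finset.mem_singleton]
      rintro (hh | hh | hh)
      · exact hkg hh
      · exact hkg' hh
      · exact hy0k' hh
    have hNk : ({k, g, g', y0} : Finset V) = N k :=
      Finset.eq_of_subset_of_card_le hsub (by rw [hc4]; exact b.deg k)
    have hkK : k ∉ Kc := fun hh => Finset.disjoint_left.1 hKg hh hkI.1
    refine m6_a1 b (k := k) (B := insert x (insert y Kc)) ?_ ⟨x, Finset.mem_insert_self _ _⟩
      ?_ ?_ ?_
    · show (N k).card = 4
      rw [← hNk, hc4]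
    · rw [← hNk, Finset.disjoint_left]
      intro z hz hz'
      simp only [Finset.mem_insert, Finset.mem_singleton] at hz hz'
      rcases hz with rfl | rfl | hz
      · rcases hz' with hh | hh | hh | hh
        · exact hkx hh.symm
        · exact hxg1 hh
        · exact hxg2 hh
        · exact hy0F (hh ▸ hgF hxg)
      · rcases hz' with hh | hh | hh | hh
        · exact hky hh.symm
        · exact hyg1 hh
        · exact hyg2 hh
        · exact hy0F (hh ▸ hgF' hyg)
      · rcases hz' with hh | hh | hh | hh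
        · exact hkK (hh ▸ hz)
        · exact hgK (hh ▸ hz)
        · exact hgK' (hh ▸ hz)
        · exact hy0F (hh ▸ hKF hz)
    · intro z hz w hw hwB
      rw [← hNk]
      simp only [Finset.mem_insert, Finset.mem_singleton] at hz hwB ⊢
      push Not at hwB
      rcases hz with rfl | rfl | hz
      · have := hx hw
        simp only [Finset.mem_insert] at this
        rcases this with hh | hh | hh
        · exact absurd hh hwB.1
        · exact Or.inr (Or.inl hh)
        · exact absurd hh hwB.2.2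
      · have := hy hw
        simp only [Finset.mem_insert] at this
        rcases this with hh | hh | hh
        · exact absurd hh hwB.2.1
        · exact Or.inr (Or.inr (Or.inl hh))
        · exact absurd hh hwB.2.2
      · have := hK z hz hw
        simp only [Finset.mem_insert] at this
        rcases this with hh | hh | hh
        · exact absurd hh hwB.1
        · exact absurd hh hwB.2.1
        · exact absurd hh hwB.2.2
    · have h3 := Finset.card_insert_le x (insert y Kc)
      have h4 := Finset.card_insert_le y Kc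
      omega
  · have hcard : 9 * ({g, g'} : Finset V).card ≤ 2 * F.card := by rw [hYc]; omega
    obtain ⟨-, h2, h3, -⟩ := b.main F {g, g'} M P hcfg hcard hMmem (by omega)
    rw [hYc] at h2
    refine m6_end b hcfg hcard (by omega) hMmem ?_ (Or.inl (by omega))
    intro _
    have h4 : ∑ U ∈ P, mu N U = 0 := by omega
    exact ⟨by omega, fun U hU => (Finset.sum_eq_zero_iff.1 h4) U hU⟩

/-- Connectedness from one root. -/
lemma m6_conn (hs : ∀ x y, x ∈ N y → y ∈ N x) {F : Finset V} {r : V} (hr : r ∈ F)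
    (h : ∀ B ⊆ F, r ∈ B → (∀ x ∈ B, ∀ y ∈ F, y ∈ N x → y ∈ B) → F ⊆ B) : Conn N F := by
  refine ⟨⟨r, hr⟩, ?_⟩
  intro B hB hBne hBF
  by_contra hcon
  push Not at hcon
  have hcl : ∀ x ∈ B, ∀ y ∈ F, y ∈ N x → y ∈ B := by
    intro x hx y hy hyx
    by_contra hyB
    exact hcon x hx y hy hyB hyx
  by_cases hrB : r ∈ B
  · exact hBF (Finset.Subset.antisymm hB (h B hB hrB hcl))
  · obtain ⟨z, hz⟩ := hBne
    have h1 := h (F \ B) Finset.sdiff_subset (Finset.mem_sdiff.2 ⟨hr, hrB⟩) (by
      intro x hx y hy hyx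
      rw [Finset.mem_sdiff] at hx ⊢
      exact ⟨hy, fun hyB => hx.2 (hcl y hyB x hx.1 (hs _ _ hyx))⟩)
    exact (Finset.mem_sdiff.1 (h1 (hB hz))).2 hz

/-- The situation around a diamond. -/
structure DD (N : V → Finset V) (t u l l' p p' : V) : Prop where
  mt : ∀ x, x ∈ N t ↔ x = t ∨ x = u ∨ x = l ∨ x = l'
  mu : ∀ x, x ∈ N u ↔ x = t ∨ x = u ∨ x = l ∨ x = l'
  ml : ∀ x, x ∈ N l ↔ x = l ∨ x = t ∨ x = u ∨ x = p
  ml' : ∀ x, x ∈ N l' ↔ x = l' ∨ x = t ∨ x = u ∨ x = p'
  tu : t ≠ u
  lt : l ≠ t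
  lu : l ≠ u
  lt' : l' ≠ t
  lu' : l' ≠ u
  ll : l ≠ l'
  pt : p ≠ t
  pu : p ≠ u
  pl : p ≠ l
  pl' : p ≠ l'
  qt : p' ≠ t
  qu : p' ≠ u
  ql : p' ≠ l
  ql' : p' ≠ l'
  pq : p ≠ p'

lemma DD.swap {t u l l' p p' : V} (D : DD N t u l l' p p') : DD N t u l' l p' p := by
  refine ⟨?_, ?_, D.ml', D.ml, D.tu, D.lt', D.lu', D.lt, D.lu, D.ll.symm, D.qt, D.qu, D.ql',
    D.ql, D.pt, D.pu, D.pl', D.pl, D.pq.symm⟩
  · intro x
    rw [D.mt x]
    tauto
  · intro x
    rw [D.mu x]
    tauto

/-- The set `{t, u, l, l'}` is attached at `p`, `p'` only. -/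
lemma DD.one (b : Bas N) {t u l l' p p' : V} (D : DD N t u l l' p p') {k : V} (hk : Cub N k)
    (hp : p ∈ N k) (hq : p' ∈ N k) (h1 : k ≠ t) (h2 : k ≠ u) (h3 : k ≠ l) (h4 : k ≠ l')
    (h5 : k ≠ p) (h6 : k ≠ p') : False := by
  classical
  refine m6_a1 b (k := k) (B := {t, u, l, l'}) hk ⟨t, Finset.mem_insert_self _ _⟩ ?_ ?_ ?_
  · rw [Finset.disjoint_left]
    intro x hx hxk
    have hkx := b.symm _ _ hxk
    simp only [Finset.mem_insert, Finset.mem_singleton] at hx
    rcases hx with rfl | rfl | rfl | rfl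
    · rcases (D.mt k).1 hkx with hh | hh | hh | hh
      exacts [h1 hh, h2 hh, h3 hh, h4 hh]
    · rcases (D.mu k).1 hkx with hh | hh | hh | hh
      exacts [h1 hh, h2 hh, h3 hh, h4 hh]
    · rcases (D.ml k).1 hkx with hh | hh | hh | hh
      exacts [h3 hh, h1 hh, h2 hh, h5 hh]
    · rcases (D.ml' k).1 hkx with hh | hh | hh | hh
      exacts [h4 hh, h1 hh, h2 hh, h6 hh]
  · intro x hx y hy hyB
    simp only [Finset.mem_insert, Finset.mem_singleton] at hx hyB
    push Not at hyB
    rcases hx with rfl | rfl | rfl | rfl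
    · rcases (D.mt y).1 hy with hh | hh | hh | hh
      exacts [absurd hh hyB.1, absurd hh hyB.2.1, absurd hh hyB.2.2.1, absurd hh hyB.2.2.2]
    · rcases (D.mu y).1 hy with hh | hh | hh | hh
      exacts [absurd hh hyB.1, absurd hh hyB.2.1, absurd hh hyB.2.2.1, absurd hh hyB.2.2.2]
    · rcases (D.ml y).1 hy with hh | hh | hh | hh
      · exact absurd hh hyB.2.2.1
      · exact absurd hh hyB.1
      · exact absurd hh hyB.2.1
      · exact hh ▸ hp
    · rcases (D.ml' y).1 hy with hh | hh | hh | hh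
      · exact absurd hh hyB.2.2.2
      · exact absurd hh hyB.1
      · exact absurd hh hyB.2.1
      · exact hh ▸ hq
  · exact le_trans Finset.card_le_four (by omega)

/-- Both outer vertices are cubic. -/
lemma DD.caseI (b : Bas N) {t u l l' p p' : V} (D : DD N t u l l' p p') (hp : Cub N p)
    (hq : Cub N p') (hpq : p' ∉ N p) : False := by
  classical
  have hbig := b.big
  have hpc : (N p).card = 4 := hp
  have hqc : (N p').card = 4 := hq
  have hqp : p ∉ N p' := fun hh => hpq (b.symm _ _ hh)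
  have hlp : l ∈ N p := b.symm _ _ ((D.ml p).2 (by simp))
  have hlq : l' ∈ N p' := b.symm _ _ ((D.ml' p').2 (by simp))
  have hlq' : l ∉ N p' := by
    intro hh
    rcases (D.ml p').1 (b.symm _ _ hh) with h1 | h1 | h1 | h1
    exacts [D.ql h1, D.qt h1, D.qu h1, D.pq h1.symm]
  have hlp' : l' ∉ N p := by
    intro hh
    rcases (D.ml' p).1 (b.symm _ _ hh) with h1 | h1 | h1 | h1
    exacts [D.pl' h1, D.pt h1, D.pu h1, D.pq h1]
  have htp : t ∉ N p := by
    intro hh
    rcases (D.mt p).1 (b.symm _ _ hh) with h1 | h1 | h1 | h1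
    exacts [D.pt h1, D.pu h1, D.pl h1, D.pl' h1]
  have hup : u ∉ N p := by
    intro hh
    rcases (D.mu p).1 (b.symm _ _ hh) with h1 | h1 | h1 | h1
    exacts [D.pt h1, D.pu h1, D.pl h1, D.pl' h1]
  have htq : t ∉ N p' := by
    intro hh
    rcases (D.mt p').1 (b.symm _ _ hh) with h1 | h1 | h1 | h1
    exacts [D.qt h1, D.qu h1, D.ql h1, D.ql' h1]
  have huq : u ∉ N p' := by
    intro hh
    rcases (D.mu p').1 (b.symm _ _ hh) with h1 | h1 | h1 | h1
    exacts [D.qt h1, D.qu h1, D.ql h1, D.ql' h1]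
  set o := (N p ∩ N p').card with ho
  have hun : (N p ∪ N p').card + o = 8 := by
    rw [ho, Finset.card_union_add_card_inter, hpc, hqc]
  have hI1 : N p ∩ N p' ⊆ ((N p).erase p).erase l := by
    intro z hz
    rw [Finset.mem_inter] at hz
    exact Finset.mem_erase.2 ⟨fun hh => hlq' (hh ▸ hz.2),
      Finset.mem_erase.2 ⟨fun hh => hqp (hh ▸ hz.2), hz.1⟩⟩
  have hI2 : N p ∩ N p' ⊆ ((N p').erase p').erase l' := by
    intro z hz
    rw [Finset.mem_inter] at hz
    exact Finset.mem_erase.2 ⟨fun hh => hlp' (hh ▸ hz.1),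
      Finset.mem_erase.2 ⟨fun hh => hpq (hh ▸ hz.1), hz.2⟩⟩
  have he1 : (((N p).erase p).erase l).card = 2 := by
    rw [Finset.card_erase_of_mem (Finset.mem_erase.2 ⟨D.pl.symm, hlp⟩),
      Finset.card_erase_of_mem (b.refl p), hpc]
  have he2 : (((N p').erase p').erase l').card = 2 := by
    rw [Finset.card_erase_of_mem (Finset.mem_erase.2 ⟨D.ql'.symm, hlq⟩),
      Finset.card_erase_of_mem (b.refl p'), hqc]
  have ho2 : o ≤ 2 := by rw [← he1]; exact Finset.card_le_card hI1
  set F := (N p ∪ N p') ∪ {t, u} with hF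
  have hFc : F.card + o = 10 := by
    have h1 : Disjoint (N p ∪ N p') ({t, u} : Finset V) := by
      rw [Finset.disjoint_right]
      intro z hz hz'
      rw [Finset.mem_insert, Finset.mem_singleton] at hz
      rw [Finset.mem_union] at hz'
      rcases hz with rfl | rfl
      · rcases hz' with hh | hh
        exacts [htp hh, htq hh]
      · rcases hz' with hh | hh
        exacts [hup hh, huq hh]
    rw [hF, Finset.card_union_of_disjoint h1, Finset.card_pair D.tu]
    omega
  have hpF : N p ⊆ F := fun z hz => Finset.mem_union_left _ (Finset.mem_union_left _ hz)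
  have hqF : N p' ⊆ F := fun z hz => Finset.mem_union_left _ (Finset.mem_union_right _ hz)
  have htF : t ∈ F := Finset.mem_union_right _ (Finset.mem_insert_self _ _)
  have huF : u ∈ F := Finset.mem_union_right _ (Finset.mem_insert_of_mem
    (Finset.mem_singleton_self _))
  have hlF : l ∈ F := hpF hlp
  have hlF' : l' ∈ F := hqF hlq
  have hNt : N t ⊆ F := by
    intro z hz
    rcases (D.mt z).1 hz with rfl | rfl | rfl | rfl
    exacts [htF, huF, hlF, hlF']
  have hNu : N u ⊆ F := by
    intro z hz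
    rcases (D.mu z).1 hz with rfl | rfl | rfl | rfl
    exacts [htF, huF, hlF, hlF']
  have hNl : N l ⊆ F := by
    intro z hz
    rcases (D.ml z).1 hz with rfl | rfl | rfl | rfl
    exacts [hlF, htF, huF, hpF (b.refl _)]
  have hNl' : N l' ⊆ F := by
    intro z hz
    rcases (D.ml' z).1 hz with rfl | rfl | rfl | rfl
    exacts [hlF', htF, huF, hqF (b.refl _)]
  set M := ((((N p ∪ N p').erase p).erase p').erase l).erase l' with hM
  have hMmem : ∀ e ∈ F, ∀ z, z ∉ F → z ∈ N e → e ∈ M := by
    intro e he z hz hze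
    have h1 : e ≠ p := by rintro rfl; exact hz (hpF hze)
    have h2 : e ≠ p' := by rintro rfl; exact hz (hqF hze)
    have h3 : e ≠ l := by rintro rfl; exact hz (hNl hze)
    have h4 : e ≠ l' := by rintro rfl; exact hz (hNl' hze)
    have h5 : e ≠ t := by rintro rfl; exact hz (hNt hze)
    have h5' : e ≠ u := by rintro rfl; exact hz (hNu hze)
    have h6 : e ∈ N p ∪ N p' := by
      rcases Finset.mem_union.1 he with hh | hh
      · exact hh
      · rw [Finset.mem_insert, Finset.mem_singleton] at hh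
        rcases hh with hh | hh
        exacts [absurd hh h5, absurd hh h5']
    exact Finset.mem_erase.2 ⟨h4, Finset.mem_erase.2 ⟨h3, Finset.mem_erase.2 ⟨h2,
      Finset.mem_erase.2 ⟨h1, h6⟩⟩⟩⟩
  have hMc : M.card + o = 4 := by
    have h1 : p ∈ N p ∪ N p' := Finset.mem_union_left _ (b.refl p)
    have h2 : p' ∈ (N p ∪ N p').erase p :=
      Finset.mem_erase.2 ⟨D.pq.symm, Finset.mem_union_right _ (b.refl p')⟩
    have h3 : l ∈ ((N p ∪ N p').erase p).erase p' :=
      Finset.mem_erase.2 ⟨D.ql.symm, Finset.mem_erase.2 ⟨D.pl.symm,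
        Finset.mem_union_left _ hlp⟩⟩
    have h4 : l' ∈ (((N p ∪ N p').erase p).erase p').erase l :=
      Finset.mem_erase.2 ⟨D.ll.symm, Finset.mem_erase.2 ⟨D.ql'.symm,
        Finset.mem_erase.2 ⟨D.pl'.symm, Finset.mem_union_right _ hlq⟩⟩⟩
    rw [hM, Finset.card_erase_of_mem h4, Finset.card_erase_of_mem h3,
      Finset.card_erase_of_mem h2, Finset.card_erase_of_mem h1]
    omega
  obtain ⟨P, hP⟩ := exists_comps (N := N) b.symm (univ \ F)
  have hcfg : Cfg N F {p, p'} P := by
    refine ⟨hP, ⟨t, htF⟩, ?_, ?_⟩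
    · intro z hz
      rw [Finset.mem_insert, Finset.mem_singleton] at hz
      rcases hz with rfl | rfl
      · exact hpF
      · exact hqF
    · rintro c hc ⟨z, hz, hzF⟩
      have key : c = t ∨ c = u ∨ c = l ∨ c = l' → ∃ w ∈ N c, w ∈ N p ∨ w ∈ N p' := by
        rintro (rfl | rfl | rfl | rfl)
        · exact ⟨l, (D.mt l).2 (by simp), Or.inl hlp⟩
        · exact ⟨l, (D.mu l).2 (by simp), Or.inl hlp⟩
        · exact ⟨_, b.refl _, Or.inl hlp⟩
        · exact ⟨_, b.refl _, Or.inr hlq⟩
      have h1 : ∃ w ∈ N c, w ∈ N p ∨ w ∈ N p' := by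
        rcases Finset.mem_union.1 hzF with hh | hh
        · rcases Finset.mem_union.1 hh with hh | hh
          · exact ⟨z, hz, Or.inl hh⟩
          · exact ⟨z, hz, Or.inr hh⟩
        · rw [Finset.mem_insert, Finset.mem_singleton] at hh
          rcases hh with rfl | rfl
          · exact key ((D.mt c).1 (b.symm _ _ hz))
          · exact key ((D.mu c).1 (b.symm _ _ hz))
      obtain ⟨w, hw, hw' | hw'⟩ := h1
      · exact ⟨p, Finset.mem_insert_self _ _, w, hw, hw'⟩
      · exact ⟨p', Finset.mem_insert_of_mem (Finset.mem_singleton_self _), w, hw, hw'⟩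
  have hYc : ({p, p'} : Finset V).card = 2 := Finset.card_pair D.pq
  by_cases ho2' : o = 2
  · have h1 : N p ∩ N p' = ((N p).erase p).erase l :=
      Finset.eq_of_subset_of_card_le hI1 (by omega)
    have h2 : N p ∩ N p' = ((N p').erase p').erase l' :=
      Finset.eq_of_subset_of_card_le hI2 (by omega)
    obtain ⟨k, y0, hkF, hy0F, hy0k⟩ : ∃ k y0, k ∈ F ∧ y0 ∉ F ∧ y0 ∈ N k := by
      have hne : F ≠ univ := by
        intro hh
        have : F.card = Fintype.card V := by rw [hh, Finset.card_univ]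
        omega
      obtain ⟨k, hk, y0, -, hy0, hy0k⟩ := b.conn.2 F (Finset.subset_univ F) ⟨t, htF⟩ hne
      exact ⟨k, y0, hk, hy0, hy0k⟩
    have hkM := hMmem k hkF y0 hy0F hy0k
    have hkt : k ≠ t := by rintro rfl; exact hy0F (hNt hy0k)
    have hku : k ≠ u := by rintro rfl; exact hy0F (hNu hy0k)
    rw [hM] at hkM
    simp only [Finset.mem_erase, Finset.mem_union] at hkM
    obtain ⟨hkl', hkl, hkq, hkp, hkU⟩ := hkM
    have hkI : k ∈ N p ∧ k ∈ N p' := by
      rcases hkU with hh | hh
      · have : k ∈ ((N p).erase p).erase l :=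
          Finset.mem_erase.2 ⟨hkl, Finset.mem_erase.2 ⟨hkp, hh⟩⟩
        rw [← h1] at this
        exact Finset.mem_inter.1 this
      · have : k ∈ ((N p').erase p').erase l' :=
          Finset.mem_erase.2 ⟨hkl', Finset.mem_erase.2 ⟨hkq, hh⟩⟩
        rw [← h2] at this
        exact Finset.mem_inter.1 this
    have hpk : p ∈ N k := b.symm _ _ hkI.1
    have hqk : p' ∈ N k := b.symm _ _ hkI.2
    have hk0 : k ≠ y0 := by rintro rfl; exact hy0F hkF
    have hp0 : p ≠ y0 := by rintro rfl; exact hy0F (hpF (b.refl _))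
    have hq0 : p' ≠ y0 := by rintro rfl; exact hy0F (hqF (b.refl _))
    have hsub : ({k, p, p', y0} : Finset V) ⊆ N k := by
      intro z hz
      simp only [Finset.mem_insert, Finset.mem_singleton] at hz
      rcases hz with rfl | rfl | rfl | rfl
      exacts [b.refl _, hpk, hqk, hy0k]
    have hc4 : ({k, p, p', y0} : Finset V).card = 4 := by
      rw [Finset.card_insert_of_notMem, Finset.card_eq_three.2 ⟨p, p', y0, D.pq, hp0, hq0, rfl⟩]
      simp only [Finset.mem_insert, Finset.mem_singleton]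
      rintro (hh | hh | hh)
      exacts [hkp hh, hkq hh, hk0 hh]
    have hkc : Cub N k := by
      show (N k).card = 4
      have h3 := Finset.card_le_card hsub
      have h4 := b.deg k
      omega
    exact D.one b hkc hpk hqk hkt hku hkl hkl' hkp hkq
  · have hcard : 9 * ({p, p'} : Finset V).card ≤ 2 * F.card := by rw [hYc]; omega
    obtain ⟨-, h2, h3, -⟩ := b.main F {p, p'} M P hcfg hcard hMmem (by omega)
    rw [hYc] at h2
    have hconn : Conn N F := by
      refine m6_conn b.symm htF ?_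
      intro B hB ht hcl
      have hl : l ∈ B := hcl t ht l hlF ((D.mt l).2 (by simp))
      have hl' : l' ∈ B := hcl t ht l' hlF' ((D.mt l').2 (by simp))
      have hpB : p ∈ B := hcl l hl p (hpF (b.refl p)) ((D.ml p).2 (by simp))
      have hqB : p' ∈ B := hcl l' hl' p' (hqF (b.refl p')) ((D.ml' p').2 (by simp))
      have huB : u ∈ B := hcl t ht u huF ((D.mt u).2 (by simp))
      intro z hz
      rcases Finset.mem_union.1 hz with hh | hh
      · rcases Finset.mem_union.1 hh with hh | hh
        · exact hcl p hpB z hz hh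
        · exact hcl p' hqB z hz hh
      · rw [Finset.mem_insert, Finset.mem_singleton] at hh
        rcases hh with rfl | rfl
        exacts [ht, huB]
    refine m6_end b hcfg hcard (by omega) hMmem ?_ (Or.inr ⟨by omega, hconn⟩)
    intro _
    have h4 : ∑ U ∈ P, K4.mu N U = 0 := by omega
    exact ⟨by omega, fun U hU => (Finset.sum_eq_zero_iff.1 h4) U hU⟩

/-- The neighbourhood of an outer vertex with two neighbours. -/
lemma DD.deg2 (b : Bas N) {t u l l' p p' : V} (D : DD N t u l l' p p') (hp : ¬ Cub N p) :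
    ∃ r, (∀ x, x ∈ N p ↔ x = p ∨ x = l ∨ x = r) ∧ Cub N r ∧ r ≠ p ∧ r ≠ l ∧ r ≠ t ∧ r ≠ u ∧
      r ≠ l' := by
  classical
  obtain ⟨h1, h2⟩ := b.d2 p hp
  have hlp : l ∈ N p := b.symm _ _ ((D.ml p).2 (by simp))
  have hc : (((N p).erase p).erase l).card = 1 := by
    rw [Finset.card_erase_of_mem (Finset.mem_erase.2 ⟨D.pl.symm, hlp⟩),
      Finset.card_erase_of_mem (b.refl p), h1]
  obtain ⟨r, hr⟩ := Finset.card_eq_one.1 hc
  have hr' : r ∈ ((N p).erase p).erase l := by rw [hr]; exact Finset.mem_singleton_self r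
  simp only [Finset.mem_erase] at hr'
  obtain ⟨hrl, hrp, hrN⟩ := hr'
  refine ⟨r, ?_, h2 r hrN hrp, hrp, hrl, ?_, ?_, ?_⟩
  · intro x
    constructor
    · intro hx
      by_cases hxp : x = p
      · exact Or.inl hxp
      · by_cases hxl : x = l
        · exact Or.inr (Or.inl hxl)
        · have : x ∈ ((N p).erase p).erase l :=
            Finset.mem_erase.2 ⟨hxl, Finset.mem_erase.2 ⟨hxp, hx⟩⟩
          rw [hr, Finset.mem_singleton] at this
          exact Or.inr (Or.inr this)
    · rintro (rfl | rfl | rfl)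
      exacts [b.refl _, hlp, hrN]
  · rintro rfl
    rcases (D.mt p).1 (b.symm _ _ hrN) with hh | hh | hh | hh
    exacts [D.pt hh, D.pu hh, D.pl hh, D.pl' hh]
  · rintro rfl
    rcases (D.mu p).1 (b.symm _ _ hrN) with hh | hh | hh | hh
    exacts [D.pt hh, D.pu hh, D.pl hh, D.pl' hh]
  · rintro rfl
    rcases (D.ml' p).1 (b.symm _ _ hrN) with hh | hh | hh | hh
    exacts [D.pl' hh, D.pt hh, D.pu hh, D.pq hh]

/-- One outer vertex is cubic. -/
lemma DD.caseII (b : Bas N) {t u l l' p p' : V} (D : DD N t u l l' p p') (hp : ¬ Cub N p)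
    (hq : Cub N p') (hpq : p' ∉ N p) : False := by
  classical
  obtain ⟨r, hNp, hr, hrp, hrl, hrt, hru, hrl'⟩ := D.deg2 b hp
  have hrq : r ≠ p' := by
    rintro rfl
    exact hpq ((hNp r).2 (by simp))
  have hrN : p ∈ N r := b.symm _ _ ((hNp r).2 (by simp))
  have hlq : l' ∈ N p' := b.symm _ _ ((D.ml' p').2 (by simp))
  have key : ∀ c, (c = t ∨ c = u ∨ c = l ∨ c = l') → ∃ w ∈ N c, w ∈ N r ∨ w ∈ N p' := by
    rintro c (rfl | rfl | rfl | rfl)
    · exact ⟨l', (D.mt l').2 (by simp), Or.inr hlq⟩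
    · exact ⟨l', (D.mu l').2 (by simp), Or.inr hlq⟩
    · exact ⟨p, (D.ml p).2 (by simp), Or.inl hrN⟩
    · exact ⟨_, b.refl _, Or.inr hlq⟩
  refine K4.pl b r p' p l' {t, u, l} hr hq hrq hrN hlq D.pl' hrp.symm D.pq hrl'.symm D.ql'.symm
    (Finset.card_eq_three.2 ⟨t, u, l, D.tu, D.lt.symm, D.lu.symm, rfl⟩) ?_ ?_ ?_ ?_ ?_ ?_
  · rw [Finset.disjoint_left]
    intro z hz hzr
    have hrz := b.symm _ _ hzr
    simp only [Finset.mem_insert, Finset.mem_singleton] at hz
    rcases hz with rfl | rfl | rfl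
    · rcases (D.mt r).1 hrz with hh | hh | hh | hh
      exacts [hrt hh, hru hh, hrl hh, hrl' hh]
    · rcases (D.mu r).1 hrz with hh | hh | hh | hh
      exacts [hrt hh, hru hh, hrl hh, hrl' hh]
    · rcases (D.ml r).1 hrz with hh | hh | hh | hh
      exacts [hrl hh, hrt hh, hru hh, hrp hh]
  · rw [Finset.disjoint_left]
    intro z hz hzr
    have hrz := b.symm _ _ hzr
    simp only [Finset.mem_insert, Finset.mem_singleton] at hz
    rcases hz with rfl | rfl | rfl
    · rcases (D.mt p').1 hrz with hh | hh | hh | hh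
      exacts [D.qt hh, D.qu hh, D.ql hh, D.ql' hh]
    · rcases (D.mu p').1 hrz with hh | hh | hh | hh
      exacts [D.qt hh, D.qu hh, D.ql hh, D.ql' hh]
    · rcases (D.ml p').1 hrz with hh | hh | hh | hh
      exacts [D.ql hh, D.qt hh, D.qu hh, D.pq hh.symm]
  · intro k hk z hz
    simp only [Finset.mem_insert, Finset.mem_singleton] at hk ⊢
    rcases hk with rfl | rfl | rfl
    · rcases (D.mt z).1 hz with hh | hh | hh | hh <;> simp [hh]
    · rcases (D.mu z).1 hz with hh | hh | hh | hh <;> simp [hh]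
    · rcases (D.ml z).1 hz with hh | hh | hh | hh <;> simp [hh]
  · intro z hz
    simp only [Finset.mem_insert, Finset.mem_singleton]
    rcases (hNp z).1 hz with hh | hh | hh <;> simp [hh]
  · intro z hz
    simp only [Finset.mem_insert, Finset.mem_singleton]
    rcases (D.ml' z).1 hz with hh | hh | hh | hh <;> simp [hh]
  · rintro c hc ⟨k, hk, hkc⟩
    have hck := b.symm _ _ hkc
    simp only [Finset.mem_insert, Finset.mem_singleton] at hk
    apply key
    rcases hk with rfl | rfl | rfl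
    · exact (D.mt c).1 hck
    · exact (D.mu c).1 hck
    · rcases (D.ml c).1 hck with hh | hh | hh | hh
      · exact Or.inr (Or.inr (Or.inl hh))
      · exact Or.inl hh
      · exact Or.inr (Or.inl hh)
      · exact absurd (hh ▸ hc) hp

/-- No outer vertex is cubic. -/
lemma DD.caseIII (b : Bas N) {t u l l' p p' : V} (D : DD N t u l l' p p') (hp : ¬ Cub N p)
    (hq : ¬ Cub N p') : False := by
  classical
  obtain ⟨r, hNp, hr, hrp, hrl, hrt, hru, hrl'⟩ := D.deg2 b hp
  obtain ⟨r', hNq, hr', hrq', hrl2, hrt', hru', hrl2'⟩ := D.swap.deg2 b hq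
  have hrq : r ≠ p' := by
    rintro rfl
    exact hq hr
  have hrp' : r' ≠ p := by
    rintro rfl
    exact hp hr'
  have hpr : p ∈ N r := b.symm _ _ ((hNp r).2 (by simp))
  have hqr : p' ∈ N r' := b.symm _ _ ((hNq r').2 (by simp))
  have hlp : l ∈ N p := b.symm _ _ ((D.ml p).2 (by simp))
  by_cases hrr : r = r'
  · subst hrr
    exact D.one b hr hpr hqr hrt hru hrl hrl' hrp hrq
  · have hr4 : (N r').card = 4 := hr'
    have hp3 : (N p).card = 3 := (b.d2 p hp).1
    -- the intersection
    have hpn : p ∉ N r' := by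
      intro hh
      rcases (hNp r').1 (b.symm _ _ hh) with h1 | h1 | h1
      exacts [hrp' h1, hrl2' h1, hrr h1.symm]
    have hln : l ∉ N r' := by
      intro hh
      rcases (D.ml r').1 (b.symm _ _ hh) with h1 | h1 | h1 | h1
      exacts [hrl2' h1, hrt' h1, hru' h1, hrp' h1]
    have hln' : l' ∉ N r' := by
      intro hh
      rcases (D.ml' r').1 (b.symm _ _ hh) with h1 | h1 | h1 | h1
      exacts [hrl2 h1, hrt' h1, hru' h1, hrq' h1]
    have htn : t ∉ N r' := by
      intro hh
      rcases (D.mt r').1 (b.symm _ _ hh) with h1 | h1 | h1 | h1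
      exacts [hrt' h1, hru' h1, hrl2' h1, hrl2 h1]
    have hun : u ∉ N r' := by
      intro hh
      rcases (D.mu r').1 (b.symm _ _ hh) with h1 | h1 | h1 | h1
      exacts [hrt' h1, hru' h1, hrl2' h1, hrl2 h1]
    have hNp' : N p = {p, l, r} := by
      ext x
      rw [hNp x]
      simp
    set F := insert t (insert u (insert l' (insert p (insert l (insert r (N r')))))) with hF
    have hrF : N r' ⊆ F := fun z hz => by
      rw [hF]
      simp only [Finset.mem_insert]
      simp [hz]
    have hpF : N p ⊆ F := fun z hz => by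
      rw [hF]
      simp only [Finset.mem_insert]
      rcases (hNp z).1 hz with hh | hh | hh <;> simp [hh]
    have htF : t ∈ F := by rw [hF]; simp
    have huF : u ∈ F := by rw [hF]; simp
    have hlF' : l' ∈ F := by rw [hF]; simp
    have hlF : l ∈ F := hpF hlp
    have hqF : p' ∈ F := hrF hqr
    have hNt : N t ⊆ F := by
      intro z hz
      rcases (D.mt z).1 hz with rfl | rfl | rfl | rfl
      exacts [htF, huF, hlF, hlF']
    have hNu : N u ⊆ F := by
      intro z hz
      rcases (D.mu z).1 hz with rfl | rfl | rfl | rfl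
      exacts [htF, huF, hlF, hlF']
    have hNl : N l ⊆ F := by
      intro z hz
      rcases (D.ml z).1 hz with rfl | rfl | rfl | rfl
      exacts [hlF, htF, huF, hpF (b.refl _)]
    have hNl' : N l' ⊆ F := by
      intro z hz
      rcases (D.ml' z).1 hz with rfl | rfl | rfl | rfl
      exacts [hlF', htF, huF, hqF]
    have hNq' : N p' ⊆ F := by
      intro z hz
      rcases (hNq z).1 hz with rfl | rfl | rfl
      exacts [hqF, hlF', hrF (b.refl _)]
    have h5 : (insert t (insert u (insert l' (insert p (insert l (insert r (N r'))))))).card =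
        (insert r (N r')).card + 5 := by
      rw [Finset.card_insert_of_notMem, Finset.card_insert_of_notMem,
        Finset.card_insert_of_notMem, Finset.card_insert_of_notMem,
        Finset.card_insert_of_notMem]
      · simp only [Finset.mem_insert]
        rintro (hh | hh)
        exacts [hrl hh.symm, hln hh]
      · simp only [Finset.mem_insert]
        rintro (hh | hh | hh)
        exacts [D.pl hh, hrp hh.symm, hpn hh]
      · simp only [Finset.mem_insert]
        rintro (hh | hh | hh | hh)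
        exacts [D.pl' hh.symm, D.ll hh.symm, hrl' hh.symm, hln' hh]
      · simp only [Finset.mem_insert]
        rintro (hh | hh | hh | hh | hh)
        exacts [D.lu' hh.symm, D.pu hh.symm, D.lu hh.symm, hru hh.symm, hun hh]
      · simp only [Finset.mem_insert]
        rintro (hh | hh | hh | hh | hh | hh)
        exacts [D.tu hh, D.lt' hh.symm, D.pt hh.symm, D.lt hh.symm, hrt hh.symm, htn hh]
    set M := insert r (((N r').erase r').erase p') with hM
    have hMmem : ∀ e ∈ F, ∀ z, z ∉ F → z ∈ N e → e ∈ M := by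
      intro e he z hz hze
      rw [hF] at he
      simp only [Finset.mem_insert] at he
      rw [hM]
      rcases he with rfl | rfl | rfl | rfl | rfl | rfl | he
      · exact absurd (hNt hze) hz
      · exact absurd (hNu hze) hz
      · exact absurd (hNl' hze) hz
      · exact absurd (hpF hze) hz
      · exact absurd (hNl hze) hz
      · exact Finset.mem_insert_self _ _
      · apply Finset.mem_insert_of_mem
        refine Finset.mem_erase.2 ⟨?_, Finset.mem_erase.2 ⟨?_, he⟩⟩
        · rintro rfl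
          exact hz (hNq' hze)
        · rintro rfl
          exact hz (hrF hze)
    have hec : (((N r').erase r').erase p').card = 2 := by
      rw [Finset.card_erase_of_mem (Finset.mem_erase.2 ⟨hrq'.symm, hqr⟩),
        Finset.card_erase_of_mem (b.refl r'), hr4]
    obtain ⟨P, hP⟩ := exists_comps (N := N) b.symm (univ \ F)
    have hcfg : Cfg N F {p, r'} P := by
      refine ⟨hP, ⟨t, htF⟩, ?_, ?_⟩
      · intro z hz
        rw [Finset.mem_insert, Finset.mem_singleton] at hz
        rcases hz with rfl | rfl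
        · exact hpF
        · exact hrF
      · rintro c hc ⟨z, hz, hzF⟩
        have key : c = t ∨ c = u ∨ c = l ∨ c = l' → ∃ w ∈ N c, w ∈ N p ∨ w ∈ N r' := by
          rintro (rfl | rfl | rfl | rfl)
          · exact ⟨l, (D.mt l).2 (by simp), Or.inl hlp⟩
          · exact ⟨l, (D.mu l).2 (by simp), Or.inl hlp⟩
          · exact ⟨_, b.refl _, Or.inl hlp⟩
          · exact ⟨p', (D.ml' p').2 (by simp), Or.inr hqr⟩
        have h1 : ∃ w ∈ N c, w ∈ N p ∨ w ∈ N r' := by
          have hcz := b.symm _ _ hz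
          rw [hF] at hzF
          simp only [Finset.mem_insert] at hzF
          rcases hzF with rfl | rfl | rfl | rfl | rfl | rfl | hh
          · exact key ((D.mt c).1 hcz)
          · exact key ((D.mu c).1 hcz)
          · rcases (D.ml' c).1 hcz with hh | hh | hh | hh
            · exact key (Or.inr (Or.inr (Or.inr hh)))
            · exact key (Or.inl hh)
            · exact key (Or.inr (Or.inl hh))
            · exact absurd (hh ▸ hc) hq
          · exact ⟨_, hz, Or.inl (b.refl _)⟩
          · exact ⟨_, hz, Or.inl hlp⟩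
          · exact ⟨_, hz, Or.inl ((hNp z).2 (by simp))⟩
          · exact ⟨z, hz, Or.inr hh⟩
        obtain ⟨w, hw, hw' | hw'⟩ := h1
        · exact ⟨p, Finset.mem_insert_self _ _, w, hw, hw'⟩
        · exact ⟨r', Finset.mem_insert_of_mem (Finset.mem_singleton_self _), w, hw, hw'⟩
    have hYc : ({p, r'} : Finset V).card = 2 := Finset.card_pair hrp'.symm
    by_cases hadj : r ∈ N r'
    · have hFc : F.card = 9 := by
        rw [hF, h5, Finset.insert_eq_of_mem hadj, hr4]
      have hrr2 : r ∈ ((N r').erase r').erase p' :=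
        Finset.mem_erase.2 ⟨hrq, Finset.mem_erase.2 ⟨hrr, hadj⟩⟩
      have hMc : M.card = 2 := by rw [hM, Finset.insert_eq_of_mem hrr2, hec]
      have hcard : 9 * ({p, r'} : Finset V).card ≤ 2 * F.card := by rw [hYc]; omega
      obtain ⟨-, h2, h3, -⟩ := b.main F {p, r'} M P hcfg hcard hMmem (by omega)
      rw [hYc] at h2
      refine m6_end b hcfg hcard (by omega) hMmem ?_ (Or.inl (by omega))
      intro _
      have h4 : ∑ U ∈ P, K4.mu N U = 0 := by omega
      exact ⟨by omega, fun U hU => (Finset.sum_eq_zero_iff.1 h4) U hU⟩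
    · have hFc : F.card = 10 := by
        rw [hF, h5, Finset.card_insert_of_notMem hadj, hr4]
      have hMc : M.card ≤ 3 := by
        rw [hM]
        have := Finset.card_insert_le r (((N r').erase r').erase p')
        omega
      have hcard : 9 * ({p, r'} : Finset V).card ≤ 2 * F.card := by rw [hYc]; omega
      obtain ⟨-, h2, h3, -⟩ := b.main F {p, r'} M P hcfg hcard hMmem (by omega)
      rw [hYc] at h2
      omega

/-- The adjacent outer vertices. -/
lemma DD.nadj (b : Bas N) {t u l l' p p' : V} (D : DD N t u l l' p p') (hp : Cub N p) :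
    p' ∉ N p := by
  have htp : t ∉ N p := by
    intro hh
    rcases (D.mt p).1 (b.symm _ _ hh) with h1 | h1 | h1 | h1
    exacts [D.pt h1, D.pu h1, D.pl h1, D.pl' h1]
  have hlp : l ∈ N p := b.symm _ _ ((D.ml p).2 (by simp))
  obtain ⟨c, hc, htc, hd⟩ := b.a2 p t hp htp
  rw [Finset.disjoint_left] at hd
  rcases (D.mt c).1 (b.symm _ _ htc) with hh | hh | hh | hh
  · exact absurd hlp (hd (hh ▸ (D.mt l).2 (by simp)))
  · exact absurd hlp (hd (hh ▸ (D.mu l).2 (by simp)))
  · exact absurd hlp (hd (hh ▸ b.refl l))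
  · exact hd (hh ▸ (D.ml' p').2 (by simp))

/-- A diamond gives the structure. -/
lemma DD.false (b : Bas N) {t u l l' p p' : V} (D : DD N t u l l' p p') : False := by
  by_cases hp : Cub N p
  · by_cases hq : Cub N p'
    · exact D.caseI b hp hq (D.nadj b hp)
    · exact D.swap.caseII b hq hp (fun hh => D.nadj b hp (b.symm _ _ hh))
  · by_cases hq : Cub N p'
    · exact D.caseII b hp hq (fun hh => D.swap.nadj b hq (b.symm _ _ hh))
    · exact D.caseIII b hp hq

/-- No diamond. -/
theorem dia (b : Bas N) : ∀ t u l l', t ≠ u → l ≠ l' → l ≠ t → l ≠ u → l' ≠ t → l' ≠ u →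
    u ∈ N t → l ∈ N t → l ∈ N u → l' ∈ N t → l' ∈ N u → False := by
  classical
  intro t u l l' htu hll hlt hlu hlt' hlu' hut hlT hlU hlT' hlU'
  have hL4 : ({t, u, l, l'} : Finset V).card = 4 := by
    rw [Finset.card_insert_of_notMem, Finset.card_eq_three.2 ⟨u, l, l', hlu.symm, hlu'.symm, hll,
      rfl⟩]
    simp only [Finset.mem_insert, Finset.mem_singleton]
    rintro (hh | hh | hh)
    exacts [htu hh, hlt hh.symm, hlt' hh.symm]
  have hNt : ({t, u, l, l'} : Finset V) = N t := by
    apply Finset.eq_of_subset_of_card_le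
    · intro z hz
      simp only [Finset.mem_insert, Finset.mem_singleton] at hz
      rcases hz with rfl | rfl | rfl | rfl
      exacts [b.refl _, hut, hlT, hlT']
    · rw [hL4]; exact b.deg t
  have hNu : ({t, u, l, l'} : Finset V) = N u := by
    apply Finset.eq_of_subset_of_card_le
    · intro z hz
      simp only [Finset.mem_insert, Finset.mem_singleton] at hz
      rcases hz with rfl | rfl | rfl | rfl
      exacts [b.symm _ _ hut, b.refl _, hlU, hlU']
    · rw [hL4]; exact b.deg u
  have mt : ∀ x, x ∈ N t ↔ x = t ∨ x = u ∨ x = l ∨ x = l' := by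
    intro x; rw [← hNt]; simp
  have mu' : ∀ x, x ∈ N u ↔ x = t ∨ x = u ∨ x = l ∨ x = l' := by
    intro x; rw [← hNu]; simp
  have ht : Cub N t := by
    show (N t).card = 4
    rw [← hNt, hL4]
  have htl : t ∈ N l := b.symm _ _ hlT
  have hul : u ∈ N l := b.symm _ _ hlU
  have htl' : t ∈ N l' := b.symm _ _ hlT'
  have hul' : u ∈ N l' := b.symm _ _ hlU'
  -- a vertex with closed neighbourhood of at most three elements
  have small : ∀ m, m ≠ t → m ≠ u → t ∈ N m → u ∈ N m → ¬ Cub N m → ∀ x ∈ N m,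
      x = m ∨ x = t ∨ x = u := by
    intro m hmt hmu h1 h2 h3 x hx
    have h4 := (b.d2 m h3).1
    have h5 : ({m, t, u} : Finset V) = N m := by
      apply Finset.eq_of_subset_of_card_le
      · intro z hz
        simp only [Finset.mem_insert, Finset.mem_singleton] at hz
        rcases hz with rfl | rfl | rfl
        exacts [b.refl _, h1, h2]
      · rw [Finset.card_eq_three.2 ⟨m, t, u, hmt, hmu, htu, rfl⟩]; omega
    rw [← h5] at hx
    simpa using hx
  -- the neighbourhoods of `l` and `l'`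
  have big : ∀ m, m ≠ t → m ≠ u → t ∈ N m → u ∈ N m → Cub N m → ∃ q, q ≠ m ∧ q ≠ t ∧ q ≠ u ∧
      ∀ x, x ∈ N m ↔ x = m ∨ x = t ∨ x = u ∨ x = q := by
    intro m hmt hmu h1 h2 h3
    have h4 : (N m).card = 4 := h3
    have h5 : ((((N m).erase m).erase t).erase u).card = 1 := by
      rw [Finset.card_erase_of_mem (Finset.mem_erase.2 ⟨htu.symm, Finset.mem_erase.2
        ⟨hmu.symm, h2⟩⟩), Finset.card_erase_of_mem (Finset.mem_erase.2 ⟨hmt.symm, h1⟩),
        Finset.card_erase_of_mem (b.refl m), h4]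
    obtain ⟨q, hq⟩ := Finset.card_eq_one.1 h5
    have hq' : q ∈ (((N m).erase m).erase t).erase u := by rw [hq]; exact Finset.mem_singleton_self q
    simp only [Finset.mem_erase] at hq'
    obtain ⟨hqu, hqt, hqm, hqN⟩ := hq'
    refine ⟨q, hqm, hqt, hqu, ?_⟩
    intro x
    constructor
    · intro hx
      by_cases h6 : x = m
      · exact Or.inl h6
      · by_cases h7 : x = t
        · exact Or.inr (Or.inl h7)
        · by_cases h8 : x = u
          · exact Or.inr (Or.inr (Or.inl h8))
          · have : x ∈ (((N m).erase m).erase t).erase u :=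
              Finset.mem_erase.2 ⟨h8, Finset.mem_erase.2 ⟨h7, Finset.mem_erase.2 ⟨h6, hx⟩⟩⟩
            rw [hq, Finset.mem_singleton] at this
            exact Or.inr (Or.inr (Or.inr this))
    · rintro (rfl | rfl | rfl | rfl)
      exacts [b.refl _, h1, h2, hqN]
  have hcl : Cub N l ∨ Cub N l' := by
    by_contra hcon
    push Not at hcon
    obtain ⟨h1, h2⟩ := hcon
    obtain ⟨v, hv, x, hx, hxv, -⟩ := b.cut t t ht
    rw [mt] at hx hv
    push Not at hx
    rcases hv with rfl | rfl | rfl | rfl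
    · rcases (mt x).1 hxv with hh | hh | hh | hh
      exacts [hx.1 hh, hx.2.1 hh, hx.2.2.1 hh, hx.2.2.2 hh]
    · rcases (mu' x).1 hxv with hh | hh | hh | hh
      exacts [hx.1 hh, hx.2.1 hh, hx.2.2.1 hh, hx.2.2.2 hh]
    · rcases small _ hlt hlu htl hul h1 x hxv with hh | hh | hh
      exacts [hx.2.2.1 hh, hx.1 hh, hx.2.1 hh]
    · rcases small _ hlt' hlu' htl' hul' h2 x hxv with hh | hh | hh
      exacts [hx.2.2.2 hh, hx.1 hh, hx.2.1 hh]
  have hcl1 : Cub N l := by
    by_contra h1
    have h2 : Cub N l' := hcl.resolve_left h1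
    exact b.v2 l t u l' h1 htl hul hlt.symm hlu.symm htu h2 hlt' hlu'
      ⟨t, htl', b.refl t⟩ ⟨u, hul', b.refl u⟩
  have hcl2 : Cub N l' := by
    by_contra h1
    exact b.v2 l' t u l h1 htl' hul' hlt'.symm hlu'.symm htu hcl1 hlt hlu
      ⟨t, htl, b.refl t⟩ ⟨u, hul, b.refl u⟩
  obtain ⟨p, hpl, hpt, hpu, ml⟩ := big l hlt hlu htl hul hcl1
  obtain ⟨q, hql, hqt, hqu, ml'⟩ := big l' hlt' hlu' htl' hul' hcl2
  have hpl' : p ≠ l' := by
    rintro rfl
    -- then `l'` is adjacent to `l`, and the set is closed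
    have h1 : l ∈ N p := b.symm _ _ ((ml p).2 (by simp))
    have h2 : l = q := by
      rcases (ml' l).1 h1 with hh | hh | hh | hh
      exacts [absurd hh hll, absurd hh hlt, absurd hh hlu, hh]
    obtain ⟨v, hv, x, hx, hxv, -⟩ := b.cut t t ht
    rw [mt] at hx hv
    push Not at hx
    rcases hv with rfl | rfl | rfl | rfl
    · rcases (mt x).1 hxv with hh | hh | hh | hh
      exacts [hx.1 hh, hx.2.1 hh, hx.2.2.1 hh, hx.2.2.2 hh]
    · rcases (mu' x).1 hxv with hh | hh | hh | hh
      exacts [hx.1 hh, hx.2.1 hh, hx.2.2.1 hh, hx.2.2.2 hh]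
    · rcases (ml x).1 hxv with hh | hh | hh | hh
      exacts [hx.2.2.1 hh, hx.1 hh, hx.2.1 hh, hx.2.2.2 hh]
    · rcases (ml' x).1 hxv with hh | hh | hh | hh
      exacts [hx.2.2.2 hh, hx.1 hh, hx.2.1 hh, hx.2.2.1 (hh.trans h2.symm)]
  have hql' : q ≠ l := by
    rintro rfl
    have h1 : l' ∈ N q := b.symm _ _ ((ml' q).2 (by simp))
    rcases (ml l').1 h1 with hh | hh | hh | hh
    exacts [hll hh.symm, hlt' hh, hlu' hh, hpl' hh.symm]
  have hpq : p ≠ q := by
    obtain ⟨v, hv, x, hx, hxv, hxp⟩ := b.cut t p ht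
    rw [mt] at hx hv
    push Not at hx
    rcases hv with rfl | rfl | rfl | rfl
    · rcases (mt x).1 hxv with hh | hh | hh | hh
      exacts [absurd hh hx.1, absurd hh hx.2.1, absurd hh hx.2.2.1, absurd hh hx.2.2.2]
    · rcases (mu' x).1 hxv with hh | hh | hh | hh
      exacts [absurd hh hx.1, absurd hh hx.2.1, absurd hh hx.2.2.1, absurd hh hx.2.2.2]
    · rcases (ml x).1 hxv with hh | hh | hh | hh
      exacts [absurd hh hx.2.2.1, absurd hh hx.1, absurd hh hx.2.1, absurd hh hxp]
    · rcases (ml' x).1 hxv with hh | hh | hh | hh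
      · exact absurd hh hx.2.2.2
      · exact absurd hh hx.1
      · exact absurd hh hx.2.1
      · rintro rfl
        exact hxp hh
  exact DD.false b (D := ⟨mt, mu', ml, ml', htu, hlt, hlu, hlt', hlu', hll, hpt, hpu, hpl, hpl',
    hqt, hqu, hql', hql, hpq⟩)

end

end Pool.Agent.Star.K4
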