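import Pool.Agent.Star.K4.Defs

/-!
# `K = 4`: the statements of the modules

`Gen` (from `VC`), `Bas`, `Mid`, `Cb` collect the facts which are proved one after the other.
-/

set_option autoImplicit false
set_option linter.unusedSectionVars false
set_option linter.unusedVariables false

namespace Pool.Agent.Star.K4

open Finset Rig

section
variable {V : Type*} [DecidableEq V] [Fintype V]

/-- `F` contains the closed neighbourhoods of `Y`, all cubic stars meeting `F` are hit by `Y`, and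
`P` are the components of the complement of `F`. -/
structure Cfg (N : V → Finset V) (F Y : Finset V) (P : Finset (Finset V)) : Prop where
  comps : Comps N (univ \ F) P
  ne : F.Nonempty
  nbh : ∀ y ∈ Y, N y ⊆ F
  dead : ∀ c, Cub N c → (∃ x ∈ N c, x ∈ F) → ∃ y ∈ Y, ∃ x ∈ N c, x ∈ N y

/-- `e` touches `U`. -/
def Tch (N : V → Finset V) (e : V) (U : Finset V) : Prop := ∃ x ∈ U, x ∈ N e

/-- With `e` one needs one vertex less for `U`. -/
def Sav (N : V → Finset V) (U : Finset V) (e : V) : Prop :=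
  ∃ D ⊆ U, (∀ c, Cub N c → N c ⊆ U →
    (∃ x ∈ N c, x ∈ N e) ∨ ∃ d ∈ D, ∃ x ∈ N c, x ∈ N d) ∧ D.card + 1 ≤ fv N U

/-- Module M3: in an exceptional set with eight vertices all vertices have three neighbours. -/
def FactB (N : V → Finset V) : Prop :=
  ∀ U : Finset V, U ≠ univ → Conn N U → U.card = 8 → fv N U = 2 → ∀ x ∈ U, (N x ∩ U).card = 4

open Classical in
/-- The number of exceptional components. -/
noncomputable def na (N : V → Finset V) (P : Finset (Finset V)) : ℕ := (P.filter (ExA N)).card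

/-- Module M2: the general facts. -/
structure Gen (N : V → Finset V) : Prop extends VC N where
  /-- a set hitting all cubic stars has at least `fv N univ` elements -/
  lower : ∀ D : Finset V, KI N D univ → fv N univ ≤ D.card
  /-- optimal sets -/
  opt : ∀ U : Finset V, ∃ D ⊆ U, KI N D U ∧ D.card = fv N U
  /-- `fv` is the minimum -/
  fvle : ∀ U D : Finset V, D ⊆ U → KI N D U → fv N U ≤ D.card
  /-- components are exceptional or satisfy the bound -/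
  val : ∀ U : Finset V, U ≠ univ → Conn N U → ExA N U ∨ 9 * fv N U + mu N U = 2 * U.card
  /-- exceptional sets are cubic stars -/
  exA : ∀ U : Finset V, ExA N U → ∃ t, Cub N t ∧ U = N t
  exA' : ∀ t, Cub N t → ExA N (N t)
  /-- CUT -/
  cut : ∀ t v, Cub N t → ∃ u ∈ N t, ∃ x, x ∉ N t ∧ x ∈ N u ∧ x ≠ v
  /-- (T): all vertices of exceptional and of tight sets are critical -/
  tight : ∀ U : Finset V, U ≠ univ → Conn N U → mu N U = 0 → ∀ e, Tch N e U → Sav N U e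
  /-- (M1) -/
  mu1 : ∀ U : Finset V, U ≠ univ → Conn N U → mu N U = 1 → ∀ e, ∀ y ∈ U, y ∈ N e →
    ¬ Sav N U e → U.card = 5 ∧ fv N U = 1 ∧ ∃ t, Cub N t ∧ U.erase y = N t
  /-- (OPT) -/
  optm : ∀ U : Finset V, U ≠ univ → Conn N U → mu N U ≤ 1 → ∀ m ∈ U, ¬ N m ⊆ U →
    ∃ D ⊆ U, m ∈ D ∧ KI N D U ∧ D.card = fv N U
  /-- (G4), outside -/
  g4o : ∀ U : Finset V, U ≠ univ → Conn N U → Conn N (univ \ U) → mu N U ≤ 1 → ¬ ExA N U →
    ∀ y, ∃ u ∈ U, ∃ x, x ∉ U ∧ x ∈ N u ∧ x ≠ y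
  /-- (G4), inside -/
  g4i : ∀ U : Finset V, U ≠ univ → Conn N U → Conn N (univ \ U) → mu N U ≤ 1 → ¬ ExA N U →
    ∀ y, ∃ u ∈ U, ∃ x, x ∉ U ∧ x ∈ N u ∧ u ≠ y
  /-- (G0) and (SEP); `M` contains the vertices of `F` with neighbours outside `F` -/
  main : ∀ (F Y M : Finset V) (P : Finset (Finset V)), Cfg N F Y P → 9 * Y.card ≤ 2 * F.card →
    (∀ e ∈ F, ∀ x, x ∉ F → x ∈ N e → e ∈ M) → M.card ≤ 8 →
    fv N univ = Y.card + ∑ U ∈ P, fv N U ∧
    na N P + 9 * Y.card = 2 * F.card + 1 + ∑ U ∈ P, mu N U ∧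
    2 * na N P ≤ M.card ∧
    ∀ e, ∀ U ∈ P, ∀ U' ∈ P, Sav N U e → Sav N U' e → U = U'

/-- Module M5: the basic facts. -/
structure Bas (N : V → Finset V) : Prop extends Gen N where
  a1c : ∀ z, Cub N z → Conn N (univ \ N z)
  a1 : ∀ z, Cub N z → fv N (univ \ N z) + 1 = fv N univ
  a2 : ∀ z v, Cub N z → v ∉ N z → ∃ c, Cub N c ∧ v ∈ N c ∧ Disjoint (N c) (N z)
  d2 : ∀ v, ¬ Cub N v → (N v).card = 3 ∧ ∀ x ∈ N v, x ≠ v → Cub N x
  c3 : ∀ x, Cub N x → ∃ c, c ≠ x ∧ Cub N c ∧ c ∈ N x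
  v2 : ∀ v x1 x2 z, ¬ Cub N v → x1 ∈ N v → x2 ∈ N v → x1 ≠ v → x2 ≠ v → x1 ≠ x2 → Cub N z →
    z ≠ x1 → z ≠ x2 → (∃ w ∈ N z, w ∈ N x1) → (∃ w ∈ N z, w ∈ N x2) → False
  k23 : ∀ g g', g ≠ g' → Cub N g → Cub N g' → (N g).erase g = (N g').erase g' → False

/-- Module M6. -/
structure Mid (N : V → Finset V) : Prop extends Bas N where
  /-- the pattern lemma -/
  pl : ∀ (g g' x y : V) (Kc : Finset V), Cub N g → Cub N g' → g ≠ g' → x ∈ N g → y ∈ N g' →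
    x ≠ y → x ≠ g → x ≠ g' → y ≠ g → y ≠ g' → Kc.card = 3 → Disjoint Kc (N g) →
    Disjoint Kc (N g') → (∀ k ∈ Kc, N k ⊆ insert x (insert y Kc)) →
    N x ⊆ insert x (insert g Kc) → N y ⊆ insert y (insert g' Kc) →
    (∀ c, Cub N c → (∃ k ∈ Kc, k ∈ N c) → ∃ w ∈ N c, w ∈ N g ∨ w ∈ N g') → False
  /-- no diamond -/
  dia : ∀ t u l l', t ≠ u → l ≠ l' → l ≠ t → l ≠ u → l' ≠ t → l' ≠ u → u ∈ N t → l ∈ N t →
    l ∈ N u → l' ∈ N t → l' ∈ N u → False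
  /-- (2G): an exceptional set has three neighbours -/
  twoG : ∀ t w1 w2, Cub N t → ∃ w, w ∉ N t ∧ w ≠ w1 ∧ w ≠ w2 ∧ ∃ l ∈ N t, l ∈ N w

/-- Module M7: `SWAP` (for general `F`). -/
def Swap (N : V → Finset V) : Prop :=
  ∀ (z1 z2 w t : V) (F : Finset V) (P : Finset (Finset V)), Cub N z1 → Cub N z2 →
    Cfg N F {z1, z2} P → fv N univ = 2 + ∑ U ∈ P, fv N U →
    (∀ c ∈ F, Cub N c → c ∉ N z1 → ∃ x ∈ N c, x ∈ N z2) →
    Cub N t → N t ∈ P →
    (∀ U ∈ P, U ≠ N t → mu N U ≤ 1) →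
    (∀ U ∈ P, U ≠ N t → ∃ g, ∀ e ∈ N z1, e ≠ z1 → Tch N e U → e = g) →
    w ∈ N z1 → w ≠ z1 → Tch N w (N t) →
    (∀ c ∈ N t, Cub N c → (∃ x ∈ N c, x ∈ N w) ∨ ∃ x ∈ N c, x ∈ N z2) → False

/-- Module M7: one of two touching vertices is good. -/
def Good (N : V → Finset V) : Prop :=
  ∀ (t w w' z : V), Cub N t → w ∉ N t → w' ∉ N t → Tch N w (N t) → Tch N w' (N t) →
    (∀ c ∈ N t, Cub N c → (∀ x ∈ N c, x ∉ N t → x = w ∨ x = w') ∨ ∃ x ∈ N c, x ∈ N z) →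
    (∀ c ∈ N t, Cub N c → (∃ x ∈ N c, x ∈ N w) ∨ ∃ x ∈ N c, x ∈ N z) ∨
    (∀ c ∈ N t, Cub N c → (∃ x ∈ N c, x ∈ N w') ∨ ∃ x ∈ N c, x ∈ N z)

/-- Module M7: (P). -/
def PP (N : V → Finset V) : Prop :=
  ∀ v x1 x2 z1 z2, ¬ Cub N v → x1 ∈ N v → x2 ∈ N v → x1 ≠ v → x2 ≠ v → x1 ≠ x2 →
    Cub N z1 → Cub N z2 → z1 ∈ N x1 → z1 ≠ x1 → z2 ∈ N x2 → z2 ≠ x2 →
    ¬ Disjoint (N z1) (N z2)

/-- After module M8: all vertices are cubic. -/
structure Cb (N : V → Finset V) : Prop extends Mid N where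
  swap : Swap N
  good : Good N
  reg : ∀ x, Cub N x

/-- Module M9: no triangle. -/
def No3 (N : V → Finset V) : Prop :=
  ∀ a b c, a ≠ b → b ≠ c → a ≠ c → b ∈ N a → c ∈ N b → c ∈ N a → False

/-- Module M10: no cycle with four vertices. -/
def No4 (N : V → Finset V) : Prop :=
  ∀ a b c d, [a, b, c, d].Nodup → b ∈ N a → c ∈ N b → d ∈ N c → a ∈ N d → False

/-- Module M11: no cycle with five vertices. -/
def No5 (N : V → Finset V) : Prop :=
  ∀ a b c d e, [a, b, c, d, e].Nodup → b ∈ N a → c ∈ N b → d ∈ N c → e ∈ N d → a ∈ N e → False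

/-- Module M11: no cycle with six vertices. -/
def No6 (N : V → Finset V) : Prop :=
  ∀ a b c d e f, [a, b, c, d, e, f].Nodup → b ∈ N a → c ∈ N b → d ∈ N c → e ∈ N d → f ∈ N e →
    a ∈ N f → False

end

end Pool.Agent.Star.K4
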