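import Pool.Agent.Star.T3a

/-!
# Star systems: counting around one vertex of a violator (copy of T3a without minimality)

`far N C Y` are the star sets not hit by `Y`.  No vertex of a minimal violator cuts off an
exceptional set (`VS0.cut`), all degrees are at most `2K - 2` (`VS0.deg_le`), and the
exceptional components around a vertex are described by `VS0.deg`.
-/

set_option autoImplicit false
set_option linter.unusedSectionVars false
set_option linter.unusedVariables false

namespace Pool.Agent.Star.Rig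

open Finset

variable {V : Type*} [DecidableEq V]

/-- A violating system all of whose proper parts satisfy the bound (any set of star sets). -/
structure VS0 (N : V → Finset V) (K : ℕ) (A : Finset V) (C : Finset (Finset V)) : Prop where
  refl : ∀ x, x ∈ N x
  symm : ∀ x y, x ∈ N y → y ∈ N x
  two : 2 ≤ K
  sys : Sys N K A C
  conn : Conn N A
  hE : ∀ A' ⊂ A, ∀ C' ⊆ C, Sys N K A' C' → Conn N A' → Bd N K A' C'

section
variable {N : V → Finset V} {K : ℕ} {A Q Y : Finset V} {C F : Finset (Finset V)}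

/-- The accounting for the components of `A \ Q` and the star sets far from `Y`. -/
lemma VS0.acc (h : VS0 N K A C) (hQ : Q.Nonempty) (hQA : Q ⊆ A) (hF : Comps N (A \ Q) F)
    {C' : Finset (Finset V)} (hC' : C' ⊆ C) :
    (2 * K + 1) * ∑ U ∈ F, gk N U (res C' U) + 2 * Q.card ≤
      2 * A.card + ∑ U ∈ exc N K C' F, gk N U (res C' U) := by
  classical
  have h1 : ∀ U ∈ F, (2 * K + 1) * gk N U (res C' U) ≤
      2 * U.card + (if Typ N K U (res C' U) then gk N U (res C' U) else 0) := by
    intro U hU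
    have hUA : U ⊂ A := Finset.ssubset_of_subset_of_ssubset (hF.cl U hU).1
      (Finset.sdiff_ssubset hQA hQ)
    have hb := h.hE U hUA (res C' U) ((Finset.filter_subset _ _).trans hC')
      ((h.sys.of_subset hC').res) (hF.conn U hU)
    by_cases hT : Typ N K U (res C' U)
    · rw [if_pos hT, typ_val hT]
    · rw [if_neg hT]
      exact bd_exc hb hT
  have h2 : (A \ Q).card + Q.card = A.card := Finset.card_sdiff_add_card_eq_card hQA
  have h3 : ∑ U ∈ F, (if Typ N K U (res C' U) then gk N U (res C' U) else 0) =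
      ∑ U ∈ exc N K C' F, gk N U (res C' U) := by
    unfold exc
    rw [Finset.sum_filter]
  calc (2 * K + 1) * ∑ U ∈ F, gk N U (res C' U) + 2 * Q.card
      = ∑ U ∈ F, (2 * K + 1) * gk N U (res C' U) + 2 * Q.card := by rw [Finset.mul_sum]
    _ ≤ ∑ U ∈ F, (2 * U.card + (if Typ N K U (res C' U) then gk N U (res C' U) else 0)) +
        2 * Q.card := Nat.add_le_add_right (Finset.sum_le_sum h1) _
    _ = 2 * ((A \ Q).card + Q.card) + ∑ U ∈ exc N K C' F, gk N U (res C' U) := by
        rw [Finset.sum_add_distrib, ← Finset.mul_sum, ← hF.card, h3]; ring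
    _ = _ := by rw [h2]

/-- The deletion principle: `Y0` hits all star sets meeting `Q`; the exceptional components in `T`
are touched by `Y0 ∪ E`. -/
lemma VS0.count (h : VS0 N K A C) {Y0 E : Finset V} (hF : Comps N (A \ Q) F)
    (hQ : ∀ S ∈ C, ¬ Hit N Y0 S → Disjoint S Q) (hQne : Q.Nonempty) (hQA : Q ⊆ A)
    (hY0 : Y0 ⊆ A) (hE : E ⊆ A)
    {T : Finset (Finset V)} (hT : ∀ U ∈ T, U ∈ exc N K (far N C Y0) F ∧
      ∃ e ∈ Y0 ∪ E, ∃ x ∈ U, x ∈ N e) :
    gk N A C + T.card ≤ Y0.card + E.card + ∑ U ∈ F, gk N U (res (far N C Y0) U) := by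
  classical
  have hsysf : Sys N K A (far N C Y0) := h.sys.of_subset far_sub
  have h0 : ∀ U : Finset V, ∃ D, D ⊆ U ∧ Kills N D (res (far N C Y0) U) ∧
      D.card = gk N U (res (far N C Y0) U) :=
    fun U => exists_gk h.refl (hsysf.res).sub (fun S hSC => (hsysf.res (B := U)).nonempty hSC)
  choose D1 hD1 hD1k hD1c using h0
  have hss : ∀ U ∈ F, U ⊂ A := fun U hU => Finset.ssubset_of_subset_of_ssubset (hF.cl U hU).1
      (Finset.sdiff_ssubset hQA hQne)
  have h2 : ∀ U : Finset V, ∃ D : Finset V, U ∈ T → D ⊆ U ∧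
      (∀ S ∈ res (far N C Y0) U, Hit N (Y0 ∪ E) S ∨ Hit N D S) ∧
      D.card + 1 ≤ gk N U (res (far N C Y0) U) := by
    intro U
    by_cases hU : U ∈ T
    · obtain ⟨hUe, e, he, x, hx, hxe⟩ := hT U hU
      obtain ⟨hUF, hUt⟩ := mem_exc.1 hUe
      obtain ⟨D, d1, d2, d3⟩ := crit h.refl h.symm (hsysf.res (B := U))
        (fun A' hA' C'' hC'' => h.hE A' (hA'.trans (hss U hUF)) C''
          (hC''.trans ((Finset.filter_subset _ _).trans far_sub))) hUt hx
      refine ⟨D, fun _ => ⟨d1, ?_, d3⟩⟩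
      intro S hSC
      by_cases hxS : x ∈ S
      · exact Or.inl ⟨e, he, x, hxS, hxe⟩
      · refine Or.inr (d2 S (mem_res.2 ⟨hSC, fun y hy => Finset.mem_erase.2 ⟨?_,
          (mem_res.1 hSC).2 hy⟩⟩))
        rintro rfl
        exact hxS hy
    · exact ⟨∅, fun hc => absurd hc hU⟩
  choose D2 hD2 using h2
  have h3 := gk_le_union (C' := C) (Y := Y0 ∪ E) hF h.sys Finset.sdiff_subset
    (Finset.union_subset hY0 hE) (Finset.Subset.refl _)
    (fun U => if U ∈ T then D2 U else D1 U)
    (fun U hU => by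
      have hUA : U ⊆ A := (hss U hU).1
      by_cases hUT : U ∈ T
      · simp only [hUT, if_true]; exact ((hD2 U hUT).1).trans hUA
      · simp only [hUT, if_false]; exact (hD1 U).trans hUA)
    (fun S hSC hSB => by
      by_contra hnh
      apply hSB
      have hn0 : ¬ Hit N Y0 S := fun hh => hnh (hh.mono Finset.subset_union_left)
      intro x hx
      exact Finset.mem_sdiff.2 ⟨h.sys.sub S hSC hx,
        Finset.disjoint_left.1 (hQ S hSC hn0) hx⟩)
    (fun U hU S hSC hSU => by
      by_cases hn0 : Hit N Y0 S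
      · exact Or.inl (hn0.mono Finset.subset_union_left)
      · have hm : S ∈ res (far N C Y0) U := mem_res.2 ⟨mem_far.2 ⟨hSC, hn0⟩, hSU⟩
        by_cases hUT : U ∈ T
        · simp only [hUT, if_true]
          exact (hD2 U hUT).2.1 S hm
        · simp only [hUT, if_false]
          exact Or.inr (hD1k U S hm))
  have hTF : T ⊆ F := fun U hU => (mem_exc.1 (hT U hU).1).1
  have h4 : ∑ U ∈ F, (if U ∈ T then D2 U else D1 U).card + T.card ≤
      ∑ U ∈ F, gk N U (res (far N C Y0) U) := by
    have h5 : T.card = ∑ U ∈ F, (if U ∈ T then 1 else 0) := by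
      rw [← Finset.card_filter]
      congr 1
      ext U
      rw [Finset.mem_filter]
      exact ⟨fun hU => ⟨hTF hU, hU⟩, fun hU => hU.2⟩
    rw [h5, ← Finset.sum_add_distrib]
    apply Finset.sum_le_sum
    intro U hU
    by_cases hUT : U ∈ T
    · simp only [hUT, if_true]; exact (hD2 U hUT).2.2
    · simp only [hUT, if_false]; rw [hD1c U]; omega
  have h5 := Finset.card_union_le Y0 E
  omega

/-- An exceptional component for the star sets far from `z` contains no neighbour of `z`. -/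
lemma VS0.exc_far (h : VS0 N K A C) {z : V} (hF : Comps N (A \ Q) F) (hQne : Q.Nonempty)
    (hQA : Q ⊆ A) {U : Finset V} (hU : U ∈ exc N K (far N C {z}) F) :
    (∀ x ∈ U, x ∉ N z) ∧ res (far N C {z}) U = res C U ∧ Typ N K U (res C U) := by
  have hsysf : Sys N K A (far N C {z}) := h.sys.of_subset far_sub
  obtain ⟨hUF, hUt⟩ := mem_exc.1 hU
  have hss : U ⊂ A := Finset.ssubset_of_subset_of_ssubset (hF.cl U hUF).1
    (Finset.sdiff_ssubset hQA hQne)
  have h1 : ∀ x ∈ U, x ∉ N z := by
    intro x hx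
    obtain ⟨S, hS, hxS⟩ := typ_full h.refl h.symm (hsysf.res (B := U))
      (fun A' hA' C'' hC'' => h.hE A' (hA'.trans hss) C''
        (hC''.trans ((Finset.filter_subset _ _).trans far_sub))) hUt hx
    exact not_hit_one (mem_far.1 (mem_res.1 hS).1).2 hxS
  have h2 : res (far N C {z}) U = res C U := by
    ext S
    rw [mem_res, mem_res, mem_far]
    constructor
    · rintro ⟨⟨h3, _⟩, h4⟩
      exact ⟨h3, h4⟩
    · rintro ⟨h3, h4⟩
      refine ⟨⟨h3, ?_⟩, h4⟩
      rintro ⟨e, he, x, hx, hxe⟩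
      rw [Finset.mem_singleton] at he
      subst he
      exact h1 x (h4 hx) hxe
  exact ⟨h1, h2, h2 ▸ hUt⟩

/-- CUT: no vertex of a minimal violator cuts off an exceptional set. -/
theorem VS0.cut (h : VS0 N K A C) (hex : (2 * K + 1) * gk N A C = 2 * A.card + 1) {v : V}
    (hv : v ∈ A) {U : Finset V} (hU : Conn N U) (hcl : Closed N U (A \ {v}))
    (hT : Typ N K U (res C U)) : False := by
  classical
  obtain ⟨F, hF⟩ := exists_comps (N := N) h.symm (A \ {v})
  have hUF : U ∈ F := hF.mem_of hU hcl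
  have hvA : ({v} : Finset V) ⊆ A := Finset.singleton_subset_iff.2 hv
  have hvn : ({v} : Finset V).Nonempty := Finset.singleton_nonempty v
  have hsysf : Sys N K A (far N C {v}) := h.sys.of_subset far_sub
  -- the neighbours of `v`
  have hadj : ∀ W ∈ F, ∃ x ∈ W, x ∈ N v := by
    intro W hW
    obtain ⟨z, hz, x, hx, hxz⟩ := hF.adj h.symm h.conn hvA hvn hW
    rw [Finset.mem_singleton] at hz
    subst hz
    exact ⟨x, hx, hxz⟩
  have hno : exc N K (far N C {v}) F = ∅ := by
    rw [Finset.eq_empty_iff_forall_notMem]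
    intro W hW
    obtain ⟨x, hx, hxv⟩ := hadj W (mem_exc.1 hW).1
    exact (h.exc_far hF hvn hvA hW).1 x hx hxv
  have hQ : ∀ S ∈ C, ¬ Hit N {v} S → Disjoint S {v} := by
    intro S _ hn
    rw [Finset.disjoint_singleton_right]
    exact fun hvS => not_hit_one hn hvS (h.refl v)
  have hcnt := h.count hF hQ hvn hvA hvA (Finset.empty_subset A) (T := ∅)
    (fun W hW => absurd hW (Finset.notMem_empty W))
  rw [Finset.card_empty, Finset.card_empty, Finset.card_singleton] at hcnt
  -- the far value of `U` drops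
  have hss : ∀ W ∈ F, W ⊂ A := fun W hW => Finset.ssubset_of_subset_of_ssubset (hF.cl W hW).1
    (Finset.sdiff_ssubset hvA hvn)
  have hdrop : gk N U (res (far N C {v}) U) + 1 ≤ gk N U (res C U) := by
    obtain ⟨x, hx, hxv⟩ := hadj U hUF
    obtain ⟨D, d1, d2, d3⟩ := crit h.refl h.symm (h.sys.res (B := U))
      (fun A' hA' C'' hC'' => h.hE A' (hA'.trans (hss U hUF)) C''
        (hC''.trans (Finset.filter_subset _ _))) hT hx
    have : gk N U (res (far N C {v}) U) ≤ D.card := gk_le d1 (fun S hS => by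
      have hS' := mem_res.1 hS
      have hS'' := mem_far.1 hS'.1
      refine d2 S (mem_res.2 ⟨mem_res.2 ⟨hS''.1, hS'.2⟩, fun y hy => Finset.mem_erase.2
        ⟨?_, hS'.2 hy⟩⟩)
      rintro rfl
      exact not_hit_one hS''.2 hy hxv)
    omega
  have hval := typ_val hT
  have hU' : (2 * K + 1) * gk N U (res (far N C {v}) U) + (2 * K - 1) ≤ 2 * U.card := by
    have h1 : (2 * K + 1) * (gk N U (res (far N C {v}) U) + 1) ≤
        (2 * K + 1) * gk N U (res C U) := Nat.mul_le_mul_left _ hdrop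
    have h2 : gk N U (res C U) ≤ 2 := by
      rcases hT with ⟨_, h2⟩ | ⟨_, h2⟩ <;> omega
    rw [Nat.mul_add, Nat.mul_one] at h1
    have := h.two
    omega
  have hother : ∀ W ∈ F, (2 * K + 1) * gk N W (res (far N C {v}) W) ≤ 2 * W.card := by
    intro W hW
    apply bd_exc (h.hE W (hss W hW) _ ((Finset.filter_subset _ _).trans far_sub)
      (hsysf.res) (hF.conn W hW))
    intro hT'
    have : W ∈ exc N K (far N C {v}) F := mem_exc.2 ⟨hW, hT'⟩
    rw [hno] at this
    exact absurd this (Finset.notMem_empty W)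
  have hsum : (2 * K + 1) * ∑ W ∈ F, gk N W (res (far N C {v}) W) + (2 * K - 1) ≤
      2 * (A \ {v}).card := by
    rw [hF.card, Finset.mul_sum, Finset.mul_sum, ← Finset.sum_erase_add F _ hUF,
      ← Finset.sum_erase_add F (fun W => 2 * W.card) hUF]
    have := Finset.sum_le_sum (fun W (hW : W ∈ F.erase U) =>
      hother W (Finset.mem_of_mem_erase hW))
    omega
  have hc : (A \ {v}).card + 1 = A.card := by
    have := Finset.card_sdiff_add_card_eq_card hvA
    rwa [Finset.card_singleton] at this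
  have h6 : (2 * K + 1) * gk N A C ≤
      (2 * K + 1) * (1 + 0 + ∑ U ∈ F, gk N U (res (far N C {v}) U)) := Nat.mul_le_mul_left _ hcnt
  have h7 : (2 * K + 1) * (1 + 0 + ∑ U ∈ F, gk N U (res (far N C {v}) U)) =
      (2 * K + 1) + (2 * K + 1) * ∑ U ∈ F, gk N U (res (far N C {v}) U) := by ring
  have := h.two
  omega

/-- Two vertices of `R` touch an exceptional component. -/
lemma VS0.two_touch (h : VS0 N K A C) (hex : (2 * K + 1) * gk N A C = 2 * A.card + 1)
    {z : V} {R : Finset V} (hz : z ∈ A) (hR : R ⊆ A)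
    (hF : Comps N (A \ insert z R) F) {U : Finset V}
    (hU : U ∈ exc N K (far N C {z}) F) :
    ∃ r ∈ R, ∃ r' ∈ R, r ≠ r' ∧ (∃ x ∈ U, x ∈ N r) ∧ ∃ x ∈ U, x ∈ N r' := by
  classical
  have hQA : insert z R ⊆ A := Finset.insert_subset hz hR
  have hQn : (insert z R).Nonempty := Finset.insert_nonempty z R
  obtain ⟨h1, h2, h3⟩ := h.exc_far hF hQn hQA hU
  have hUF := (mem_exc.1 hU).1
  have hout : ∀ x ∈ U, ∀ y ∈ A, y ∉ U → y ∈ N x → y ∈ R := by
    intro x hx y hy hyU hyx
    by_contra hyR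
    have hyz : y ≠ z := by
      rintro rfl
      exact h1 x hx (h.symm _ _ hyx)
    exact hyU ((hF.cl U hUF).2 x hx y (Finset.mem_sdiff.2 ⟨hy, fun hh => by
      rcases Finset.mem_insert.1 hh with hh | hh
      · exact hyz hh
      · exact hyR hh⟩) hyx)
  have hUA : U ⊆ A := (hF.cl U hUF).1.trans Finset.sdiff_subset
  have hUne : U ≠ A := by
    rintro rfl
    exact (Finset.mem_sdiff.1 ((hF.cl _ hUF).1 hz)).2 (Finset.mem_insert_self _ _)
  obtain ⟨x, hx, r, hr, hrU, hrx⟩ := h.conn.2 U hUA (hF.conn U hUF).1 hUne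
  have hrR := hout x hx r hr hrU hrx
  by_contra hcon
  push Not at hcon
  apply h.cut hex hr (hF.conn U hUF) (U := U) ?_ h3
  refine ⟨fun y hy => Finset.mem_sdiff.2 ⟨hUA hy, ?_⟩, ?_⟩
  · rw [Finset.mem_singleton]
    rintro rfl
    exact hrU hy
  · intro a ha y hy hya
    by_contra hyU
    rw [Finset.mem_sdiff, Finset.mem_singleton] at hy
    have hyR := hout a ha y hy.1 hyU hya
    exact hcon r hrR y hyR (fun hh => hy.2 hh.symm) ⟨x, hx, h.symm _ _ hrx⟩ a ha
      (h.symm _ _ hya)

open Classical in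
/-- The structure around a vertex `z` and a set `R` of at most `2K - 1` neighbours. -/
theorem VS0.deg (h : VS0 N K A C) (hex : (2 * K + 1) * gk N A C = 2 * A.card + 1)
    {z : V} {R : Finset V} (hz : z ∈ A) (hR : R ⊆ A) (hRz : ∀ r ∈ R, r ∈ N z) (hzR : z ∉ R)
    (hcard : R.card ≤ 2 * K - 1) (hF : Comps N (A \ insert z R) F) :
    gk N A C = ∑ U ∈ F, gk N U (res (far N C {z}) U) + 1 ∧
    2 * R.card + 2 ≤ 2 * K + ∑ U ∈ exc N K (far N C {z}) F, gk N U (res (far N C {z}) U) ∧
    2 * (exc N K (far N C {z}) F).card ≤ R.card ∧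
    (∀ r ∈ R, ((exc N K (far N C {z}) F).filter (fun U => ∃ x ∈ U, x ∈ N r)).card ≤ 1) := by
  classical
  have hQA : insert z R ⊆ A := Finset.insert_subset hz hR
  have hQn : (insert z R).Nonempty := Finset.insert_nonempty z R
  have hzA : ({z} : Finset V) ⊆ A := Finset.singleton_subset_iff.2 hz
  have hQ : ∀ S ∈ C, ¬ Hit N {z} S → Disjoint S (insert z R) := by
    intro S _ hn
    rw [Finset.disjoint_right]
    intro x hx hxS
    rcases Finset.mem_insert.1 hx with rfl | hx
    · exact not_hit_one hn hxS (h.refl x)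
    · exact not_hit_one hn hxS (hRz x hx)
  set X := exc N K (far N C {z}) F with hX
  set s := ∑ U ∈ F, gk N U (res (far N C {z}) U) with hs
  have hacc := h.acc hQn hQA hF (C' := far N C {z}) far_sub
  rw [← hX, ← hs, Finset.card_insert_of_notMem hzR] at hacc
  have hcnt := h.count hF hQ hQn hQA hzA (Finset.empty_subset A) (T := ∅)
    (fun W hW => absurd hW (Finset.notMem_empty W))
  rw [Finset.card_empty, Finset.card_empty, Finset.card_singleton, ← hs] at hcnt
  obtain ⟨j, hj⟩ : ∃ j, s + 1 = gk N A C + j := Nat.exists_eq_add_of_le (by omega)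
  -- each `r` touches at most `1 + j`
  have hone : ∀ r ∈ R, (X.filter (fun U => ∃ x ∈ U, x ∈ N r)).card ≤ 1 + j := by
    intro r hr
    have hcr := h.count hF hQ hQn hQA hzA (Finset.singleton_subset_iff.2 (hR hr))
      (T := X.filter (fun U => ∃ x ∈ U, x ∈ N r))
      (fun U hU => by
        obtain ⟨h1, x, hx, hxr⟩ := Finset.mem_filter.1 hU
        exact ⟨h1, r, by simp, x, hx, hxr⟩)
    rw [Finset.card_singleton, Finset.card_singleton, ← hs] at hcr
    omega
  have htwo : 2 * X.card ≤ R.card * (1 + j) := by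
    have h1 : ∀ U ∈ X, 2 ≤ (R.filter (fun r => ∃ x ∈ U, x ∈ N r)).card := by
      intro U hU
      obtain ⟨r, hr, r', hr', hne, h3, h4⟩ := h.two_touch hex hz hR hF hU
      have h5 : ({r, r'} : Finset V) ⊆ R.filter (fun r => ∃ x ∈ U, x ∈ N r) := by
        intro y hy
        rcases Finset.mem_insert.1 hy with rfl | hy
        · exact Finset.mem_filter.2 ⟨hr, h3⟩
        · rw [Finset.mem_singleton.1 hy]
          exact Finset.mem_filter.2 ⟨hr', h4⟩
      have := Finset.card_le_card h5
      rwa [Finset.card_pair hne] at this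
    have h2 : ∑ r ∈ R, (X.filter (fun U => ∃ x ∈ U, x ∈ N r)).card =
        ∑ U ∈ X, (R.filter (fun r => ∃ x ∈ U, x ∈ N r)).card := by
      simp only [Finset.card_filter]
      exact Finset.sum_comm
    calc 2 * X.card = ∑ U ∈ X, 2 := by rw [Finset.sum_const, smul_eq_mul, Nat.mul_comm]
      _ ≤ ∑ U ∈ X, (R.filter (fun r => ∃ x ∈ U, x ∈ N r)).card := Finset.sum_le_sum h1
      _ = ∑ r ∈ R, (X.filter (fun U => ∃ x ∈ U, x ∈ N r)).card := h2.symm
      _ ≤ ∑ r ∈ R, (1 + j) := Finset.sum_le_sum hone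
      _ = R.card * (1 + j) := by rw [Finset.sum_const, smul_eq_mul]
  have hw : ∑ U ∈ X, gk N U (res (far N C {z}) U) ≤ 2 * X.card := by
    rw [Nat.mul_comm, ← smul_eq_mul, ← Finset.sum_const]
    apply Finset.sum_le_sum
    intro U hU
    rcases (mem_exc.1 hU).2 with ⟨_, h1⟩ | ⟨_, h1⟩ <;> omega
  have hK := h.two
  have h8 : (2 * K + 1) * s + (2 * K + 1) = (2 * K + 1) * gk N A C + (2 * K + 1) * j := by
    rw [← Nat.mul_add, ← hj]; ring
  have hj0 : j = 0 := by
    by_contra hjne
    obtain ⟨m, hm⟩ : ∃ m, 2 * K + 1 = R.card + m := Nat.exists_eq_add_of_le (by omega)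
    have h9 : (2 * K + 1) * j = R.card * j + m * j := by rw [hm]; ring
    have h10 : m ≤ m * j := Nat.le_mul_of_pos_right _ (Nat.pos_of_ne_zero hjne)
    have h11 : R.card * (1 + j) = R.card + R.card * j := by ring
    omega
  subst hj0
  refine ⟨by omega, by omega, by omega, ?_⟩
  intro r hr
  have := hone r hr
  omega

/-- Degrees are at most `2K - 2`. -/
theorem VS0.deg_le (h : VS0 N K A C) (hex : (2 * K + 1) * gk N A C = 2 * A.card + 1)
    {z : V} (hz : z ∈ A) : ((N z ∩ A).erase z).card ≤ 2 * K - 2 := by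
  classical
  by_contra hcon
  push Not at hcon
  have hK := h.two
  obtain ⟨R, hRs, hRc⟩ := Finset.exists_subset_card_eq (s := (N z ∩ A).erase z)
    (n := 2 * K - 1) (by omega)
  obtain ⟨F, hF⟩ := exists_comps (N := N) h.symm (A \ insert z R)
  have hR : ∀ r ∈ R, r ≠ z ∧ r ∈ N z ∧ r ∈ A := by
    intro r hr
    have h1 := Finset.mem_erase.1 (hRs hr)
    have h2 := Finset.mem_inter.1 h1.2
    exact ⟨h1.1, h2.1, h2.2⟩
  obtain ⟨h1, h2, h3, h4⟩ := h.deg hex hz (fun r hr => (hR r hr).2.2)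
    (fun r hr => (hR r hr).2.1) (fun hh => (hR z hh).1 rfl) (by omega) hF
  have hw : ∑ U ∈ exc N K (far N C {z}) F, gk N U (res (far N C {z}) U) ≤
      2 * (exc N K (far N C {z}) F).card := by
    rw [Nat.mul_comm, ← smul_eq_mul, ← Finset.sum_const]
    apply Finset.sum_le_sum
    intro U hU
    rcases (mem_exc.1 hU).2 with ⟨_, h1⟩ | ⟨_, h1⟩ <;> omega
  omega

end

end Pool.Agent.Star.Rig
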